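import Pool.Agent.H414.MX.Fin
import Pool.Agent.H414.MX.Modif

/-!
Project MX: the sets of the primes with a given small trace can be arbitrary sparse sets.
-/

set_option autoImplicit false

namespace Pool.Agent.H414.MX

open Finset
open Pool.Agent.H414.LT (primesUpTo blk kk U two_le_kk mem_blk)
open Pool.Agent.H414.DF (e2)

/-- Let `b p` be integers such that only `C 2 ^ (k (1 / 2 + ε))` primes of the block `k` have `|b p| ≤ k`. Then there
is a system with all the bounds which has the value `t` at the same primes of the block `k` as `b`, for all `|t| ≤ k`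
and all large `k`. -/
theorem anySets (hCON : ∀ f : ℕ → ℤ → ℕ,
      (∀ k, ((∑ t ∈ T k, f k t : ℕ) : ℝ) ≤ e2 (k * (3 / 4 - 1 / 4))) →
      ∀ (μ : ℕ → ℤ → ℝ) (c : ℕ → ℕ → ℂ), IsRef μ → (∀ i p, ‖c i p‖ ≤ 1) →
      ∃ a : ℕ → ℤ, IsSystem a ∧ HasBound μ c a ∧
      ∃ k₁ : ℕ, ∀ k, k₁ ≤ k → ∀ t ∈ T k, ((blk k).filter fun p => a p = t).card = f k t)
    (μ : ℕ → ℤ → ℝ) (hμ : IsRef μ) (c : ℕ → ℕ → ℂ) (hc : ∀ i p, ‖c i p‖ ≤ 1) (b : ℕ → ℤ)
    (hb : ∀ ε : ℝ, 0 < ε → ∃ C : ℝ, ∀ k : ℕ,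
      (((blk k).filter fun p => b p ∈ box (k ^ 2)).card : ℝ) ≤ C * e2 (k * (1 / 2 + ε))) :
    ∃ a : ℕ → ℤ, IsSystem a ∧ HasBound μ c a ∧
      ∃ k₁ : ℕ, ∀ k, k₁ ≤ k → ∀ p ∈ blk k, ∀ t ∈ box (k ^ 2), a p = t ↔ b p = t := by
  obtain ⟨a, ha, hB, k₁, hk₁⟩ := hCON (fun _ _ => 0)
    (fun k => by simpa using (Modif.e2_pos _).le) μ c hμ hc
  obtain ⟨a', ha'⟩ : ∃ a' : ℕ → ℤ, ∀ p, a' p =
      if k₁ ≤ kk p ∧ b p ∈ box (kk p ^ 2) then b p else a p := ⟨_, fun _ => rfl⟩
  have hsys : IsSystem a' := by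
    intro p hp
    rw [ha' p]
    split_ifs with h
    · have h2 := (two_le_kk hp.two_le).1
      have h3 : kk p ^ 2 ≤ 4 * p := by
        have h4 : kk p < 2 ^ kk p := Nat.lt_two_pow_self
        have h5 : ∀ k : ℕ, k ^ 2 ≤ 4 * 2 ^ k := by
          intro k
          by_cases hk : 6 ≤ k
          · have := Modif.sq_le_two_pow k hk
            nlinarith
          · interval_cases k <;> norm_num
        have h6 := h5 (kk p)
        omega
      have h7 := h.2
      rw [Modif.mem_box] at h7 ⊢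
      have h8 : Nat.sqrt (kk p ^ 2) ≤ Nat.sqrt (4 * p) := Nat.sqrt_le_sqrt h3
      have h9 : (Nat.sqrt (kk p ^ 2) : ℤ) ≤ (Nat.sqrt (4 * p) : ℤ) := by exact_mod_cast h8
      constructor <;> omega
    · exact ha p hp
  refine ⟨a', hsys, ?_, k₁, ?_⟩
  · refine Modif.bound μ c a a' hc ha hsys hB ?_
    intro ε hε
    refine Modif.count a a' (fun k => ((blk k).filter fun p => b p ∈ box (k ^ 2)).card) k₁
      ?_ ?_ ?_ ε hε
    · intro p hp
      rw [ha' p, if_neg (by omega)]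
    · intro k hk
      refine card_le_card fun p hp => ?_
      rw [mem_filter] at hp ⊢
      refine ⟨hp.1, ?_⟩
      have hpk := (mem_blk.1 hp.1).2
      by_contra hcon
      apply hp.2
      rw [ha' p, if_neg]
      rintro ⟨_, h2⟩
      rw [hpk] at h2
      exact hcon h2
    · intro ε hε
      obtain ⟨C, hC⟩ := hb ε hε
      refine ⟨|C|, abs_nonneg _, fun k _ => ?_⟩
      exact (hC k).trans (mul_le_mul_of_nonneg_right (le_abs_self C) (Modif.e2_pos _).le)
  · intro k hk p hp t ht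
    have hpk := (mem_blk.1 hp).2
    have h0 : a p ≠ t := by
      intro h
      have h1 := hk₁ k hk t ht
      rw [card_eq_zero] at h1
      have h2 : p ∈ (blk k).filter fun p => a p = t := mem_filter.2 ⟨hp, h⟩
      rw [h1] at h2
      exact absurd h2 (notMem_empty p)
    rw [ha' p, hpk]
    by_cases hbp : b p ∈ box (k ^ 2)
    · rw [if_pos ⟨hk, hbp⟩]
    · rw [if_neg (fun h => hbp h.2)]
      constructor
      · intro h
        exact absurd h h0
      · intro h
        rw [h] at hbp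
        exact absurd ht hbp

end Pool.Agent.H414.MX
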