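import Pool.Agent.H414.MX.Spec

set_option autoImplicit false

namespace Pool.Agent.H414.MX

open Finset
open Pool.Agent.H414.LT (primesUpTo blk kk U)
open Pool.Agent.H414.DF (e2)

namespace Bias

theorem norm_ee (x : ℝ) : ‖ee x‖ = 1 := by
  have h : (2 * Real.pi * x * Complex.I : ℂ) = ((2 * Real.pi * x : ℝ) : ℂ) * Complex.I := by
    push_cast
    ring
  rw [ee, h, Complex.norm_exp_ofReal_mul_I]

theorem sq_le_of_mem_box {m : ℕ} {t : ℤ} (h : t ∈ box m) : t ^ 2 ≤ (m : ℤ) := by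
  rw [box, mem_Icc] at h
  have h1 : |t| ≤ (Nat.sqrt m : ℤ) := abs_le.2 h
  have h2 : t ^ 2 ≤ (Nat.sqrt m : ℤ) ^ 2 := sq_le_sq' (by linarith [h.1]) h.2
  have h3 : (Nat.sqrt m) ^ 2 ≤ m := Nat.sqrt_le' m
  have h4 : ((Nat.sqrt m : ℤ)) ^ 2 ≤ (m : ℤ) := by exact_mod_cast h3
  linarith

end Bias

open Bias

theorem bias (hUNF : S_UNF) (hSIZ : S_SIZ) (hDIF : S_DIF) (hPHS : S_PHS) (hPHM : S_PHM) (hFOU : S_FOU) :
    S_BIAS := by
  obtain ⟨k1, h1⟩ := hUNF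
  obtain ⟨k2, h2⟩ := hSIZ
  obtain ⟨C3, k3, hC3, h3⟩ := hPHS
  obtain ⟨C4, k4, hC4, h4⟩ := hPHM
  refine ⟨C3 + C4 + 2, max (max k1 k2) (max k3 k4), by positivity, ?_⟩
  intro k n p q _ t G hk hp ht
  have hk1 : k1 ≤ k := (le_max_left _ _).trans ((le_max_left _ _).trans hk)
  have hk2 : k2 ≤ k := (le_max_right _ _).trans ((le_max_left _ _).trans hk)
  have hk3 : k3 ≤ k := (le_max_left _ _).trans ((le_max_right _ _).trans hk)
  have hk4 : k4 ≤ k := (le_max_right _ _).trans ((le_max_right _ _).trans hk)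
  obtain ⟨h, hh, hs⟩ := hFOU q G
  have hq : 1 ≤ q := Nat.one_le_iff_ne_zero.2 (NeZero.ne q)
  have hX0 : 0 ≤ ((n : ℝ) + 1) * (q : ℝ) ^ (3 / 2 : ℝ) * e2 (-(k / 4)) := by
    unfold e2
    positivity
  have hp' : p.Prime ∧ kk p = k := (Pool.Agent.H414.LT.mem_blk).1 hp
  have hpk : 2 ^ k < p := by
    have := hp
    rw [Pool.Agent.H414.LT.blk] at this
    simp only [mem_filter, mem_Ioc] at this
    omega
  have ht2 : t ^ 2 ≤ (p : ℤ) := by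
    have ht1 : t ∈ box (2 ^ k) := (h2 k hk2).2.2.2.2.2.2.2.1 ht
    have ht3 := sq_le_of_mem_box ht1
    have : ((2 ^ k : ℕ) : ℤ) < p := by exact_mod_cast hpk
    linarith
  have hU : |U n (nt p t)| ≤ 2 := (hDIF n p hp'.1.one_lt.le).1 t ht2
  have key : ∀ β ∈ range q,
      ‖∑ b ∈ box (2 ^ k), (kap k t b : ℂ) * ((U n (nt p b) : ℂ) * ee ((β : ℝ) * b / q))‖ ≤
        (C3 + C4 + 2) * (k + 1) ^ 2 * (((n : ℝ) + 1) * (q : ℝ) ^ (3 / 2 : ℝ) * e2 (-(k / 4))) := by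
    intro β hβ
    have hβ' : β < q := mem_range.1 hβ
    rw [h1 k hk1 t ht (fun b => (U n (nt p b) : ℂ) * ee ((β : ℝ) * b / q))]
    have hkk : (1 : ℝ) ≤ ((k : ℝ) + 1) ^ 2 := by
      have : (0 : ℝ) ≤ k := Nat.cast_nonneg k
      nlinarith
    rcases le_or_gt (((n : ℝ) + 1) * (q : ℝ) ^ (3 / 2 : ℝ)) (e2 (k / 4)) with hc | hc
    · refine (h3 k n p q β t hk3 hp ht hq hβ' hc).trans ?_
      have e1 : C3 * (((n : ℝ) + 1) * (q : ℝ) ^ (3 / 2 : ℝ) * e2 (-(k / 4))) ≤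
          (C3 + C4 + 2) * (((n : ℝ) + 1) * (q : ℝ) ^ (3 / 2 : ℝ) * e2 (-(k / 4))) :=
        mul_le_mul_of_nonneg_right (by linarith) hX0
      refine e1.trans (mul_le_mul_of_nonneg_right ?_ hX0)
      nlinarith
    · have hX1 : 1 ≤ ((n : ℝ) + 1) * (q : ℝ) ^ (3 / 2 : ℝ) * e2 (-(k / 4)) := by
        have e1 : e2 ((k : ℝ) / 4) * e2 (-((k : ℝ) / 4)) = 1 := by
          unfold e2
          rw [← Real.rpow_add (by norm_num)]
          simp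
        have e2p : (0 : ℝ) ≤ e2 (-((k : ℝ) / 4)) := by
          unfold e2
          positivity
        calc (1 : ℝ) = e2 ((k : ℝ) / 4) * e2 (-((k : ℝ) / 4)) := e1.symm
          _ ≤ _ := mul_le_mul_of_nonneg_right hc.le e2p
      have e3 := h4 k n p q β t hk4 hp ht hq hβ' hc
      have e4 : ‖(U n (nt p t) : ℂ) * ee ((β : ℝ) * t / q)‖ ≤ 2 := by
        rw [norm_mul, norm_ee, mul_one, Complex.norm_real]
        exact hU
      refine (norm_sub_le _ _).trans ((add_le_add e4 e3).trans ?_)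
      have e5 : (2 : ℝ) ≤ 2 * (((k : ℝ) + 1) ^ 2 *
          (((n : ℝ) + 1) * (q : ℝ) ^ (3 / 2 : ℝ) * e2 (-(k / 4)))) := by
        have := one_le_mul_of_one_le_of_one_le hkk hX1
        linarith
      have e6 : 0 ≤ C3 * (((k : ℝ) + 1) ^ 2 *
          (((n : ℝ) + 1) * (q : ℝ) ^ (3 / 2 : ℝ) * e2 (-(k / 4)))) := by positivity
      nlinarith
  have hsum : ∑ b ∈ box (2 ^ k), (kap k t b : ℂ) * ((U n (nt p b) : ℂ) * G b) =
      ∑ β ∈ range q, h β *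
        ∑ b ∈ box (2 ^ k), (kap k t b : ℂ) * ((U n (nt p b) : ℂ) * ee ((β : ℝ) * b / q)) := by
    simp only [mul_sum]
    rw [sum_comm]
    refine sum_congr rfl fun b _ => ?_
    rw [hh b, mul_sum, mul_sum]
    refine sum_congr rfl fun β _ => ?_
    ring
  rw [hsum]
  calc ‖∑ β ∈ range q, h β *
        ∑ b ∈ box (2 ^ k), (kap k t b : ℂ) * ((U n (nt p b) : ℂ) * ee ((β : ℝ) * b / q))‖
      ≤ ∑ β ∈ range q, ‖h β‖ *
        ((C3 + C4 + 2) * (k + 1) ^ 2 * (((n : ℝ) + 1) * (q : ℝ) ^ (3 / 2 : ℝ) * e2 (-(k / 4)))) := by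
        refine norm_sum_le_of_le _ fun β hβ => ?_
        rw [norm_mul]
        exact mul_le_mul_of_nonneg_left (key β hβ) (norm_nonneg _)
    _ = (∑ β ∈ range q, ‖h β‖) *
        ((C3 + C4 + 2) * (k + 1) ^ 2 * (((n : ℝ) + 1) * (q : ℝ) ^ (3 / 2 : ℝ) * e2 (-(k / 4)))) := by
        rw [sum_mul]
    _ ≤ l2 G *
        ((C3 + C4 + 2) * (k + 1) ^ 2 * (((n : ℝ) + 1) * (q : ℝ) ^ (3 / 2 : ℝ) * e2 (-(k / 4)))) :=
        mul_le_mul_of_nonneg_right hs (by positivity)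
    _ = _ := by ring

end Pool.Agent.H414.MX
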