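import Pool.Agent.H414.MX.Spec

/-! From `ν` to `μ` in one block (`blk' : S_BLK`), adapted from `DF/Blk.lean` (by helper538). -/

set_option autoImplicit false

namespace Pool.Agent.H414.MX

open Finset
open Pool.Agent.H414.LT (primesUpTo blk kk mem_blk two_le_kk U)
open Pool.Agent.H414.DF (e2)

namespace Blk

theorem e2_pos (x : ℝ) : 0 < e2 x := Real.rpow_pos_of_pos (by norm_num) _

theorem e2_add (x y : ℝ) : e2 (x + y) = e2 x * e2 y := Real.rpow_add (by norm_num) _ _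

theorem e2_nat (k : ℕ) : e2 (k : ℝ) = 2 ^ k := Real.rpow_natCast _ _

theorem e2_mono {x y : ℝ} (h : x ≤ y) : e2 x ≤ e2 y :=
  Real.rpow_le_rpow_of_exponent_le (by norm_num) h

theorem l2_nonneg {α : Type} [Fintype α] (G : α → ℂ) : 0 ≤ l2 G := Real.sqrt_nonneg _

theorem l2_sq {α : Type} [Fintype α] (G : α → ℂ) : l2 G ^ 2 = ∑ x, ‖G x‖ ^ 2 :=
  Real.sq_sqrt (Finset.sum_nonneg fun _ _ => sq_nonneg _)

theorem norm_le_l2 {α : Type} [Fintype α] (G : α → ℂ) (x : α) : ‖G x‖ ≤ l2 G :=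
  Real.le_sqrt_of_sq_le (Finset.single_le_sum (f := fun x => ‖G x‖ ^ 2) (fun _ _ => sq_nonneg _)
    (Finset.mem_univ x))

theorem blk_card (k : ℕ) : ((blk k).card : ℝ) ≤ 2 ^ k := by
  have h : (blk k).card ≤ 2 ^ k := by
    unfold blk
    refine (Finset.card_filter_le _ _).trans ?_
    rw [Nat.card_Ioc, pow_succ]
    omega
  exact_mod_cast h

/-- The number of the elements of a block in a residue class. -/
theorem cls_card (k q : ℕ) [NeZero q] (u : ZMod q) :
    (((blk k).filter fun p : ℕ => (p : ZMod q) = u).card : ℝ) ≤ 2 ^ (k + 1) / q + 1 := by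
  have hq : 0 < q := NeZero.pos q
  have hq' : (0 : ℚ) < q := by exact_mod_cast hq
  have h1 : ((blk k).filter fun p : ℕ => (p : ZMod q) = u) ⊆
      (Ioc (2 ^ k) (2 ^ (k + 1))).filter fun x => x ≡ u.val [MOD q] := by
    intro p hp
    rw [mem_filter] at hp ⊢
    refine ⟨(mem_filter.1 hp.1).1, ?_⟩
    rw [← ZMod.natCast_eq_natCast_iff, hp.2, ZMod.natCast_zmod_val]
  have h2 := Nat.Ioc_filter_modEq_card (2 ^ k) (2 ^ (k + 1)) hq u.val
  have h3 : ((((Ioc (2 ^ k) (2 ^ (k + 1))).filter fun x => x ≡ u.val [MOD q]).card : ℤ) : ℚ) ≤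
      2 ^ (k + 1) / q + 1 := by
    rw [h2, Int.cast_max, Int.cast_sub, Int.cast_zero]
    refine max_le ?_ (by positivity)
    have e1 := Int.floor_le ((((2 ^ (k + 1) : ℕ) : ℚ) - (u.val : ℚ)) / (q : ℚ))
    have e2 := Int.lt_floor_add_one ((((2 ^ k : ℕ) : ℚ) - (u.val : ℚ)) / (q : ℚ))
    have e3 : (((2 ^ (k + 1) : ℕ) : ℚ) - (u.val : ℚ)) / (q : ℚ) -
        (((2 ^ k : ℕ) : ℚ) - (u.val : ℚ)) / (q : ℚ) = 2 ^ k / q := by
      push_cast
      field_simp
      ring
    have e4 : (2 : ℚ) ^ k / q ≤ 2 ^ (k + 1) / q := by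
      refine div_le_div_of_nonneg_right ?_ hq'.le
      exact pow_le_pow_right₀ (by norm_num) (by omega)
    linarith
  have h4 : (((Ioc (2 ^ k) (2 ^ (k + 1))).filter fun x => x ≡ u.val [MOD q]).card : ℝ) ≤
      2 ^ (k + 1) / q + 1 := by
    have h5 := (Rat.cast_le (K := ℝ)).2 h3
    push_cast at h5
    exact h5
  refine le_trans ?_ h4
  exact_mod_cast Finset.card_le_card h1

theorem sum_sq (k q : ℕ) [NeZero q] (F : ZMod q × ZMod q → ℂ) :
    ∑ p ∈ blk k, l2 (fun α => F ((p : ZMod q), α)) ^ 2 ≤ (2 ^ (k + 1) / q + 1) * l2 F ^ 2 := by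
  have h1 : ∑ p ∈ blk k, l2 (fun α => F ((p : ZMod q), α)) ^ 2 =
      ∑ u : ZMod q, ∑ p ∈ (blk k).filter (fun p : ℕ => (p : ZMod q) = u),
        l2 (fun α => F ((p : ZMod q), α)) ^ 2 :=
    (Finset.sum_fiberwise (blk k) (fun p : ℕ => (p : ZMod q)) _).symm
  rw [h1, l2_sq, Fintype.sum_prod_type, Finset.mul_sum]
  refine Finset.sum_le_sum fun u _ => ?_
  have h2 : ∀ p ∈ (blk k).filter (fun p : ℕ => (p : ZMod q) = u),
      l2 (fun α => F ((p : ZMod q), α)) ^ 2 = ∑ α, ‖F (u, α)‖ ^ 2 := by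
    intro p hp
    rw [l2_sq, (mem_filter.1 hp).2]
  rw [Finset.sum_congr rfl h2, Finset.sum_const, nsmul_eq_mul]
  exact mul_le_mul_of_nonneg_right (cls_card k q u) (Finset.sum_nonneg fun _ _ => sq_nonneg _)

theorem sum_l2 (k q : ℕ) [NeZero q] (F : ZMod q × ZMod q → ℂ) :
    (∑ p ∈ blk k, l2 (fun α => F ((p : ZMod q), α))) ^ 2 ≤
      2 ^ k * ((2 ^ (k + 1) / q + 1) * l2 F ^ 2) := by
  refine sq_sum_le_card_mul_sum_sq.trans ?_
  exact mul_le_mul (blk_card k) (sum_sq k q F) (Finset.sum_nonneg fun _ _ => sq_nonneg _)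
    (by positivity)

theorem box_mono {m n : ℕ} (h : m ≤ n) : box m ⊆ box n := by
  unfold box
  refine Finset.Icc_subset_Icc ?_ ?_
  · have := Nat.sqrt_le_sqrt h
    omega
  · have := Nat.sqrt_le_sqrt h
    omega

/-- `k + 1` is small. -/
theorem lin_le {ε : ℝ} (hε : 0 < ε) : ∃ c : ℝ, 0 ≤ c ∧ ∀ k : ℕ, (k : ℝ) + 1 ≤ c * e2 (k * ε) := by
  set c0 : ℝ := min 1 (ε * Real.log 2) with hc0
  have hlog : 0 < Real.log 2 := Real.log_pos (by norm_num)
  have hc0' : 0 < c0 := lt_min one_pos (mul_pos hε hlog)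
  refine ⟨1 / c0, by positivity, fun k => ?_⟩
  rw [div_mul_eq_mul_div, one_mul, le_div_iff₀ hc0']
  have h1 : e2 (k * ε) = Real.exp (Real.log 2 * (k * ε)) := by
    rw [e2, Real.rpow_def_of_pos (by norm_num)]
  have h2 := Real.add_one_le_exp (Real.log 2 * (k * ε))
  rw [h1]
  have h3 : c0 ≤ 1 := min_le_left _ _
  have h4 : c0 ≤ ε * Real.log 2 := min_le_right _ _
  have h5 : (0 : ℝ) ≤ k := Nat.cast_nonneg _
  nlinarith [mul_le_mul_of_nonneg_left h4 h5]

/-- `U n (2 cos θ)` -/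
theorem U_cos (θ : ℝ) (n : ℕ) : Real.sin θ * U n (2 * Real.cos θ) = Real.sin ((n + 1) * θ) ∧
    U (n + 1) (2 * Real.cos θ) = Real.cos θ * U n (2 * Real.cos θ) + Real.cos ((n + 1) * θ) := by
  induction n with
  | zero =>
      constructor
      · simp
      · simp only [zero_add, Pool.Agent.H414.LT.U_one, Pool.Agent.H414.LT.U_zero, Nat.cast_zero]
        rw [one_mul]
        ring
  | succ n ih =>
      obtain ⟨h1, h2⟩ := ih
      have e1 : (((n + 1 : ℕ) : ℝ) + 1) * θ = ((n : ℝ) + 1) * θ + θ := by push_cast; ring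
      rw [e1, Real.sin_add, Real.cos_add]
      constructor
      · rw [h2, mul_add]
        have e2 : Real.sin θ * (Real.cos θ * U n (2 * Real.cos θ)) =
            Real.cos θ * (Real.sin θ * U n (2 * Real.cos θ)) := by ring
        rw [e2, h1]
        ring
      · rw [Pool.Agent.H414.LT.U_add_two]
        have e3 : Real.sin θ * (Real.sin θ * U n (2 * Real.cos θ)) =
            Real.sin θ * Real.sin ((n + 1) * θ) := by rw [h1]
        have e4 := Real.sin_sq_add_cos_sq θ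
        rw [h2]
        linear_combination (-1 : ℝ) * e3 + U n (2 * Real.cos θ) * e4

/-- `|U n s| ≤ n + 1` for `|s| ≤ 2` -/
theorem abs_U_le (n : ℕ) (s : ℝ) (hs : |s| ≤ 2) : |U n s| ≤ (n : ℝ) + 1 := by
  obtain ⟨h1, h2⟩ := abs_le.1 hs
  have hθ : s = 2 * Real.cos (Real.arccos (s / 2)) := by
    rw [Real.cos_arccos (by linarith) (by linarith)]
    ring
  rw [hθ]
  generalize Real.arccos (s / 2) = θ
  induction n with
  | zero => simp
  | succ n ih =>
      rw [(U_cos θ n).2]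
      push_cast
      calc |Real.cos θ * U n (2 * Real.cos θ) + Real.cos ((n + 1) * θ)|
          ≤ |Real.cos θ * U n (2 * Real.cos θ)| + |Real.cos ((n + 1) * θ)| := abs_add_le _ _
        _ ≤ 1 * |U n (2 * Real.cos θ)| + 1 := by
            rw [abs_mul]
            refine add_le_add ?_ (Real.abs_cos_le_one _)
            exact mul_le_mul_of_nonneg_right (Real.abs_cos_le_one _) (abs_nonneg _)
        _ ≤ _ := by linarith

theorem abs_nt_le {p : ℕ} (hp : p.Prime) {b : ℤ} (hb : b ∈ box (4 * p)) : |nt p b| ≤ 2 := by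
  unfold box at hb
  obtain ⟨h1, h2⟩ := Finset.mem_Icc.1 hb
  have hp0 : (0 : ℝ) < p := by exact_mod_cast hp.pos
  have hsp : 0 < √(p : ℝ) := Real.sqrt_pos.2 hp0
  unfold nt
  rw [abs_div, abs_of_pos hsp, div_le_iff₀ hsp]
  have h3 : |b| ≤ (Nat.sqrt (4 * p) : ℤ) := abs_le.2 ⟨h1, h2⟩
  have h4 : |(b : ℝ)| ≤ (Nat.sqrt (4 * p) : ℝ) := by exact_mod_cast h3
  refine h4.trans ?_
  have h5 : (Nat.sqrt (4 * p) : ℝ) ≤ √((4 * p : ℕ) : ℝ) := Real.nat_sqrt_le_real_sqrt
  refine h5.trans (le_of_eq ?_)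
  push_cast
  rw [Real.sqrt_mul (by norm_num)]
  congr 1
  rw [show (4 : ℝ) = 2 ^ 2 by norm_num, Real.sqrt_sq (by norm_num)]

end Blk

open Blk

theorem blk' (hBIAS : S_BIAS) : S_BLK := by
  intro μ δ f m k₀ C' k₁ hμ hδ hM hk01 hnu hnu1 ε hε
  obtain ⟨Cb, kb, hCb0, hCb⟩ := hBIAS
  obtain ⟨c0, hc0, hlin⟩ := lin_le (ε := ε / 3) (by positivity)
  refine ⟨2 * |C'| * Cb * c0 ^ 3 + 4 + 4 * 2 ^ kb, ?_⟩
  intro n q _ F k hk
  have hq : 0 < q := NeZero.pos q
  have hqr : (0 : ℝ) < q := by exact_mod_cast hq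
  have hq1 : (1 : ℝ) ≤ q := by exact_mod_cast hq
  have hn0 : (0 : ℝ) ≤ n := Nat.cast_nonneg n
  have hl := l2_nonneg F
  obtain ⟨A, hA⟩ : ∃ A, A = ∑ p ∈ blk k, l2 (fun α => F ((p : ZMod q), α)) := ⟨_, rfl⟩
  have hA0 : 0 ≤ A := by
    rw [hA]
    exact Finset.sum_nonneg fun _ _ => l2_nonneg _
  have hA2 := sum_l2 k q F
  rw [← hA] at hA2
  -- the trivial bound
  have htriv : ∑ p ∈ blk k, ‖∑ b ∈ box (4 * p),
      ((nu μ m k₁ p b - μ p b : ℝ) : ℂ) * ((U n (nt p b) : ℂ) * F (p, b))‖ ≤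
      2 * ((n : ℝ) + 1) * A := by
    have hterm : ∀ p ∈ blk k, ‖∑ b ∈ box (4 * p),
        ((nu μ m k₁ p b - μ p b : ℝ) : ℂ) * ((U n (nt p b) : ℂ) * F (p, b))‖ ≤
        2 * ((n : ℝ) + 1) * l2 (fun α => F ((p : ZMod q), α)) := by
      intro p hp
      obtain ⟨hpp, hkp⟩ := mem_blk.1 hp
      have e1 : ∀ b ∈ box (4 * p), ‖((nu μ m k₁ p b - μ p b : ℝ) : ℂ) *
          ((U n (nt p b) : ℂ) * F (p, b))‖ ≤
          (nu μ m k₁ p b + μ p b) * (((n : ℝ) + 1) * l2 (fun α => F ((p : ZMod q), α))) := by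
        intro b hb
        rw [norm_mul, norm_mul, Complex.norm_real, Complex.norm_real, Real.norm_eq_abs,
          Real.norm_eq_abs]
        refine mul_le_mul ?_ ?_ (by positivity)
          (add_nonneg (hnu p hpp b) (hμ.nonneg p hpp b))
        · have h1 := hnu p hpp b
          have h2 := hμ.nonneg p hpp b
          rw [abs_le]
          constructor <;> linarith
        · exact mul_le_mul (abs_U_le n _ (abs_nt_le hpp hb))
            (norm_le_l2 (fun α => F ((p : ZMod q), α)) (b : ZMod q)) (norm_nonneg _) (by positivity)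
      refine (norm_sum_le _ _).trans ((Finset.sum_le_sum e1).trans ?_)
      rw [← Finset.sum_mul, Finset.sum_add_distrib, hnu1 p hpp, hμ.sum p hpp]
      refine le_of_eq ?_
      ring
    rw [hA, Finset.mul_sum]
    exact Finset.sum_le_sum hterm
  have hE : e2 (k / 2) ≤ e2 (k * (1 / 2 + ε)) := by
    apply e2_mono
    have : (0 : ℝ) ≤ k := Nat.cast_nonneg _
    nlinarith [mul_nonneg this hε.le]
  have hEp := e2_pos (k * (1 / 2 + ε))
  have hc1 : 0 ≤ 2 * |C'| * Cb * c0 ^ 3 := by positivity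
  by_cases hkb : k < kb
  · -- small blocks
    have hA3 : A ≤ 2 * 2 ^ k * l2 F := by
      refine abs_le_of_sq_le_sq' ?_ (by positivity) |>.2
      refine hA2.trans ?_
      have h2 : (2 * 2 ^ k * l2 F) ^ 2 = 2 ^ k * ((4 * 2 ^ k) * l2 F ^ 2) := by ring
      rw [h2]
      refine mul_le_mul_of_nonneg_left ?_ (by positivity)
      refine mul_le_mul_of_nonneg_right ?_ (sq_nonneg _)
      have h3 : (2 : ℝ) ^ (k + 1) / q ≤ 2 ^ (k + 1) := div_le_self (by positivity) hq1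
      have h4 : (1 : ℝ) ≤ 2 ^ k := one_le_pow₀ (by norm_num)
      have h5 : (2 : ℝ) ^ (k + 1) = 2 * 2 ^ k := by rw [pow_succ]; ring
      linarith
    have h2k : (2 : ℝ) ^ k ≤ 2 ^ kb := pow_le_pow_right₀ (by norm_num) hkb.le
    have hE1 : 1 ≤ e2 (k * (1 / 2 + ε)) := by
      have h1 : e2 0 = 1 := by rw [e2, Real.rpow_zero]
      rw [← h1]
      apply e2_mono
      positivity
    refine htriv.trans ?_
    calc 2 * ((n : ℝ) + 1) * A ≤ 2 * ((n : ℝ) + 1) * (2 * 2 ^ k * l2 F) :=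
          mul_le_mul_of_nonneg_left hA3 (by positivity)
      _ ≤ 2 * ((n : ℝ) + 1) * (2 * 2 ^ kb * l2 F) := by
          refine mul_le_mul_of_nonneg_left ?_ (by positivity)
          refine mul_le_mul_of_nonneg_right ?_ hl
          linarith
      _ = (4 * 2 ^ kb) * ((n : ℝ) + 1) * 1 * l2 F * 1 := by ring
      _ ≤ (2 * |C'| * Cb * c0 ^ 3 + 4 + 4 * 2 ^ kb) * ((n : ℝ) + 1) * q * l2 F *
          e2 (k * (1 / 2 + ε)) := by
          refine mul_le_mul ?_ hE1 zero_le_one (by positivity)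
          refine mul_le_mul_of_nonneg_right ?_ hl
          refine mul_le_mul ?_ hq1 zero_le_one (by positivity)
          refine mul_le_mul_of_nonneg_right ?_ (by positivity)
          linarith
  rw [not_lt] at hkb
  by_cases hq3 : q ^ 3 ≤ 2 ^ (k + 1)
  · -- small moduli
    obtain ⟨D, hD⟩ : ∃ D, D = |C'| * (k + 1) * e2 (-(k / 4)) *
        (Cb * (k + 1) ^ 2 * (((n : ℝ) + 1) * (q : ℝ) ^ (3 / 2 : ℝ) * e2 (-(k / 4)))) := ⟨_, rfl⟩
    have hqp : 0 ≤ (q : ℝ) ^ (3 / 2 : ℝ) := Real.rpow_nonneg hqr.le _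
    have he4 := e2_pos (-((k : ℝ) / 4))
    have hterm : ∀ p ∈ blk k, ‖∑ b ∈ box (4 * p),
        ((nu μ m k₁ p b - μ p b : ℝ) : ℂ) * ((U n (nt p b) : ℂ) * F (p, b))‖ ≤
        D * l2 (fun α => F ((p : ZMod q), α)) := by
      intro p hp
      obtain ⟨hpp, hkp⟩ := mem_blk.1 hp
      have h2k := (two_le_kk hpp.two_le).1
      rw [hkp] at h2k
      have e1 : ∀ b, nu μ m k₁ p b - μ p b = ∑ t ∈ T k, m k t * kap k t b := by
        intro b
        unfold nu
        rw [hkp, if_pos hk]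
        ring
      have e2' : ∑ b ∈ box (4 * p), ((nu μ m k₁ p b - μ p b : ℝ) : ℂ) *
          ((U n (nt p b) : ℂ) * F (p, b)) =
          ∑ t ∈ T k, (m k t : ℂ) * ∑ b ∈ box (2 ^ k), (kap k t b : ℂ) *
            ((U n (nt p b) : ℂ) * F ((p : ZMod q), (b : ZMod q))) := by
        have e3 : ∀ b : ℤ, ((nu μ m k₁ p b - μ p b : ℝ) : ℂ) *
            ((U n (nt p b) : ℂ) * F (p, b)) =
            ∑ t ∈ T k, (m k t : ℂ) * ((kap k t b : ℂ) *
              ((U n (nt p b) : ℂ) * F ((p : ZMod q), (b : ZMod q)))) := by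
          intro b
          rw [e1 b]
          push_cast
          rw [Finset.sum_mul]
          exact Finset.sum_congr rfl fun t _ => by ring
        rw [Finset.sum_congr rfl fun b _ => e3 b, Finset.sum_comm]
        refine Finset.sum_congr rfl fun t ht => ?_
        rw [← Finset.mul_sum]
        congr 1
        symm
        refine Finset.sum_subset (box_mono (by omega)) fun b _ hb => ?_
        have h3 : kap k t b = 0 := hM.supp k (hk01.trans hk) t ht b hb
        rw [h3, Complex.ofReal_zero, zero_mul]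
      rw [e2']
      have e4 : ∀ t ∈ T k, ‖(m k t : ℂ) * ∑ b ∈ box (2 ^ k), (kap k t b : ℂ) *
            ((U n (nt p b) : ℂ) * F ((p : ZMod q), (b : ZMod q)))‖ ≤ m k t *
              ((Cb * (k + 1) ^ 2 * (((n : ℝ) + 1) * (q : ℝ) ^ (3 / 2 : ℝ) * e2 (-(k / 4)))) *
                l2 (fun α => F ((p : ZMod q), α))) := by
        intro t ht
        rw [norm_mul, Complex.norm_real, Real.norm_of_nonneg (hM.nonneg k t)]
        refine mul_le_mul_of_nonneg_left ?_ (hM.nonneg k t)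
        exact hCb k n p q t (fun α => F ((p : ZMod q), α)) hkb hp ht
      refine (norm_sum_le _ _).trans ((Finset.sum_le_sum e4).trans ?_)
      rw [← Finset.sum_mul, hD]
      rw [mul_assoc (|C'| * ((k : ℝ) + 1) * e2 (-(k / 4))) _
        (l2 (fun α => F ((p : ZMod q), α)))]
      have e5 : ∑ t ∈ T k, m k t ≤ |C'| * (k + 1) * e2 (-(k / 4)) := by
        refine (hM.sum k (hk01.trans hk)).trans ?_
        have h1 : e2 (-(k * (1 / 4 + δ))) ≤ e2 (-(k / 4)) := by
          apply e2_mono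
          have : (0 : ℝ) ≤ k := Nat.cast_nonneg _
          nlinarith [mul_nonneg this hδ.le]
        refine mul_le_mul ?_ h1 (e2_pos _).le (by positivity)
        exact mul_le_mul_of_nonneg_right (le_abs_self _) (by positivity)
      refine mul_le_mul_of_nonneg_right e5 ?_
      have := l2_nonneg (fun α => F ((p : ZMod q), α))
      positivity
    have hsum : ∑ p ∈ blk k, ‖∑ b ∈ box (4 * p),
        ((nu μ m k₁ p b - μ p b : ℝ) : ℂ) * ((U n (nt p b) : ℂ) * F (p, b))‖ ≤ D * A := by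
      rw [hA, Finset.mul_sum]
      exact Finset.sum_le_sum hterm
    -- the size of `A`
    have hA3 : A ≤ 2 * 2 ^ k * (q : ℝ) ^ (-(1 / 2) : ℝ) * l2 F := by
      refine abs_le_of_sq_le_sq' ?_ ?_ |>.2
      · refine hA2.trans ?_
        have h1 : ((q : ℝ) ^ (-(1 / 2) : ℝ)) ^ 2 = 1 / q := by
          rw [← Real.rpow_natCast, ← Real.rpow_mul hqr.le]
          norm_num
          exact Real.rpow_neg_one _
        have h2 : (2 * 2 ^ k * (q : ℝ) ^ (-(1 / 2) : ℝ) * l2 F) ^ 2 =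
            2 ^ k * (4 * 2 ^ k * (1 / q) * l2 F ^ 2) := by
          rw [mul_pow, mul_pow, h1]
          ring
        rw [h2]
        refine mul_le_mul_of_nonneg_left ?_ (by positivity)
        refine mul_le_mul_of_nonneg_right ?_ (sq_nonneg _)
        have h3 : (q : ℝ) ≤ 2 ^ (k + 1) := by
          have h4 : q ≤ q ^ 3 := Nat.le_self_pow (by norm_num) q
          exact_mod_cast h4.trans hq3
        have h5 : 1 ≤ (2 : ℝ) ^ (k + 1) / q := (one_le_div hqr).2 h3
        have h6 : 4 * (2 : ℝ) ^ k * (1 / q) = 2 * (2 ^ (k + 1) / q) := by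
          rw [pow_succ]
          ring
        rw [h6]
        linarith
      · have := Real.rpow_nonneg hqr.le (-(1 / 2) : ℝ)
        positivity
    -- the size of `D A`
    have hD2 : D * (2 * 2 ^ k * (q : ℝ) ^ (-(1 / 2) : ℝ) * l2 F) =
        2 * |C'| * Cb * (k + 1) ^ 3 * (((n : ℝ) + 1) * q * l2 F * e2 (k / 2)) := by
      have h2 : (q : ℝ) ^ (3 / 2 : ℝ) * (q : ℝ) ^ (-(1 / 2) : ℝ) = q := by
        rw [← Real.rpow_add hqr]
        norm_num
      have h3 : e2 (-((k : ℝ) / 4)) * e2 (-((k : ℝ) / 4)) * 2 ^ k = e2 (k / 2) := by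
        rw [← e2_nat, ← e2_add, ← e2_add]
        congr 1
        ring
      rw [hD, ← h3]
      calc |C'| * (k + 1) * e2 (-((k : ℝ) / 4)) *
            (Cb * (k + 1) ^ 2 * (((n : ℝ) + 1) * (q : ℝ) ^ (3 / 2 : ℝ) * e2 (-((k : ℝ) / 4)))) *
            (2 * 2 ^ k * (q : ℝ) ^ (-(1 / 2) : ℝ) * l2 F)
          = 2 * |C'| * Cb * (k + 1) ^ 3 * (((n : ℝ) + 1) *
            ((q : ℝ) ^ (3 / 2 : ℝ) * (q : ℝ) ^ (-(1 / 2) : ℝ)) * l2 F *
            (e2 (-((k : ℝ) / 4)) * e2 (-((k : ℝ) / 4)) * 2 ^ k)) := by ring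
        _ = _ := by rw [h2]
    have hA4 : 0 ≤ D := by
      rw [hD]
      positivity
    refine hsum.trans ((mul_le_mul_of_nonneg_left hA3 hA4).trans ?_)
    rw [hD2]
    have h5 : e2 (k / 2) * e2 (k * (ε / 3)) ^ 3 = e2 (k * (1 / 2 + ε)) := by
      have h6 : e2 (k * (ε / 3)) ^ 3 = e2 (k * (ε / 3) + k * (ε / 3) + k * (ε / 3)) := by
        rw [e2_add, e2_add]
        ring
      rw [h6, ← e2_add]
      congr 1
      ring
    have h6 : ((k : ℝ) + 1) ^ 3 ≤ (c0 * e2 (k * (ε / 3))) ^ 3 :=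
      pow_le_pow_left₀ (by positivity) (hlin k) 3
    have h7 := e2_pos ((k : ℝ) / 2)
    have h8 := e2_pos (k * (ε / 3))
    calc 2 * |C'| * Cb * (k + 1) ^ 3 * (((n : ℝ) + 1) * q * l2 F * e2 (k / 2))
        ≤ 2 * |C'| * Cb * (c0 * e2 (k * (ε / 3))) ^ 3 *
          (((n : ℝ) + 1) * q * l2 F * e2 (k / 2)) := by
          refine mul_le_mul_of_nonneg_right ?_ (by positivity)
          exact mul_le_mul_of_nonneg_left h6 (by positivity)
      _ = (2 * |C'| * Cb * c0 ^ 3) * ((n : ℝ) + 1) * q * l2 F * e2 (k * (1 / 2 + ε)) := by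
          rw [← h5]
          ring
      _ ≤ (2 * |C'| * Cb * c0 ^ 3 + 4 + 4 * 2 ^ kb) * ((n : ℝ) + 1) * q * l2 F *
          e2 (k * (1 / 2 + ε)) := by
          refine mul_le_mul_of_nonneg_right ?_ hEp.le
          refine mul_le_mul_of_nonneg_right ?_ hl
          refine mul_le_mul_of_nonneg_right ?_ hqr.le
          refine mul_le_mul_of_nonneg_right ?_ (by positivity)
          have : (0 : ℝ) < 2 ^ kb := by positivity
          linarith
  · -- large moduli
    rw [not_le] at hq3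
    have hA3 : A ≤ 2 * (q * e2 (k / 2)) * l2 F := by
      refine abs_le_of_sq_le_sq' ?_ ?_ |>.2
      · refine hA2.trans ?_
        have h1 : e2 (k / 2) ^ 2 = 2 ^ k := by
          rw [sq, ← e2_add, add_halves, e2_nat]
        have h2 : (2 * (q * e2 (k / 2)) * l2 F) ^ 2 = 2 ^ k * ((4 * q ^ 2) * l2 F ^ 2) := by
          rw [← h1]
          ring
        rw [h2]
        refine mul_le_mul_of_nonneg_left ?_ (by positivity)
        refine mul_le_mul_of_nonneg_right ?_ (sq_nonneg _)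
        have h3 : (2 : ℝ) ^ (k + 1) ≤ q ^ 3 := by exact_mod_cast hq3.le
        have h4 : (2 : ℝ) ^ (k + 1) / q ≤ q ^ 2 := by
          rw [div_le_iff₀ hqr]
          refine h3.trans (le_of_eq ?_)
          ring
        nlinarith
      · have := e2_pos (k / 2)
        positivity
    have h3 := e2_pos ((k : ℝ) / 2)
    calc ∑ p ∈ blk k, ‖∑ b ∈ box (4 * p),
        ((nu μ m k₁ p b - μ p b : ℝ) : ℂ) * ((U n (nt p b) : ℂ) * F (p, b))‖
          ≤ 2 * ((n : ℝ) + 1) * A := htriv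
      _ ≤ 2 * ((n : ℝ) + 1) * (2 * (q * e2 (k / 2)) * l2 F) :=
          mul_le_mul_of_nonneg_left hA3 (by positivity)
      _ = 4 * ((n : ℝ) + 1) * q * l2 F * e2 (k / 2) := by ring
      _ ≤ 4 * ((n : ℝ) + 1) * q * l2 F * e2 (k * (1 / 2 + ε)) :=
          mul_le_mul_of_nonneg_left hE (by positivity)
      _ ≤ (2 * |C'| * Cb * c0 ^ 3 + 4 + 4 * 2 ^ kb) * ((n : ℝ) + 1) * q * l2 F *
          e2 (k * (1 / 2 + ε)) := by
          refine mul_le_mul_of_nonneg_right ?_ hEp.le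
          refine mul_le_mul_of_nonneg_right ?_ hl
          refine mul_le_mul_of_nonneg_right ?_ hqr.le
          refine mul_le_mul_of_nonneg_right ?_ (by positivity)
          have : (0 : ℝ) < 2 ^ kb := by positivity
          linarith

end Pool.Agent.H414.MX
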