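import Pool.Agent.H414.MX.Spec

set_option autoImplicit false

namespace Pool.Agent.H414.MX

open Finset
open Pool.Agent.H414.LT (primesUpTo blk kk U)
open Pool.Agent.H414.DF (e2)

namespace Cnt

theorem e2_pos (x : ℝ) : 0 < e2 x := Real.rpow_pos_of_pos (by norm_num) _

theorem e2_add (x y : ℝ) : e2 (x + y) = e2 x * e2 y := Real.rpow_add (by norm_num) _ _

theorem e2_mono {x y : ℝ} (h : x ≤ y) : e2 x ≤ e2 y :=
  Real.rpow_le_rpow_of_exponent_le (by norm_num) h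

theorem e2_nat (n : ℕ) : e2 n = 2 ^ n := Real.rpow_natCast _ _

theorem e2_zero : e2 0 = 1 := Real.rpow_zero _

theorem poly_bd (n : ℕ) (η : ℝ) (hη : 0 < η) :
    ∃ P : ℝ, 0 < P ∧ ∀ k : ℕ, (2 * (k : ℝ) + 1) ^ n ≤ P * e2 (k * η) := by
  have h1 : 1 < e2 η := by
    rw [← e2_zero]
    exact Real.rpow_lt_rpow_of_exponent_lt (by norm_num) hη
  have h2 := tendsto_pow_const_div_const_pow_of_one_lt n h1
  obtain ⟨B, hB⟩ := h2.bddAbove_range
  have hB' : ∀ k : ℕ, (k : ℝ) ^ n ≤ (|B| + 1) * e2 (k * η) := by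
    intro k
    have h3 : (k : ℝ) ^ n / e2 η ^ k ≤ B := hB ⟨k, rfl⟩
    have h4 : 0 < e2 η ^ k := pow_pos (e2_pos _) _
    rw [div_le_iff₀ h4] at h3
    have h5 : e2 (k * η) = e2 η ^ k := by
      unfold e2
      rw [mul_comm, Real.rpow_mul (by norm_num), Real.rpow_natCast]
    rw [h5]
    have h6 : B ≤ |B| + 1 := by linarith [le_abs_self B]
    nlinarith
  refine ⟨3 ^ n * (|B| + 1) + 1, by positivity, fun k => ?_⟩
  have hpos := e2_pos (k * η)
  rcases Nat.eq_zero_or_pos k with h0 | h0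
  · subst h0
    simp only [Nat.cast_zero, mul_zero, zero_add, one_pow, zero_mul, e2_zero, mul_one]
    have : (0 : ℝ) ≤ 3 ^ n * (|B| + 1) := by positivity
    linarith
  · have h7 : (1 : ℝ) ≤ k := by exact_mod_cast h0
    calc (2 * (k : ℝ) + 1) ^ n ≤ (3 * k) ^ n := pow_le_pow_left₀ (by positivity) (by linarith) n
      _ = 3 ^ n * (k : ℝ) ^ n := by rw [mul_pow]
      _ ≤ 3 ^ n * ((|B| + 1) * e2 (k * η)) := mul_le_mul_of_nonneg_left (hB' k) (by positivity)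
      _ ≤ (3 ^ n * (|B| + 1) + 1) * e2 (k * η) := by nlinarith

theorem card_blk (k : ℕ) : ((blk k).card : ℝ) ≤ e2 k := by
  rw [e2_nat]
  have h1 : (blk k).card ≤ 2 ^ k := by
    unfold blk
    refine (card_filter_le _ _).trans ?_
    rw [Nat.card_Ioc, pow_succ]
    omega
  exact_mod_cast h1

theorem mem_T {k : ℕ} {t : ℤ} (h : t ∈ T k) : |t| ≤ k := by
  unfold T box at h
  rw [Finset.mem_Icc, Nat.sqrt_eq'] at h
  exact abs_le.mpr h

theorem card_T (k : ℕ) : ((T k).card : ℝ) = 2 * (k : ℝ) + 1 := by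
  unfold T box
  rw [Nat.sqrt_eq', Int.card_Icc]
  have h1 : ((k : ℤ) + 1 - -(k : ℤ)).toNat = 2 * k + 1 := by omega
  rw [h1]
  push_cast
  rfl

/-- the bound of `μ` in a block -/
theorem mu_bd {μ : ℕ → ℤ → ℝ} (hμ : IsRef μ) {C₁ : ℝ}
    (hC : ∀ p : ℕ, p.Prime → ∀ b, μ p b ≤ C₁ / √(p : ℝ)) (k : ℕ) (t : ℤ) :
    |∑ p ∈ blk k, μ p t| ≤ |C₁| * e2 (k / 2) := by
  have h1 : ∀ p ∈ blk k, |μ p t| ≤ |C₁| * e2 (-(k / 2)) := by
    intro p hp
    have hp' := hp
    unfold blk at hp'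
    rw [mem_filter, Finset.mem_Ioc] at hp'
    obtain ⟨⟨h2, h3⟩, h4⟩ := hp'
    rw [abs_of_nonneg (hμ.nonneg p h4 t)]
    refine (hC p h4 t).trans ?_
    have h6 : e2 k ≤ (p : ℝ) := by
      rw [e2_nat]
      exact_mod_cast h2.le
    have h7 : e2 (k / 2) ≤ √(p : ℝ) := by
      refine Real.le_sqrt_of_sq_le ?_
      rw [sq, ← e2_add, add_halves]
      exact h6
    have h8 : 0 < √(p : ℝ) := (e2_pos _).trans_le h7
    rw [div_le_iff₀ h8]
    have h9 : e2 (-(k / 2)) * e2 (k / 2) = 1 := by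
      rw [← e2_add, neg_add_cancel, e2_zero]
    have h10 : 1 ≤ e2 (-(k / 2)) * √(p : ℝ) := by
      rw [← h9]
      exact mul_le_mul_of_nonneg_left h7 (e2_pos _).le
    calc C₁ ≤ |C₁| := le_abs_self _
      _ = |C₁| * 1 := (mul_one _).symm
      _ ≤ |C₁| * (e2 (-(k / 2)) * √(p : ℝ)) := mul_le_mul_of_nonneg_left h10 (abs_nonneg _)
      _ = |C₁| * e2 (-(k / 2)) * √(p : ℝ) := by ring
  calc |∑ p ∈ blk k, μ p t| ≤ ∑ p ∈ blk k, |μ p t| := abs_sum_le_sum_abs _ _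
    _ ≤ ∑ p ∈ blk k, |C₁| * e2 (-(k / 2)) := sum_le_sum h1
    _ = ((blk k).card : ℝ) * (|C₁| * e2 (-(k / 2))) := by
        rw [sum_const, nsmul_eq_mul]
    _ ≤ e2 k * (|C₁| * e2 (-(k / 2))) := by
        refine mul_le_mul_of_nonneg_right (card_blk k) ?_
        have := e2_pos (-(k / 2))
        positivity
    _ = |C₁| * (e2 k * e2 (-(k / 2))) := by ring
    _ = |C₁| * e2 (k / 2) := by
        rw [← e2_add]
        congr 2
        ring

/-- the exact formula -/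
theorem formula (μ : ℕ → ℤ → ℝ) (m : ℕ → ℤ → ℝ) (k₁ k : ℕ)
    (hk : k₁ ≤ k) (t : ℤ) (ht : t ∈ T k) (F : ℝ)
    (heq : ((blk k).card : ℝ) * (m k t * (1 - K k 0)) = F) :
    ∑ p ∈ blk k, nu μ m k₁ p t - F = ∑ p ∈ blk k, μ p t -
      ((blk k).card : ℝ) * ∑ t' ∈ (T k).erase t, m k t' * K k (t - t') := by
  have h1 : ∀ p ∈ blk k, nu μ m k₁ p t = μ p t + ∑ t' ∈ T k, m k t' * kap k t' t := by
    intro p hp
    have h2 := (Pool.Agent.H414.LT.mem_blk.mp hp).2
    unfold nu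
    rw [h2, if_pos hk]
  rw [sum_congr rfl h1, sum_add_distrib, sum_const, nsmul_eq_mul, ← add_sum_erase _ _ ht]
  have h3 : kap k t t = 1 - K k 0 := by
    unfold kap
    rw [if_pos rfl, sub_self]
  have h4 : ∑ t' ∈ (T k).erase t, m k t' * kap k t' t =
      -∑ t' ∈ (T k).erase t, m k t' * K k (t - t') := by
    rw [← sum_neg_distrib]
    refine sum_congr rfl fun t' ht' => ?_
    unfold kap
    rw [if_neg (fun h => (mem_erase.mp ht').1 h.symm)]
    ring
  rw [h3, h4, ← heq]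
  ring

/-- the bound of the kernel -/
theorem ker_bd (hKB : S_KB) {k : ℕ} {t t' : ℤ} (ht : t ∈ T k)
    (ht' : t' ∈ T k) (hne : t ≠ t') :
    |K k (t - t')| ≤ e2 (-(k / 4)) * (2 * k) * (k + 1) := by
  have h1 := (hKB k).2.1 (t - t') (sub_ne_zero.mpr hne)
  have h2 : ((t - t').natAbs.divisors.card : ℝ) ≤ 2 * k := by
    have h3 : (t - t').natAbs.divisors.card ≤ (t - t').natAbs := Nat.card_divisors_le_self _
    have h4 : (t - t').natAbs ≤ 2 * k := by
      have h5 := mem_T ht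
      have h6 := mem_T ht'
      rw [abs_le] at h5 h6
      omega
    exact_mod_cast h3.trans h4
  refine h1.trans ?_
  refine mul_le_mul_of_nonneg_right ?_ (by positivity)
  exact mul_le_mul_of_nonneg_left h2 (e2_pos _).le

end Cnt

open Cnt in
theorem cnt (hKB : S_KB) (hTAU : DF.S_TAU) : S_CNT := by
  intro μ δ f m k₀ C' hμ hδ hm k₁ hk₁ ε hε
  obtain ⟨C₁, hC₁⟩ := hμ.upper
  obtain ⟨P, hP, hPk⟩ := poly_bd 4 ε hε
  refine ⟨P * (|C₁| + |C'|), fun k hk => ?_⟩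
  have hk0 : k₀ ≤ k := hk₁.trans hk
  have hkr : (0 : ℝ) ≤ k := by positivity
  -- the bound for one `t`
  have hone : ∀ t ∈ T k, |∑ p ∈ blk k, nu μ m k₁ p t - f k t| ≤
      (2 * (k : ℝ) + 1) ^ 3 * (|C₁| + |C'|) * e2 (k / 2) := by
    intro t ht
    rw [formula μ m k₁ k hk t ht _ (hm.eq k hk0 t ht)]
    have hA := mu_bd hμ hC₁ k t
    have hsumm : ∑ t' ∈ (T k).erase t, m k t' ≤ |C'| * (k + 1) * e2 (-(k / 4)) := by
      calc ∑ t' ∈ (T k).erase t, m k t' ≤ ∑ t' ∈ T k, m k t' :=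
            sum_le_sum_of_subset_of_nonneg (erase_subset _ _) (fun t' _ _ => hm.nonneg k t')
        _ ≤ C' * (k + 1) * e2 (-(k * (1 / 4 + δ))) := hm.sum k hk0
        _ ≤ |C'| * (k + 1) * e2 (-(k * (1 / 4 + δ))) := by
            refine mul_le_mul_of_nonneg_right ?_ (e2_pos _).le
            exact mul_le_mul_of_nonneg_right (le_abs_self _) (by positivity)
        _ ≤ |C'| * (k + 1) * e2 (-(k / 4)) := by
            refine mul_le_mul_of_nonneg_left (e2_mono ?_) (by positivity)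
            nlinarith
    have hB : |((blk k).card : ℝ) * ∑ t' ∈ (T k).erase t, m k t' * K k (t - t')| ≤
        |C'| * ((k + 1) * ((2 * k) * (k + 1))) * e2 (k / 2) := by
      have h1 : |∑ t' ∈ (T k).erase t, m k t' * K k (t - t')| ≤
          (∑ t' ∈ (T k).erase t, m k t') * (e2 (-(k / 4)) * (2 * k) * (k + 1)) := by
        rw [sum_mul]
        refine (abs_sum_le_sum_abs _ _).trans (sum_le_sum fun t' ht' => ?_)
        rw [abs_mul, abs_of_nonneg (hm.nonneg k t')]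
        refine mul_le_mul_of_nonneg_left ?_ (hm.nonneg k t')
        exact ker_bd hKB ht (mem_erase.mp ht').2 (fun h => (mem_erase.mp ht').1 h.symm)
      have hpos2 : 0 ≤ e2 (-(k / 4)) * (2 * (k : ℝ)) * (k + 1) := by
        have := e2_pos (-((k : ℝ) / 4))
        positivity
      rw [abs_mul, abs_of_nonneg (by positivity : (0 : ℝ) ≤ ((blk k).card : ℝ))]
      calc ((blk k).card : ℝ) * |∑ t' ∈ (T k).erase t, m k t' * K k (t - t')| ≤
          e2 k * ((|C'| * (k + 1) * e2 (-(k / 4))) * (e2 (-(k / 4)) * (2 * k) * (k + 1))) := by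
            refine mul_le_mul (card_blk k) (h1.trans ?_) (abs_nonneg _) (e2_pos _).le
            exact mul_le_mul_of_nonneg_right hsumm hpos2
        _ = |C'| * ((k + 1) * ((2 * k) * (k + 1))) *
            (e2 k * e2 (-(k / 4)) * e2 (-(k / 4))) := by ring
        _ = |C'| * ((k + 1) * ((2 * k) * (k + 1))) * e2 (k / 2) := by
            rw [← e2_add, ← e2_add]
            congr 2
            ring
    have hE := e2_pos ((k : ℝ) / 2)
    have hpoly : ((k : ℝ) + 1) * ((2 * k) * (k + 1)) ≤ (2 * (k : ℝ) + 1) ^ 3 := by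
      nlinarith [mul_nonneg hkr hkr, mul_nonneg (mul_nonneg hkr hkr) hkr]
    have hone1 : (1 : ℝ) ≤ (2 * (k : ℝ) + 1) ^ 3 := one_le_pow₀ (by linarith)
    calc |∑ p ∈ blk k, μ p t - ((blk k).card : ℝ) * ∑ t' ∈ (T k).erase t,
        m k t' * K k (t - t')| ≤
        |∑ p ∈ blk k, μ p t| + |((blk k).card : ℝ) * ∑ t' ∈ (T k).erase t,
        m k t' * K k (t - t')| := abs_sub _ _
      _ ≤ |C₁| * e2 (k / 2) + |C'| * ((k + 1) * ((2 * k) * (k + 1))) * e2 (k / 2) :=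
          add_le_add hA hB
      _ ≤ (2 * (k : ℝ) + 1) ^ 3 * |C₁| * e2 (k / 2) +
          |C'| * (2 * (k : ℝ) + 1) ^ 3 * e2 (k / 2) := by
          refine add_le_add ?_ ?_
          · refine mul_le_mul_of_nonneg_right ?_ hE.le
            exact le_mul_of_one_le_left (abs_nonneg _) hone1
          · refine mul_le_mul_of_nonneg_right ?_ hE.le
            exact mul_le_mul_of_nonneg_left hpoly (abs_nonneg _)
      _ = _ := by ring
  have hPk' := hPk k
  have hX : 0 ≤ |C₁| + |C'| := by positivity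
  calc ∑ t ∈ T k, |∑ p ∈ blk k, nu μ m k₁ p t - f k t| ≤
      ∑ t ∈ T k, (2 * (k : ℝ) + 1) ^ 3 * (|C₁| + |C'|) * e2 (k / 2) := sum_le_sum hone
    _ = (2 * (k : ℝ) + 1) ^ 4 * ((|C₁| + |C'|) * e2 (k / 2)) := by
        rw [sum_const, nsmul_eq_mul, card_T]
        ring
    _ ≤ (P * e2 (k * ε)) * ((|C₁| + |C'|) * e2 (k / 2)) :=
        mul_le_mul_of_nonneg_right hPk' (mul_nonneg hX (e2_pos _).le)
    _ = P * (|C₁| + |C'|) * (e2 (k * ε) * e2 (k / 2)) := by ring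
    _ = P * (|C₁| + |C'|) * e2 (k * (1 / 2 + ε)) := by
        rw [← e2_add]
        congr 2
        ring

end Pool.Agent.H414.MX
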