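import Pool.Agent.H414.LT.St1

/-!
Definitions of the project MX: systems of integers `a p` with `(a p) ^ 2 ≤ 4 p` (traces of Frobenius of an
elliptic curve) and what the Riemann hypothesis for all the `L`-functions `L(s, Sym^n E ⊗ ρ)` says,
uniformly in `n` and in the level of the Artin representation `ρ` of the division fields.

From `Pool.Agent.H414.LT`: `primesUpTo x` is the set of the primes `p ≤ x`, `blk k` the set of the
primes `2 ^ k < p ≤ 2 ^ (k + 1)`, and `U n (2 cos θ) = sin ((n + 1) θ) / sin θ`.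
-/

set_option autoImplicit false

namespace Pool.Agent.H414.MX

open Finset
open Pool.Agent.H414.LT (primesUpTo blk U)

/-- The integers with squares at most `n`. -/
noncomputable def box (n : ℕ) : Finset ℤ := Icc (-(Nat.sqrt n : ℤ)) (Nat.sqrt n)

/-- `(∑ x, ‖G x‖ ^ 2) ^ (1 / 2)`. -/
noncomputable def l2 {α : Type} [Fintype α] (G : α → ℂ) : ℝ := √(∑ x, ‖G x‖ ^ 2)

/-- `b / √p` -/
noncomputable def nt (p : ℕ) (b : ℤ) : ℝ := (b : ℝ) / √(p : ℝ)

/-- `a p` is an integer with `(a p) ^ 2 ≤ 4 p`, for all primes `p`. -/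
def IsSystem (a : ℕ → ℤ) : Prop := ∀ p : ℕ, p.Prime → a p ∈ box (4 * p)

/-- Reference laws: `μ p` is a probability on the integers `b` with `b ^ 2 ≤ 4 p`, which is at most
`C p ^ (- 1 / 2)` and, for `b ^ 2 ≤ p`, at least `c p ^ (- ε - 1 / 2)`, for all `ε`. -/
structure IsRef (μ : ℕ → ℤ → ℝ) : Prop where
  /-- probabilities -/
  nonneg : ∀ p : ℕ, p.Prime → ∀ b, 0 ≤ μ p b
  /-- the total mass is one -/
  sum : ∀ p : ℕ, p.Prime → ∑ b ∈ box (4 * p), μ p b = 1
  /-- the upper bound -/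
  upper : ∃ C : ℝ, ∀ p : ℕ, p.Prime → ∀ b, μ p b ≤ C / √(p : ℝ)
  /-- the lower bound -/
  lower : ∀ ε : ℝ, 0 < ε → ∃ c : ℝ, 0 < c ∧ ∀ p : ℕ, p.Prime → ∀ b ∈ box p,
    c * (p : ℝ) ^ (-ε - 1 / 2) ≤ μ p b

/-- The bounds which the Riemann hypothesis for all the `L(s, Sym^n E ⊗ ρ)` gives, `ρ` an Artin representation
of the field of the `q`-division points, with respect to the laws `μ`, with the twists `c i`, uniformly in
`n` and `q`. `F` is a function of the determinant `p` and of the trace modulo `q`; the number `q * l2 F` is, up to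
factors `q ^ ε`, the square root of the sum of `|F| ^ 2` over the group `GL_2(ZMod q)`. -/
def HasBound (μ : ℕ → ℤ → ℝ) (c : ℕ → ℕ → ℂ) (a : ℕ → ℤ) : Prop :=
  ∀ (i : ℕ) (ε : ℝ), 0 < ε → ∃ C : ℝ, ∀ (n q : ℕ) [NeZero q] (F : ZMod q × ZMod q → ℂ) (x : ℕ),
    ‖∑ p ∈ primesUpTo x, c i p * ((U n (nt p (a p)) : ℂ) * F (p, a p) -
      ∑ b ∈ box (4 * p), (μ p b : ℂ) * ((U n (nt p b) : ℂ) * F (p, b)))‖ ≤
      C * ((n : ℝ) + 1) ^ (1 + ε) * q * l2 F * ((x : ℝ) + 1) ^ (1 / 2 + ε)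

end Pool.Agent.H414.MX
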