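import Pool.Agent.H414.MX.Spec

/-!
Differences of `U n` at the points `b / √p`.
-/

set_option autoImplicit false

namespace Pool.Agent.H414.MX

open Finset
open Pool.Agent.H414.LT (primesUpTo blk kk U)
open Pool.Agent.H414.DF (e2)

namespace Dif

theorem abs_U_le (hUB : LT.S_UB) (n : ℕ) (x : ℝ) (hx : |x| ≤ 1) : |U n x| ≤ 2 := by
  have h1 := hUB n x (by linarith)
  have h2 : x ^ 2 ≤ 1 := by
    rw [← sq_abs]
    nlinarith [abs_nonneg x]
  have h3 : 1 ≤ √(4 - x ^ 2) := by
    rw [Real.one_le_sqrt]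
    linarith
  nlinarith [abs_nonneg (U n x)]

theorem mul_le (hUB : LT.S_UB) (i j : ℕ) (x y : ℝ) (hx : |x| ≤ 1) (hy : |y| ≤ 1) :
    |U i x * U j y| ≤ 4 := by
  rw [abs_mul]
  have h1 := abs_U_le hUB i x hx
  have h2 := abs_U_le hUB j y hy
  nlinarith [abs_nonneg (U i x), abs_nonneg (U j y)]

theorem diff_U (hUB : LT.S_UB) (hUD : LT.S_UD) (n : ℕ) (x y : ℝ) (hx : |x| ≤ 1) (hy : |y| ≤ 1) :
    |U n x - U n y| ≤ |x - y| * (n * 4) := by
  rw [hUD n x y, abs_mul]
  apply mul_le_mul_of_nonneg_left _ (abs_nonneg _)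
  calc |∑ i ∈ range n, U i x * U (n - 1 - i) y|
      ≤ ∑ i ∈ range n, |U i x * U (n - 1 - i) y| := abs_sum_le_sum_abs _ _
    _ ≤ ∑ _i ∈ range n, (4 : ℝ) := sum_le_sum fun i _ => mul_le hUB i _ x y hx hy
    _ = n * 4 := by rw [sum_const, card_range, nsmul_eq_mul]

theorem abs_nt (p : ℕ) (hp : 1 ≤ p) (b : ℤ) (hb : b ^ 2 ≤ p) : |nt p b| ≤ 1 := by
  unfold nt
  rw [abs_div, abs_of_nonneg (Real.sqrt_nonneg _),
    div_le_one (Real.sqrt_pos.2 (by exact_mod_cast hp))]
  apply Real.abs_le_sqrt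
  exact_mod_cast hb

theorem nt_add (p : ℕ) (b : ℤ) (m : ℤ) : nt p (b + m) - nt p b = m / √(p : ℝ) := by
  unfold nt
  push_cast
  ring

end Dif

theorem dif (hUB : LT.S_UB) (hUD : LT.S_UD) : S_DIF := by
  intro n p hp
  have hs : 0 < √(p : ℝ) := Real.sqrt_pos.2 (by exact_mod_cast hp)
  have hss : √(p : ℝ) * √(p : ℝ) = p := Real.mul_self_sqrt (by positivity)
  refine ⟨fun b hb => Dif.abs_U_le hUB n _ (Dif.abs_nt p hp b hb), fun b hb hb1 => ?_,
    fun b hb hb2 => ?_⟩
  · have h1 := Dif.diff_U hUB hUD n (nt p (b + 1)) (nt p b) (Dif.abs_nt p hp _ hb1)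
      (Dif.abs_nt p hp _ hb)
    have h2 := Dif.nt_add p b 1
    have h0 : (0 : ℝ) ≤ ((1 : ℤ) : ℝ) / √(p : ℝ) := by positivity
    rw [h2, abs_of_nonneg h0] at h1
    refine h1.trans ?_
    rw [div_mul_eq_mul_div]
    apply div_le_div_of_nonneg_right _ hs.le
    push_cast
    linarith
  · have hb1 : (b + 1) ^ 2 ≤ (p : ℤ) := by nlinarith
    have hx := Dif.abs_nt p hp _ hb2
    have hy := Dif.abs_nt p hp _ hb1
    have hz := Dif.abs_nt p hp _ hb
    have hxz := Dif.nt_add p b 2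
    have hyz := Dif.nt_add p b 1
    set x := nt p (b + 2) with hxdef
    set y := nt p (b + 1) with hydef
    set z := nt p b with hzdef
    push_cast at hxz hyz
    have e1 : x - y = 1 / √(p : ℝ) := by
      have : x - y = (x - z) - (y - z) := by ring
      rw [this, hxz, hyz]
      ring
    have e2 : z - y = -(1 / √(p : ℝ)) := by
      rw [← hyz]
      ring
    have e3 : U n x - 2 * U n y + U n z =
        1 / √(p : ℝ) * ∑ i ∈ range n, (U i x - U i z) * U (n - 1 - i) y := by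
      have f1 := hUD n x y
      have f2 := hUD n z y
      rw [e1] at f1
      rw [e2] at f2
      have f3 : U n x - 2 * U n y + U n z = (U n x - U n y) + (U n z - U n y) := by ring
      rw [f3, f1, f2, neg_mul, ← sub_eq_add_neg, ← mul_sub, ← sum_sub_distrib]
      congr 1
      apply sum_congr rfl
      intro i _
      ring
    rw [e3, abs_mul, abs_of_nonneg (by positivity : (0 : ℝ) ≤ 1 / √(p : ℝ))]
    have e4 : |∑ i ∈ range n, (U i x - U i z) * U (n - 1 - i) y| ≤
        n * (16 * n / √(p : ℝ)) := by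
      calc |∑ i ∈ range n, (U i x - U i z) * U (n - 1 - i) y|
          ≤ ∑ i ∈ range n, |(U i x - U i z) * U (n - 1 - i) y| := abs_sum_le_sum_abs _ _
        _ ≤ ∑ _i ∈ range n, (16 * n / √(p : ℝ)) := by
            apply sum_le_sum
            intro i hi
            rw [abs_mul]
            have g1 := Dif.diff_U hUB hUD i x z hx hz
            have g2 := Dif.abs_U_le hUB (n - 1 - i) y hy
            have g0 : (0 : ℝ) ≤ 2 / √(p : ℝ) := by positivity
            rw [hxz, abs_of_nonneg g0] at g1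
            have g3 : (i : ℝ) ≤ n := by
              exact_mod_cast (mem_range.1 hi).le
            have g4 : 2 / √(p : ℝ) * (i * 4) ≤ 2 / √(p : ℝ) * (n * 4) := by gcongr
            calc |U i x - U i z| * |U (n - 1 - i) y|
                ≤ (2 / √(p : ℝ) * (n * 4)) * 2 :=
                  mul_le_mul (g1.trans g4) g2 (abs_nonneg _) (by positivity)
              _ = 16 * n / √(p : ℝ) := by ring
        _ = n * (16 * n / √(p : ℝ)) := by rw [sum_const, card_range, nsmul_eq_mul]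
    calc 1 / √(p : ℝ) * |∑ i ∈ range n, (U i x - U i z) * U (n - 1 - i) y|
        ≤ 1 / √(p : ℝ) * (n * (16 * n / √(p : ℝ))) := by gcongr
      _ = 16 * (n : ℝ) ^ 2 / (√(p : ℝ) * √(p : ℝ)) := by
          field_simp
      _ ≤ 16 * ((n : ℝ) + 1) ^ 2 / p := by
          rw [hss]
          gcongr
          linarith

end Pool.Agent.H414.MX
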