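import Pool.Agent.H414.MX.Spec

set_option autoImplicit false

namespace Pool.Agent.H414.MX

open Finset
open Pool.Agent.H414.LT (primesUpTo blk kk U)
open Pool.Agent.H414.DF (e2)

namespace Dya

theorem e2_add (a b : ℝ) : e2 (a + b) = e2 a * e2 b := by
  unfold e2
  exact Real.rpow_add (by norm_num) a b

theorem e2_pos (a : ℝ) : 0 < e2 a := by
  unfold e2
  positivity

theorem e2_pow (a : ℝ) (m : ℕ) : e2 (a * m) = e2 a ^ m := by
  unfold e2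
  rw [Real.rpow_mul (by norm_num), Real.rpow_natCast]

theorem e2_zero : e2 0 = 1 := by
  unfold e2
  exact Real.rpow_zero _

theorem e2_nat (k : ℕ) : e2 (k : ℝ) = 2 ^ k := by
  unfold e2
  exact Real.rpow_natCast _ _

theorem mem_T {k : ℕ} {t : ℤ} (ht : t ∈ T k) : |(t : ℝ)| ≤ k := by
  unfold T box at ht
  rw [Finset.mem_Icc, Nat.sqrt_eq'] at ht
  have h1 : |t| ≤ (k : ℤ) := abs_le.2 ht
  have h2 : ((|t| : ℤ) : ℝ) ≤ ((k : ℤ) : ℝ) := by exact_mod_cast h1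
  simpa using h2

/-- the numerical estimate for one window -/
theorem num1 (x y q h t n p : ℝ) (hx : 1 ≤ x) (hy : 1 ≤ y) (hyx : y ≤ x ^ 2) (hq1 : y ≤ q)
    (hq2 : q ≤ 2 * y) (hh1 : x ^ 3 ≤ h) (hh2 : h ≤ 2 * x ^ 3) (ht0 : 0 ≤ t) (ht : t ≤ x ^ 3)
    (hn : 0 ≤ n) (hp : x ^ 12 ≤ p) :
    1 / (q * h) + (1 / √p + (n + 1) * (t + q * h) ^ 2 / (p * √p)) ≤
      2 / (y * x ^ 3) + 25 * (n + 1) * y ^ 2 / x ^ 12 := by
  have hx0 : 0 < x := by linarith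
  have hy0 : 0 < y := by linarith
  have hx3 : 0 < x ^ 3 := by positivity
  have hh0 : 0 < h := lt_of_lt_of_le hx3 hh1
  have hq0 : 0 < q := by linarith
  have hp0 : 0 < p := lt_of_lt_of_le (by positivity) hp
  have hs : x ^ 6 ≤ √p := by
    apply Real.le_sqrt_of_sq_le
    calc (x ^ 6) ^ 2 = x ^ 12 := by ring
      _ ≤ p := hp
  have hs0 : 0 < √p := Real.sqrt_pos.2 hp0
  have a1 : 1 / (q * h) ≤ 1 / (y * x ^ 3) :=
    one_div_le_one_div_of_le (by positivity) (mul_le_mul hq1 hh1 hx3.le hq0.le)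
  have a2 : 1 / √p ≤ 1 / (y * x ^ 3) := by
    apply one_div_le_one_div_of_le (by positivity)
    refine le_trans ?_ hs
    have h5 : x ^ 5 ≤ x ^ 6 := pow_le_pow_right₀ hx (by norm_num)
    calc y * x ^ 3 ≤ x ^ 2 * x ^ 3 := mul_le_mul_of_nonneg_right hyx hx3.le
      _ = x ^ 5 := by ring
      _ ≤ x ^ 6 := h5
  have hR : t + q * h ≤ 5 * y * x ^ 3 := by
    have b1 : q * h ≤ (2 * y) * (2 * x ^ 3) := mul_le_mul hq2 hh2 hh0.le (by positivity)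
    have b2 : x ^ 3 ≤ y * x ^ 3 := le_mul_of_one_le_left hx3.le hy
    nlinarith
  have hR0 : 0 ≤ t + q * h := by positivity
  have hR2 : (t + q * h) ^ 2 ≤ 25 * y ^ 2 * x ^ 6 := by
    calc (t + q * h) ^ 2 ≤ (5 * y * x ^ 3) ^ 2 := pow_le_pow_left₀ hR0 hR 2
      _ = 25 * y ^ 2 * x ^ 6 := by ring
  have hps : x ^ 18 ≤ p * √p := by
    calc x ^ 18 = x ^ 12 * x ^ 6 := by ring
      _ ≤ p * √p := mul_le_mul hp hs (by positivity) hp0.le
  have a3 : (n + 1) * (t + q * h) ^ 2 / (p * √p) ≤ 25 * (n + 1) * y ^ 2 / x ^ 12 := by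
    calc (n + 1) * (t + q * h) ^ 2 / (p * √p)
        ≤ (n + 1) * (25 * y ^ 2 * x ^ 6) / x ^ 18 := by
          apply div_le_div₀ (by positivity) _ (by positivity) hps
          exact mul_le_mul_of_nonneg_left hR2 (by linarith)
      _ = 25 * (n + 1) * y ^ 2 / x ^ 12 := by
          field_simp
  have a4 : 2 / (y * x ^ 3) = 1 / (y * x ^ 3) + 1 / (y * x ^ 3) := by ring
  rw [a4]
  linarith

/-- the final numerical estimate -/
theorem num2 (x y n M i k : ℝ) (hx : 1 ≤ x) (hy : 1 ≤ y) (hyx : y ≤ x ^ 2)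
    (hn : 0 ≤ n) (hM : 0 ≤ M) (hi : 0 ≤ i) (hik : i ≤ k) (l : ℝ) (hl : l ≤ 3 * (i + 1)) :
    2 * M + 2 * ((M * (2 / (y * x ^ 3) + 25 * (n + 1) * y ^ 2 / x ^ 12)) / (1 / (4 * y ^ 2))) *
      (1 + l) ≤ 802 * M * (k + 1) * (1 + (n + 1) * (x ^ 4)⁻¹) := by
  have hx0 : 0 < x := by linarith
  have hy0 : 0 < y := by linarith
  have hX : 0 ≤ (n + 1) * (x ^ 4)⁻¹ := by positivity
  have e1 : (M * (2 / (y * x ^ 3) + 25 * (n + 1) * y ^ 2 / x ^ 12)) / (1 / (4 * y ^ 2)) =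
      M * (8 * (y / x ^ 3) + 100 * (n + 1) * (y ^ 4 / x ^ 12)) := by
    field_simp
    ring
  have b1 : y / x ^ 3 ≤ 1 := by
    rw [div_le_one (by positivity)]
    exact le_trans hyx (pow_le_pow_right₀ hx (by norm_num))
  have b2 : y ^ 4 / x ^ 12 ≤ (x ^ 4)⁻¹ := by
    rw [div_le_iff₀ (by positivity)]
    calc y ^ 4 ≤ (x ^ 2) ^ 4 := pow_le_pow_left₀ hy0.le hyx 4
      _ = (x ^ 4)⁻¹ * x ^ 12 := by field_simp
  have b3 : M * (8 * (y / x ^ 3) + 100 * (n + 1) * (y ^ 4 / x ^ 12)) ≤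
      M * (100 * (1 + (n + 1) * (x ^ 4)⁻¹)) := by
    apply mul_le_mul_of_nonneg_left _ hM
    have := mul_le_mul_of_nonneg_left b2 (show 0 ≤ 100 * (n + 1) by linarith)
    nlinarith
  have b0 : 0 ≤ M * (8 * (y / x ^ 3) + 100 * (n + 1) * (y ^ 4 / x ^ 12)) := by positivity
  have b4 : 1 + l ≤ 4 * (k + 1) := by linarith
  rw [e1]
  have hk0 : 0 ≤ k := le_trans hi hik
  have b5 : M * (8 * (y / x ^ 3) + 100 * (n + 1) * (y ^ 4 / x ^ 12)) * (1 + l) ≤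
      M * (100 * (1 + (n + 1) * (x ^ 4)⁻¹)) * (4 * (k + 1)) := by
    refine le_trans (mul_le_mul_of_nonneg_left b4 b0) ?_
    exact mul_le_mul_of_nonneg_right b3 (by positivity)
  have b6 : M ≤ M * (k + 1) * (1 + (n + 1) * (x ^ 4)⁻¹) := by
    rw [mul_assoc]
    apply le_mul_of_one_le_right hM
    have : 1 ≤ (k + 1) := by linarith
    nlinarith [mul_nonneg hk0 hX]
  nlinarith

end Dya

open Dya in
theorem dya (hSIZ : S_SIZ) (hOP1 : S_OP1) (hSPC : S_SPC) (hFRA : S_FRA) : S_DYA := by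
  obtain ⟨k₁, hk₁⟩ := hSIZ
  refine ⟨802, k₁, by norm_num, ?_⟩
  intro k n p i t g γ₀ M hk hp ht hM hi hg hg'
  obtain ⟨h1, hQ1, hbox, hk4, hQ6, hH1, hH2, -, -⟩ := hk₁ k hk
  obtain ⟨x, hx⟩ : ∃ x : ℝ, x = e2 ((k : ℝ) / 12) := ⟨_, rfl⟩
  have hx1 : 1 ≤ x := by
    rw [hx]
    unfold e2
    exact Real.one_le_rpow (by norm_num) (by positivity)
  have hx0 : 0 < x := by linarith
  have ex : ∀ m : ℕ, e2 ((k : ℝ) / 12 * m) = x ^ m := fun m => by rw [e2_pow, hx]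
  have e6 : e2 ((k : ℝ) / 2) = x ^ 6 := by rw [← ex 6]; congr 1; push_cast; ring
  have e3 : e2 ((k : ℝ) / 4) = x ^ 3 := by rw [← ex 3]; congr 1; push_cast; ring
  have e2' : e2 ((k : ℝ) / 6) = x ^ 2 := by rw [← ex 2]; congr 1; push_cast; ring
  have e12 : (2 : ℝ) ^ k = x ^ 12 := by
    rw [← ex 12, ← e2_nat]; congr 1; push_cast; ring
  have e4 : e2 (-((k : ℝ) / 3)) = (x ^ 4)⁻¹ := by
    apply eq_inv_of_mul_eq_one_left
    rw [← ex 4, ← e2_add, ← e2_zero]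
    congr 1; push_cast; ring
  rw [e6] at hbox
  rw [e3] at hk4 hH1 hH2
  rw [e2'] at hQ6
  rw [e4]
  -- the prime
  have hp12 : x ^ 12 ≤ (p : ℝ) := by
    rw [← e12]
    unfold blk at hp
    rw [Finset.mem_filter, Finset.mem_Ioc] at hp
    exact_mod_cast hp.1.1.le
  have hp0 : (0 : ℝ) < p := lt_of_lt_of_le (by positivity) hp12
  -- y
  obtain ⟨y, hy⟩ : ∃ y : ℝ, y = 2 ^ i := ⟨_, rfl⟩
  have hy1 : 1 ≤ y := by rw [hy]; exact one_le_pow₀ (by norm_num)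
  have hyQ : y ≤ (Qk k : ℝ) := by rw [hy]; exact_mod_cast hi
  have hyx : y ≤ x ^ 2 := le_trans hyQ hQ6
  have hik : i ≤ k := by
    have h2 : (2 : ℝ) ^ i ≤ 2 ^ k := by
      rw [← hy, e12]
      exact le_trans hyx (pow_le_pow_right₀ hx1 (by norm_num))
    exact (pow_le_pow_iff_right₀ (by norm_num : (1 : ℝ) < 2)).1 h2
  have ht1 : |(t : ℝ)| ≤ k := mem_T ht
  -- one window
  have hwin : ∀ q : ℕ, 1 ≤ q → q ≤ Qk k → Nat.log 2 q = i → ∀ γ : ℝ,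
      ‖win (q * H k) t g γ‖ ≤ M ∧ ‖win (q * H k) t g γ‖ * nd γ ≤
        M * (2 / (y * x ^ 3) + 25 * ((n : ℝ) + 1) * y ^ 2 / x ^ 12) := by
    intro q hq1 hq2 hlog γ
    have hq3 : y ≤ q := by
      rw [hy, ← hlog]
      exact_mod_cast Nat.pow_log_le_self 2 (by omega)
    have hq4 : (q : ℝ) ≤ 2 * y := by
      have := Nat.lt_pow_succ_log_self (b := 2) (by norm_num) q
      rw [hlog] at this
      have h5 : (q : ℝ) ≤ 2 ^ (i + 1) := by exact_mod_cast this.le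
      rw [hy]
      calc (q : ℝ) ≤ 2 ^ (i + 1) := h5
        _ = 2 * 2 ^ i := by ring
    have hH0 : 1 ≤ H k := by
      have : (0 : ℝ) < H k := lt_of_lt_of_le (by positivity) hH1
      exact_mod_cast this
    have hL1 : 1 ≤ q * H k := Nat.mul_pos hq1 hH0
    have hLc : ((q * H k : ℕ) : ℝ) = (q : ℝ) * (H k : ℝ) := by push_cast; ring
    obtain ⟨R, hR⟩ : ∃ R : ℝ, R = |(t : ℝ)| + (q : ℝ) * (H k : ℝ) := ⟨_, rfl⟩
    have hR0 : 0 ≤ R := by rw [hR]; positivity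
    have hRx : R ≤ x ^ 6 := by
      have h6 : (q : ℝ) * (H k : ℝ) ≤ (Qk k : ℝ) * H k :=
        mul_le_mul_of_nonneg_right (by exact_mod_cast hq2) (by positivity)
      rw [hR]
      linarith
    have hR2 : R ^ 2 ≤ p := by
      calc R ^ 2 ≤ (x ^ 6) ^ 2 := pow_le_pow_left₀ hR0 hRx 2
        _ = x ^ 12 := by ring
        _ ≤ p := hp12
    have hbR : ∀ b : ℤ, |b - t| ≤ ((q * H k : ℕ) : ℤ) → |(b : ℝ)| ≤ R := by
      intro b hb
      have h7 : |((b : ℝ) - (t : ℝ))| ≤ (q : ℝ) * (H k : ℝ) := by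
        have : ((|b - t| : ℤ) : ℝ) ≤ (((q * H k : ℕ) : ℤ) : ℝ) := by exact_mod_cast hb
        rw [← hLc]
        simpa using this
      rw [hR]
      calc |(b : ℝ)| = |(t : ℝ) + ((b : ℝ) - t)| := by congr 1; ring
        _ ≤ |(t : ℝ)| + |(b : ℝ) - t| := abs_add_le _ _
        _ ≤ _ := by linarith
    have hc1 : ∀ b : ℤ, |b - t| ≤ ((q * H k : ℕ) : ℤ) → ‖g b‖ ≤ M := by
      intro b hb
      apply hg
      have h8 := hbR b hb
      have h9 : (b : ℝ) ^ 2 ≤ p := by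
        rw [← sq_abs]
        exact le_trans (pow_le_pow_left₀ (abs_nonneg _) h8 2) hR2
      exact_mod_cast h9
    have hc2 : ∀ b : ℤ, |b - t| ≤ ((q * H k : ℕ) : ℤ) → |b + 1 - t| ≤ ((q * H k : ℕ) : ℤ) →
        ‖g (b + 1) - g b‖ ≤ M * (1 / √(p : ℝ) + ((n : ℝ) + 1) * R ^ 2 / (p * √(p : ℝ))) := by
      intro b hb hb'
      apply hg' b R (hbR b hb) _ hR2
      have h8 := hbR (b + 1) hb'
      push_cast at h8
      exact h8
    have hlam : 0 ≤ 1 / √(p : ℝ) + ((n : ℝ) + 1) * R ^ 2 / (p * √(p : ℝ)) := by positivity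
    obtain ⟨w1, w2, -⟩ := hOP1 (q * H k) t g γ M _ hL1 hM hlam hc1 hc2
    refine ⟨w1, le_trans w2 (mul_le_mul_of_nonneg_left ?_ hM)⟩
    rw [hLc, hR]
    exact num1 x y q (H k) |(t : ℝ)| n p hx1 hy1 hyx hq3 hq4 hH1 hH2 (abs_nonneg _)
      (le_trans ht1 hk4) (Nat.cast_nonneg _) hp12
  -- the spacing
  have hηp : (0 : ℝ) < 1 / (4 * y ^ 2) := by positivity
  have hη1 : (1 : ℝ) / (4 * y ^ 2) ≤ 1 := by
    rw [div_le_one (by positivity)]
    nlinarith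
  have hlam0 : 0 ≤ M * (2 / (y * x ^ 3) + 25 * ((n : ℝ) + 1) * y ^ 2 / x ^ 12) := by
    have : (0 : ℝ) < y := by linarith
    positivity
  have key := (hSPC (Σ _ : ℕ, ℕ)
    (((Icc 1 (Qk k)).filter (fun q' => Nat.log 2 q' = i)).sigma (fun q' => cop q'))
    (fun z => (z.2 : ℝ) / z.1 + γ₀) (fun z => ‖win (z.1 * H k) t g ((z.2 : ℝ) / z.1 + γ₀)‖)
    (1 / (4 * y ^ 2)) (M * (2 / (y * x ^ 3) + 25 * ((n : ℝ) + 1) * y ^ 2 / x ^ 12))
    hηp hη1 hlam0 ?_ (fun z _ => norm_nonneg _)).1 M hM ?_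
  · rw [Finset.sum_sigma']
    refine le_trans key ?_
    apply num2 x y n M i k hx1 hy1 hyx (Nat.cast_nonneg _) hM (Nat.cast_nonneg _)
      (by exact_mod_cast hik)
    have h4 : (1 : ℝ) / (1 / (4 * y ^ 2)) = 4 ^ (i + 1) := by
      rw [one_div_one_div, hy, ← pow_mul, mul_comm i 2, pow_mul]
      norm_num
      ring
    rw [h4, Real.log_pow]
    have h5 : Real.log 4 ≤ 3 := by
      have := Real.log_le_sub_one_of_pos (by norm_num : (0 : ℝ) < 4)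
      linarith
    push_cast
    nlinarith [(Nat.cast_nonneg i : (0 : ℝ) ≤ (i : ℝ))]
  · intro z hz z' hz' hne
    rw [Finset.mem_sigma, Finset.mem_filter, Finset.mem_Icc] at hz hz'
    obtain ⟨⟨⟨ha1, ha2⟩, ha3⟩, ha4⟩ := hz
    obtain ⟨⟨⟨hb1, hb2⟩, hb3⟩, hb4⟩ := hz'
    have hne' : (z.1, z.2) ≠ (z'.1, z'.2) := by
      intro h
      apply hne
      rw [Prod.mk.injEq] at h
      obtain ⟨z1, z2⟩ := z
      obtain ⟨z1', z2'⟩ := z'
      simp only at h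
      rw [h.1, h.2]
    have h := hFRA.1 z.1 z'.1 z.2 z'.2 ha1 hb1 ha4 hb4 hne'
    have hq : ∀ q : ℕ, Nat.log 2 q = i → (q : ℝ) ≤ 2 * y := by
      intro q hlog
      have := Nat.lt_pow_succ_log_self (b := 2) (by norm_num) q
      rw [hlog] at this
      have h5 : (q : ℝ) ≤ 2 ^ (i + 1) := by exact_mod_cast this.le
      rw [hy]
      calc (q : ℝ) ≤ 2 ^ (i + 1) := h5
        _ = 2 * 2 ^ i := by ring
    have h' : (1 : ℝ) / (4 * y ^ 2) ≤ 1 / ((z.1 : ℝ) * z'.1) := by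
      have c1 : (0 : ℝ) < z.1 := by exact_mod_cast ha1
      have c2 : (0 : ℝ) < z'.1 := by exact_mod_cast hb1
      apply one_div_le_one_div_of_le (by positivity)
      calc (z.1 : ℝ) * z'.1 ≤ (2 * y) * (2 * y) :=
            mul_le_mul (hq _ ha3) (hq _ hb3) c2.le (by linarith)
        _ = 4 * y ^ 2 := by ring
    refine le_trans h' (le_trans h (le_of_eq ?_))
    congr 1
    ring
  · intro z hz
    rw [Finset.mem_sigma, Finset.mem_filter, Finset.mem_Icc] at hz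
    obtain ⟨⟨⟨ha1, ha2⟩, ha3⟩, ha4⟩ := hz
    exact hwin z.1 ha1 ha2 ha3 _

end Pool.Agent.H414.MX
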