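import Pool.Agent.H414.MX.Spec2

/-!
Project MX, the means of the Fejér kernel.
-/

set_option autoImplicit false

namespace Pool.Agent.H414.MX

open Finset

namespace Fej

open Pool.Agent.H414.LT.Upw (F)

theorem kernel (hUS : Pool.Agent.H414.LT.S_US) (N : ℕ) {t : ℝ} (ht : |t| < 2) :
    0 ≤ F N t ∧ F N t ≤ (N : ℝ) ^ 2 ∧ F N t * t ^ 2 ≤ 4 := by
  refine ⟨Pool.Agent.H414.LT.Upw.F_nonneg hUS N ht, ?_⟩
  obtain ⟨ψ, hts, hψ, -⟩ := Pool.Agent.H414.LT.Upw.arc ht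
  have hF : F N t = (∑ l ∈ range N, Real.cos (l * (2 * ψ))) ^ 2 +
      (∑ l ∈ range N, Real.sin (l * (2 * ψ))) ^ 2 := by
    rw [hts]
    exact Pool.Agent.H414.LT.Upw.F_eq hUS N hψ
  have hz : ∀ l : ℕ, Complex.exp (((2 * ψ : ℝ) : ℂ) * Complex.I) ^ l =
      ((Real.cos (l * (2 * ψ)) : ℝ) : ℂ) + ((Real.sin (l * (2 * ψ)) : ℝ) : ℂ) * Complex.I := by
    intro l
    rw [← Complex.exp_nat_mul, Complex.ofReal_cos, Complex.ofReal_sin, ← Complex.exp_mul_I]
    congr 1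
    push_cast
    ring
  set z : ℂ := Complex.exp (((2 * ψ : ℝ) : ℂ) * Complex.I) with hzdef
  have hz1 : ‖z‖ = 1 := Complex.norm_exp_ofReal_mul_I _
  have hS : ∑ l ∈ range N, z ^ l = ((∑ l ∈ range N, Real.cos (l * (2 * ψ)) : ℝ) : ℂ) +
      ((∑ l ∈ range N, Real.sin (l * (2 * ψ)) : ℝ) : ℂ) * Complex.I := by
    rw [Complex.ofReal_sum, Complex.ofReal_sum, Finset.sum_mul, ← Finset.sum_add_distrib]
    exact Finset.sum_congr rfl fun l _ => hz l
  have hn : ‖∑ l ∈ range N, z ^ l‖ ^ 2 = F N t := by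
    rw [hF, hS, ← Complex.normSq_eq_norm_sq, Complex.normSq_add_mul_I]
  constructor
  · rw [← hn]
    have h1 : ‖∑ l ∈ range N, z ^ l‖ ≤ N := by
      refine (norm_sum_le _ _).trans ?_
      refine (Finset.sum_le_sum fun l _ => (?_ : ‖z ^ l‖ ≤ 1)).trans ?_
      · rw [norm_pow, hz1, one_pow]
      · rw [Finset.sum_const, Finset.card_range, nsmul_eq_mul, mul_one]
    exact pow_le_pow_left₀ (norm_nonneg _) h1 2
  · have h1 : ‖z - 1‖ ^ 2 = t ^ 2 := by
      have h2 := hz 1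
      rw [pow_one] at h2
      have h3 : z - 1 = ((Real.cos ((1 : ℕ) * (2 * ψ)) - 1 : ℝ) : ℂ) +
          ((Real.sin ((1 : ℕ) * (2 * ψ)) : ℝ) : ℂ) * Complex.I := by
        rw [h2]
        push_cast
        ring
      rw [h3, ← Complex.normSq_eq_norm_sq, Complex.normSq_add_mul_I, Nat.cast_one, one_mul,
        Real.cos_two_mul, Real.sin_two_mul, hts]
      have h4 := Real.sin_sq_add_cos_sq ψ
      have h5 : Real.cos ψ ^ 2 = 1 - Real.sin ψ ^ 2 := by linarith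
      have h6 : (2 * Real.sin ψ * Real.cos ψ) ^ 2 = 4 * Real.sin ψ ^ 2 * Real.cos ψ ^ 2 := by ring
      rw [h6, h5]
      ring
    have h2 : (∑ l ∈ range N, z ^ l) * (z - 1) = z ^ N - 1 := geom_sum_mul z N
    have h3 : F N t * t ^ 2 = ‖z ^ N - 1‖ ^ 2 := by
      rw [← h2, norm_mul, mul_pow, hn, h1]
    have h4 : ‖z ^ N - 1‖ ≤ 2 := by
      refine (norm_sub_le _ _).trans ?_
      rw [norm_pow, hz1, one_pow, norm_one]
      norm_num
    rw [h3]
    have h5 := pow_le_pow_left₀ (norm_nonneg _) h4 2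
    linarith

theorem lt_two {p : ℕ} (hp : p.Prime) {b : ℤ} (hb : b ∈ box (4 * p)) : |nt p b| < 2 := by
  unfold box at hb
  rw [Finset.mem_Icc] at hb
  have h1 : b.natAbs ≤ Nat.sqrt (4 * p) := by omega
  have h2 : b.natAbs * b.natAbs ≤ 4 * p :=
    (Nat.mul_le_mul h1 h1).trans (Nat.sqrt_le (4 * p))
  have h3 : b.natAbs * b.natAbs ≠ 4 * p := by
    intro h
    have h4 : 2 ∣ b.natAbs := by
      have h5 : 2 ∣ b.natAbs * b.natAbs := ⟨2 * p, by rw [h]; ring⟩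
      exact ((Nat.prime_two.dvd_mul).1 h5).elim id id
    obtain ⟨c, hc⟩ := h4
    rw [hc] at h
    have h5 : p = c * c := by
      have h6 : 4 * (c * c) = 4 * p := by rw [← h]; ring
      omega
    exact hp.prime.irreducible.not_isSquare ⟨c, h5⟩
  have h4 : b.natAbs * b.natAbs < 4 * p := lt_of_le_of_ne h2 h3
  have h5 : |(b : ℝ)| * |(b : ℝ)| < 4 * p := by
    have h6 : ((b.natAbs : ℕ) : ℝ) = |(b : ℝ)| := by
      rw [Nat.cast_natAbs, Int.cast_abs]
    rw [← h6]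
    exact_mod_cast h4
  have hp0 : (0 : ℝ) < p := by exact_mod_cast hp.pos
  have hs : 0 < √(p : ℝ) := Real.sqrt_pos.2 hp0
  unfold nt
  rw [abs_div, abs_of_pos hs, div_lt_iff₀ hs]
  have h6 : (2 * √(p : ℝ)) ^ 2 = 4 * p := by
    rw [mul_pow, Real.sq_sqrt hp0.le]
    norm_num
  refine lt_of_pow_lt_pow_left₀ 2 (by positivity) ?_
  rw [h6, sq]
  exact h5

theorem point (hUS : Pool.Agent.H414.LT.S_US) (N : ℕ) {p : ℕ} (hp : p.Prime) {b : ℤ}
    (hb : b ∈ box (4 * p)) : F N (nt p b) ≤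
      if b.natAbs = 0 then (N : ℝ) ^ 2 else 2 * N * √(p : ℝ) / b.natAbs := by
  obtain ⟨h0, h1, h2⟩ := kernel hUS N (lt_two hp hb)
  split_ifs with h
  · exact h1
  · have hp0 : (0 : ℝ) < p := by exact_mod_cast hp.pos
    have hs : 0 < √(p : ℝ) := Real.sqrt_pos.2 hp0
    have h6 : ((b.natAbs : ℕ) : ℝ) = |(b : ℝ)| := by
      rw [Nat.cast_natAbs, Int.cast_abs]
    have hb0 : 0 < |(b : ℝ)| := by
      rw [← h6]
      exact_mod_cast Nat.pos_of_ne_zero h
    rw [h6, le_div_iff₀ hb0]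
    have h7 : |nt p b| = |(b : ℝ)| / √(p : ℝ) := by
      unfold nt
      rw [abs_div, abs_of_pos hs]
    have h8 : F N (nt p b) * |nt p b| ≤ 2 * N := by
      refine le_of_sq_le_sq ?_ (by positivity)
      have h9 : (F N (nt p b) * |nt p b|) ^ 2 = F N (nt p b) * (F N (nt p b) * nt p b ^ 2) := by
        rw [mul_pow, sq_abs]
        ring
      rw [h9]
      calc F N (nt p b) * (F N (nt p b) * nt p b ^ 2) ≤ (N : ℝ) ^ 2 * 4 :=
            mul_le_mul h1 h2 (by positivity) (by positivity)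
        _ = (2 * (N : ℝ)) ^ 2 := by ring
    rw [h7] at h8
    calc F N (nt p b) * |(b : ℝ)| = F N (nt p b) * (|(b : ℝ)| / √(p : ℝ)) * √(p : ℝ) := by
          field_simp
      _ ≤ 2 * N * √(p : ℝ) := mul_le_mul_of_nonneg_right h8 hs.le

theorem sum_box (M : ℕ) (φ : ℕ → ℝ) (hφ : ∀ k, 0 ≤ φ k) :
    ∑ b ∈ Icc (-(M : ℤ)) M, φ b.natAbs ≤ ∑ k ∈ range (M + 1), 2 * φ k := by
  rw [← Finset.sum_fiberwise_of_maps_to (g := fun b : ℤ => b.natAbs) (t := range (M + 1))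
    (fun b hb => by
      rw [Finset.mem_Icc] at hb
      rw [Finset.mem_range]
      omega)]
  refine Finset.sum_le_sum fun k _ => ?_
  have h1 : ∑ b ∈ (Icc (-(M : ℤ)) M).filter (fun b => b.natAbs = k), φ b.natAbs =
      ∑ b ∈ (Icc (-(M : ℤ)) M).filter (fun b => b.natAbs = k), φ k :=
    Finset.sum_congr rfl fun b hb => by rw [(Finset.mem_filter.1 hb).2]
  rw [h1, Finset.sum_const, nsmul_eq_mul]
  refine mul_le_mul_of_nonneg_right ?_ (hφ k)
  have h2 : ((Icc (-(M : ℤ)) M).filter (fun b => b.natAbs = k)).card ≤ 2 := by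
    refine (Finset.card_le_card (t := {(k : ℤ), -(k : ℤ)}) fun b hb => ?_).trans Finset.card_le_two
    have h3 := (Finset.mem_filter.1 hb).2
    rw [Finset.mem_insert, Finset.mem_singleton]
    omega
  exact_mod_cast h2

end Fej

open Fej in
theorem fej (hUS : Pool.Agent.H414.LT.S_US) : S_FEJ := by
  refine ⟨8, by norm_num, fun N p hN hp => ?_⟩
  have hp0 : (0 : ℝ) < p := by exact_mod_cast hp.pos
  have hp2 : (2 : ℝ) ≤ p := by exact_mod_cast hp.two_le
  have hs : 0 < √(p : ℝ) := Real.sqrt_pos.2 hp0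
  set φ : ℕ → ℝ := fun k => if k = 0 then (N : ℝ) ^ 2 else 2 * N * √(p : ℝ) / k with hφ
  have hφ0 : ∀ k, 0 ≤ φ k := by
    intro k
    rw [hφ]
    dsimp only
    split_ifs
    · positivity
    · positivity
  set M : ℕ := Nat.sqrt (4 * p) with hM
  have h1 : ∑ b ∈ box (4 * p), Pool.Agent.H414.LT.Upw.F N (nt p b) ≤
      ∑ b ∈ Icc (-(M : ℤ)) M, φ b.natAbs := by
    unfold box
    refine Finset.sum_le_sum fun b hb => ?_
    exact point hUS N hp (by unfold box; exact hb)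
  refine (h1.trans (sum_box M φ hφ0)).trans ?_
  rw [← Finset.mul_sum, Finset.sum_range_succ']
  have h2 : ∑ k ∈ range M, φ (k + 1) = 2 * N * √(p : ℝ) * ((harmonic M : ℚ) : ℝ) := by
    rw [harmonic, Rat.cast_sum, Finset.mul_sum]
    refine Finset.sum_congr rfl fun k _ => ?_
    rw [hφ]
    dsimp only
    rw [if_neg (Nat.succ_ne_zero k), Rat.cast_inv, Rat.cast_natCast, div_eq_mul_inv]
  have h3 : φ 0 = (N : ℝ) ^ 2 := by
    rw [hφ]
    exact if_pos rfl
  have h4 : ((harmonic M : ℚ) : ℝ) ≤ 1 + Real.log M := harmonic_le_one_add_log M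
  have hM1 : 1 ≤ M := by
    rw [hM, Nat.le_sqrt]
    have := hp.two_le
    omega
  have hM2 : M ≤ 2 * p := by
    have h5 : M * M ≤ 4 * p := Nat.sqrt_le (4 * p)
    have h6 := hp.two_le
    nlinarith
  have h5 : Real.log M ≤ 1 + Real.log p := by
    have h6 : (M : ℝ) ≤ 2 * p := by exact_mod_cast hM2
    have h7 : (0 : ℝ) < M := by exact_mod_cast hM1
    calc Real.log M ≤ Real.log (2 * p) := Real.log_le_log h7 h6
      _ = Real.log 2 + Real.log p := Real.log_mul (by norm_num) hp0.ne'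
      _ ≤ 1 + Real.log p := by linarith [Real.log_two_lt_d9]
  have hlog : 0 ≤ Real.log p := Real.log_nonneg (by linarith)
  rw [h2, h3]
  have h6 : 2 * N * √(p : ℝ) * ((harmonic M : ℚ) : ℝ) ≤ 2 * N * √(p : ℝ) * (2 * (1 + Real.log p)) :=
    mul_le_mul_of_nonneg_left (by linarith) (by positivity)
  have h7 : 0 ≤ (N : ℝ) ^ 2 := by positivity
  have h8 : 0 ≤ (N : ℝ) * √(p : ℝ) * (1 + Real.log p) := by positivity
  linarith

end Pool.Agent.H414.MX
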