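import Pool.Agent.H414.MX.Spec

/-!
Assembly of the sharpness theorem of the project MX from the statements of `Spec.lean`.
-/

set_option autoImplicit false

namespace Pool.Agent.H414.MX

open Finset Filter
open Pool.Agent.H414.LT (primesUpTo blk kk U)
open Pool.Agent.H414.DF (e2)

theorem Fin.e2_pos (x : ℝ) : 0 < e2 x := Real.rpow_pos_of_pos (by norm_num) x

theorem Fin.e2_mono {x y : ℝ} (h : x ≤ y) : e2 x ≤ e2 y :=
  Real.rpow_le_rpow_of_exponent_le (by norm_num) h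

theorem Fin.e2_add (x y : ℝ) : e2 (x + y) = e2 x * e2 y := Real.rpow_add (by norm_num) x y

/-- polynomials are at most `C 2^(k ε)` -/
theorem Fin.poly (s : ℕ) {ε : ℝ} (hε : 0 < ε) :
    ∃ C : ℝ, 0 ≤ C ∧ ∀ k : ℕ, ((k : ℝ) + 1) ^ s ≤ C * e2 (k * ε) := by
  have hb : 1 < (2 : ℝ) ^ ε := Real.one_lt_rpow (by norm_num) hε
  have h := tendsto_pow_const_div_const_pow_of_one_lt s hb
  have h2 : Tendsto (fun n : ℕ => ((n : ℝ) + 1) ^ s / ((2 : ℝ) ^ ε) ^ (n + 1)) atTop (nhds 0) := by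
    have := h.comp (tendsto_add_atTop_nat 1)
    refine this.congr fun n => ?_
    simp
  obtain ⟨B, hB⟩ := h2.bddAbove_range
  have hB0 : 0 ≤ B := by
    refine le_trans ?_ (hB ⟨0, rfl⟩)
    positivity
  refine ⟨B * (2 : ℝ) ^ ε, by positivity, fun k => ?_⟩
  have h3 : ((k : ℝ) + 1) ^ s / ((2 : ℝ) ^ ε) ^ (k + 1) ≤ B := hB ⟨k, rfl⟩
  have h4 : 0 < ((2 : ℝ) ^ ε) ^ (k + 1) := by positivity
  rw [div_le_iff₀ h4] at h3
  have h5 : ((2 : ℝ) ^ ε) ^ (k + 1) = (2 : ℝ) ^ ε * e2 (k * ε) := by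
    unfold e2
    rw [pow_succ, ← Real.rpow_natCast, ← Real.rpow_mul (by norm_num), mul_comm ε, mul_comm]
  rw [h5] at h3
  linarith [h3, mul_assoc B ((2 : ℝ) ^ ε) (e2 (k * ε))]

theorem Fin.card_T (k : ℕ) : ((T k).card : ℝ) ≤ 2 * ((k : ℝ) + 1) := by
  unfold T box
  rw [Nat.sqrt_eq' k, Int.card_Icc]
  have h : (((k : ℤ) + 1 - -(k : ℤ)).toNat : ℝ) = 2 * (k : ℝ) + 1 := by
    have : ((k : ℤ) + 1 - -(k : ℤ)).toNat = 2 * k + 1 := by omega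
    rw [this]; push_cast; ring
  rw [h]
  linarith

/-- The numbers of the primes with given coefficients. -/
theorem Fin.numbers (ν : ℕ → ℤ → ℝ) (f : ℕ → ℤ → ℕ) (k₁ : ℕ)
    (hsub : ∀ k, k₁ ≤ k → T k ⊆ box (2 ^ k)) (a : ℕ → ℤ)
    (hcnt : ∀ ε : ℝ, 0 < ε → ∃ C'' : ℝ, ∀ k, k₁ ≤ k →
      ∑ t ∈ T k, |∑ p ∈ blk k, ν p t - f k t| ≤ C'' * e2 (k * (1 / 2 + ε)))
    (C : ℝ) (hC : ∀ k : ℕ,
      ∑ t ∈ T k, |(((blk k).filter fun p => a p = t).card : ℝ) -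
        ∑ p ∈ blk k, ∑ b ∈ box (4 * p), if b = t then ν p b else 0| ^ 2 ≤
        C * (k + 1) ^ 2 * 2 ^ k) :
    ∀ ε : ℝ, 0 < ε → ∃ C : ℝ, ∀ k, k₁ ≤ k →
    ∑ t ∈ T k, |(((blk k).filter fun p => a p = t).card : ℝ) - f k t| ≤
      C * e2 (k * (1 / 2 + ε)) := by
  intro ε hε
  obtain ⟨C1, hC1⟩ := hcnt ε hε
  obtain ⟨C2, hC20, hC2⟩ := Fin.poly 3 (ε := 2 * ε) (by linarith)
  have hC0 : 0 ≤ C := by
    have h := hC 0
    have h0 : 0 ≤ ∑ t ∈ T 0, |(((blk 0).filter fun p => a p = t).card : ℝ) -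
        ∑ p ∈ blk 0, ∑ b ∈ box (4 * p), if b = t then ν p b else 0| ^ 2 :=
      sum_nonneg fun _ _ => by positivity
    have := h0.trans h
    simpa using this
  refine ⟨C1 + √(2 * C * C2), fun k hk => ?_⟩
  have hin : ∀ t ∈ T k, ∑ p ∈ blk k, ∑ b ∈ box (4 * p), (if b = t then ν p b else 0) =
      ∑ p ∈ blk k, ν p t := by
    intro t ht
    refine sum_congr rfl fun p hp => ?_
    have hp' := Pool.Agent.H414.LT.mem_blk.1 hp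
    have h2 := Pool.Agent.H414.LT.two_le_kk hp'.1.two_le
    rw [hp'.2] at h2
    have hm : t ∈ box (4 * p) := by
      have h3 := hsub k hk ht
      unfold box at h3 ⊢
      rw [mem_Icc] at h3 ⊢
      have h5 : Nat.sqrt (2 ^ k) ≤ Nat.sqrt (4 * p) := Nat.sqrt_le_sqrt (by omega)
      have h6 : (Nat.sqrt (2 ^ k) : ℤ) ≤ (Nat.sqrt (4 * p) : ℤ) := by exact_mod_cast h5
      omega
    rw [sum_ite_eq' (box (4 * p)) t, if_pos hm]
  have hA : ∑ t ∈ T k, |(((blk k).filter fun p => a p = t).card : ℝ) - ∑ p ∈ blk k, ν p t| ≤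
      √(2 * C * C2) * e2 (k * (1 / 2 + ε)) := by
    have h1 : (∑ t ∈ T k, |(((blk k).filter fun p => a p = t).card : ℝ) - ∑ p ∈ blk k, ν p t|) ^ 2 ≤
        (T k).card * ∑ t ∈ T k,
          |(((blk k).filter fun p => a p = t).card : ℝ) - ∑ p ∈ blk k, ν p t| ^ 2 :=
      sq_sum_le_card_mul_sum_sq
    have h2 : ∑ t ∈ T k,
          |(((blk k).filter fun p => a p = t).card : ℝ) - ∑ p ∈ blk k, ν p t| ^ 2 ≤
          C * (k + 1) ^ 2 * 2 ^ k := by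
      refine le_trans (le_of_eq ?_) (hC k)
      refine sum_congr rfl fun t ht => ?_
      rw [hin t ht]
    have h3 : (T k).card * ∑ t ∈ T k,
          |(((blk k).filter fun p => a p = t).card : ℝ) - ∑ p ∈ blk k, ν p t| ^ 2 ≤
          (2 * ((k : ℝ) + 1)) * (C * (k + 1) ^ 2 * 2 ^ k) :=
      mul_le_mul (Fin.card_T k) h2 (sum_nonneg fun _ _ => by positivity) (by positivity)
    have h4 : (2 * ((k : ℝ) + 1)) * (C * (k + 1) ^ 2 * 2 ^ k) ≤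
        2 * C * C2 * (e2 (k * (1 / 2 + ε))) ^ 2 := by
      have h5 : (e2 (k * (1 / 2 + ε))) ^ 2 = e2 (k * (2 * ε)) * 2 ^ k := by
        rw [pow_two, ← Fin.e2_add]
        have : (2 : ℝ) ^ k = e2 k := by unfold e2; rw [Real.rpow_natCast]
        rw [this, ← Fin.e2_add]
        congr 1
        ring
      rw [h5]
      have h6 := hC2 k
      have h7 : (2 * ((k : ℝ) + 1)) * (C * (k + 1) ^ 2 * 2 ^ k) =
          (2 * C * 2 ^ k) * ((k : ℝ) + 1) ^ 3 := by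
        ring
      rw [h7]
      have h8 : 2 * C * C2 * (e2 (k * (2 * ε)) * 2 ^ k) =
          (2 * C * 2 ^ k) * (C2 * e2 (k * (2 * ε))) := by ring
      rw [h8]
      exact mul_le_mul_of_nonneg_left h6 (by positivity)
    have h9 : (∑ t ∈ T k, |(((blk k).filter fun p => a p = t).card : ℝ) - ∑ p ∈ blk k, ν p t|) ^ 2 ≤
        (√(2 * C * C2) * e2 (k * (1 / 2 + ε))) ^ 2 := by
      rw [mul_pow, Real.sq_sqrt (by positivity)]
      exact (h1.trans h3).trans h4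
    exact le_of_sq_le_sq h9 (mul_nonneg (Real.sqrt_nonneg _) (Fin.e2_pos _).le)
  have hB : ∑ t ∈ T k, |(((blk k).filter fun p => a p = t).card : ℝ) - f k t| ≤
      ∑ t ∈ T k, |(((blk k).filter fun p => a p = t).card : ℝ) - ∑ p ∈ blk k, ν p t| +
      ∑ t ∈ T k, |∑ p ∈ blk k, ν p t - f k t| := by
    rw [← sum_add_distrib]
    refine sum_le_sum fun t _ => ?_
    exact abs_sub_le _ _ _
  refine hB.trans ((add_le_add hA (hC1 k hk)).trans (le_of_eq ?_))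
  ring

/-- The bounds with respect to `ν` and the small bias give the bounds with respect to `μ`. -/
theorem Fin.bounds (μ ν : ℕ → ℤ → ℝ) (c : ℕ → ℕ → ℂ)
    (hc : ∀ i p, ‖c i p‖ ≤ 1) (a : ℕ → ℤ)
    (hb : ∀ (i : ℕ) (ε : ℝ), 0 < ε → ∃ C : ℝ, ∀ (n q : ℕ) [NeZero q] (F : ZMod q × ZMod q → ℂ) (x : ℕ),
      ‖∑ p ∈ primesUpTo x, c i p * ((U n (nt p (a p)) : ℂ) * F (p, a p) -
        ∑ b ∈ box (4 * p), (ν p b : ℂ) * ((U n (nt p b) : ℂ) * F (p, b)))‖ ≤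
        C * ((n : ℝ) + 1) ^ (1 + ε) * q * l2 F * √((x : ℝ) + 1))
    (hs : ∀ ε : ℝ, 0 < ε → ∃ C'' : ℝ, ∀ (c : ℕ → ℂ), (∀ p, ‖c p‖ ≤ 1) → ∀ (n q : ℕ) [NeZero q]
    (F : ZMod q × ZMod q → ℂ) (x : ℕ),
    ‖∑ p ∈ primesUpTo x, c p * ∑ b ∈ box (4 * p), ((ν p b - μ p b : ℝ) : ℂ) *
      ((U n (nt p b) : ℂ) * F (p, b))‖ ≤
      C'' * ((n : ℝ) + 1) * q * l2 F * ((x : ℝ) + 1) ^ (1 / 2 + ε)) :
    HasBound μ c a := by
  intro i ε hε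
  obtain ⟨C1, hC1⟩ := hb i ε hε
  obtain ⟨C2, hC2⟩ := hs ε hε
  refine ⟨|C1| + |C2|, fun n q _ F x => ?_⟩
  have h1 := hC1 n q F x
  have h2 := hC2 (c i) (hc i) n q F x
  have e : ∑ p ∈ primesUpTo x, c i p * ((U n (nt p (a p)) : ℂ) * F (p, a p) -
      ∑ b ∈ box (4 * p), (μ p b : ℂ) * ((U n (nt p b) : ℂ) * F (p, b))) =
      ∑ p ∈ primesUpTo x, c i p * ((U n (nt p (a p)) : ℂ) * F (p, a p) -
        ∑ b ∈ box (4 * p), (ν p b : ℂ) * ((U n (nt p b) : ℂ) * F (p, b))) +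
      ∑ p ∈ primesUpTo x, c i p * ∑ b ∈ box (4 * p),
        ((ν p b - μ p b : ℝ) : ℂ) * ((U n (nt p b) : ℂ) * F (p, b)) := by
    rw [← sum_add_distrib]
    refine sum_congr rfl fun p _ => ?_
    rw [← mul_add]
    congr 1
    have : ∑ b ∈ box (4 * p), ((ν p b - μ p b : ℝ) : ℂ) * ((U n (nt p b) : ℂ) * F (p, b)) =
        ∑ b ∈ box (4 * p), (ν p b : ℂ) * ((U n (nt p b) : ℂ) * F (p, b)) -
        ∑ b ∈ box (4 * p), (μ p b : ℂ) * ((U n (nt p b) : ℂ) * F (p, b)) := by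
      rw [← sum_sub_distrib]
      refine sum_congr rfl fun b _ => ?_
      push_cast
      ring
    rw [this]
    ring
  rw [e]
  refine (norm_add_le _ _).trans ?_
  have hq : 0 ≤ (q : ℝ) := Nat.cast_nonneg _
  have hl : 0 ≤ l2 F := Real.sqrt_nonneg _
  have hn : (1 : ℝ) ≤ (n : ℝ) + 1 := by linarith [Nat.cast_nonneg (α := ℝ) n]
  have hx : (1 : ℝ) ≤ (x : ℝ) + 1 := by linarith [Nat.cast_nonneg (α := ℝ) x]
  have hsq : √((x : ℝ) + 1) ≤ ((x : ℝ) + 1) ^ (1 / 2 + ε) := by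
    rw [Real.sqrt_eq_rpow]
    exact Real.rpow_le_rpow_of_exponent_le hx (by linarith)
  have hnn : (n : ℝ) + 1 ≤ ((n : ℝ) + 1) ^ (1 + ε) := by
    have := Real.rpow_le_rpow_of_exponent_le hn (show (1 : ℝ) ≤ 1 + ε by linarith)
    rwa [Real.rpow_one] at this
  have hn0 : 0 ≤ ((n : ℝ) + 1) ^ (1 + ε) := by positivity
  have hx0 : 0 ≤ ((x : ℝ) + 1) ^ (1 / 2 + ε) := by positivity
  have h3 : C1 * ((n : ℝ) + 1) ^ (1 + ε) * q * l2 F * √((x : ℝ) + 1) ≤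
      |C1| * ((n : ℝ) + 1) ^ (1 + ε) * q * l2 F * ((x : ℝ) + 1) ^ (1 / 2 + ε) := by
    have h4 : C1 * (((n : ℝ) + 1) ^ (1 + ε) * q * l2 F * √((x : ℝ) + 1)) ≤
        |C1| * (((n : ℝ) + 1) ^ (1 + ε) * q * l2 F * √((x : ℝ) + 1)) :=
      mul_le_mul_of_nonneg_right (le_abs_self C1) (by positivity)
    have h5 : |C1| * (((n : ℝ) + 1) ^ (1 + ε) * q * l2 F * √((x : ℝ) + 1)) ≤
        |C1| * (((n : ℝ) + 1) ^ (1 + ε) * q * l2 F * ((x : ℝ) + 1) ^ (1 / 2 + ε)) := by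
      gcongr
    nlinarith [h4, h5]
  have h6 : C2 * ((n : ℝ) + 1) * q * l2 F * ((x : ℝ) + 1) ^ (1 / 2 + ε) ≤
      |C2| * ((n : ℝ) + 1) ^ (1 + ε) * q * l2 F * ((x : ℝ) + 1) ^ (1 / 2 + ε) := by
    have h4 : C2 * (((n : ℝ) + 1) * q * l2 F * ((x : ℝ) + 1) ^ (1 / 2 + ε)) ≤
        |C2| * (((n : ℝ) + 1) * q * l2 F * ((x : ℝ) + 1) ^ (1 / 2 + ε)) :=
      mul_le_mul_of_nonneg_right (le_abs_self C2) (by positivity)
    have h5 : |C2| * (((n : ℝ) + 1) * q * l2 F * ((x : ℝ) + 1) ^ (1 / 2 + ε)) ≤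
        |C2| * (((n : ℝ) + 1) ^ (1 + ε) * q * l2 F * ((x : ℝ) + 1) ^ (1 / 2 + ε)) := by
      gcongr
    nlinarith [h4, h5]
  refine (add_le_add (h1.trans h3) (h2.trans h6)).trans (le_of_eq ?_)
  ring

/-- The construction. -/
theorem construct (hMAS : S_MAS) (hPOS : S_POS) (hTOT : S_TOT) (hCNT : S_CNT) (hMOMN : S_MOMN)
    (hSEL : S_SEL) (hBLK : S_BLK) (hSUM : S_SUM) (hMODIF : S_MODIF)
    (μ : ℕ → ℤ → ℝ) (hμ : IsRef μ)
    (c : ℕ → ℕ → ℂ) (hc : ∀ i p, ‖c i p‖ ≤ 1) (δ : ℝ) (hδ : 0 < δ)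
    (f : ℕ → ℤ → ℕ)
    (hf : ∀ k, ((∑ t ∈ T k, f k t : ℕ) : ℝ) ≤ e2 (k * (3 / 4 - δ))) :
    ∃ a : ℕ → ℤ, IsSystem a ∧ HasBound μ c a ∧
      ∃ k₁ : ℕ, ∀ k, k₁ ≤ k → ∀ t ∈ T k, ((blk k).filter fun p => a p = t).card = f k t := by
  obtain ⟨m, k₀, C', hm⟩ := hMAS δ f hδ hf
  obtain ⟨k₁, h01, hpos⟩ := hPOS μ δ f m k₀ C' hμ hδ hm
  have hsub : ∀ k, k₁ ≤ k → T k ⊆ box (2 ^ k) := fun k hk => hm.sub k (h01.trans hk)
  have htot := hTOT μ δ f m k₀ C' k₁ hμ hm h01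
  have hcnt := hCNT μ δ f m k₀ C' hμ hδ hm k₁ h01
  have hmom := hMOMN μ δ f m k₀ C' k₁ hμ hδ hm h01
  obtain ⟨a, ha, hb, C3, hC3⟩ := hSEL (nu μ m k₁) c hpos htot hmom hc
  have hblk := hBLK μ δ f m k₀ C' k₁ hμ hδ hm h01 hpos htot
  have hs := hSUM μ m k₁ hblk
  have hB : HasBound μ c a := Fin.bounds μ (nu μ m k₁) c hc a hb hs
  have hN := Fin.numbers (nu μ m k₁) f k₁ hsub a hcnt C3 hC3
  exact hMODIF μ c δ f a k₁ hδ hc hf ha hB hN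

end Pool.Agent.H414.MX
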