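import Pool.Agent.H414.MX.Spec

/-!
Fourier expansion of functions modulo `q`.
-/

set_option autoImplicit false

namespace Pool.Agent.H414.MX

open Finset

namespace Fou

variable {q : ℕ} [NeZero q]

/-- sums over the residues -/
theorem sum_range_zmod (F : ZMod q → ℂ) : ∑ β ∈ range q, F (β : ZMod q) = ∑ x : ZMod q, F x := by
  refine sum_nbij' (fun β : ℕ => (β : ZMod q)) (fun x => x.val) ?_ ?_ ?_ ?_ ?_
  · intro β _
    exact mem_univ _
  · intro x _
    exact mem_range.2 (ZMod.val_lt x)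
  · intro β hβ
    exact ZMod.val_cast_of_lt (mem_range.1 hβ)
  · intro x _
    exact ZMod.natCast_zmod_val x
  · intro β _
    rfl

theorem sum_range_zmod' (F : ZMod q → ℝ) : ∑ β ∈ range q, F (β : ZMod q) = ∑ x : ZMod q, F x := by
  refine sum_nbij' (fun β : ℕ => (β : ZMod q)) (fun x => x.val) ?_ ?_ ?_ ?_ ?_
  · intro β _
    exact mem_univ _
  · intro x _
    exact mem_range.2 (ZMod.val_lt x)
  · intro β hβ
    exact ZMod.val_cast_of_lt (mem_range.1 hβ)
  · intro x _
    exact ZMod.natCast_zmod_val x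
  · intro β _
    rfl

/-- the unnormalised Fourier transform -/
noncomputable def S (G : ZMod q → ℂ) (β : ZMod q) : ℂ :=
  ∑ c : ZMod q, G c * ZMod.stdAddChar (-(β * c))

theorem orth (b : ZMod q) : ∑ x : ZMod q, (ZMod.stdAddChar (x * b) : ℂ) =
    if b = 0 then (q : ℂ) else 0 := by
  rw [AddChar.sum_mulShift b (ZMod.isPrimitive_stdAddChar q), ZMod.card]
  split_ifs <;> simp

/-- inversion -/
theorem inv (G : ZMod q → ℂ) (b : ZMod q) :
    ∑ β : ZMod q, S G β * ZMod.stdAddChar (β * b) = q * G b := by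
  unfold S
  have e : ∀ β : ZMod q, (∑ c : ZMod q, G c * ZMod.stdAddChar (-(β * c))) *
      ZMod.stdAddChar (β * b) = ∑ c : ZMod q, G c * ZMod.stdAddChar (β * (b - c)) := by
    intro β
    rw [sum_mul]
    refine sum_congr rfl fun c _ => ?_
    rw [mul_assoc, ← AddChar.map_add_eq_mul]
    congr 2
    ring
  rw [sum_congr rfl fun β _ => e β, sum_comm]
  have e2 : ∀ c : ZMod q, ∑ β : ZMod q, G c * (ZMod.stdAddChar (β * (b - c)) : ℂ) =
      if c = b then q * G b else 0 := by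
    intro c
    rw [← mul_sum, orth]
    by_cases h : c = b
    · rw [if_pos h, if_pos (by rw [h, sub_self]), h, mul_comm]
    · rw [if_neg h, if_neg (fun h1 => h (sub_eq_zero.1 h1).symm), mul_zero]
  rw [sum_congr rfl fun c _ => e2 c, sum_ite_eq' univ b, if_pos (mem_univ b)]

/-- Parseval -/
theorem parseval (G : ZMod q → ℂ) : ∑ β : ZMod q, ‖S G β‖ ^ 2 = q * ∑ c, ‖G c‖ ^ 2 := by
  have h : ((∑ β : ZMod q, ‖S G β‖ ^ 2 : ℝ) : ℂ) = ((q * ∑ c, ‖G c‖ ^ 2 : ℝ) : ℂ) := by
    push_cast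
    have e1 : ∀ β : ZMod q, ((‖S G β‖ : ℂ)) ^ 2 =
        ∑ c : ZMod q, (starRingEnd ℂ) (G c) * (S G β * ZMod.stdAddChar (β * c)) := by
      intro β
      rw [← Complex.mul_conj']
      conv_lhs => rw [S, map_sum]
      rw [mul_sum]
      refine sum_congr rfl fun c _ => ?_
      rw [map_mul, ← AddChar.map_neg_eq_conj, neg_neg]
      unfold S
      ring
    rw [sum_congr rfl fun β _ => e1 β, sum_comm, mul_sum]
    refine sum_congr rfl fun c _ => ?_
    rw [← mul_sum, inv, ← Complex.mul_conj']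
    ring
  exact_mod_cast h

theorem ee_eq (β : ℕ) (b : ℤ) : ee ((β : ℝ) * b / q) =
    ZMod.stdAddChar (((β : ZMod q)) * (b : ZMod q)) := by
  have h : ((β : ZMod q)) * (b : ZMod q) = (((β : ℤ) * b : ℤ) : ZMod q) := by push_cast; ring
  rw [h, ZMod.stdAddChar_coe]
  unfold ee
  congr 1
  push_cast
  ring

end Fou

theorem fou : S_FOU := by
  intro q _ G
  have hq : (q : ℂ) ≠ 0 := Nat.cast_ne_zero.2 (NeZero.ne q)
  have hq0 : (0 : ℝ) < q := Nat.cast_pos.2 (Nat.pos_of_ne_zero (NeZero.ne q))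
  refine ⟨fun β => Fou.S G (β : ZMod q) / q, fun b => ?_, ?_⟩
  · have h1 : ∀ β ∈ range q, Fou.S G (β : ZMod q) / q * ee ((β : ℝ) * b / q) =
        (fun x : ZMod q => Fou.S G x * ZMod.stdAddChar (x * (b : ZMod q)) / q) (β : ZMod q) := by
      intro β _
      rw [Fou.ee_eq]
      ring
    have h2 := Fou.sum_range_zmod (q := q)
      (fun x : ZMod q => Fou.S G x * ZMod.stdAddChar (x * (b : ZMod q)) / q)
    rw [sum_congr rfl h1]
    refine Eq.trans ?_ h2.symm
    rw [← sum_div, Fou.inv, mul_div_cancel_left₀ _ hq]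
  · have h1 : ∀ β ∈ range q, ‖Fou.S G (β : ZMod q) / q‖ =
        (fun x : ZMod q => ‖Fou.S G x‖ / q) (β : ZMod q) := by
      intro β _
      rw [norm_div, Complex.norm_natCast]
    have h3 := Fou.sum_range_zmod' (q := q) (fun x : ZMod q => ‖Fou.S G x‖ / q)
    rw [sum_congr rfl h1]
    refine (le_of_eq h3).trans ?_
    rw [← sum_div, div_le_iff₀ hq0]
    have h2 := sq_sum_le_card_mul_sum_sq (s := (univ : Finset (ZMod q))) (f := fun x => ‖Fou.S G x‖)
    rw [Fou.parseval, card_univ, ZMod.card] at h2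
    unfold l2
    rw [← Real.sqrt_sq hq0.le, ← Real.sqrt_mul (sum_nonneg fun _ _ => sq_nonneg _)]
    refine Real.le_sqrt_of_sq_le (h2.trans (le_of_eq ?_))
    ring

end Pool.Agent.H414.MX
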