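import Pool.Agent.H414.MX.Spec

/-!
# S_FRA of the project MX: fractions
-/

set_option autoImplicit false

namespace Pool.Agent.H414.MX

open Finset

namespace Fra

theorem nd_add_int (x : ℝ) (m : ℤ) : nd (x + m) = nd x := by
  unfold nd
  rw [round_add_intCast]
  push_cast
  ring_nf

theorem mem_cop {q c : ℕ} : c ∈ cop q ↔ c < q ∧ c.Coprime q := by
  unfold cop
  rw [mem_filter, mem_range]

/-- different fractions -/
theorem one {q q' c c' : ℕ} (hq : 1 ≤ q) (hq' : 1 ≤ q') (hc : c ∈ cop q) (hc' : c' ∈ cop q')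
    (hne : (q, c) ≠ (q', c')) : 1 / ((q : ℝ) * q') ≤ nd ((c : ℝ) / q - (c' : ℝ) / q') := by
  rw [mem_cop] at hc hc'
  unfold nd
  generalize round ((c : ℝ) / q - (c' : ℝ) / q') = m
  have h1 : (0 : ℝ) < q := by exact_mod_cast hq
  have h2 : (0 : ℝ) < q' := by exact_mod_cast hq'
  have e : (c : ℝ) / q - (c' : ℝ) / q' - m =
      (((c : ℤ) * q' - c' * q - m * (q * q') : ℤ) : ℝ) / ((q : ℝ) * q') := by
    push_cast
    field_simp
  rw [e, abs_div, abs_of_pos (mul_pos h1 h2)]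
  apply div_le_div_of_nonneg_right _ (mul_pos h1 h2).le
  have hN : ((c : ℤ) * q' - c' * q - m * (q * q') : ℤ) ≠ 0 := by
    intro h
    have b1 : (c : ℤ) < q := by exact_mod_cast hc.1
    have b2 : (c' : ℤ) < q' := by exact_mod_cast hc'.1
    have c0 : (0 : ℤ) ≤ c := Int.natCast_nonneg _
    have c0' : (0 : ℤ) ≤ c' := Int.natCast_nonneg _
    have q0 : (0 : ℤ) < q := by exact_mod_cast hq
    have q0' : (0 : ℤ) < q' := by exact_mod_cast hq'
    have d1 : (c : ℤ) * q' < q * q' := mul_lt_mul_of_pos_right b1 q0'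
    have d2 : (c' : ℤ) * q < q' * q := mul_lt_mul_of_pos_right b2 q0
    have d3 : (0 : ℤ) ≤ (c : ℤ) * q' := mul_nonneg c0 q0'.le
    have d4 : (0 : ℤ) ≤ (c' : ℤ) * q := mul_nonneg c0' q0.le
    have qq : (0 : ℤ) < (q : ℤ) * q' := mul_pos q0 q0'
    have m1 : m < 1 := by
      by_contra hcon
      push Not at hcon
      have := mul_le_mul_of_nonneg_right hcon qq.le
      linarith
    have m2 : -1 < m := by
      by_contra hcon
      push Not at hcon
      have := mul_le_mul_of_nonneg_right hcon qq.le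
      have e' : (q' : ℤ) * q = q * q' := mul_comm _ _
      linarith
    have m0 : m = 0 := by omega
    rw [m0, zero_mul, sub_zero] at h
    have h3 : (c : ℤ) * q' = c' * q := by linarith
    have h4 : c * q' = c' * q := by exact_mod_cast h3
    have h5 : q ∣ q' := hc.2.symm.dvd_of_dvd_mul_left (Dvd.intro_left c' h4.symm)
    have h6 : q' ∣ q := hc'.2.symm.dvd_of_dvd_mul_left (Dvd.intro_left c h4)
    have h7 : q = q' := Nat.dvd_antisymm h5 h6
    subst h7
    have h8 : c = c' := Nat.eq_of_mul_eq_mul_right hq h4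
    exact hne (by rw [h8])
  have := Int.one_le_abs hN
  exact_mod_cast this

end Fra

open Fra in
/-- **FRA** -/
theorem fra : S_FRA := by
  refine ⟨fun q q' c c' hq hq' hc hc' hne => one hq hq' hc hc' hne, ?_⟩
  intro q β hq hβ
  obtain ⟨γ, hγ⟩ : ∃ γ, γ = (q - β) % q := ⟨_, rfl⟩
  have g1 : γ < q := by rw [hγ]; exact Nat.mod_lt _ hq
  have g2 : q ∣ γ + β := by
    rcases Nat.eq_zero_or_pos β with h | h
    · have : γ = 0 := by rw [hγ, h, Nat.sub_zero, Nat.mod_self]
      rw [this, h]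
      exact dvd_zero q
    · have : γ = q - β := by rw [hγ]; exact Nat.mod_eq_of_lt (by omega)
      have e : γ + β = q := by omega
      rw [e]
  obtain ⟨d, hd⟩ : ∃ d, d = Nat.gcd γ q := ⟨_, rfl⟩
  have d0 : 0 < d := by rw [hd]; exact Nat.gcd_pos_of_pos_right _ hq
  have dq : d ∣ q := by rw [hd]; exact Nat.gcd_dvd_right _ _
  have dγ : d ∣ γ := by rw [hd]; exact Nat.gcd_dvd_left _ _
  obtain ⟨q₀, hq₀⟩ := dq
  obtain ⟨c₀, hc₀⟩ := dγ
  have q1 : 1 ≤ q₀ := by
    rcases Nat.eq_zero_or_pos q₀ with h | h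
    · rw [h, mul_zero] at hq₀; omega
    · exact h
  have q2 : q₀ ≤ q := by
    rw [hq₀]; exact Nat.le_mul_of_pos_left _ d0
  have c1 : c₀ ∈ cop q₀ := by
    rw [mem_cop]
    constructor
    · rw [hq₀, hc₀] at g1
      exact Nat.lt_of_mul_lt_mul_left g1
    · have h := Nat.coprime_div_gcd_div_gcd (m := γ) (n := q) (by rw [← hd]; exact d0)
      rw [← hd] at h
      have e1 : γ / d = c₀ := by rw [hc₀]; exact Nat.mul_div_cancel_left _ d0
      have e2 : q / d = q₀ := by rw [hq₀]; exact Nat.mul_div_cancel_left _ d0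
      rwa [e1, e2] at h
  obtain ⟨m, hm⟩ := g2
  have hqR : (0 : ℝ) < q := by exact_mod_cast hq
  have hq0R : (0 : ℝ) < q₀ := by exact_mod_cast q1
  have hdR : (0 : ℝ) < d := by exact_mod_cast d0
  have key : (c₀ : ℝ) / q₀ + (β : ℝ) / q = ((m : ℤ) : ℝ) := by
    have e1 : (q : ℝ) = d * q₀ := by exact_mod_cast hq₀
    have e2 : (γ : ℝ) = d * c₀ := by exact_mod_cast hc₀
    have e3 : (γ : ℝ) + β = q * m := by exact_mod_cast hm
    have e4 : (c₀ : ℝ) / q₀ = γ / q := by
      rw [e1, e2]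
      field_simp
    rw [e4, ← add_div, e3, mul_comm, mul_div_assoc, div_self hqR.ne', mul_one]
    norm_cast
  refine ⟨q₀, c₀, q1, q2, c1, ⟨m, key⟩, ?_⟩
  intro q' c hq' hc hne
  have h1 := one hq' q1 hc c1 hne
  have e : (c : ℝ) / q' + (β : ℝ) / q = (c : ℝ) / q' - (c₀ : ℝ) / q₀ + ((m : ℤ) : ℝ) := by
    rw [← key]
    ring
  rw [e, nd_add_int]
  refine le_trans ?_ h1
  have hq'R : (0 : ℝ) < q' := by exact_mod_cast hq'
  have q2R : (q₀ : ℝ) ≤ q := by exact_mod_cast q2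
  apply one_div_le_one_div_of_le (mul_pos hq'R hq0R)
  rw [mul_comm]
  exact mul_le_mul_of_nonneg_right q2R hq'R.le

end Pool.Agent.H414.MX
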