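import Pool.Agent.H414.MX.Spec

/-!
Project MX, task Kb (helper976 for helper414): bounds for the kernel.
-/

set_option autoImplicit false

namespace Pool.Agent.H414.MX

open Finset
open Pool.Agent.H414.LT (primesUpTo blk kk U)
open Pool.Agent.H414.DF (e2)

namespace Kb

theorem e2_pos (x : ℝ) : 0 < e2 x := by
  unfold e2
  positivity

theorem e2_add (x y : ℝ) : e2 (x + y) = e2 x * e2 y := by
  unfold e2
  exact Real.rpow_add (by norm_num) x y

theorem H_ge (k : ℕ) : e2 (k / 4) ≤ (H k : ℝ) := Nat.le_ceil _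

theorem H_pos (k : ℕ) : 0 < H k := by
  have h := (e2_pos _).trans_le (H_ge k)
  exact_mod_cast h

theorem Q_le (k : ℕ) : (Qk k : ℝ) ≤ e2 (k / 6) := Nat.floor_le (e2_pos _).le

theorem tri_le (hTRI : S_TRI) (k q : ℕ) (hq : 1 ≤ q) (a : ℤ) :
    |tri (q * H k) a| ≤ e2 (-(k / 4)) * (1 / q) := by
  have hL : 1 ≤ q * H k := Nat.mul_pos hq (H_pos k)
  obtain ⟨-, h2, -, -⟩ := hTRI (q * H k) hL
  obtain ⟨h3, h4⟩ := h2 a
  rw [abs_of_nonneg h3]
  refine h4.trans ?_
  have hq' : (0 : ℝ) < q := by exact_mod_cast hq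
  have hH : (0 : ℝ) < H k := by exact_mod_cast H_pos k
  have h5 : e2 (k / 4) * e2 (-(k / 4)) = 1 := by
    rw [← e2_add, add_neg_cancel]
    unfold e2
    exact Real.rpow_zero _
  rw [Nat.cast_mul, mul_one_div, div_le_div_iff₀ (by positivity) hq', one_mul]
  have h6 : 1 ≤ e2 (-(k / 4)) * (H k : ℝ) := by
    rw [← h5, mul_comm]
    exact mul_le_mul_of_nonneg_left (H_ge k) (e2_pos _).le
  calc (q : ℝ) = 1 * q := (one_mul _).symm
    _ ≤ (e2 (-(k / 4)) * (H k : ℝ)) * q := mul_le_mul_of_nonneg_right h6 hq'.le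
    _ = e2 (-(k / 4)) * (q * H k) := by ring

theorem ram_zero (hRAM : S_RAM) (q : ℕ) (hq : 1 ≤ q) : |ram q 0| ≤ q := by
  have h := (hRAM q 0 hq).1
  have h1 : ((|ram q 0| : ℝ)) = ‖(ram q 0 : ℂ)‖ := by
    rw [Complex.norm_real, Real.norm_eq_abs]
  rw [h1, h]
  refine (norm_sum_le _ _).trans ?_
  have h2 : ∀ c ∈ cop q, ‖ee ((c : ℝ) * ((0 : ℤ) : ℝ) / q)‖ ≤ 1 := by
    intro c _
    unfold ee
    rw [Int.cast_zero, mul_zero, zero_div, Complex.ofReal_zero, mul_zero, zero_mul,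
      Complex.exp_zero, norm_one]
  refine (Finset.sum_le_sum h2).trans ?_
  rw [Finset.sum_const, nsmul_eq_mul, mul_one]
  have h3 : (cop q).card ≤ q := by
    refine (Finset.card_filter_le _ _).trans ?_
    rw [Finset.card_range]
  exact_mod_cast h3

theorem log_Q (k : ℕ) : 1 + Real.log (Qk k) ≤ (k : ℝ) + 1 := by
  have h1 : (1 : ℝ) ≤ e2 (k / 6) := by
    unfold e2
    exact Real.one_le_rpow (by norm_num) (by positivity)
  have h2 : 1 ≤ Qk k := Nat.le_floor (by rw [Nat.cast_one]; exact h1)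
  have h3 : (0 : ℝ) < Qk k := by exact_mod_cast h2
  have h4 : Real.log (Qk k) ≤ (k / 6) * Real.log 2 := by
    refine (Real.log_le_log h3 (Q_le k)).trans (le_of_eq ?_)
    unfold e2
    exact Real.log_rpow (by norm_num) _
  have h5 : Real.log 2 ≤ 1 := by
    have := Real.log_two_lt_d9
    linarith
  have h6 : (0 : ℝ) ≤ (k : ℝ) / 6 := by positivity
  have h7 : (k / 6) * Real.log 2 ≤ (k : ℝ) / 6 * 1 := mul_le_mul_of_nonneg_left h5 h6
  have h8 : (0 : ℝ) ≤ k := Nat.cast_nonneg k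
  linarith

theorem mult_sum (Q d : ℕ) (hd : 1 ≤ d) :
    ∑ q ∈ (Icc 1 Q).filter (fun q => d ∣ q), (d : ℝ) * (1 / q) ≤ 1 + Real.log Q := by
  have h1 : ∑ q ∈ (Icc 1 Q).filter (fun q => d ∣ q), (d : ℝ) * (1 / q) =
      ∑ e ∈ ((Icc 1 Q).filter (fun q => d ∣ q)).image (fun q => q / d), ((e : ℝ))⁻¹ := by
    rw [Finset.sum_image]
    · refine Finset.sum_congr rfl fun q hq => ?_
      rw [Finset.mem_filter, Finset.mem_Icc] at hq
      obtain ⟨⟨hq1, -⟩, e, rfl⟩ := hq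
      have hd' : (0 : ℝ) < d := by exact_mod_cast hd
      have he : 0 < e := by
        rcases Nat.eq_zero_or_pos e with h0 | h0
        · rw [h0, mul_zero] at hq1
          exact absurd hq1 (by norm_num)
        · exact h0
      have he' : (0 : ℝ) < e := by exact_mod_cast he
      rw [Nat.mul_div_cancel_left e hd, Nat.cast_mul]
      field_simp
    · intro x hx y hy hxy
      rw [Finset.mem_coe, Finset.mem_filter] at hx hy
      obtain ⟨-, e, rfl⟩ := hx
      obtain ⟨-, e', rfl⟩ := hy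
      simp only [Nat.mul_div_cancel_left _ hd] at hxy
      rw [hxy]
  rw [h1]
  have h2 : ((Icc 1 Q).filter (fun q => d ∣ q)).image (fun q => q / d) ⊆ Icc 1 Q := by
    intro e he
    rw [Finset.mem_image] at he
    obtain ⟨q, hq, rfl⟩ := he
    rw [Finset.mem_filter, Finset.mem_Icc] at hq
    rw [Finset.mem_Icc]
    exact ⟨Nat.div_pos (Nat.le_of_dvd hq.1.1 hq.2) hd, (Nat.div_le_self _ _).trans hq.1.2⟩
  refine (Finset.sum_le_sum_of_subset_of_nonneg h2 fun e _ _ => by positivity).trans ?_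
  have h3 := harmonic_le_one_add_log Q
  rw [harmonic_eq_sum_Icc] at h3
  push_cast at h3
  exact h3

theorem part2 (hTRI : S_TRI) (hRAM : S_RAM) (k : ℕ) (a : ℤ) (ha : a ≠ 0) :
    |K k a| ≤ e2 (-(k / 4)) * (a.natAbs.divisors.card : ℝ) * (k + 1) := by
  have hE := (e2_pos (-(k / 4)))
  have h1 : |K k a| ≤ ∑ q ∈ Icc 1 (Qk k), ∑ d ∈ a.natAbs.divisors,
      (if d ∣ q then e2 (-(k / 4)) * ((d : ℝ) * (1 / q)) else 0) := by
    unfold K
    refine (Finset.abs_sum_le_sum_abs _ _).trans (Finset.sum_le_sum fun q hq => ?_)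
    rw [Finset.mem_Icc] at hq
    rw [abs_mul]
    have h2 : |ram q a| * |tri (q * H k) a| ≤
        (∑ d ∈ q.divisors, (d : ℝ) * (if (d : ℤ) ∣ a then 1 else 0)) *
          (e2 (-(k / 4)) * (1 / q)) :=
      mul_le_mul (hRAM q a hq.1).2 (tri_le hTRI k q hq.1 a) (abs_nonneg _)
        (Finset.sum_nonneg fun d _ => by positivity)
    refine h2.trans (le_of_eq ?_)
    have h3 : ∑ d ∈ q.divisors, (d : ℝ) * (if (d : ℤ) ∣ a then 1 else 0) =
        ∑ d ∈ a.natAbs.divisors, (if d ∣ q then (d : ℝ) else 0) := by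
      have h4 : ∑ d ∈ q.divisors, (d : ℝ) * (if (d : ℤ) ∣ a then 1 else 0) =
          ∑ d ∈ q.divisors.filter (fun d : ℕ => (d : ℤ) ∣ a), (d : ℝ) := by
        rw [Finset.sum_filter]
        exact Finset.sum_congr rfl fun d _ => by split_ifs <;> simp
      rw [h4, ← Finset.sum_filter]
      refine Finset.sum_congr ?_ fun _ _ => rfl
      ext d
      rw [Finset.mem_filter, Finset.mem_filter, Nat.mem_divisors, Nat.mem_divisors,
        Int.natCast_dvd]
      constructor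
      · rintro ⟨⟨g1, -⟩, g3⟩
        exact ⟨⟨g3, Int.natAbs_ne_zero.2 ha⟩, g1⟩
      · rintro ⟨⟨g1, -⟩, g3⟩
        exact ⟨⟨g3, by omega⟩, g1⟩
    rw [h3, Finset.sum_mul]
    refine Finset.sum_congr rfl fun d _ => ?_
    split_ifs
    · ring
    · ring
  refine h1.trans ?_
  rw [Finset.sum_comm]
  have h5 : ∀ d ∈ a.natAbs.divisors, ∑ q ∈ Icc 1 (Qk k),
      (if d ∣ q then e2 (-(k / 4)) * ((d : ℝ) * (1 / q)) else 0) ≤
      e2 (-(k / 4)) * ((k : ℝ) + 1) := by
    intro d hd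
    rw [← Finset.sum_filter, ← Finset.mul_sum]
    refine mul_le_mul_of_nonneg_left ?_ hE.le
    exact (mult_sum (Qk k) d (Nat.pos_of_mem_divisors hd)).trans (log_Q k)
  refine (Finset.sum_le_sum h5).trans (le_of_eq ?_)
  rw [Finset.sum_const, nsmul_eq_mul]
  ring

theorem part1 (hTRI : S_TRI) (hRAM : S_RAM) (k : ℕ) : |K k 0| ≤ e2 (-(k / 12)) := by
  have h1 : |K k 0| ≤ ∑ _q ∈ Icc 1 (Qk k), e2 (-(k / 4)) := by
    unfold K
    refine (Finset.abs_sum_le_sum_abs _ _).trans (Finset.sum_le_sum fun q hq => ?_)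
    rw [Finset.mem_Icc] at hq
    rw [abs_mul]
    have hq' : (0 : ℝ) < q := by exact_mod_cast hq.1
    refine (mul_le_mul (ram_zero hRAM q hq.1) (tri_le hTRI k q hq.1 0) (abs_nonneg _)
      hq'.le).trans (le_of_eq ?_)
    field_simp
  refine h1.trans ?_
  rw [Finset.sum_const, Nat.card_Icc, nsmul_eq_mul, Nat.add_sub_cancel]
  have h2 : e2 (k / 6) * e2 (-(k / 4)) = e2 (-(k / 12)) := by
    rw [← e2_add]
    congr 1
    ring
  rw [← h2]
  exact mul_le_mul_of_nonneg_right (Q_le k) (e2_pos _).le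

theorem part3 (k : ℕ) (a : ℤ) (ha : ((Qk k * H k : ℕ) : ℤ) ≤ |a|) : K k a = 0 := by
  unfold K
  refine Finset.sum_eq_zero fun q hq => ?_
  rw [Finset.mem_Icc] at hq
  have h1 : ((q * H k : ℕ) : ℤ) ≤ |a| := by
    refine le_trans ?_ ha
    exact_mod_cast Nat.mul_le_mul_right (H k) hq.2
  unfold tri
  rw [if_neg (not_lt.2 h1), mul_zero]

end Kb

theorem kb (hTRI : S_TRI) (hRAM : S_RAM) : S_KB := fun k =>
  ⟨Kb.part1 hTRI hRAM k, Kb.part2 hTRI hRAM k, Kb.part3 k⟩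

end Pool.Agent.H414.MX
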