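import Pool.Agent.H414.MX.Spec

set_option autoImplicit false

namespace Pool.Agent.H414.MX

open Finset
open Pool.Agent.H414.LT (primesUpTo blk kk U)
open Pool.Agent.H414.DF (e2)

namespace Mas

theorem e2_pos (x : ℝ) : 0 < e2 x := Real.rpow_pos_of_pos (by norm_num) x

theorem e2_add (x y : ℝ) : e2 (x + y) = e2 x * e2 y := Real.rpow_add (by norm_num) x y

theorem e2_mono {x y : ℝ} (h : x ≤ y) : e2 x ≤ e2 y :=
  Real.rpow_le_rpow_of_exponent_le (by norm_num) h

theorem e2_nat (k : ℕ) : e2 (k : ℝ) = (2 : ℝ) ^ k := Real.rpow_natCast 2 k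

theorem e2_neg_one : e2 (-1) = 1 / 2 := by
  show (2 : ℝ) ^ (-1 : ℝ) = 1 / 2
  rw [Real.rpow_neg_one]
  norm_num

end Mas

open Mas in
theorem mas (hCHE : LT.S_CHE) (hSIZ : S_SIZ) (hKB : S_KB) : S_MAS := by
  intro δ f hδ hf
  obtain ⟨c, hc, hcard⟩ := hCHE
  obtain ⟨k₁, hk₁⟩ := hSIZ
  have hD : ∀ k : ℕ, 12 ≤ k → 1 / 2 ≤ 1 - K k 0 := by
    intro k hk
    have h1 := (hKB k).1
    have h2 : e2 (-((k : ℝ) / 12)) ≤ 1 / 2 := by
      rw [← e2_neg_one]
      apply e2_mono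
      have : (12 : ℝ) ≤ k := by exact_mod_cast hk
      linarith
    have := (abs_le.mp (h1.trans h2)).2
    linarith
  have hcpos : ∀ k : ℕ, 0 < ((blk k).card : ℝ) := by
    intro k
    refine lt_of_lt_of_le ?_ (hcard k)
    positivity
  refine ⟨fun k t => |(f k t : ℝ) / (((blk k).card : ℝ) * (1 - K k 0))|, max k₁ 12, 2 / c,
    ?_, ?_, ?_, ?_, ?_, ?_⟩
  · intro k hk
    obtain ⟨-, -, -, -, -, -, -, h, -⟩ := hk₁ k ((le_max_left _ _).trans hk)
    exact h
  · intro k hk t ht b hb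
    obtain ⟨-, -, -, -, -, -, -, h, h'⟩ := hk₁ k ((le_max_left _ _).trans hk)
    have h1 : b ≠ t := fun e => hb (e ▸ h ht)
    have h2 : ((Qk k * H k : ℕ) : ℤ) ≤ |b - t| := by
      by_contra hlt
      push Not at hlt
      have := h' t ht (b - t) hlt.le
      exact hb (by rwa [add_sub_cancel] at this)
    unfold kap
    rw [if_neg h1, (hKB k).2.2 (b - t) h2, sub_zero]
  · intro k t
    exact abs_nonneg _
  · intro k hk
    have hk' : 12 ≤ k := (le_max_right _ _).trans hk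
    have h2 := hD k hk'
    have h3 : 0 < ((blk k).card : ℝ) * (1 - K k 0) := mul_pos (hcpos k) (by linarith)
    have h4 : c * 2 ^ k / (2 * ((k : ℝ) + 1)) ≤ ((blk k).card : ℝ) * (1 - K k 0) := by
      calc c * 2 ^ k / (2 * ((k : ℝ) + 1)) = (c * 2 ^ k / ((k : ℝ) + 1)) * (1 / 2) := by
            field_simp
        _ ≤ ((blk k).card : ℝ) * (1 - K k 0) :=
            mul_le_mul (hcard k) h2 (by norm_num) (hcpos k).le
    have h5 : 0 < c * 2 ^ k / (2 * ((k : ℝ) + 1)) := by positivity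
    have h1 : ∀ t ∈ T k, |(f k t : ℝ) / (((blk k).card : ℝ) * (1 - K k 0))| ≤
        (2 * ((k : ℝ) + 1) / (c * 2 ^ k)) * (f k t : ℝ) := by
      intro t _
      rw [abs_of_nonneg (div_nonneg (Nat.cast_nonneg _) h3.le)]
      calc (f k t : ℝ) / (((blk k).card : ℝ) * (1 - K k 0))
          ≤ (f k t : ℝ) / (c * 2 ^ k / (2 * ((k : ℝ) + 1))) :=
            div_le_div_of_nonneg_left (Nat.cast_nonneg _) h5 h4
        _ = (2 * ((k : ℝ) + 1) / (c * 2 ^ k)) * (f k t : ℝ) := by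
            field_simp
    refine (Finset.sum_le_sum h1).trans ?_
    rw [← Finset.mul_sum]
    have h6 := hf k
    push_cast at h6
    have h7 : 0 ≤ 2 * ((k : ℝ) + 1) / (c * 2 ^ k) := by positivity
    refine (mul_le_mul_of_nonneg_left h6 h7).trans (le_of_eq ?_)
    have h8 : e2 ((k : ℝ) * (3 / 4 - δ)) = 2 ^ k * e2 (-((k : ℝ) * (1 / 4 + δ))) := by
      rw [← e2_nat, ← e2_add]
      ring_nf
    rw [h8]
    have h9 : (2 : ℝ) ^ k ≠ 0 := by positivity
    field_simp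
  · intro k hk
    have := hD k ((le_max_right _ _).trans hk)
    linarith
  · intro k hk t _
    have h2 := hD k ((le_max_right _ _).trans hk)
    have h2' : 0 < 1 - K k 0 := by linarith
    have h3 : 0 < ((blk k).card : ℝ) * (1 - K k 0) := mul_pos (hcpos k) h2'
    show ((blk k).card : ℝ) * (|(f k t : ℝ) / (((blk k).card : ℝ) * (1 - K k 0))| *
        (1 - K k 0)) = f k t
    rw [abs_of_nonneg (div_nonneg (Nat.cast_nonneg _) h3.le)]
    rw [mul_comm (_ / _) _, ← mul_assoc, mul_div_cancel₀ _ h3.ne']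

end Pool.Agent.H414.MX
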