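import Pool.Agent.H414.MX.Spec

set_option autoImplicit false

namespace Pool.Agent.H414.MX

open Finset
open Pool.Agent.H414.LT (primesUpTo blk kk U)
open Pool.Agent.H414.DF (e2)

namespace Mass

theorem e2_one_le (x : ℝ) (hx : 0 ≤ x) : 1 ≤ e2 x := Real.one_le_rpow (by norm_num) hx

theorem one_le_Qk (k : ℕ) : 1 ≤ Qk k := by
  unfold Qk
  rw [Nat.one_le_floor_iff]
  exact e2_one_le _ (by positivity)

theorem one_le_H (k : ℕ) : 1 ≤ H k := by
  unfold H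
  rw [Nat.one_le_ceil_iff]
  have := e2_one_le ((k : ℝ) / 4) (by positivity)
  linarith

theorem count (L d : ℕ) (hd : 1 ≤ d) (hdL : d ∣ L) (i : ℕ) :
    ((range L).filter (fun j : ℕ => (d : ℤ) ∣ (i : ℤ) - j)).card = L / d := by
  have h1 : (range L).filter (fun j : ℕ => (d : ℤ) ∣ (i : ℤ) - j) =
      (range L).filter (fun j : ℕ => j ≡ i [MOD d]) := by
    refine filter_congr fun j _ => ?_
    rw [← Int.natCast_modEq_iff, Int.modEq_iff_dvd]
  rw [h1, ← Nat.count_eq_card_filter_range, Nat.count_modEq_card L (by omega : 0 < d) i]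
  rw [Nat.mod_eq_zero_of_dvd hdL, if_neg (Nat.not_lt_zero _), add_zero]

theorem sum_tri (hTRI : S_TRI) (L d : ℕ) (hL : 1 ≤ L) (hd : 1 ≤ d) (hdL : d ∣ L) :
    ∑ a ∈ Icc (-(L : ℤ)) L, tri L a * (if (d : ℤ) ∣ a then 1 else 0) = 1 / (d : ℝ) := by
  have h1 := (hTRI L hL).1 (fun a => if (d : ℤ) ∣ a then 1 else 0)
  have h2 : ∀ i ∈ range L, ∑ j ∈ range L, (if (d : ℤ) ∣ (i : ℤ) - (j : ℤ) then (1 : ℂ) else 0) =
      ((L / d : ℕ) : ℂ) := by
    intro i _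
    rw [← sum_filter, sum_const, nsmul_eq_mul, mul_one, count L d hd hdL i]
  have h1' : ∑ a ∈ Icc (-(L : ℤ)) L, (tri L a : ℂ) * (if (d : ℤ) ∣ a then 1 else 0) =
      (1 / (L : ℂ) ^ 2) * ∑ i ∈ range L, ∑ j ∈ range L,
        (if (d : ℤ) ∣ (i : ℤ) - (j : ℤ) then (1 : ℂ) else 0) := h1
  rw [sum_congr rfl h2, sum_const, card_range, nsmul_eq_mul] at h1'
  obtain ⟨m, rfl⟩ := hdL
  have hm : 1 ≤ m := by
    rcases Nat.eq_zero_or_pos m with h | h
    · subst h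
      omega
    · exact h
  rw [Nat.mul_div_cancel_left m (by omega)] at h1'
  have hd0 : (d : ℂ) ≠ 0 := by exact_mod_cast (by omega : d ≠ 0)
  have hm0 : (m : ℂ) ≠ 0 := by exact_mod_cast (by omega : m ≠ 0)
  have h3 : (1 / ((d * m : ℕ) : ℂ) ^ 2) * (((d * m : ℕ) : ℂ) * (m : ℂ)) = 1 / (d : ℂ) := by
    push_cast
    field_simp
  rw [h3] at h1'
  have h4 : ((∑ a ∈ Icc (-((d * m : ℕ) : ℤ)) ((d * m : ℕ) : ℤ), tri (d * m) a *
      (if (d : ℤ) ∣ a then 1 else 0) : ℝ) : ℂ) = ((1 / (d : ℝ) : ℝ) : ℂ) := by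
    rw [Complex.ofReal_sum]
    rw [Complex.ofReal_div, Complex.ofReal_one, Complex.ofReal_natCast, ← h1']
    refine sum_congr rfl fun a _ => ?_
    split_ifs
    · rw [mul_one, mul_one]
    · rw [mul_zero, mul_zero, Complex.ofReal_zero]
  exact Complex.ofReal_injective h4

theorem sum_moebius (q : ℕ) :
    ∑ x ∈ q.divisorsAntidiagonal, (ArithmeticFunction.moebius x.1 : ℝ) = if q = 1 then 1 else 0 := by
  rw [Nat.sum_divisorsAntidiagonal (f := fun i _ => (ArithmeticFunction.moebius i : ℝ))]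
  have h1 : ∑ i ∈ q.divisors, ArithmeticFunction.moebius i = if q = 1 then 1 else 0 := by
    rw [← ArithmeticFunction.coe_mul_zeta_apply, ArithmeticFunction.moebius_mul_coe_zeta,
      ArithmeticFunction.one_apply]
  have h2 : ((∑ i ∈ q.divisors, ArithmeticFunction.moebius i : ℤ) : ℝ) =
      ((if q = 1 then 1 else 0 : ℤ) : ℝ) := by rw [h1]
  rw [Int.cast_sum] at h2
  rw [h2]
  split_ifs
  · exact Int.cast_one
  · exact Int.cast_zero

theorem one_q (hTRI : S_TRI) (h : ℕ) (hh : 1 ≤ h) (q : ℕ) (hq : 1 ≤ q) (M : ℤ)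
    (hM : ((q * h : ℕ) : ℤ) ≤ M) :
    ∑ a ∈ Icc (-M) M, ram q a * tri (q * h) a = if q = 1 then 1 else 0 := by
  have hL : 1 ≤ q * h := Nat.mul_pos hq hh
  have h1 : ∑ a ∈ Icc (-M) M, ram q a * tri (q * h) a =
      ∑ a ∈ Icc (-((q * h : ℕ) : ℤ)) ((q * h : ℕ) : ℤ), ram q a * tri (q * h) a := by
    symm
    refine sum_subset (Icc_subset_Icc (by linarith) hM) fun a _ ha => ?_
    have h2 : ((q * h : ℕ) : ℤ) ≤ |a| := by
      by_contra hcon
      push Not at hcon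
      rw [abs_lt] at hcon
      exact ha (mem_Icc.2 ⟨hcon.1.le, hcon.2.le⟩)
    rw [(hTRI (q * h) hL).2.2.1 a h2, mul_zero]
  rw [h1, ← sum_moebius q]
  unfold ram
  simp_rw [sum_mul]
  rw [sum_comm]
  refine sum_congr rfl fun x hx => ?_
  have hx' := Nat.mem_divisorsAntidiagonal.1 hx
  have hx2 : 1 ≤ x.2 := by
    rcases Nat.eq_zero_or_pos x.2 with h0 | h0
    · rw [h0, mul_zero] at hx'
      omega
    · exact h0
  have hdvd : x.2 ∣ q * h := by
    refine Dvd.dvd.mul_right ?_ h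
    rw [← hx'.1]
    exact Nat.dvd_mul_left _ _
  have h3 := sum_tri hTRI (q * h) x.2 hL hx2 hdvd
  have h4 : ∑ a ∈ Icc (-((q * h : ℕ) : ℤ)) ((q * h : ℕ) : ℤ),
      (ArithmeticFunction.moebius x.1 : ℝ) * (x.2 : ℝ) * (if (x.2 : ℤ) ∣ a then 1 else 0) *
        tri (q * h) a =
      (ArithmeticFunction.moebius x.1 : ℝ) * (x.2 : ℝ) *
        ∑ a ∈ Icc (-((q * h : ℕ) : ℤ)) ((q * h : ℕ) : ℤ),
          tri (q * h) a * (if (x.2 : ℤ) ∣ a then 1 else 0) := by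
    rw [mul_sum]
    refine sum_congr rfl fun a _ => ?_
    ring
  rw [h4, h3]
  have hx0 : (x.2 : ℝ) ≠ 0 := by exact_mod_cast (by omega : x.2 ≠ 0)
  field_simp

end Mass

open Mass in
theorem mass (hTRI : S_TRI) : S_MASS := by
  intro k M hM
  unfold K
  rw [sum_comm]
  have h1 : ∀ q ∈ Icc 1 (Qk k), ∑ a ∈ Icc (-M) M, ram q a * tri (q * H k) a =
      if q = 1 then 1 else 0 := by
    intro q hq
    rw [mem_Icc] at hq
    refine one_q hTRI (H k) (one_le_H k) q hq.1 M (le_trans ?_ hM)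
    exact_mod_cast Nat.mul_le_mul_right (H k) hq.2
  rw [sum_congr rfl h1, sum_ite_eq' (Icc 1 (Qk k)) 1 (fun _ => (1 : ℝ)),
    if_pos (mem_Icc.2 ⟨le_rfl, one_le_Qk k⟩)]

end Pool.Agent.H414.MX
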