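import Pool.Agent.H414.MX.Spec

/-!
Second moments for `μ`: `S_MOM`.
-/

set_option autoImplicit false

namespace Pool.Agent.H414.MX

open Finset
open Pool.Agent.H414.LT (primesUpTo blk kk U)

namespace Mom

/-- the two formulas for `U n (2 cos θ)` -/
theorem us (θ : ℝ) (n : ℕ) : U n (2 * Real.cos θ) * Real.sin θ = Real.sin ((n + 1) * θ) ∧
    U (n + 1) (2 * Real.cos θ) = Real.cos θ * U n (2 * Real.cos θ) + Real.cos ((n + 1) * θ) := by
  induction n with
  | zero =>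
    refine ⟨by simp, ?_⟩
    simp only [LT.U_zero, Nat.cast_zero, zero_add, one_mul, mul_one]
    rw [show U 1 (2 * Real.cos θ) = 2 * Real.cos θ from rfl]
    ring
  | succ n ih =>
    obtain ⟨h1, h2⟩ := ih
    have hs : Real.sin (((n + 1 : ℕ) + 1 : ℝ) * θ) =
        Real.sin ((n + 1) * θ) * Real.cos θ + Real.cos ((n + 1) * θ) * Real.sin θ := by
      rw [← Real.sin_add]; congr 1; push_cast; ring
    have hc : Real.cos (((n + 1 : ℕ) + 1 : ℝ) * θ) =
        Real.cos ((n + 1) * θ) * Real.cos θ - Real.sin ((n + 1) * θ) * Real.sin θ := by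
      rw [← Real.cos_add]; congr 1; push_cast; ring
    refine ⟨?_, ?_⟩
    · rw [hs, h2, ← h1]; ring
    · rw [hc, LT.U_add_two, ← h1]
      have h3 : Real.sin θ * Real.sin θ = 1 - Real.cos θ * Real.cos θ := by
        nlinarith [Real.sin_sq_add_cos_sq θ]
      have h4 : U n (2 * Real.cos θ) * Real.sin θ * Real.sin θ =
          U n (2 * Real.cos θ) * (1 - Real.cos θ * Real.cos θ) := by
        rw [mul_assoc, h3]
      rw [h4, h2]
      ring

theorem abs_U_le (n : ℕ) (x : ℝ) (hx : |x| ≤ 2) : |U n x| ≤ n + 1 := by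
  obtain ⟨hx1, hx2⟩ := abs_le.1 hx
  obtain ⟨θ, rfl⟩ : ∃ θ : ℝ, x = 2 * Real.cos θ :=
    ⟨Real.arccos (x / 2), by rw [Real.cos_arccos (by linarith) (by linarith)]; ring⟩
  induction n with
  | zero => simp
  | succ n ih =>
    rw [(us θ n).2]
    have h1 : |Real.cos θ * U n (2 * Real.cos θ)| ≤ n + 1 := by
      rw [abs_mul]
      calc |Real.cos θ| * |U n (2 * Real.cos θ)| ≤ 1 * |U n (2 * Real.cos θ)| :=
            mul_le_mul_of_nonneg_right (Real.abs_cos_le_one θ) (abs_nonneg _)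
        _ ≤ n + 1 := by rw [one_mul]; exact ih
    have h2 := Real.abs_cos_le_one ((n + 1) * θ)
    push_cast
    exact (abs_add_le _ _).trans (by linarith)

theorem sum_inv_sqrt (M : ℕ) : ∑ i ∈ range M, 1 / √((i : ℝ) + 1) ≤ 2 * √(M : ℝ) := by
  induction M with
  | zero => simp
  | succ M ih =>
    rw [sum_range_succ]
    have h0 : 0 < √((M : ℝ) + 1) := Real.sqrt_pos.2 (by positivity)
    have h1 : √((M : ℝ) + 1) * √((M : ℝ) + 1) = M + 1 := Real.mul_self_sqrt (by positivity)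
    have h2 : √(M : ℝ) * √(M : ℝ) = M := Real.mul_self_sqrt (by positivity)
    have h3 : 1 / √((M : ℝ) + 1) ≤ 2 * √((M : ℝ) + 1) - 2 * √(M : ℝ) := by
      rw [div_le_iff₀ h0]
      nlinarith [sq_nonneg (√((M : ℝ) + 1) - √(M : ℝ))]
    push_cast
    linarith

theorem sum_Icc_le (f : ℕ → ℝ) (hf : ∀ j, 0 ≤ f j) (M : ℕ) :
    ∑ b ∈ Icc (-(M : ℤ)) M, f b.natAbs ≤ 2 * ∑ j ∈ range (M + 1), f j := by
  induction M with
  | zero =>
    have h : Icc (-((0 : ℕ) : ℤ)) ((0 : ℕ) : ℤ) = {0} := by simp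
    rw [h]
    simp only [sum_singleton, Int.natAbs_zero, zero_add, sum_range_one]
    linarith [hf 0]
  | succ M ih =>
    have h : Icc (-((M + 1 : ℕ) : ℤ)) ((M + 1 : ℕ) : ℤ) =
        insert ((M + 1 : ℕ) : ℤ) (insert (-((M + 1 : ℕ) : ℤ)) (Icc (-(M : ℤ)) M)) := by
      ext b
      simp only [mem_Icc, mem_insert]
      omega
    rw [h, sum_insert (by simp only [mem_insert, mem_Icc]; omega),
      sum_insert (by simp only [mem_Icc]; omega), sum_range_succ]
    have h1 : ((M + 1 : ℕ) : ℤ).natAbs = M + 1 := by omega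
    have h2 : (-((M + 1 : ℕ) : ℤ)).natAbs = M + 1 := by omega
    rw [h1, h2]
    linarith

theorem sum_box (p : ℕ) (hp : p.Prime) :
    ∑ b ∈ box (4 * p), 1 / √(4 * (p : ℝ) - (b : ℝ) ^ 2) ≤ 6 := by
  set M := Nat.sqrt (4 * p) with hM
  have hp2 := hp.two_le
  have hMle : M * M ≤ 4 * p := Nat.sqrt_le _
  have hne : M * M ≠ 4 * p := by
    intro h
    have h2 : 2 ∣ M := by
      have : 2 ∣ M * M := ⟨2 * p, by rw [h]; ring⟩
      rcases (Nat.Prime.dvd_mul Nat.prime_two).1 this with h | h <;> exact h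
    obtain ⟨m, hm⟩ := h2
    have h3 : m * m = p := by
      rw [hm] at h
      have : 4 * (m * m) = 4 * p := by rw [← h]; ring
      omega
    rw [← h3] at hp
    have h4 := Nat.not_prime_mul (a := m) (b := m)
    by_cases hm1 : m = 1
    · subst hm1; exact Nat.not_prime_one (by simpa using hp)
    · exact h4 hm1 hm1 hp
  have hlt : M * M + 1 ≤ 4 * p := by omega
  have hM1 : 1 ≤ M := by
    rw [hM]; exact Nat.sqrt_pos.2 (by omega)
  have hltR : (M : ℝ) * M + 1 ≤ 4 * p := by exact_mod_cast hlt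
  have hMR : (1 : ℝ) ≤ M := by exact_mod_cast hM1
  have hsM : 0 < √(M : ℝ) := Real.sqrt_pos.2 (by linarith)
  let f : ℕ → ℝ := fun j => 1 / √(4 * (p : ℝ) - (j : ℝ) ^ 2)
  have hf : ∀ j, 0 ≤ f j := fun j => by positivity
  have e1 : ∑ b ∈ box (4 * p), 1 / √(4 * (p : ℝ) - (b : ℝ) ^ 2) =
      ∑ b ∈ Icc (-(M : ℤ)) M, f b.natAbs := by
    refine sum_congr rfl fun b _ => ?_
    have : ((b.natAbs : ℕ) : ℝ) ^ 2 = (b : ℝ) ^ 2 := by
      rw [Nat.cast_natAbs, Int.cast_abs, sq_abs]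
    simp only [f, this]
  rw [e1]
  refine (sum_Icc_le f hf M).trans ?_
  rw [sum_range_succ]
  have h1 : f M ≤ 1 := by
    have : 1 ≤ √(4 * (p : ℝ) - (M : ℝ) ^ 2) := by
      rw [Real.one_le_sqrt]; nlinarith
    simp only [f]
    rw [div_le_one (by linarith)]
    exact this
  have h2 : ∑ j ∈ range M, f j ≤ 2 := by
    have h3 : ∑ j ∈ range M, f j ≤ ∑ j ∈ range M, (1 / √(M : ℝ)) * (1 / √(((M - 1 - j : ℕ) : ℝ) + 1)) := by
      refine sum_le_sum fun j hj => ?_
      have hj' : j < M := mem_range.1 hj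
      have hjR : (j : ℝ) + 1 ≤ M := by exact_mod_cast hj'
      have hj0 : (0 : ℝ) ≤ j := by positivity
      have e : ((M - 1 - j : ℕ) : ℝ) + 1 = (M : ℝ) - j := by
        rw [Nat.cast_sub (by omega), Nat.cast_sub hM1]; push_cast; ring
      rw [e, one_div_mul_one_div, ← Real.sqrt_mul (by positivity)]
      refine one_div_le_one_div_of_le (Real.sqrt_pos.2 (mul_pos (by linarith) (by linarith))) ?_
      refine Real.sqrt_le_sqrt ?_
      nlinarith
    refine h3.trans ?_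
    rw [← mul_sum, sum_range_reflect (fun i => 1 / √((i : ℝ) + 1)) M]
    have h4 := sum_inv_sqrt M
    calc 1 / √(M : ℝ) * ∑ i ∈ range M, 1 / √((i : ℝ) + 1) ≤ 1 / √(M : ℝ) * (2 * √(M : ℝ)) :=
          mul_le_mul_of_nonneg_left h4 (by positivity)
      _ = 2 := by field_simp
  linarith

end Mom

open Mom in
theorem mom (hUB : LT.S_UB) : S_MOM := by
  intro μ hμ
  obtain ⟨C, hC⟩ := hμ.upper
  refine ⟨12 * C, fun n p hp => ?_⟩
  have hp0 : (0 : ℝ) < p := by exact_mod_cast hp.pos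
  have hsp : 0 < √(p : ℝ) := Real.sqrt_pos.2 hp0
  have hC0 : 0 ≤ C := by
    have h := (hμ.nonneg p hp 0).trans (hC p hp 0)
    by_contra hneg
    push Not at hneg
    exact absurd h (not_le.2 (div_neg_of_neg_of_pos hneg hsp))
  have hkey : ∀ b ∈ box (4 * p), μ p b * (U n (nt p b)) ^ 2 ≤
      2 * C * (n + 1) * (1 / √(4 * (p : ℝ) - (b : ℝ) ^ 2)) := by
    intro b hb
    have hb2 : b ^ 2 ≤ 4 * p := by
      obtain ⟨h1, h2⟩ := mem_Icc.1 hb
      have h3 : ((Nat.sqrt (4 * p) : ℕ) : ℤ) * (Nat.sqrt (4 * p) : ℕ) ≤ 4 * p := by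
        exact_mod_cast Nat.sqrt_le (4 * p)
      nlinarith
    have hb2R : (b : ℝ) ^ 2 ≤ 4 * p := by exact_mod_cast hb2
    have hne : (b : ℝ) ^ 2 ≠ 4 * p := by
      intro h
      have h' : b ^ 2 = 4 * p := by exact_mod_cast h
      have h'' : b.natAbs * b.natAbs = 4 * p := by
        have := Int.natAbs_mul_self' b
        have h5 : ((b.natAbs * b.natAbs : ℕ) : ℤ) = ((4 * p : ℕ) : ℤ) := by
          push_cast
          rw [← h']
          push_cast at this
          rw [this]; ring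
        exact_mod_cast h5
      have h2 : 2 ∣ b.natAbs := by
        have : 2 ∣ b.natAbs * b.natAbs := ⟨2 * p, by rw [h'']; ring⟩
        rcases (Nat.Prime.dvd_mul Nat.prime_two).1 this with h | h <;> exact h
      obtain ⟨m, hm⟩ := h2
      have h3 : m * m = p := by
        rw [hm] at h''
        have : 4 * (m * m) = 4 * p := by rw [← h'']; ring
        omega
      have hp' := hp
      rw [← h3] at hp'
      by_cases hm1 : m = 1
      · subst hm1; exact Nat.not_prime_one (by simpa using hp')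
      · exact Nat.not_prime_mul (a := m) (b := m) hm1 hm1 hp'
    have hpos : 0 < 4 * (p : ℝ) - (b : ℝ) ^ 2 := sub_pos.2 (lt_of_le_of_ne hb2R hne)
    have hs : 0 < √(4 * (p : ℝ) - (b : ℝ) ^ 2) := Real.sqrt_pos.2 hpos
    have hx2 : (nt p b) ^ 2 = (b : ℝ) ^ 2 / p := by
      unfold nt
      rw [div_pow, Real.sq_sqrt hp0.le]
    have hx : |nt p b| ≤ 2 := by
      refine abs_le_of_sq_le_sq ?_ (by norm_num)
      rw [hx2, div_le_iff₀ hp0]
      linarith
    have hu1 := abs_U_le n (nt p b) hx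
    have hu2 := hUB n (nt p b) hx
    have h4 : √(4 - (nt p b) ^ 2) = √(4 * (p : ℝ) - (b : ℝ) ^ 2) / √(p : ℝ) := by
      rw [hx2, ← Real.sqrt_div hpos.le]
      congr 1
      field_simp
    rw [h4] at hu2
    have hu3 : |U n (nt p b)| ≤ 2 * √(p : ℝ) / √(4 * (p : ℝ) - (b : ℝ) ^ 2) := by
      rw [le_div_iff₀ hs]
      rw [mul_div_assoc', div_le_iff₀ hsp] at hu2
      exact hu2
    have hsq : (U n (nt p b)) ^ 2 ≤ ((n : ℝ) + 1) * (2 * √(p : ℝ) / √(4 * (p : ℝ) - (b : ℝ) ^ 2)) := by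
      rw [← sq_abs, sq]
      exact mul_le_mul hu1 hu3 (abs_nonneg _) (by positivity)
    calc μ p b * (U n (nt p b)) ^ 2 ≤ (C / √(p : ℝ)) *
          (((n : ℝ) + 1) * (2 * √(p : ℝ) / √(4 * (p : ℝ) - (b : ℝ) ^ 2))) :=
          mul_le_mul (hC p hp b) hsq (sq_nonneg _) (div_nonneg hC0 hsp.le)
      _ = 2 * C * (n + 1) * (1 / √(4 * (p : ℝ) - (b : ℝ) ^ 2)) := by
          field_simp
  refine (sum_le_sum hkey).trans ?_
  rw [← mul_sum]
  calc 2 * C * ((n : ℝ) + 1) * ∑ b ∈ box (4 * p), 1 / √(4 * (p : ℝ) - (b : ℝ) ^ 2)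
      ≤ 2 * C * ((n : ℝ) + 1) * 6 :=
        mul_le_mul_of_nonneg_left (sum_box p hp) (by positivity)
    _ = 12 * C * (n + 1) := by ring

end Pool.Agent.H414.MX
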