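import Pool.Agent.H414.MX.Spec

/-! Second moments for the laws `ν`. -/

set_option autoImplicit false

namespace Pool.Agent.H414.MX

open Finset
open Pool.Agent.H414.LT (primesUpTo blk kk U two_le_kk)
open Pool.Agent.H414.DF (e2)

namespace Momn

theorem e2_pos (x : ℝ) : 0 < e2 x := Real.rpow_pos_of_pos (by norm_num) x

theorem e2_add (x y : ℝ) : e2 (x + y) = e2 x * e2 y := Real.rpow_add (by norm_num) x y

theorem e2_mono {x y : ℝ} (h : x ≤ y) : e2 x ≤ e2 y :=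
  Real.rpow_le_rpow_of_exponent_le (by norm_num) h

theorem e2_zero : e2 0 = 1 := Real.rpow_zero _

theorem e2_pow (x : ℝ) (n : ℕ) : e2 x ^ n = e2 (x * n) := by
  unfold e2
  rw [← Real.rpow_natCast, ← Real.rpow_mul (by norm_num)]

theorem one_le_e2 {x : ℝ} (h : 0 ≤ x) : 1 ≤ e2 x := e2_zero.symm.le.trans (e2_mono h)

theorem mem_box {n : ℕ} {b : ℤ} : b ∈ box n ↔ -(Nat.sqrt n : ℤ) ≤ b ∧ b ≤ Nat.sqrt n := by
  unfold box
  rw [mem_Icc]

theorem box_mono {n m : ℕ} (h : n ≤ m) : box n ⊆ box m := by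
  intro b hb
  rw [mem_box] at hb ⊢
  have h2 : (Nat.sqrt n : ℤ) ≤ Nat.sqrt m := by exact_mod_cast Nat.sqrt_le_sqrt h
  constructor <;> linarith [hb.1, hb.2]

theorem sq_le {n : ℕ} {b : ℤ} (hb : b ∈ box n) : b ^ 2 ≤ n := by
  rw [mem_box] at hb
  have h1 : (Nat.sqrt n : ℤ) ^ 2 ≤ n := by exact_mod_cast Nat.sqrt_le' n
  exact (sq_le_sq' hb.1 hb.2).trans h1

theorem natAbs_le {k : ℕ} {b t : ℤ} (hb : b ∈ box (2 ^ k)) (ht : t ∈ box (2 ^ k)) :
    (b - t).natAbs ≤ 2 ^ (k + 1) := by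
  have h1 := mem_box.1 hb
  have h2 := mem_box.1 ht
  have h3 : Nat.sqrt (2 ^ k) ≤ 2 ^ k := Nat.sqrt_le_self _
  generalize hs : Nat.sqrt (2 ^ k) = s at h1 h2 h3
  have h5 : 2 ^ (k + 1) = 2 * 2 ^ k := by ring
  rw [h5]
  omega

theorem bdd : ∃ B : ℝ, 0 ≤ B ∧ ∀ k : ℕ, ((k : ℝ) + 1) ^ 2 * e2 (-(7 / 100 * k)) ≤ B := by
  have hx0 : 0 < e2 (-(7 / 100)) := e2_pos _
  have hx1 : e2 (-(7 / 100)) < 1 := by
    rw [← e2_zero]
    exact Real.rpow_lt_rpow_of_exponent_lt (by norm_num) (by norm_num)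
  have h := tendsto_pow_const_mul_const_pow_of_abs_lt_one 2 (r := e2 (-(7 / 100)))
    (by rw [abs_of_pos hx0]; exact hx1)
  obtain ⟨B, hB⟩ := h.bddAbove_range
  refine ⟨B / e2 (-(7 / 100)), ?_, fun k => ?_⟩
  · apply div_nonneg _ hx0.le
    have h1 := hB ⟨0, rfl⟩
    simpa using h1
  · have h1 := hB ⟨k + 1, rfl⟩
    simp only at h1
    rw [le_div_iff₀ hx0]
    have e : e2 (-(7 / 100 * k)) = e2 (-(7 / 100)) ^ k := by
      rw [e2_pow]
      ring_nf
    rw [e]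
    calc ((k : ℝ) + 1) ^ 2 * e2 (-(7 / 100)) ^ k * e2 (-(7 / 100))
        = ((k + 1 : ℕ) : ℝ) ^ 2 * e2 (-(7 / 100)) ^ (k + 1) := by push_cast; ring
      _ ≤ B := h1

theorem big (hKB : S_KB) (hTAU : DF.S_TAU) (hSIZ : S_SIZ) : ∃ (C : ℝ) (k₂ : ℕ), 0 ≤ C ∧
    ∀ k, k₂ ≤ k → ∀ t ∈ T k, ∑ b ∈ box (2 ^ k), |kap k t b| ≤
      C * ((k : ℝ) + 1) * e2 (k / 6 + k / 100) := by
  obtain ⟨Cτ, hτ⟩ := hTAU (1 / 100) (by norm_num)
  have hCτ : 0 ≤ Cτ := by
    have h := hτ 1 le_rfl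
    simp only [Nat.divisors_one, card_singleton, Nat.cast_one, Real.one_rpow, mul_one] at h
    linarith
  obtain ⟨k₂, hk₂⟩ := hSIZ
  refine ⟨2 + 5 * Cτ * e2 (1 / 100), k₂, by
    have := e2_pos (1 / 100)
    positivity, fun k hk t ht => ?_⟩
  obtain ⟨hk1, hQ1, -, -, hQ, hH1, hH2, hT, -⟩ := hk₂ k hk
  obtain ⟨hK0, hK1, hK2⟩ := hKB k
  have hkn : (0 : ℝ) ≤ k := Nat.cast_nonneg k
  set N : ℕ := Qk k * H k with hN
  set X : ℝ := e2 (-(k / 4)) * (Cτ * e2 ((k + 1) / 100)) * (k + 1) with hX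
  have hX0 : 0 ≤ X := by
    have h1 := e2_pos (-((k : ℝ) / 4))
    have h2 := e2_pos (((k : ℝ) + 1) / 100)
    rw [hX]
    positivity
  have hpt : ∀ b ∈ box (2 ^ k), |kap k t b| ≤
      (if b = t then (2 : ℝ) else 0) + (if |b - t| < (N : ℤ) then X else 0) := by
    intro b hb
    by_cases hbt : b = t
    · subst hbt
      rw [if_pos rfl]
      have h1 : |kap k b b| ≤ 2 := by
        unfold kap
        rw [if_pos rfl, sub_self]
        have h2 : e2 (-((k : ℝ) / 12)) ≤ 1 := by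
          rw [← e2_zero]
          apply e2_mono
          linarith [div_nonneg hkn (by norm_num : (0 : ℝ) ≤ 12)]
        have h3 := abs_sub (1 : ℝ) (K k 0)
        rw [abs_one] at h3
        linarith
      have h2 : (0 : ℝ) ≤ (if |b - b| < (N : ℤ) then X else 0) := by
        split_ifs
        · exact hX0
        · exact le_rfl
      linarith
    · have e1 : |kap k t b| = |K k (b - t)| := by
        unfold kap
        rw [if_neg hbt, zero_sub, abs_neg]
      rw [e1, if_neg hbt, zero_add]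
      have hne : b - t ≠ 0 := sub_ne_zero.2 hbt
      split_ifs with hlt
      · refine (hK1 (b - t) hne).trans ?_
        have h3 : 1 ≤ (b - t).natAbs := Int.natAbs_pos.2 hne
        have h4 := hτ _ h3
        have h5 : ((b - t).natAbs : ℝ) ^ (1 / 100 : ℝ) ≤ e2 ((k + 1) / 100) := by
          calc ((b - t).natAbs : ℝ) ^ (1 / 100 : ℝ) ≤ ((2 : ℝ) ^ (k + 1)) ^ (1 / 100 : ℝ) :=
                Real.rpow_le_rpow (Nat.cast_nonneg _)
                  (by exact_mod_cast natAbs_le hb (hT ht)) (by norm_num)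
            _ = e2 ((k + 1) / 100) := by
                unfold e2
                rw [← Real.rpow_natCast, ← Real.rpow_mul (by norm_num)]
                push_cast
                ring_nf
        have h6 : ((b - t).natAbs.divisors.card : ℝ) ≤ Cτ * e2 ((k + 1) / 100) :=
          h4.trans (mul_le_mul_of_nonneg_left h5 hCτ)
        rw [hX]
        apply mul_le_mul_of_nonneg_right _ (by linarith)
        exact mul_le_mul_of_nonneg_left h6 (e2_pos _).le
      · rw [hK2 (b - t) (not_lt.1 hlt), abs_zero]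
  refine (sum_le_sum hpt).trans ?_
  rw [sum_add_distrib]
  have h1 : ∑ b ∈ box (2 ^ k), (if b = t then (2 : ℝ) else 0) ≤ 2 := by
    rw [sum_ite_eq']
    split_ifs <;> norm_num
  have h2 : ∑ b ∈ box (2 ^ k), (if |b - t| < (N : ℤ) then X else 0) ≤ (2 * N + 1) * X := by
    rw [← sum_filter, sum_const, nsmul_eq_mul]
    apply mul_le_mul_of_nonneg_right _ hX0
    have h3 : (box (2 ^ k)).filter (fun b => |b - t| < (N : ℤ)) ⊆ Icc (t - N) (t + N) := by
      intro b hb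
      rw [mem_filter] at hb
      rw [mem_Icc]
      have := abs_lt.1 hb.2
      omega
    have h4 := card_le_card h3
    rw [Int.card_Icc] at h4
    have h5 : (t + N + 1 - (t - N)).toNat = 2 * N + 1 := by omega
    rw [h5] at h4
    exact_mod_cast h4
  have h3 : (2 * (N : ℝ) + 1) ≤ 5 * e2 (5 / 12 * k) := by
    have h4 : (N : ℝ) ≤ e2 (k / 6) * (2 * e2 (k / 4)) := by
      rw [hN]
      push_cast
      exact mul_le_mul hQ hH2 (Nat.cast_nonneg _) (e2_pos _).le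
    have h5 : e2 ((k : ℝ) / 6) * (2 * e2 (k / 4)) = 2 * e2 (5 / 12 * k) := by
      have h6 : e2 (5 / 12 * (k : ℝ)) = e2 (k / 6) * e2 (k / 4) := by
        rw [← e2_add]
        ring_nf
      rw [h6]
      ring
    have h6 : 1 ≤ e2 (5 / 12 * (k : ℝ)) := one_le_e2 (by positivity)
    linarith
  have h4 : (2 * (N : ℝ) + 1) * X ≤ 5 * Cτ * e2 (1 / 100) * ((k : ℝ) + 1) * e2 (k / 6 + k / 100) := by
    calc (2 * (N : ℝ) + 1) * X ≤ 5 * e2 (5 / 12 * k) * X := mul_le_mul_of_nonneg_right h3 hX0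
      _ = 5 * Cτ * ((k : ℝ) + 1) * (e2 (5 / 12 * k) * e2 (-(k / 4)) * e2 ((k + 1) / 100)) := by
          rw [hX]; ring
      _ = 5 * Cτ * ((k : ℝ) + 1) * (e2 (1 / 100) * e2 (k / 6 + k / 100)) := by
          rw [← e2_add, ← e2_add, ← e2_add]
          ring_nf
      _ = _ := by ring
  have h5 : 2 ≤ 2 * ((k : ℝ) + 1) * e2 (k / 6 + k / 100) := by
    have h6 : 1 ≤ e2 ((k : ℝ) / 6 + k / 100) := one_le_e2 (by positivity)
    nlinarith
  calc _ ≤ 2 * ((k : ℝ) + 1) * e2 (k / 6 + k / 100) +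
        5 * Cτ * e2 (1 / 100) * ((k : ℝ) + 1) * e2 (k / 6 + k / 100) := by linarith
    _ = _ := by ring

end Momn

open Momn in
theorem momn (hDIF : S_DIF) (hKB : S_KB) (hTAU : DF.S_TAU) (hSIZ : S_SIZ) (hMOM : S_MOM) :
    S_MOMN := by
  intro μ δ f m k₀ C' k₁ hμ hδ hm hk01
  obtain ⟨C₀, hC₀⟩ := hMOM μ hμ
  obtain ⟨C₁, k₂, hC₁, hbig⟩ := big hKB hTAU hSIZ
  obtain ⟨B, hB, hbdd⟩ := bdd
  have hC' : 0 ≤ C' := by
    have h1 : 0 ≤ ∑ t ∈ T k₀, m k₀ t := sum_nonneg fun t _ => hm.nonneg k₀ t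
    have h2 := h1.trans (hm.sum k₀ le_rfl)
    have h3 : 0 < ((k₀ : ℝ) + 1) * e2 (-(k₀ * (1 / 4 + δ))) :=
      mul_pos (by positivity) (e2_pos _)
    rw [mul_assoc] at h2
    exact nonneg_of_mul_nonneg_left h2 h3
  set A : ℕ → ℝ := fun k => ∑ t ∈ T k, m k t * (4 * ∑ b ∈ box (2 ^ k), |kap k t b|) with hA
  have hA0 : ∀ k, 0 ≤ A k := by
    intro k
    refine sum_nonneg fun t _ => mul_nonneg (hm.nonneg k t) ?_
    exact mul_nonneg (by norm_num) (sum_nonneg fun b _ => abs_nonneg _)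
  set B₁ : ℝ := 4 * (C' * C₁) * B + ∑ k ∈ range k₂, A k with hB₁
  have hsum0 : 0 ≤ ∑ k ∈ range k₂, A k := sum_nonneg fun k _ => hA0 k
  have hB₁0 : 0 ≤ B₁ := by
    have : 0 ≤ 4 * (C' * C₁) * B := by positivity
    linarith
  have hAB : ∀ k, k₀ ≤ k → A k ≤ B₁ := by
    intro k hk
    by_cases h : k < k₂
    · have h1 := single_le_sum (f := A) (fun k _ => hA0 k) (mem_range.2 h)
      have : 0 ≤ 4 * (C' * C₁) * B := by positivity
      linarith
    · have hk2 : k₂ ≤ k := not_lt.1 h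
      have h1 : A k ≤ (∑ t ∈ T k, m k t) * (4 * (C₁ * ((k : ℝ) + 1) * e2 (k / 6 + k / 100))) := by
        rw [hA, sum_mul]
        refine sum_le_sum fun t ht => ?_
        apply mul_le_mul_of_nonneg_left _ (hm.nonneg k t)
        exact mul_le_mul_of_nonneg_left (hbig k hk2 t ht) (by norm_num)
      have h2 := hm.sum k hk
      have h3 : e2 (-((k : ℝ) * (1 / 4 + δ))) ≤ e2 (-(k / 4)) := by
        apply e2_mono
        have : 0 ≤ (k : ℝ) * δ := by positivity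
        linarith
      have h4 : C' * ((k : ℝ) + 1) * e2 (-(k * (1 / 4 + δ))) ≤ C' * ((k : ℝ) + 1) * e2 (-(k / 4)) :=
        mul_le_mul_of_nonneg_left h3 (by positivity)
      have h5 : 0 ≤ 4 * (C₁ * ((k : ℝ) + 1) * e2 (k / 6 + k / 100)) := by
        have := e2_pos ((k : ℝ) / 6 + k / 100)
        positivity
      have h6 := mul_le_mul_of_nonneg_right (h2.trans h4) h5
      have h7 : C' * ((k : ℝ) + 1) * e2 (-(k / 4)) *
          (4 * (C₁ * ((k : ℝ) + 1) * e2 (k / 6 + k / 100))) =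
          4 * (C' * C₁) * (((k : ℝ) + 1) ^ 2 * (e2 (-(k / 4)) * e2 (k / 6 + k / 100))) := by ring
      have h8 : e2 (-((k : ℝ) / 4)) * e2 (k / 6 + k / 100) ≤ e2 (-(7 / 100 * k)) := by
        rw [← e2_add]
        apply e2_mono
        have : (0 : ℝ) ≤ k := Nat.cast_nonneg k
        linarith
      have h9 : 4 * (C' * C₁) * (((k : ℝ) + 1) ^ 2 * (e2 (-(k / 4)) * e2 (k / 6 + k / 100))) ≤
          4 * (C' * C₁) * B := by
        apply mul_le_mul_of_nonneg_left _ (by positivity)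
        exact (mul_le_mul_of_nonneg_left h8 (by positivity)).trans (hbdd k)
      rw [h7] at h6
      linarith
  refine ⟨C₀ + B₁, fun n p hp => ?_⟩
  have hmain : ∑ b ∈ box (4 * p), (if k₁ ≤ kk p then
      ∑ t ∈ T (kk p), m (kk p) t * kap (kk p) t b else 0) * (U n (nt p b)) ^ 2 ≤ B₁ := by
    by_cases hk : k₁ ≤ kk p
    swap
    · simp only [if_neg hk, zero_mul, sum_const_zero]
      exact hB₁0
    simp only [if_pos hk]
    generalize hkk : kk p = k at hk
    have hk0 : k₀ ≤ k := hk01.trans hk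
    obtain ⟨hp1, hp2⟩ := two_le_kk hp.two_le
    rw [hkk] at hp1 hp2
    have hsub : box (2 ^ k) ⊆ box (4 * p) := box_mono (by omega)
    refine le_trans ?_ (hAB k hk0)
    simp_rw [sum_mul]
    rw [sum_comm]
    refine sum_le_sum fun t ht => ?_
    have e1 : ∑ b ∈ box (4 * p), m k t * kap k t b * (U n (nt p b)) ^ 2 =
        m k t * ∑ b ∈ box (4 * p), kap k t b * (U n (nt p b)) ^ 2 := by
      rw [mul_sum]
      exact sum_congr rfl fun b _ => by ring
    rw [e1]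
    apply mul_le_mul_of_nonneg_left _ (hm.nonneg k t)
    rw [← sum_subset hsub fun b _ hb => by rw [hm.supp k hk0 t ht b hb, zero_mul], mul_sum]
    refine sum_le_sum fun b hb => ?_
    have hb2 : b ^ 2 ≤ (p : ℤ) := by
      have h1 := sq_le hb
      have h2 : ((2 ^ k : ℕ) : ℤ) ≤ p := by exact_mod_cast hp1.le
      exact h1.trans h2
    have h1 := (hDIF n p hp.one_lt.le).1 b hb2
    have h2 : (U n (nt p b)) ^ 2 ≤ 4 := by
      have h3 : (U n (nt p b)) ^ 2 = |U n (nt p b)| ^ 2 := (sq_abs _).symm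
      rw [h3]
      have h4 := abs_nonneg (U n (nt p b))
      nlinarith
    have h3 := le_abs_self (kap k t b)
    have h4 := abs_nonneg (kap k t b)
    have h5 := sq_nonneg (U n (nt p b))
    calc kap k t b * (U n (nt p b)) ^ 2 ≤ |kap k t b| * (U n (nt p b)) ^ 2 :=
          mul_le_mul_of_nonneg_right h3 h5
      _ ≤ |kap k t b| * 4 := mul_le_mul_of_nonneg_left h2 h4
      _ = 4 * |kap k t b| := mul_comm _ _
  have e2' : ∑ b ∈ box (4 * p), nu μ m k₁ p b * (U n (nt p b)) ^ 2 =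
      ∑ b ∈ box (4 * p), μ p b * (U n (nt p b)) ^ 2 +
      ∑ b ∈ box (4 * p), (if k₁ ≤ kk p then
        ∑ t ∈ T (kk p), m (kk p) t * kap (kk p) t b else 0) * (U n (nt p b)) ^ 2 := by
    rw [← sum_add_distrib]
    refine sum_congr rfl fun b _ => ?_
    unfold nu
    ring
  rw [e2']
  have h1 := hC₀ n p hp
  have h2 : B₁ ≤ B₁ * ((n : ℝ) + 1) := by
    have : (0 : ℝ) ≤ n := Nat.cast_nonneg n
    nlinarith
  calc _ ≤ C₀ * ((n : ℝ) + 1) + B₁ * ((n : ℝ) + 1) := by linarith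
    _ = _ := by ring

end Pool.Agent.H414.MX
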