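import Pool.Agent.H414.MX.Spec

/-!
Nonresonant terms.
-/

set_option autoImplicit false

namespace Pool.Agent.H414.MX

open Finset
open Pool.Agent.H414.LT (primesUpTo blk kk U)
open Pool.Agent.H414.DF (e2)

namespace Nrs

theorem sq_le_of_box {k p : ℕ} (hp : 2 ^ k < p) {b : ℤ} (hb : b ∈ box (2 ^ k)) : b ^ 2 ≤ (p : ℤ) := by
  unfold box at hb
  rw [mem_Icc] at hb
  have h1 : ((Nat.sqrt (2 ^ k) : ℕ) : ℤ) ^ 2 ≤ 2 ^ k := by
    exact_mod_cast Nat.sqrt_le' (2 ^ k)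
  have h2 : b ^ 2 ≤ ((Nat.sqrt (2 ^ k) : ℕ) : ℤ) ^ 2 := sq_le_sq' hb.1 hb.2
  have h3 : ((2 ^ k : ℕ) : ℤ) < p := by exact_mod_cast hp
  push_cast at h3
  linarith

theorem nd_spaced {q' : ℕ} (hq : 1 ≤ q') {c c' : ℕ} (hc : c < q') (hc' : c' < q') (hne : c ≠ c') (s : ℝ) :
    1 / (q' : ℝ) ≤ nd (((c : ℝ) / q' + s) - ((c' : ℝ) / q' + s)) := by
  unfold nd
  generalize round (((c : ℝ) / q' + s) - ((c' : ℝ) / q' + s)) = m
  have hq0 : (0 : ℝ) < q' := by exact_mod_cast hq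
  have h1 : ((c : ℝ) / q' + s) - ((c' : ℝ) / q' + s) - (m : ℝ) = (((c : ℤ) - c' - m * q' : ℤ) : ℝ) / q' := by
    push_cast
    field_simp
    ring
  rw [h1, abs_div, abs_of_pos hq0]
  apply div_le_div_of_nonneg_right _ hq0.le
  rw [← Int.cast_abs]
  have h2 : ((c : ℤ) - c' - m * q') ≠ 0 := by
    intro h
    have h3 : (c : ℤ) - c' = m * q' := by linarith
    have h4 : m = 0 := by
      by_contra hm0
      have h5 : (q' : ℤ) ≤ |m * q'| := by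
        rw [abs_mul, Nat.abs_cast]
        have h7 : 1 ≤ |m| := Int.one_le_abs hm0
        nlinarith
      rw [← h3] at h5
      have h6 : |(c : ℤ) - c'| < q' := by
        rw [abs_lt]
        constructor <;> omega
      omega
    rw [h4] at h3
    apply hne
    omega
  have h8 := Int.one_le_abs h2
  exact_mod_cast h8

theorem e2_pos (x : ℝ) : 0 < e2 x := by
  unfold e2
  positivity

theorem e2_neg (x : ℝ) : e2 (-x) = 1 / e2 x := by
  unfold e2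
  rw [Real.rpow_neg (by norm_num), one_div]

theorem e2_half_le {k p : ℕ} (hp : 2 ^ k < p) : e2 ((k : ℝ) / 2) ≤ √(p : ℝ) := by
  apply Real.le_sqrt_of_sq_le
  have h1 : e2 ((k : ℝ) / 2) ^ 2 = 2 ^ k := by
    unfold e2
    rw [← Real.rpow_natCast ((2 : ℝ) ^ ((k : ℝ) / 2)) 2, ← Real.rpow_mul (by norm_num)]
    have : (k : ℝ) / 2 * ((2 : ℕ) : ℝ) = (k : ℝ) := by
      push_cast
      ring
    rw [this, Real.rpow_natCast]
  rw [h1]
  exact_mod_cast hp.le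

end Nrs

open Nrs in
/-- The nonresonant terms. -/
theorem nrs (hSIZ : S_SIZ) (hDIF : S_DIF) (hOP2 : S_OP2) (hSPC : S_SPC) : S_NRS := by
  obtain ⟨k₁, hk₁⟩ := hSIZ
  refine ⟨192, k₁, by norm_num, ?_⟩
  intro k n p q q' β t hk hp ht hq hq' hq'Q Z hZ hnd
  obtain ⟨-, -, -, -, -, hHl, -, -, hbox⟩ := hk₁ k hk
  unfold blk at hp
  rw [mem_filter, mem_Ioc] at hp
  have hp2 : 2 ^ k < p := hp.1.1
  have hp1 : 1 ≤ p := hp.2.one_lt.le
  have hp0 : (0 : ℝ) < p := by exact_mod_cast hp1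
  have hq0 : (0 : ℝ) < q := by exact_mod_cast hq
  have hq0' : (0 : ℝ) < q' := by exact_mod_cast hq'
  have hH0 : 0 < (H k : ℝ) := lt_of_lt_of_le (e2_pos _) hHl
  have hH1 : 0 < H k := by exact_mod_cast hH0
  have hL1 : 1 ≤ q' * H k := Nat.one_le_iff_ne_zero.2 (by positivity)
  have hwin : ∀ b : ℤ, |b - t| ≤ ((q' * H k : ℕ) : ℤ) → b ^ 2 ≤ (p : ℤ) := by
    intro b hb
    have h0 : ((q' * H k : ℕ) : ℤ) ≤ ((Qk k * H k : ℕ) : ℤ) := by
      exact_mod_cast Nat.mul_le_mul_right _ hq'Q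
    have h1 : t + (b - t) ∈ box (2 ^ k) := hbox t ht (b - t) (hb.trans h0)
    rw [add_sub_cancel] at h1
    exact sq_le_of_box hp2 h1
  obtain ⟨hd1, hd2, hd3⟩ := hDIF n p hp1
  have hsq : 0 < √(p : ℝ) := Real.sqrt_pos.2 hp0
  obtain ⟨lam, hlam⟩ : ∃ lam : ℝ, lam = 4 * ((n : ℝ) + 1) / √(p : ℝ) := ⟨_, rfl⟩
  have hlam0 : 0 ≤ lam := by
    rw [hlam]
    positivity
  have hlam2 : lam ^ 2 = 16 * ((n : ℝ) + 1) ^ 2 / p := by
    rw [hlam, div_pow, Real.sq_sqrt hp0.le]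
    ring
  have hw : ∀ γ : ℝ, ‖win (q' * H k) t (fun b => (U n (nt p b) : ℂ)) γ‖ * nd γ ^ 2 ≤
      2 * (1 / ((q' * H k : ℕ) : ℝ) + lam) ^ 2 := by
    intro γ
    refine hOP2 (q' * H k) t _ γ 2 lam hL1 (by norm_num) hlam0 ?_ ?_ ?_
    · intro b hb
      show ‖((U n (nt p b) : ℝ) : ℂ)‖ ≤ 2
      rw [Complex.norm_real, Real.norm_eq_abs]
      exact hd1 b (hwin b hb)
    · intro b hb hb'
      show ‖((U n (nt p (b + 1)) : ℝ) : ℂ) - ((U n (nt p b) : ℝ) : ℂ)‖ ≤ 2 * lam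
      rw [← Complex.ofReal_sub, Complex.norm_real, Real.norm_eq_abs]
      have h := hd2 b (hwin b hb) (hwin (b + 1) hb')
      rw [← hlam] at h
      linarith
    · intro b hb hb'
      show ‖((U n (nt p (b + 2)) : ℝ) : ℂ) - 2 * ((U n (nt p (b + 1)) : ℝ) : ℂ) + ((U n (nt p b) : ℝ) : ℂ)‖ ≤
        2 * lam ^ 2
      have h := hd3 b (hwin b hb) (hwin (b + 2) hb')
      rw [← hlam2] at h
      have h5 : ((U n (nt p (b + 2)) : ℝ) : ℂ) - 2 * ((U n (nt p (b + 1)) : ℝ) : ℂ) + ((U n (nt p b) : ℝ) : ℂ) =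
          ((U n (nt p (b + 2)) - 2 * U n (nt p (b + 1)) + U n (nt p b) : ℝ) : ℂ) := by
        push_cast
        ring
      rw [h5, Complex.norm_real, Real.norm_eq_abs]
      nlinarith [sq_nonneg lam]
  have hx0 : 0 ≤ 1 / ((q' * H k : ℕ) : ℝ) + lam := by positivity
  have key := (hSPC ℕ Z (fun c => (c : ℝ) / q' + (β : ℝ) / q)
    (fun c => ‖win (q' * H k) t (fun b => (U n (nt p b) : ℂ)) ((c : ℝ) / q' + (β : ℝ) / q)‖) (1 / q')
    (√2 * (1 / ((q' * H k : ℕ) : ℝ) + lam)) (by positivity)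
    (by
      rw [div_le_one hq0']
      exact_mod_cast hq') (by positivity)
    (by
      intro z hz z' hz' hne
      have h1 := hZ hz
      have h2 := hZ hz'
      unfold cop at h1 h2
      rw [mem_filter, mem_range] at h1 h2
      exact nd_spaced hq' h1.1 h2.1 hne _)
    (fun z _ => norm_nonneg _)).2 (1 / ((q : ℝ) * q')) (by positivity)
    (fun z hz => ⟨hnd z hz, by
      rw [mul_pow, Real.sq_sqrt (by norm_num)]
      exact hw _⟩)
  refine key.trans ?_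
  have e1 : (√2 * (1 / ((q' * H k : ℕ) : ℝ) + lam)) ^ 2 = 2 * (1 / ((q' * H k : ℕ) : ℝ) + lam) ^ 2 := by
    rw [mul_pow, Real.sq_sqrt (by norm_num)]
  have e3 : 2 / (1 / ((q : ℝ) * q')) ^ 2 + 4 / (1 / (q' : ℝ)) ^ 2 ≤ 6 * ((q : ℝ) * q') ^ 2 := by
    have h1 : 2 / (1 / ((q : ℝ) * q')) ^ 2 = 2 * ((q : ℝ) * q') ^ 2 := by
      field_simp
    have h2 : 4 / (1 / (q' : ℝ)) ^ 2 = 4 * (q' : ℝ) ^ 2 := by
      field_simp
    rw [h1, h2]
    have h3 : (1 : ℝ) ≤ q := by exact_mod_cast hq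
    have h4 : (q' : ℝ) ≤ (q : ℝ) * q' := by nlinarith
    have h5 : (q' : ℝ) ^ 2 ≤ ((q : ℝ) * q') ^ 2 := pow_le_pow_left₀ hq0'.le h4 2
    linarith
  rw [e1]
  have e4 : (q : ℝ) * q' * (1 / ((q' * H k : ℕ) : ℝ) + lam) ≤
      4 * (q * e2 (-((k : ℝ) / 4)) + (n + 1) * q * q' * e2 (-((k : ℝ) / 2))) := by
    have h1 : (q : ℝ) * q' * (1 / ((q' * H k : ℕ) : ℝ)) ≤ q * e2 (-((k : ℝ) / 4)) := by
      have h2 : (q : ℝ) * q' * (1 / ((q' * H k : ℕ) : ℝ)) = q * (1 / H k) := by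
        push_cast
        field_simp
      rw [h2, e2_neg]
      exact mul_le_mul_of_nonneg_left (one_div_le_one_div_of_le (e2_pos _) hHl) hq0.le
    have h3 : (q : ℝ) * q' * lam ≤ 4 * ((n + 1) * q * q' * e2 (-((k : ℝ) / 2))) := by
      have h4 : 1 / √(p : ℝ) ≤ e2 (-((k : ℝ) / 2)) := by
        rw [e2_neg]
        exact one_div_le_one_div_of_le (e2_pos _) (e2_half_le hp2)
      have h5 : (q : ℝ) * q' * lam = 4 * ((n + 1) * q * q') * (1 / √(p : ℝ)) := by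
        rw [hlam]
        ring
      rw [h5]
      have h6 : (0 : ℝ) ≤ 4 * ((n + 1) * q * q') := by positivity
      calc 4 * (((n : ℝ) + 1) * q * q') * (1 / √(p : ℝ)) ≤ 4 * ((n + 1) * q * q') * e2 (-((k : ℝ) / 2)) :=
            mul_le_mul_of_nonneg_left h4 h6
        _ = _ := by ring
    have h7 : 0 ≤ (q : ℝ) * e2 (-((k : ℝ) / 4)) := mul_nonneg hq0.le (e2_pos _).le
    rw [mul_add]
    linarith
  have e5 : 0 ≤ (q : ℝ) * q' * (1 / ((q' * H k : ℕ) : ℝ) + lam) := by positivity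
  calc 2 * (1 / ((q' * H k : ℕ) : ℝ) + lam) ^ 2 * (2 / (1 / ((q : ℝ) * q')) ^ 2 + 4 / (1 / (q' : ℝ)) ^ 2)
      ≤ 2 * (1 / ((q' * H k : ℕ) : ℝ) + lam) ^ 2 * (6 * ((q : ℝ) * q') ^ 2) :=
        mul_le_mul_of_nonneg_left e3 (by positivity)
    _ = 12 * ((q : ℝ) * q' * (1 / ((q' * H k : ℕ) : ℝ) + lam)) ^ 2 := by ring
    _ ≤ 12 * (4 * (q * e2 (-((k : ℝ) / 4)) + (n + 1) * q * q' * e2 (-((k : ℝ) / 2)))) ^ 2 :=
        mul_le_mul_of_nonneg_left (pow_le_pow_left₀ e5 e4 2) (by norm_num)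
    _ = 192 * (q * e2 (-((k : ℝ) / 4)) + (n + 1) * q * q' * e2 (-((k : ℝ) / 2))) ^ 2 := by ring

end Pool.Agent.H414.MX
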