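import Pool.Agent.H414.MX.Spec

/-!
Windows, first order.
-/

set_option autoImplicit false

namespace Pool.Agent.H414.MX

open Finset
open Pool.Agent.H414.LT (primesUpTo blk kk U)
open Pool.Agent.H414.DF (e2)

namespace Op1

theorem norm_ee (x : ℝ) : ‖ee x‖ = 1 := by
  unfold ee
  have e : (2 * Real.pi * x * Complex.I : ℂ) = ((2 * Real.pi * x : ℝ) : ℂ) * Complex.I := by
    push_cast; ring
  rw [e, Complex.norm_exp_ofReal_mul_I]

theorem ee_add (x y : ℝ) : ee (x + y) = ee x * ee y := by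
  unfold ee
  rw [← Complex.exp_add]
  congr 1
  push_cast
  ring

theorem ee_int (m : ℤ) : ee m = 1 := by
  unfold ee
  rw [Complex.exp_eq_one_iff]
  exact ⟨m, by push_cast; ring⟩

theorem ee_sub_one (γ : ℝ) : 4 * nd γ ≤ ‖ee γ - 1‖ := by
  have h0 : ee γ = ee (γ - round γ) := by
    have h := ee_add (γ - round γ) ((round γ : ℤ) : ℝ)
    rw [ee_int, mul_one, sub_add_cancel] at h
    exact h
  rw [h0]
  unfold nd
  set u := γ - round γ with hu
  have hu1 : |u| ≤ 1 / 2 := abs_sub_round γ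
  have e : ee u = Complex.exp (Complex.I * ((2 * Real.pi * u : ℝ) : ℂ)) := by
    unfold ee
    congr 1
    push_cast
    ring
  rw [e, Complex.norm_exp_I_mul_ofReal_sub_one]
  have e2 : 2 * Real.pi * u / 2 = Real.pi * u := by ring
  rw [e2, Real.norm_eq_abs, abs_mul, abs_of_pos (by norm_num : (0 : ℝ) < 2)]
  have h3 : |Real.sin (Real.pi * u)| = Real.sin (Real.pi * |u|) := by
    rcases le_total 0 u with h | h
    · rw [abs_of_nonneg h, abs_of_nonneg]
      rw [abs_of_nonneg h] at hu1
      exact Real.sin_nonneg_of_nonneg_of_le_pi (by positivity) (by nlinarith [Real.pi_pos])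
    · rw [abs_of_nonpos h] at hu1 ⊢
      have h5 : Real.sin (Real.pi * u) = - Real.sin (Real.pi * -u) := by
        rw [← Real.sin_neg]; congr 1; ring
      rw [h5, abs_neg, abs_of_nonneg]
      have h6 : 0 ≤ -u := by linarith
      exact Real.sin_nonneg_of_nonneg_of_le_pi (by positivity) (by nlinarith [Real.pi_pos])
  rw [h3]
  have h4 := Real.mul_le_sin (x := Real.pi * |u|) (by positivity) (by nlinarith [Real.pi_pos])
  have h5 : 2 / Real.pi * (Real.pi * |u|) = 2 * |u| := by
    field_simp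
  rw [h5] at h4
  linarith

/-- summation by parts -/
theorem parts (g e : ℕ → ℂ) (w : ℂ) (he : ∀ i, e (i + 1) = w * e i) (L : ℕ) :
    (w - 1) * ∑ i ∈ range L, g i * e i =
      g L * e L - g 0 * e 0 - ∑ i ∈ range L, (g (i + 1) - g i) * e (i + 1) := by
  have h := Finset.sum_range_sub (fun i => g i * e i) L
  rw [← h, ← Finset.sum_sub_distrib, Finset.mul_sum]
  refine sum_congr rfl fun i _ => ?_
  rw [he]
  ring

theorem walk (L : ℕ) (t : ℤ) (G : ℤ → ℂ) (c : ℝ)
    (h2 : ∀ b : ℤ, |b - t| ≤ L → |b + 1 - t| ≤ L → ‖G (b + 1) - G b‖ ≤ c) (n : ℕ) (hn : n ≤ L) :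
    ‖G (t + n) - G t‖ ≤ n * c ∧ ‖G (t - n) - G t‖ ≤ n * c := by
  induction n with
  | zero => simp
  | succ n ih =>
    obtain ⟨i1, i2⟩ := ih (by omega)
    constructor
    · have h3 := h2 (t + n) (by rw [abs_le]; constructor <;> omega)
        (by rw [abs_le]; constructor <;> omega)
      have e : G (t + (n + 1 : ℕ)) - G t = (G (t + n + 1) - G (t + n)) + (G (t + n) - G t) := by
        have : t + ((n + 1 : ℕ) : ℤ) = t + n + 1 := by push_cast; ring
        rw [this]; ring
      rw [e]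
      refine (norm_add_le _ _).trans ?_
      push_cast
      linarith
    · have h3 := h2 (t - n - 1) (by rw [abs_le]; constructor <;> omega)
        (by rw [abs_le]; constructor <;> omega)
      have e : G (t - (n + 1 : ℕ)) - G t =
          -(G (t - n - 1 + 1) - G (t - n - 1)) + (G (t - n) - G t) := by
        have : t - ((n + 1 : ℕ) : ℤ) = t - n - 1 := by push_cast; ring
        have h' : t - (n : ℤ) - 1 + 1 = t - n := by ring
        rw [this, h']; ring
      rw [e]
      refine (norm_add_le _ _).trans ?_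
      rw [norm_neg]
      push_cast
      linarith

end Op1

open Op1 in
theorem op1 (hTRI : S_TRI) : S_OP1 := by
  intro L t G γ M lam hL hM hlam h1 h2
  obtain ⟨t1, t2, -, t4⟩ := hTRI L hL
  have hL0 : (0 : ℝ) < L := by exact_mod_cast (by omega : 0 < L)
  have hMl : 0 ≤ M * lam := mul_nonneg hM hlam
  refine ⟨?_, ?_, ?_⟩
  · unfold win
    calc ‖∑ a ∈ Icc (-(L : ℤ)) L, (tri L a : ℂ) * (G (t + a) * ee (γ * a))‖
        ≤ ∑ a ∈ Icc (-(L : ℤ)) L, ‖(tri L a : ℂ) * (G (t + a) * ee (γ * a))‖ := norm_sum_le _ _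
      _ ≤ ∑ a ∈ Icc (-(L : ℤ)) L, tri L a * M := by
          refine sum_le_sum fun a ha => ?_
          rw [norm_mul, norm_mul, norm_ee, mul_one, Complex.norm_real, Real.norm_eq_abs,
            abs_of_nonneg (t2 a).1]
          refine mul_le_mul_of_nonneg_left (h1 _ ?_) (t2 a).1
          rw [mem_Icc] at ha
          rw [add_sub_cancel_left, abs_le]
          exact ha
      _ = M := by rw [← sum_mul, t4, one_mul]
  · have hw : win L t G γ = (1 / (L : ℂ) ^ 2) * ∑ j ∈ range L, ∑ i ∈ range L,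
        G (t + ((i : ℤ) - j)) * ee (γ * (((i : ℤ) - j : ℤ) : ℝ)) := by
      unfold win
      rw [t1 (fun a => G (t + a) * ee (γ * a)), sum_comm]
    have hj : ∀ j ∈ range L, ‖(ee γ - 1) * ∑ i ∈ range L,
        G (t + ((i : ℤ) - j)) * ee (γ * (((i : ℤ) - j : ℤ) : ℝ))‖ ≤ 2 * M + L * (M * lam) := by
      intro j hj
      rw [mem_range] at hj
      rw [parts (fun i => G (t + ((i : ℤ) - j))) (fun i => ee (γ * (((i : ℤ) - j : ℤ) : ℝ))) (ee γ)
        (by
          intro i
          rw [← ee_add]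
          congr 1
          push_cast
          ring) L]
      have a1 : ‖G (t + ((L : ℤ) - j))‖ ≤ M := h1 _ (by rw [abs_le]; constructor <;> omega)
      have a2 : ‖G (t + (((0 : ℕ) : ℤ) - j))‖ ≤ M := h1 _ (by rw [abs_le]; constructor <;> omega)
      have a3 : ‖∑ i ∈ range L, (G (t + (((i + 1 : ℕ) : ℤ) - j)) - G (t + ((i : ℤ) - j))) *
          ee (γ * ((((i + 1 : ℕ) : ℤ) - j : ℤ) : ℝ))‖ ≤ L * (M * lam) := by
        refine (norm_sum_le _ _).trans ?_
        have h3 : ∀ i ∈ range L, ‖(G (t + (((i + 1 : ℕ) : ℤ) - j)) - G (t + ((i : ℤ) - j))) *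
          ee (γ * ((((i + 1 : ℕ) : ℤ) - j : ℤ) : ℝ))‖ ≤ M * lam := by
          intro i hi
          rw [mem_range] at hi
          rw [norm_mul, norm_ee, mul_one]
          have e : t + (((i + 1 : ℕ) : ℤ) - j) = t + ((i : ℤ) - j) + 1 := by push_cast; ring
          rw [e]
          exact h2 _ (by rw [abs_le]; constructor <;> omega) (by rw [abs_le]; constructor <;> omega)
        refine (sum_le_sum h3).trans ?_
        rw [sum_const, card_range, nsmul_eq_mul]
      refine (norm_sub_le _ _).trans ?_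
      have a4 := norm_sub_le (G (t + ((L : ℤ) - j)) * ee (γ * (((L : ℤ) - j : ℤ) : ℝ)))
        (G (t + (((0 : ℕ) : ℤ) - j)) * ee (γ * ((((0 : ℕ) : ℤ) - j : ℤ) : ℝ)))
      rw [norm_mul, norm_mul, norm_ee, norm_ee, mul_one, mul_one] at a4
      linarith
    have hee : ‖ee γ - 1‖ * ‖win L t G γ‖ ≤ M * (2 / L + lam) := by
      rw [← norm_mul, hw]
      have e : (ee γ - 1) * ((1 / (L : ℂ) ^ 2) * ∑ j ∈ range L, ∑ i ∈ range L,
          G (t + ((i : ℤ) - j)) * ee (γ * (((i : ℤ) - j : ℤ) : ℝ))) =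
          (1 / (L : ℂ) ^ 2) * ∑ j ∈ range L, (ee γ - 1) * ∑ i ∈ range L,
          G (t + ((i : ℤ) - j)) * ee (γ * (((i : ℤ) - j : ℤ) : ℝ)) := by
        rw [← mul_sum]; ring
      rw [e, norm_mul]
      have e2 : ‖(1 / (L : ℂ) ^ 2)‖ = 1 / (L : ℝ) ^ 2 := by
        rw [norm_div, norm_one, norm_pow, Complex.norm_natCast]
      rw [e2]
      have h3 : ‖∑ j ∈ range L, (ee γ - 1) * ∑ i ∈ range L,
          G (t + ((i : ℤ) - j)) * ee (γ * (((i : ℤ) - j : ℤ) : ℝ))‖ ≤
          L * (2 * M + L * (M * lam)) := by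
        refine (norm_sum_le _ _).trans ((sum_le_sum hj).trans ?_)
        rw [sum_const, card_range, nsmul_eq_mul]
      refine (mul_le_mul_of_nonneg_left h3 (by positivity)).trans (le_of_eq ?_)
      field_simp
    have hnd := ee_sub_one γ
    have hn0 : 0 ≤ ‖win L t G γ‖ := norm_nonneg _
    have h5 : 4 * nd γ * ‖win L t G γ‖ ≤ M * (2 / L + lam) :=
      (mul_le_mul_of_nonneg_right hnd hn0).trans hee
    have h6 : M * (2 / L + lam) = 2 * (M * (1 / L)) + M * lam := by ring
    have h7 : 0 ≤ M * (1 / (L : ℝ)) := by positivity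
    rw [mul_add]
    linarith
  · rintro ⟨m, rfl⟩
    have e1 : ∀ a : ℤ, ee ((m : ℝ) * a) = 1 := by
      intro a
      have := ee_int (m * a)
      push_cast at this
      exact this
    have e2 : win L t G m - G t = ∑ a ∈ Icc (-(L : ℤ)) L, (tri L a : ℂ) * (G (t + a) - G t) := by
      unfold win
      have h3 : (∑ a ∈ Icc (-(L : ℤ)) L, (tri L a : ℂ)) = 1 := by
        have := congrArg (fun x : ℝ => (x : ℂ)) t4
        push_cast at this
        exact this
      have h4 : G t = ∑ a ∈ Icc (-(L : ℤ)) L, (tri L a : ℂ) * G t := by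
        rw [← sum_mul, h3, one_mul]
      conv_lhs => rw [h4]
      rw [← sum_sub_distrib]
      refine sum_congr rfl fun a _ => ?_
      rw [e1]
      ring
    rw [e2]
    calc ‖∑ a ∈ Icc (-(L : ℤ)) L, (tri L a : ℂ) * (G (t + a) - G t)‖
        ≤ ∑ a ∈ Icc (-(L : ℤ)) L, ‖(tri L a : ℂ) * (G (t + a) - G t)‖ := norm_sum_le _ _
      _ ≤ ∑ a ∈ Icc (-(L : ℤ)) L, tri L a * (L * (M * lam)) := by
          refine sum_le_sum fun a ha => ?_
          rw [norm_mul, Complex.norm_real, Real.norm_eq_abs, abs_of_nonneg (t2 a).1]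
          refine mul_le_mul_of_nonneg_left ?_ (t2 a).1
          rw [mem_Icc] at ha
          have hnat : a.natAbs ≤ L := by omega
          obtain ⟨w1, w2⟩ := walk L t G (M * lam) h2 a.natAbs hnat
          have h8 : (a.natAbs : ℝ) * (M * lam) ≤ L * (M * lam) :=
            mul_le_mul_of_nonneg_right (by exact_mod_cast hnat) hMl
          rcases le_total 0 a with h | h
          · have : (a.natAbs : ℤ) = a := by omega
            rw [this] at w1
            exact w1.trans h8
          · have : t - (a.natAbs : ℤ) = t + a := by omega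
            rw [this] at w2
            exact w2.trans h8
      _ = L * (M * lam) := by rw [← sum_mul, t4, one_mul]

end Pool.Agent.H414.MX
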