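import Pool.Agent.H414.MX.Spec

/-! Windows, second order. -/

set_option autoImplicit false

namespace Pool.Agent.H414.MX

open Finset

namespace Op2

theorem ee_add (x y : ℝ) : ee (x + y) = ee x * ee y := by
  unfold ee
  rw [← Complex.exp_add]
  congr 1
  push_cast
  ring

theorem ee_nat (x : ℝ) (n : ℕ) : ee (x * n) = ee x ^ n := by
  unfold ee
  rw [← Complex.exp_nat_mul]
  congr 1
  push_cast
  ring

theorem ee_int (m : ℤ) : ee m = 1 := by
  unfold ee
  rw [Complex.exp_eq_one_iff]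
  exact ⟨m, by push_cast; ring⟩

theorem ee_zero : ee 0 = 1 := by
  unfold ee
  simp

theorem norm_ee (x : ℝ) : ‖ee x‖ = 1 := by
  unfold ee
  rw [show (2 * (Real.pi : ℂ) * (x : ℂ) * Complex.I) = ((2 * Real.pi * x : ℝ) : ℂ) * Complex.I by
    push_cast; ring]
  exact Complex.norm_exp_ofReal_mul_I _

theorem ee_neg_mul (x : ℝ) : ee x * ee (-x) = 1 := by
  rw [← ee_add, add_neg_cancel, ee_zero]

theorem norm_ee_neg_sub (x : ℝ) : ‖ee (-x) - 1‖ = ‖ee x - 1‖ := by
  have h1 : ee x * (ee (-x) - 1) = -(ee x - 1) := by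
    rw [mul_sub, ee_neg_mul]
    ring
  have h2 := congrArg norm h1
  rwa [norm_mul, norm_ee, one_mul, norm_neg] at h2

theorem nd_le (x : ℝ) : 4 * nd x ≤ ‖ee x - 1‖ := by
  set u : ℝ := x - round x with hu
  have h1 : ee x = ee u := by
    have h2 : x = u + ((round x : ℤ) : ℝ) := by rw [hu]; ring
    conv_lhs => rw [h2]
    rw [ee_add, ee_int, mul_one]
  have h2 : nd x = |u| := rfl
  rw [h1, h2]
  have h3 : ‖ee u - 1‖ = ‖2 * Real.sin (2 * Real.pi * u / 2)‖ := by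
    rw [← Complex.norm_exp_I_mul_ofReal_sub_one]
    unfold ee
    congr 3
    push_cast
    ring
  have h4 : |u| ≤ 1 / 2 := abs_sub_round x
  have h5 : 2 * Real.pi * u / 2 = Real.pi * u := by ring
  rw [h3, h5, norm_mul, Real.norm_eq_abs, Real.norm_eq_abs, abs_two]
  have h6 : |Real.pi * u| = Real.pi * |u| := by
    rw [abs_mul, abs_of_pos Real.pi_pos]
  have h7 : |Real.pi * u| ≤ Real.pi / 2 := by
    rw [h6]
    nlinarith [Real.pi_pos]
  have h8 := Real.mul_abs_le_abs_sin h7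
  rw [h6] at h8
  have h9 : 2 / Real.pi * (Real.pi * |u|) = 2 * |u| := by
    field_simp
  rw [h9] at h8
  linarith

theorem sbp (g : ℕ → ℂ) (z : ℂ) (L : ℕ) :
    (z - 1) * ∑ i ∈ range L, g i * z ^ i =
      g L * z ^ L - g 0 - ∑ i ∈ range L, (g (i + 1) - g i) * z ^ (i + 1) := by
  induction L with
  | zero => simp
  | succ L ih =>
    rw [sum_range_succ, mul_add, ih, sum_range_succ]
    ring

theorem sbp_norm (g : ℕ → ℂ) (z : ℂ) (hz : ‖z‖ = 1) (L : ℕ) (A D : ℝ)
    (hA : ∀ i ≤ L, ‖g i‖ ≤ A) (hD : ∀ i < L, ‖g (i + 1) - g i‖ ≤ D) :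
    ‖(z - 1) * ∑ i ∈ range L, g i * z ^ i‖ ≤ 2 * A + L * D := by
  rw [sbp]
  have h1 : ‖∑ i ∈ range L, (g (i + 1) - g i) * z ^ (i + 1)‖ ≤ L * D := by
    refine (norm_sum_le _ _).trans ?_
    have h2 : ∑ i ∈ range L, ‖(g (i + 1) - g i) * z ^ (i + 1)‖ ≤ ∑ _i ∈ range L, D := by
      refine sum_le_sum fun i hi => ?_
      rw [norm_mul, norm_pow, hz, one_pow, mul_one]
      exact hD i (mem_range.1 hi)
    rw [sum_const, card_range, nsmul_eq_mul] at h2
    exact h2
  have h3 : ‖g L * z ^ L‖ ≤ A := by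
    rw [norm_mul, norm_pow, hz, one_pow, mul_one]
    exact hA L le_rfl
  have h4 := hA 0 (Nat.zero_le _)
  have h5 := norm_sub_le (g L * z ^ L - g 0) (∑ i ∈ range L, (g (i + 1) - g i) * z ^ (i + 1))
  have h6 := norm_sub_le (g L * z ^ L) (g 0)
  linarith

/-- the inner sum -/
noncomputable def BB (L : ℕ) (G : ℤ → ℂ) (z : ℂ) (b : ℤ) : ℂ := ∑ i ∈ range L, G (b + i) * z ^ i

theorem win_eq (hTRI : S_TRI) (L : ℕ) (hL : 1 ≤ L) (t : ℤ) (G : ℤ → ℂ) (γ : ℝ) :
    win L t G γ = (1 / (L : ℂ) ^ 2) * ∑ j ∈ range L, BB L G (ee γ) (t - j) * ee (-γ) ^ j := by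
  unfold win
  rw [(hTRI L hL).1 (fun a => G (t + a) * ee (γ * a)), sum_comm]
  congr 1
  refine sum_congr rfl fun j _ => ?_
  unfold BB
  rw [sum_mul]
  refine sum_congr rfl fun i _ => ?_
  have h1 : γ * (((i : ℤ) - (j : ℤ) : ℤ) : ℝ) = γ * (i : ℝ) + -γ * (j : ℝ) := by
    push_cast
    ring
  rw [h1, ee_add, ee_nat, ee_nat, show t + ((i : ℤ) - (j : ℤ)) = t - j + i by ring]
  ring

end Op2

open Op2 in
theorem op2 (hTRI : S_TRI) : S_OP2 := by
  intro L t G γ M lam hL hM hlam h0 h1 h2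
  set z := ee γ with hz
  set w := ee (-γ) with hw
  have hz1 : ‖z‖ = 1 := norm_ee _
  have hw1 : ‖w‖ = 1 := norm_ee _
  have hLr : (1 : ℝ) ≤ L := by exact_mod_cast hL
  -- the inner sums
  have hB : ∀ b : ℤ, t - L ≤ b → b ≤ t → ‖(z - 1) * BB L G z b‖ ≤ 2 * M + L * (M * lam) := by
    intro b hb1 hb2
    unfold BB
    refine sbp_norm (fun i => G (b + i)) z hz1 L M (M * lam) ?_ ?_
    · intro i hi
      apply h0
      rw [abs_le]
      constructor <;> omega
    · intro i hi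
      have h3 := h1 (b + i) (by rw [abs_le]; constructor <;> omega)
        (by rw [abs_le]; constructor <;> omega)
      rwa [show b + ((i + 1 : ℕ) : ℤ) = b + i + 1 by push_cast; ring]
  have hB2 : ∀ b : ℤ, t - L ≤ b → b < t →
      ‖(z - 1) * (BB L G z (b + 1) - BB L G z b)‖ ≤ 2 * (M * lam) + L * (M * lam ^ 2) := by
    intro b hb1 hb2
    have h3 : BB L G z (b + 1) - BB L G z b =
        ∑ i ∈ range L, (G (b + i + 1) - G (b + i)) * z ^ i := by
      unfold BB
      rw [← sum_sub_distrib]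
      refine sum_congr rfl fun i _ => ?_
      rw [show b + 1 + (i : ℤ) = b + i + 1 by ring]
      ring
    rw [h3]
    refine sbp_norm (fun i => G (b + i + 1) - G (b + i)) z hz1 L (M * lam) (M * lam ^ 2) ?_ ?_
    · intro i hi
      exact h1 (b + i) (by rw [abs_le]; constructor <;> omega)
        (by rw [abs_le]; constructor <;> omega)
    · intro i hi
      have h4 := h2 (b + i) (by rw [abs_le]; constructor <;> omega)
        (by rw [abs_le]; constructor <;> omega)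
      rw [show b + ((i + 1 : ℕ) : ℤ) + 1 = b + i + 2 by push_cast; ring,
        show b + ((i + 1 : ℕ) : ℤ) = b + i + 1 by push_cast; ring]
      rwa [show G (b + i + 2) - G (b + i + 1) - (G (b + i + 1) - G (b + i)) =
        G (b + i + 2) - 2 * G (b + i + 1) + G (b + i) by ring]
  -- the outer sum
  have h3 := sbp_norm (fun j => (z - 1) * BB L G z (t - j)) w hw1 L (2 * M + L * (M * lam))
    (2 * (M * lam) + L * (M * lam ^ 2)) (fun j hj => hB _ (by omega) (by omega)) (by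
      intro j hj
      have h4 := hB2 (t - (j + 1 : ℕ)) (by omega) (by push_cast; omega)
      rw [show t - ((j + 1 : ℕ) : ℤ) + 1 = t - j by push_cast; ring] at h4
      rw [← mul_sub, norm_mul, norm_sub_rev (BB L G z (t - ((j + 1 : ℕ) : ℤ))), ← norm_mul]
      exact h4)
  have h4 : (w - 1) * ∑ j ∈ range L, (z - 1) * BB L G z (t - j) * w ^ j =
      (w - 1) * ((z - 1) * ∑ j ∈ range L, BB L G z (t - j) * w ^ j) := by
    congr 1
    rw [mul_sum]
    refine sum_congr rfl fun j _ => ?_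
    ring
  rw [h4, norm_mul, norm_mul, hw, norm_ee_neg_sub, ← hz, ← hw] at h3
  set T := ∑ j ∈ range L, BB L G z (t - j) * w ^ j with hT
  have h5 : win L t G γ = (1 / (L : ℂ) ^ 2) * T := win_eq hTRI L hL t G γ
  have h6 : ‖win L t G γ‖ = ‖T‖ / (L : ℝ) ^ 2 := by
    rw [h5, norm_mul, norm_div, norm_one, norm_pow, Complex.norm_natCast]
    ring
  have h7 := nd_le γ
  rw [← hz] at h7
  have h8 : 0 ≤ nd γ := abs_nonneg _
  have h9 : (4 * nd γ) * ((4 * nd γ) * ‖T‖) ≤ ‖z - 1‖ * (‖z - 1‖ * ‖T‖) := by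
    have := norm_nonneg T
    gcongr
  have h10 : 16 * (nd γ ^ 2 * ‖T‖) ≤ M * (2 + L * lam) ^ 2 := by
    calc 16 * (nd γ ^ 2 * ‖T‖) = (4 * nd γ) * ((4 * nd γ) * ‖T‖) := by ring
      _ ≤ _ := h9
      _ ≤ _ := h3
      _ = M * (2 + L * lam) ^ 2 := by ring
  rw [h6]
  have h11 : M * (2 + L * lam) ^ 2 ≤ 16 * (M * (1 + L * lam) ^ 2) := by
    have h12 : 0 ≤ L * lam := by positivity
    nlinarith [mul_nonneg hM h12, mul_nonneg hM (sq_nonneg (L * lam))]
  have h13 : (1 / (L : ℝ) + lam) ^ 2 = (1 + L * lam) ^ 2 / (L : ℝ) ^ 2 := by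
    field_simp
  rw [h13, div_mul_eq_mul_div, mul_div_assoc', div_le_div_iff_of_pos_right (by positivity)]
  linarith

end Pool.Agent.H414.MX
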