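import Pool.Agent.H414.MX.Spec

/-!
PHASES: the decomposition of `U n (b / √p)` into two oscillating terms with slowly varying coefficients
(project MX; proof by helper707).
-/

set_option autoImplicit false

namespace Pool.Agent.H414.MX

open Finset
open Pool.Agent.H414.LT (primesUpTo blk kk U)
open Pool.Agent.H414.DF (e2)

namespace Phi

theorem amp_pos {x : ℝ} (hx : |x| ≤ 1 / 2) : 4 / 5 ≤ √(1 - x ^ 2) := by
  apply Real.le_sqrt_of_sq_le
  have := sq_le_sq' (by linarith [(abs_le.1 hx).1]) (abs_le.1 hx).2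
  nlinarith

/-- the phase -/
theorem phase {x y ρ : ℝ} (h : ρ ≤ 1 / 2) (hx : |x| ≤ ρ) (hy : |y| ≤ ρ) :
    |(Real.arccos x + x) - (Real.arccos y + y)| ≤ ρ ^ 2 * |x - y| := by
  have hd : ∀ z ∈ Set.Icc (-ρ) ρ, HasDerivWithinAt (fun z => Real.arccos z + z)
      (-(1 / √(1 - z ^ 2)) + 1) (Set.Icc (-ρ) ρ) z := by
    intro z hz
    have h1 : z ≠ -1 := by
      intro e
      rw [e] at hz
      linarith [hz.1]
    have h2 : z ≠ 1 := by
      intro e
      rw [e] at hz
      linarith [hz.2]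
    exact ((Real.hasDerivAt_arccos h1 h2).add (hasDerivAt_id z)).hasDerivWithinAt
  have hb : ∀ z ∈ Set.Icc (-ρ) ρ, ‖-(1 / √(1 - z ^ 2)) + 1‖ ≤ ρ ^ 2 := by
    intro z hz
    have hz1 : |z| ≤ ρ := abs_le.2 hz
    have hz2 : z ^ 2 ≤ ρ ^ 2 := sq_le_sq' hz.1 hz.2
    have hz3 : |z| ≤ 1 / 2 := hz1.trans h
    have hs := amp_pos hz3
    have hz4 : z ^ 2 ≤ 1 / 4 := by
      have := sq_le_sq' (by linarith [(abs_le.1 hz3).1]) (abs_le.1 hz3).2
      linarith
    have hs2 : √(1 - z ^ 2) ^ 2 = 1 - z ^ 2 := Real.sq_sqrt (by linarith)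
    have hs0 : 0 < √(1 - z ^ 2) := by linarith
    have hz0 := sq_nonneg z
    have h1 : 1 ≤ 1 / √(1 - z ^ 2) := by
      rw [le_div_iff₀ hs0, one_mul, Real.sqrt_le_one]
      · linarith
    have h2 : 1 / √(1 - z ^ 2) ≤ 1 + z ^ 2 := by
      rw [div_le_iff₀ hs0]
      have h3 : 1 ≤ ((1 + z ^ 2) * √(1 - z ^ 2)) ^ 2 := by
        rw [mul_pow, hs2]
        nlinarith [mul_nonneg hz0 (sub_nonneg.2 hz4), mul_nonneg hz0 hz0,
          mul_nonneg (mul_nonneg hz0 hz0) (sub_nonneg.2 hz4)]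
      nlinarith [mul_pos (show (0 : ℝ) < 1 + z ^ 2 by linarith) hs0]
    rw [Real.norm_eq_abs, abs_le]
    constructor <;> linarith [sq_nonneg ρ]
  have := Convex.norm_image_sub_le_of_norm_hasDerivWithin_le hd hb (convex_Icc _ _)
    (abs_le.1 hy : y ∈ Set.Icc (-ρ) ρ) (abs_le.1 hx : x ∈ Set.Icc (-ρ) ρ)
  rwa [Real.norm_eq_abs, Real.norm_eq_abs] at this

/-- the amplitude -/
theorem amp {x y : ℝ} (hx : |x| ≤ 1 / 2) (hy : |y| ≤ 1 / 2) :
    |1 / (2 * √(1 - x ^ 2)) - 1 / (2 * √(1 - y ^ 2))| ≤ |x - y| := by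
  have sx := amp_pos hx
  have sy := amp_pos hy
  have hx4 : x ^ 2 ≤ 1 / 4 := by
    have := sq_le_sq' (by linarith [(abs_le.1 hx).1]) (abs_le.1 hx).2
    linarith
  have hy4 : y ^ 2 ≤ 1 / 4 := by
    have := sq_le_sq' (by linarith [(abs_le.1 hy).1]) (abs_le.1 hy).2
    linarith
  have ex : √(1 - x ^ 2) ^ 2 = 1 - x ^ 2 := Real.sq_sqrt (by linarith)
  have ey : √(1 - y ^ 2) ^ 2 = 1 - y ^ 2 := Real.sq_sqrt (by linarith)
  obtain ⟨s, hs⟩ : ∃ s, s = √(1 - x ^ 2) := ⟨_, rfl⟩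
  obtain ⟨u, hu⟩ : ∃ u, u = √(1 - y ^ 2) := ⟨_, rfl⟩
  rw [← hs] at sx ex ⊢
  rw [← hu] at sy ey ⊢
  have hs0 : 0 < s := by linarith
  have hu0 : 0 < u := by linarith
  have e1 : 1 / (2 * s) - 1 / (2 * u) = (x - y) * ((x + y) / (2 * (s * u) * (s + u))) := by
    rw [eq_comm, ← mul_div_assoc, div_eq_iff (by positivity)]
    have e2 : (x - y) * (x + y) = (u - s) * (u + s) := by nlinarith
    rw [e2]
    field_simp
    ring
  rw [e1, abs_mul]
  have h2 : |(x + y) / (2 * (s * u) * (s + u))| ≤ 1 := by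
    rw [abs_div, abs_of_pos (show 0 < 2 * (s * u) * (s + u) by positivity),
      div_le_one (by positivity)]
    have h3 : |x + y| ≤ 1 := (abs_add_le x y).trans (by linarith)
    have h4 : 16 / 25 ≤ s * u := by nlinarith
    have h5 : 8 / 5 ≤ s + u := by linarith
    have h6 : 1 ≤ 2 * (s * u) * (s + u) := by nlinarith
    linarith
  calc |x - y| * |(x + y) / (2 * (s * u) * (s + u))| ≤ |x - y| * 1 :=
        mul_le_mul_of_nonneg_left h2 (abs_nonneg _)
    _ = |x - y| := mul_one _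

theorem expd (a b : ℝ) : ‖Complex.exp (Complex.I * a) - Complex.exp (Complex.I * b)‖ ≤ |a - b| := by
  have e : Complex.exp (Complex.I * a) - Complex.exp (Complex.I * b) =
      Complex.exp (Complex.I * b) * (Complex.exp (Complex.I * ((a - b : ℝ) : ℂ)) - 1) := by
    rw [mul_sub, ← Complex.exp_add, mul_one]
    congr 2
    push_cast
    ring
  rw [e, norm_mul]
  have h1 : ‖Complex.exp (Complex.I * b)‖ = 1 := by
    rw [mul_comm]
    exact Complex.norm_exp_ofReal_mul_I b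
  rw [h1, one_mul]
  exact Real.norm_exp_I_mul_ofReal_sub_one_le

theorem core (a a' c c' : ℝ) (z : ℂ) (hz : ‖z‖ = 1) :
    ‖Complex.exp (Complex.I * a') * (z * c') - Complex.exp (Complex.I * a) * (z * c)‖ ≤
      |c' - c| + |c| * |a' - a| := by
  have e : Complex.exp (Complex.I * a') * (z * c') - Complex.exp (Complex.I * a) * (z * c) =
      z * (Complex.exp (Complex.I * a') * ((c' - c : ℝ) : ℂ) +
        (c : ℂ) * (Complex.exp (Complex.I * a') - Complex.exp (Complex.I * a))) := by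
    push_cast
    ring
  rw [e, norm_mul, hz, one_mul]
  refine (norm_add_le _ _).trans ?_
  rw [norm_mul, norm_mul, Complex.norm_real, Complex.norm_real, Real.norm_eq_abs, Real.norm_eq_abs]
  have h1 : ‖Complex.exp (Complex.I * a')‖ = 1 := by
    rw [mul_comm]
    exact Complex.norm_exp_ofReal_mul_I a'
  rw [h1, one_mul]
  have := mul_le_mul_of_nonneg_left (expd a' a) (abs_nonneg c)
  linarith

end Phi

open Phi

theorem phi (hUS : LT.S_US) : S_PHI := by
  refine ⟨1, one_pos, ?_⟩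
  intro n p hp
  have hp' : (1 : ℝ) ≤ p := by exact_mod_cast hp
  obtain ⟨r, hr⟩ : ∃ r, r = √(p : ℝ) := ⟨_, rfl⟩
  have hr2 : r ^ 2 = p := by
    rw [hr]
    exact Real.sq_sqrt (by linarith)
  have hr0 : 0 < r := by
    rw [hr]
    exact Real.sqrt_pos.2 (by linarith)
  obtain ⟨y, hy⟩ : ∃ y : ℤ → ℝ, ∀ b, y b = (b : ℝ) / (2 * r) := ⟨_, fun _ => rfl⟩
  obtain ⟨ph, hph⟩ : ∃ ph : ℤ → ℝ, ∀ b, ph b = ((n : ℝ) + 1) * (Real.arccos (y b) + y b) :=
    ⟨_, fun _ => rfl⟩
  obtain ⟨am, ham⟩ : ∃ am : ℤ → ℝ, ∀ b, am b = 1 / (2 * √(1 - y b ^ 2)) := ⟨_, fun _ => rfl⟩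
  have hyb : ∀ b : ℤ, b ^ 2 ≤ p → |y b| ≤ 1 / 2 := by
    intro b hb
    have hb' : (b : ℝ) ^ 2 ≤ p := by exact_mod_cast hb
    rw [← hr2] at hb'
    rw [hy, abs_div, abs_of_pos (show 0 < 2 * r by linarith), div_le_iff₀ (by linarith)]
    have := abs_le_of_sq_le_sq hb' hr0.le
    linarith
  have hamb : ∀ b : ℤ, |y b| ≤ 1 / 2 → |am b| ≤ 1 := by
    intro b hb
    have h1 := amp_pos hb
    rw [ham, abs_of_pos (by positivity), div_le_one (by positivity)]
    linarith
  have hdiff : ∀ (b : ℤ) (R : ℝ), |(b : ℝ)| ≤ R → |(b : ℝ) + 1| ≤ R → R ^ 2 ≤ p →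
      |am (b + 1) - am b| + |am b| * |ph (b + 1) - ph b| ≤
        1 * (1 / r + (n + 1) * R ^ 2 / (p * r)) := by
    intro b R h1 h2 h3
    have hR0 : 0 ≤ R := (abs_nonneg _).trans h1
    obtain ⟨ρ, hρ⟩ : ∃ ρ, ρ = R / (2 * r) := ⟨_, rfl⟩
    have hρ2 : ρ ≤ 1 / 2 := by
      rw [hρ, div_le_iff₀ (by linarith)]
      rw [← hr2] at h3
      have := abs_le_of_sq_le_sq h3 hr0.le
      rw [abs_of_nonneg hR0] at this
      linarith
    have hy1 : |y b| ≤ ρ := by
      rw [hy, hρ, abs_div, abs_of_pos (show 0 < 2 * r by linarith)]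
      gcongr
    have hy2 : |y (b + 1)| ≤ ρ := by
      rw [hy, hρ, abs_div, abs_of_pos (show 0 < 2 * r by linarith)]
      push_cast
      gcongr
    have hyd : |y (b + 1) - y b| = 1 / (2 * r) := by
      rw [hy, hy, ← sub_div]
      push_cast
      rw [add_sub_cancel_left, abs_of_pos (by positivity)]
    have ha : |am (b + 1) - am b| ≤ 1 / (2 * r) := by
      rw [ham, ham, ← hyd]
      exact amp (hy2.trans hρ2) (hy1.trans hρ2)
    have hb : |ph (b + 1) - ph b| ≤ (n + 1) * (ρ ^ 2 * (1 / (2 * r))) := by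
      rw [hph, hph, ← mul_sub, abs_mul, abs_of_pos (show (0 : ℝ) < n + 1 by positivity), ← hyd]
      exact mul_le_mul_of_nonneg_left (phase hρ2 hy2 hy1) (by positivity)
    have hc := hamb b (hy1.trans hρ2)
    have hd : |am b| * |ph (b + 1) - ph b| ≤ 1 * ((n + 1) * (ρ ^ 2 * (1 / (2 * r)))) :=
      mul_le_mul hc hb (abs_nonneg _) zero_le_one
    have he : ((n : ℝ) + 1) * (ρ ^ 2 * (1 / (2 * r))) = ((n + 1) * R ^ 2 / (p * r)) / 8 := by
      rw [hρ, ← hr2]
      field_simp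
      ring
    have hf : 0 ≤ (n + 1) * R ^ 2 / (p * r) := by positivity
    have hg : 1 / (2 * r) = (1 / r) / 2 := by
      field_simp
    have hh : 0 < 1 / r := by positivity
    rw [he] at hd
    rw [hg] at ha
    linarith
  refine ⟨fun b => Complex.exp (Complex.I * ((-ph b : ℝ) : ℂ)) * (Complex.I * (am b : ℂ)),
    fun b => Complex.exp (Complex.I * ((ph b : ℝ) : ℂ)) * (-Complex.I * (am b : ℂ)),
    ((n : ℝ) + 1) / (4 * Real.pi * r), ?_, ?_, ?_⟩
  · intro b hb
    have hb' := hyb b hb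
    have hs := amp_pos hb'
    have hs0 : (0 : ℝ) < √(1 - y b ^ 2) := by linarith
    have hpi := Real.pi_pos
    have e1 : nt p b = 2 * Real.cos (Real.arccos (y b)) := by
      rw [Real.cos_arccos (by linarith [(abs_le.1 hb').1]) (by linarith [(abs_le.1 hb').2]), hy,
        nt, ← hr]
      field_simp
    have e2' : U n (nt p b) = Real.sin (((n : ℝ) + 1) * Real.arccos (y b)) / √(1 - y b ^ 2) := by
      rw [eq_div_iff hs0.ne', e1, ← Real.sin_arccos (y b)]
      exact hUS n _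
    have e3 : ee (((n : ℝ) + 1) / (4 * Real.pi * r) * b) =
        Complex.exp (Complex.I * ((((n : ℝ) + 1) * y b : ℝ) : ℂ)) := by
      unfold ee
      congr 1
      rw [hy]
      have hpc : (Real.pi : ℂ) ≠ 0 := by exact_mod_cast hpi.ne'
      have hrc : (r : ℂ) ≠ 0 := by exact_mod_cast hr0.ne'
      push_cast
      field_simp
      ring
    have e4 : ee (-(((n : ℝ) + 1) / (4 * Real.pi * r)) * b) =
        Complex.exp (Complex.I * ((-(((n : ℝ) + 1) * y b) : ℝ) : ℂ)) := by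
      unfold ee
      congr 1
      rw [hy]
      have hpc : (Real.pi : ℂ) ≠ 0 := by exact_mod_cast hpi.ne'
      have hrc : (r : ℂ) ≠ 0 := by exact_mod_cast hr0.ne'
      push_cast
      field_simp
      ring
    have e5 : ∀ u v : ℝ, ∀ z : ℂ, Complex.exp (Complex.I * (u : ℂ)) * z *
        Complex.exp (Complex.I * (v : ℂ)) = z * Complex.exp (Complex.I * ((u + v : ℝ) : ℂ)) := by
      intro u v z
      push_cast
      rw [mul_add, Complex.exp_add]
      ring
    rw [e2', e3, e4]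
    show _ = Complex.exp (Complex.I * ((-ph b : ℝ) : ℂ)) * (Complex.I * (am b : ℂ)) * _ +
      Complex.exp (Complex.I * ((ph b : ℝ) : ℂ)) * (-Complex.I * (am b : ℂ)) * _
    rw [e5, e5]
    have e6 : -ph b + ((n : ℝ) + 1) * y b = -(((n : ℝ) + 1) * Real.arccos (y b)) := by
      rw [hph]
      ring
    have e7 : ph b + -(((n : ℝ) + 1) * y b) = ((n : ℝ) + 1) * Real.arccos (y b) := by
      rw [hph]
      ring
    rw [e6, e7, ham]
    obtain ⟨T, hT⟩ : ∃ T, T = ((n : ℝ) + 1) * Real.arccos (y b) := ⟨_, rfl⟩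
    rw [← hT]
    have e8 : (Real.sin T : ℂ) =
        (Complex.exp (-(T : ℂ) * Complex.I) - Complex.exp ((T : ℂ) * Complex.I)) * Complex.I / 2 := by
      rw [Complex.ofReal_sin]
      rfl
    have hsc : ((√(1 - y b ^ 2) : ℝ) : ℂ) ≠ 0 := by exact_mod_cast hs0.ne'
    rw [Complex.ofReal_div, e8]
    push_cast
    have e9 : Complex.I * -(T : ℂ) = -(T : ℂ) * Complex.I := by ring
    have e10 : Complex.I * (T : ℂ) = (T : ℂ) * Complex.I := by ring
    rw [e9, e10]
    field_simp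
    ring
  · intro b hb
    have h1 : ∀ u : ℝ, ‖Complex.exp (Complex.I * (u : ℂ))‖ = 1 := by
      intro u
      rw [mul_comm]
      exact Complex.norm_exp_ofReal_mul_I u
    have h2 := hamb b (hyb b hb)
    constructor
    · show ‖Complex.exp (Complex.I * ((-ph b : ℝ) : ℂ)) * (Complex.I * (am b : ℂ))‖ ≤ 1
      rw [norm_mul, h1, one_mul, norm_mul, Complex.norm_I, one_mul, Complex.norm_real,
        Real.norm_eq_abs]
      exact h2
    · show ‖Complex.exp (Complex.I * ((ph b : ℝ) : ℂ)) * (-Complex.I * (am b : ℂ))‖ ≤ 1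
      rw [norm_mul, h1, one_mul, norm_mul, norm_neg, Complex.norm_I, one_mul, Complex.norm_real,
        Real.norm_eq_abs]
      exact h2
  · intro b R h1 h2 h3
    have hd := hdiff b R h1 h2 h3
    rw [← hr]
    constructor
    · refine (core (-ph b) (-ph (b + 1)) (am b) (am (b + 1)) Complex.I Complex.norm_I).trans ?_
      have e : |(-ph (b + 1)) - (-ph b)| = |ph (b + 1) - ph b| := by
        rw [← abs_neg]
        congr 1
        ring
      rw [e]
      exact hd
    · exact (core (ph b) (ph (b + 1)) (am b) (am (b + 1)) (-Complex.I)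
        (by rw [norm_neg, Complex.norm_I])).trans hd

end Pool.Agent.H414.MX
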