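import Pool.Agent.H414.MX.Spec

/-!
Project MX: the statement `S_PHM` (large `n` or `q`), from `S_SIZ`, `S_PHI` and `S_DYA`.
-/

set_option autoImplicit false

namespace Pool.Agent.H414.MX

open Finset
open Pool.Agent.H414.LT (primesUpTo blk kk U)
open Pool.Agent.H414.DF (e2)

namespace Phm

lemma box_sq {n : ℕ} {b : ℤ} (h : b ∈ box n) : b ^ 2 ≤ n := by
  unfold box at h
  rw [mem_Icc] at h
  have h2 : b ^ 2 ≤ (Nat.sqrt n : ℤ) ^ 2 := sq_le_sq' h.1 h.2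
  have h3 : (Nat.sqrt n : ℤ) ^ 2 ≤ n := by exact_mod_cast Nat.sqrt_le' n
  exact h2.trans h3

lemma ee_add (x y : ℝ) : ee (x + y) = ee x * ee y := by
  unfold ee
  rw [← Complex.exp_add]
  congr 1
  push_cast
  ring

lemma norm_ee (x : ℝ) : ‖ee x‖ = 1 := by
  unfold ee
  have : (2 * Real.pi * x * Complex.I : ℂ) = ((2 * Real.pi * x : ℝ) : ℂ) * Complex.I := by
    push_cast; ring
  rw [this, Complex.norm_exp_ofReal_mul_I]

lemma split (L : ℕ) (t : ℤ) (G g₁ g₂ : ℤ → ℂ) (γ ω β q : ℝ)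
    (h : ∀ a : ℤ, |a| ≤ L → G (t + a) = g₁ (t + a) * ee (ω * ((t + a : ℤ) : ℝ)) +
      g₂ (t + a) * ee (-ω * ((t + a : ℤ) : ℝ))) :
    ‖win L t (fun b => G b * ee (β * b / q)) γ‖ ≤
      ‖win L t g₁ (γ + (β / q + ω))‖ + ‖win L t g₂ (γ + (β / q - ω))‖ := by
  have key : win L t (fun b => G b * ee (β * b / q)) γ =
      ee ((ω + β / q) * t) * win L t g₁ (γ + (β / q + ω)) +
      ee ((-ω + β / q) * t) * win L t g₂ (γ + (β / q - ω)) := by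
    unfold win
    rw [mul_sum, mul_sum, ← sum_add_distrib]
    refine sum_congr rfl fun a ha => ?_
    rw [mem_Icc] at ha
    have e1 : ee (ω * ((t + a : ℤ) : ℝ)) * ee (β * ((t + a : ℤ) : ℝ) / q) * ee (γ * a) =
        ee ((ω + β / q) * t) * ee ((γ + (β / q + ω)) * a) := by
      rw [← ee_add, ← ee_add, ← ee_add]
      congr 1
      push_cast
      ring
    have e2 : ee (-ω * ((t + a : ℤ) : ℝ)) * ee (β * ((t + a : ℤ) : ℝ) / q) * ee (γ * a) =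
        ee ((-ω + β / q) * t) * ee ((γ + (β / q - ω)) * a) := by
      rw [← ee_add, ← ee_add, ← ee_add]
      congr 1
      push_cast
      ring
    beta_reduce
    rw [h a (abs_le.2 ha)]
    calc _ = (tri L a : ℂ) * g₁ (t + a) *
          (ee (ω * ((t + a : ℤ) : ℝ)) * ee (β * ((t + a : ℤ) : ℝ) / q) * ee (γ * a)) +
          (tri L a : ℂ) * g₂ (t + a) *
          (ee (-ω * ((t + a : ℤ) : ℝ)) * ee (β * ((t + a : ℤ) : ℝ) / q) * ee (γ * a)) := by ring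
      _ = _ := by rw [e1, e2]; ring
  rw [key]
  refine (norm_add_le _ _).trans ?_
  rw [norm_mul, norm_mul, norm_ee, norm_ee, one_mul, one_mul]

lemma e2_nonneg (x : ℝ) : 0 < e2 x := by
  unfold e2
  positivity

lemma e2_add (x y : ℝ) : e2 (x + y) = e2 x * e2 y := by
  unfold e2
  exact Real.rpow_add (by norm_num) x y

lemma e2_mono {x y : ℝ} (h : x ≤ y) : e2 x ≤ e2 y := by
  unfold e2
  exact Real.rpow_le_rpow_of_exponent_le (by norm_num) h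

lemma log_le {k q : ℕ} (h : (q : ℝ) ≤ e2 (k / 6)) : Nat.log 2 q ≤ k := by
  have h1 : (q : ℝ) ≤ ((2 ^ k : ℕ) : ℝ) := by
    refine h.trans ((e2_mono (y := (k : ℝ)) ?_).trans ?_)
    · have : (0:ℝ) ≤ k := Nat.cast_nonneg k
      linarith
    · unfold e2
      rw [Real.rpow_natCast]
      push_cast
      exact le_rfl
  have h2 : q ≤ 2 ^ k := by exact_mod_cast h1
  have h3 := Nat.log_mono_right (b := 2) h2
  rwa [Nat.log_pow (by norm_num)] at h3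

/-- summation of the dyadic ranges -/
lemma dya (k : ℕ) (hQ : (Qk k : ℝ) ≤ e2 (k / 6)) (f : ℕ → ℝ) (B : ℝ) (hB : 0 ≤ B)
    (h : ∀ i, 2 ^ i ≤ Qk k → ∑ q' ∈ (Icc 1 (Qk k)).filter (fun q' => Nat.log 2 q' = i), f q' ≤ B) :
    ∑ q' ∈ Icc 1 (Qk k), f q' ≤ (k + 1) * B := by
  have h1 : ∀ q' ∈ Icc 1 (Qk k), Nat.log 2 q' ∈ range (k + 1) := by
    intro q' hq'
    rw [mem_Icc] at hq'
    rw [mem_range]
    have h2 : (q' : ℝ) ≤ e2 (k / 6) := le_trans (by exact_mod_cast hq'.2) hQ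
    have := log_le h2
    omega
  rw [← sum_fiberwise_of_maps_to h1]
  have h2 : ∀ i ∈ range (k + 1),
      ∑ q' ∈ (Icc 1 (Qk k)).filter (fun q' => Nat.log 2 q' = i), f q' ≤ B := by
    intro i _
    by_cases hi : 2 ^ i ≤ Qk k
    · exact h i hi
    · have : (Icc 1 (Qk k)).filter (fun q' => Nat.log 2 q' = i) = ∅ := by
        rw [filter_eq_empty_iff]
        intro q' hq' hl
        rw [mem_Icc] at hq'
        apply hi
        rw [← hl]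
        exact (Nat.pow_log_le_self 2 (by omega)).trans hq'.2
      rw [this, sum_empty]
      exact hB
  refine (sum_le_sum h2).trans ?_
  rw [sum_const, card_range, nsmul_eq_mul]
  push_cast
  exact le_rfl

end Phm

open Phm in
theorem phm (hSIZ : S_SIZ) (hPHI : S_PHI) (hDYA : S_DYA) : S_PHM := by
  obtain ⟨ks, hs⟩ := hSIZ
  obtain ⟨C₁, hC₁, hphi⟩ := hPHI
  obtain ⟨C₂, kd, hC₂, hdya⟩ := hDYA
  refine ⟨4 * (C₂ * C₁), max ks kd, by positivity, ?_⟩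
  intro k n p q β t hk hp ht hq hβ hlarge
  obtain ⟨s1, s2, s3, s4, s5, s6, s7, s8, s9⟩ := hs k (le_trans (le_max_left _ _) hk)
  have hkd : kd ≤ k := le_trans (le_max_right _ _) hk
  have hp1 : 2 ^ k < p := by
    have := hp
    simp only [blk, mem_filter, mem_Ioc] at this
    exact this.1.1
  have hp0 : 1 ≤ p := le_trans Nat.one_le_two_pow hp1.le
  obtain ⟨g₁, g₂, ω, hU, hgb, hgd⟩ := hphi n p hp0
  set B : ℝ := C₂ * C₁ * (k + 1) * (1 + (n + 1) * e2 (-(k / 3))) with hBdef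
  have he3 := e2_nonneg (-(k / 3))
  have hB : 0 ≤ B := by positivity
  -- the two sums
  have hA : ∀ (g : ℤ → ℂ) (γ₀ : ℝ), (∀ b : ℤ, b ^ 2 ≤ p → ‖g b‖ ≤ C₁) →
      (∀ (b : ℤ) (R : ℝ), |(b : ℝ)| ≤ R → |(b : ℝ) + 1| ≤ R → R ^ 2 ≤ p →
        ‖g (b + 1) - g b‖ ≤ C₁ * (1 / √(p : ℝ) + (n + 1) * R ^ 2 / (p * √(p : ℝ)))) →
      ∑ q' ∈ Icc 1 (Qk k), ∑ c ∈ cop q', ‖win (q' * H k) t g ((c : ℝ) / q' + γ₀)‖ ≤ (k + 1) * B := by
    intro g γ₀ hg1 hg2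
    exact dya k s5 _ B hB fun i hi =>
      hdya k n p i t g γ₀ C₁ hkd hp ht hC₁.le hi hg1 hg2
  have hA1 := hA g₁ (β / q + ω) (fun b hb => (hgb b hb).1) (fun b R h1 h2 h3 => (hgd b R h1 h2 h3).1)
  have hA2 := hA g₂ (β / q - ω) (fun b hb => (hgb b hb).2) (fun b R h1 h2 h3 => (hgd b R h1 h2 h3).2)
  have hterm : ∀ q' ∈ Icc 1 (Qk k), ∀ c ∈ cop q',
      ‖win (q' * H k) t (fun b => (U n (nt p b) : ℂ) * ee ((β : ℝ) * b / q)) ((c : ℝ) / q')‖ ≤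
      ‖win (q' * H k) t g₁ ((c : ℝ) / q' + (β / q + ω))‖ +
      ‖win (q' * H k) t g₂ ((c : ℝ) / q' + (β / q - ω))‖ := by
    intro q' hq' c _
    rw [mem_Icc] at hq'
    refine split (q' * H k) t (fun b => (U n (nt p b) : ℂ)) g₁ g₂ _ ω β q fun a ha => ?_
    have h1 : |a| ≤ ((Qk k * H k : ℕ) : ℤ) := by
      refine ha.trans ?_
      exact_mod_cast Nat.mul_le_mul_right (H k) hq'.2
    have h2 := box_sq (s9 t ht a h1)
    refine hU (t + a) (h2.trans ?_)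
    exact_mod_cast hp1.le
  have hsum : ‖∑ q' ∈ Icc 1 (Qk k), ∑ c ∈ cop q',
      win (q' * H k) t (fun b => (U n (nt p b) : ℂ) * ee ((β : ℝ) * b / q)) ((c : ℝ) / q')‖ ≤
      2 * ((k + 1) * B) := by
    calc _ ≤ ∑ q' ∈ Icc 1 (Qk k), ∑ c ∈ cop q',
          ‖win (q' * H k) t (fun b => (U n (nt p b) : ℂ) * ee ((β : ℝ) * b / q)) ((c : ℝ) / q')‖ :=
          norm_sum_le_of_le _ fun q' _ => norm_sum_le _ _
      _ ≤ ∑ q' ∈ Icc 1 (Qk k), ∑ c ∈ cop q',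
          (‖win (q' * H k) t g₁ ((c : ℝ) / q' + (β / q + ω))‖ +
          ‖win (q' * H k) t g₂ ((c : ℝ) / q' + (β / q - ω))‖) :=
          sum_le_sum fun q' hq' => sum_le_sum fun c hc => hterm q' hq' c hc
      _ = ∑ q' ∈ Icc 1 (Qk k), ∑ c ∈ cop q', ‖win (q' * H k) t g₁ ((c : ℝ) / q' + (β / q + ω))‖ +
          ∑ q' ∈ Icc 1 (Qk k), ∑ c ∈ cop q', ‖win (q' * H k) t g₂ ((c : ℝ) / q' + (β / q - ω))‖ := by
          rw [← sum_add_distrib]
          exact sum_congr rfl fun q' _ => sum_add_distrib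
      _ ≤ _ := by linarith
  refine hsum.trans ?_
  -- the size of `B`
  have hq32 : (1:ℝ) ≤ (q : ℝ) ^ (3 / 2 : ℝ) :=
    Real.one_le_rpow (by exact_mod_cast hq) (by norm_num)
  have hk0 : (0:ℝ) ≤ k := Nat.cast_nonneg k
  have he4 := e2_nonneg (-(k / 4))
  have h34 : e2 (-(k / 3)) ≤ e2 (-(k / 4)) := e2_mono (by linarith)
  have hone : 1 ≤ ((n : ℝ) + 1) * (q : ℝ) ^ (3 / 2 : ℝ) * e2 (-(k / 4)) := by
    have h1 : e2 (k / 4) * e2 (-(k / 4)) = 1 := by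
      rw [← e2_add]
      unfold e2
      simp
    calc (1:ℝ) = e2 (k / 4) * e2 (-(k / 4)) := h1.symm
      _ ≤ _ := mul_le_mul_of_nonneg_right hlarge.le he4.le
  have htwo : ((n : ℝ) + 1) * e2 (-(k / 3)) ≤ ((n : ℝ) + 1) * (q : ℝ) ^ (3 / 2 : ℝ) * e2 (-(k / 4)) := by
    have h1 : ((n : ℝ) + 1) * e2 (-(k / 3)) ≤ ((n : ℝ) + 1) * e2 (-(k / 4)) :=
      mul_le_mul_of_nonneg_left h34 (by positivity)
    have h2 : ((n : ℝ) + 1) * e2 (-(k / 4)) ≤ ((n : ℝ) + 1) * e2 (-(k / 4)) * (q : ℝ) ^ (3 / 2 : ℝ) :=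
      le_mul_of_one_le_right (by positivity) hq32
    calc _ ≤ _ := h1
      _ ≤ _ := h2
      _ = _ := by ring
  have hX : 1 + ((n : ℝ) + 1) * e2 (-(k / 3)) ≤
      2 * (((n : ℝ) + 1) * (q : ℝ) ^ (3 / 2 : ℝ) * e2 (-(k / 4))) := by linarith
  calc 2 * ((k + 1) * B) = 2 * (C₂ * C₁) * (k + 1) ^ 2 * (1 + ((n : ℝ) + 1) * e2 (-(k / 3))) := by
        rw [hBdef]; ring
    _ ≤ 2 * (C₂ * C₁) * (k + 1) ^ 2 * (2 * (((n : ℝ) + 1) * (q : ℝ) ^ (3 / 2 : ℝ) * e2 (-(k / 4)))) :=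
        mul_le_mul_of_nonneg_left hX (by positivity)
    _ = _ := by ring

end Pool.Agent.H414.MX
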