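import Pool.Agent.H414.MX.Spec

/-!
Project MX: the phases, small `n` and `q` (S_PHS).
-/

set_option autoImplicit false

namespace Pool.Agent.H414.MX

open Finset
open Pool.Agent.H414.LT (primesUpTo blk kk U)
open Pool.Agent.H414.DF (e2)

namespace Phs

theorem ee_add (x y : ℝ) : ee (x + y) = ee x * ee y := by
  unfold ee
  rw [← Complex.exp_add]
  congr 1
  push_cast
  ring

theorem norm_ee (x : ℝ) : ‖ee x‖ = 1 := by
  unfold ee
  have h : (2 * (Real.pi : ℂ) * x * Complex.I) = ((2 * Real.pi * x : ℝ) : ℂ) * Complex.I := by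
    push_cast
    ring
  rw [h, Complex.norm_exp_ofReal_mul_I]

theorem win_twist (L : ℕ) (t : ℤ) (G : ℤ → ℂ) (β q : ℕ) (γ : ℝ) :
    win L t (fun b => G b * ee ((β : ℝ) * b / q)) γ =
      ee ((β : ℝ) * t / q) * win L t G (γ + (β : ℝ) / q) := by
  unfold win
  rw [Finset.mul_sum]
  refine Finset.sum_congr rfl fun a _ => ?_
  have h1 : ee ((β : ℝ) * ((t + a : ℤ) : ℝ) / q) = ee ((β : ℝ) * t / q) * ee ((β : ℝ) / q * a) := by
    rw [← ee_add]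
    congr 1
    push_cast
    ring
  have h2 : ee ((γ + (β : ℝ) / q) * a) = ee (γ * a) * ee ((β : ℝ) / q * a) := by
    rw [← ee_add]
    congr 1
    ring
  beta_reduce
  rw [h1, h2]
  ring

theorem sq_le_of_box {n : ℕ} {b : ℤ} (h : b ∈ box n) : b ^ 2 ≤ n := by
  unfold box at h
  rw [Finset.mem_Icc] at h
  have h1 : ((Nat.sqrt n : ℕ) : ℤ) ^ 2 ≤ n := by exact_mod_cast Nat.sqrt_le' n
  nlinarith [h.1, h.2]

theorem e2_add (x y : ℝ) : e2 (x + y) = e2 x * e2 y := Real.rpow_add two_pos x y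

theorem e2_pos (x : ℝ) : 0 < e2 x := Real.rpow_pos_of_pos two_pos x

theorem e2_neg (x : ℝ) : e2 (-x) = (e2 x)⁻¹ := Real.rpow_neg two_pos.le x

theorem alg {N s x : ℝ} (hN : 1 ≤ N) (hs : 1 ≤ s) (hx : 0 < x) (h : N * s ^ 3 ≤ x ^ 3) :
    x ^ 2 * (s ^ 2 / x ^ 3 + N * s ^ 2 / x ^ 4) ^ 2 ≤ 4 * (N * s ^ 3 / x ^ 3) := by
  have hs0 : 0 < s := by linarith
  have hN0 : 0 < N := by linarith
  have hs3 : 0 < s ^ 3 := by positivity
  have hsx : s ≤ x := by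
    by_contra h1
    have h2 : x ^ 3 < s ^ 3 := pow_lt_pow_left₀ (not_le.1 h1) hx.le (by norm_num)
    nlinarith
  have hNs : N * s ≤ x ^ 3 := by
    have h1 : s ≤ s ^ 3 := by nlinarith [mul_pos hs0 hs0]
    have h2 : N * s ≤ N * s ^ 3 := mul_le_mul_of_nonneg_left h1 hN0.le
    linarith
  have e1 : x ^ 2 * (s ^ 2 / x ^ 3 + N * s ^ 2 / x ^ 4) ^ 2 =
      (s ^ 2 / x ^ 2 + N * s ^ 2 / x ^ 3) ^ 2 := by
    field_simp
  rw [e1]
  have e2 : (s ^ 2 / x ^ 2) ^ 2 ≤ N * s ^ 3 / x ^ 3 := by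
    rw [div_pow, div_le_div_iff₀ (by positivity) (by positivity)]
    have h1 : (s ^ 2) ^ 2 * x ^ 3 = s ^ 3 * x ^ 3 * s := by ring
    have h2 : N * s ^ 3 * (x ^ 2) ^ 2 = s ^ 3 * x ^ 3 * (N * x) := by ring
    rw [h1, h2]
    refine mul_le_mul_of_nonneg_left ?_ (by positivity)
    nlinarith
  have e3 : (N * s ^ 2 / x ^ 3) ^ 2 ≤ N * s ^ 3 / x ^ 3 := by
    rw [div_pow, div_le_div_iff₀ (by positivity) (by positivity)]
    have h1 : (N * s ^ 2) ^ 2 * x ^ 3 = N * s ^ 3 * x ^ 3 * (N * s) := by ring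
    have h2 : N * s ^ 3 * (x ^ 3) ^ 2 = N * s ^ 3 * x ^ 3 * x ^ 3 := by ring
    rw [h1, h2]
    exact mul_le_mul_of_nonneg_left hNs (by positivity)
  nlinarith [sq_nonneg (s ^ 2 / x ^ 2 - N * s ^ 2 / x ^ 3)]

theorem split (Q q₀ c₀ : ℕ) (hq : q₀ ∈ Icc 1 Q) (hc : c₀ ∈ cop q₀) (W : ℕ → ℕ → ℂ) :
    ∑ q' ∈ Icc 1 Q, ∑ c ∈ cop q', W q' c = W q₀ c₀ +
      ∑ q' ∈ Icc 1 Q, ∑ c ∈ (cop q').filter (fun c => (q', c) ≠ (q₀, c₀)), W q' c := by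
  have h1 : ∀ q' ∈ Icc 1 Q, ∑ c ∈ cop q', W q' c =
      (∑ c ∈ cop q', if (q', c) = (q₀, c₀) then W q' c else 0) +
        ∑ c ∈ (cop q').filter (fun c => (q', c) ≠ (q₀, c₀)), W q' c := by
    intro q' _
    rw [Finset.sum_filter, ← Finset.sum_add_distrib]
    refine Finset.sum_congr rfl fun c _ => ?_
    by_cases h : (q', c) = (q₀, c₀)
    · rw [if_pos h, if_neg (not_not.2 h), add_zero]
    · rw [if_neg h, if_pos h, zero_add]
  rw [Finset.sum_congr rfl h1, Finset.sum_add_distrib]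
  congr 1
  rw [Finset.sum_eq_single q₀]
  · rw [Finset.sum_eq_single c₀]
    · rw [if_pos rfl]
    · intro c _ hcc
      rw [if_neg]
      intro h
      exact hcc (Prod.ext_iff.1 h).2
    · intro h
      exact absurd hc h
  · intro q' _ hqq
    refine Finset.sum_eq_zero fun c _ => ?_
    rw [if_neg]
    intro h
    exact hqq (Prod.ext_iff.1 h).1
  · intro h
    exact absurd hq h

end Phs

open Phs in
theorem phs (hSIZ : S_SIZ) (hDIF : S_DIF) (hOP1 : S_OP1) (hFRA : S_FRA) (hNRS : S_NRS) : S_PHS := by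
  obtain ⟨k₁, hS⟩ := hSIZ
  obtain ⟨C₁, k₂, hC₁, hN⟩ := hNRS
  refine ⟨8 + 4 * C₁, max k₁ k₂, by linarith, ?_⟩
  intro k n p q β t hk hp ht hq hβ hnq
  obtain ⟨s1, s2, -, -, s5, s6, s7, -, s9⟩ := hS k ((le_max_left _ _).trans hk)
  have hk2 : k₂ ≤ k := (le_max_right _ _).trans hk
  obtain ⟨q₀, c₀, f1, f2, f3, ⟨m, f4⟩, f5⟩ := hFRA.2 q β hq hβ
  -- real parameters
  obtain ⟨N, hNd⟩ : ∃ N : ℝ, N = (n : ℝ) + 1 := ⟨_, rfl⟩
  have hN1 : 1 ≤ N := by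
    rw [hNd]
    have : (0:ℝ) ≤ n := Nat.cast_nonneg n
    linarith
  obtain ⟨s, hsd⟩ : ∃ s : ℝ, s = √(q : ℝ) := ⟨_, rfl⟩
  have hq1 : (1:ℝ) ≤ q := by exact_mod_cast hq
  have hsq : s ^ 2 = q := by rw [hsd, Real.sq_sqrt (by linarith)]
  have hs1 : 1 ≤ s := by
    rw [hsd]
    exact Real.one_le_sqrt.2 hq1
  have hs3 : (q : ℝ) ^ (3 / 2 : ℝ) = s ^ 3 := by
    rw [hsd, Real.sqrt_eq_rpow, ← Real.rpow_natCast, ← Real.rpow_mul (by linarith)]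
    norm_num
  obtain ⟨x, hxd⟩ : ∃ x : ℝ, x = e2 ((k : ℝ) / 12) := ⟨_, rfl⟩
  have hx0 : 0 < x := by
    rw [hxd]
    exact e2_pos _
  have hx2 : e2 ((k : ℝ) / 6) = x ^ 2 := by
    rw [hxd, sq, ← e2_add]
    congr 1
    ring
  have hx3 : e2 ((k : ℝ) / 4) = x ^ 3 := by
    rw [hxd, pow_succ, sq, ← e2_add, ← e2_add]
    congr 1
    ring
  have hx6 : e2 ((k : ℝ) / 2) = x ^ 6 := by
    have h1 : x ^ 6 = x ^ 3 * x ^ 3 := by ring
    rw [h1, ← hx3, ← e2_add]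
    congr 1
    ring
  have hx12 : x ^ 12 = (2:ℝ) ^ k := by
    have h1 : x ^ 12 = x ^ 6 * x ^ 6 := by ring
    rw [h1, ← hx6, ← e2_add]
    have h2 : (k : ℝ) / 2 + (k : ℝ) / 2 = k := by ring
    rw [h2]
    exact Real.rpow_natCast 2 k
  rw [← hNd, hs3, hx3] at hnq
  rw [← hNd, hs3, e2_neg, hx3]
  have hsx : s ≤ x := by
    by_contra h1
    have h2 : x ^ 3 < s ^ 3 := pow_lt_pow_left₀ (not_le.1 h1) hx0.le (by norm_num)
    have h3 : 0 < s ^ 3 := by positivity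
    nlinarith
  have hqQ : q ≤ Qk k := by
    unfold Qk
    refine Nat.le_floor ?_
    rw [hx2, ← hsq]
    exact pow_le_pow_left₀ (by linarith) hsx 2
  have hq₀ : q₀ ∈ Icc 1 (Qk k) := Finset.mem_Icc.2 ⟨f1, f2.trans hqQ⟩
  have hp' := hp
  unfold blk at hp'
  rw [Finset.mem_filter, Finset.mem_Ioc] at hp'
  have hp1 : 1 ≤ p := hp'.2.one_lt.le
  have hp2 : ((2 ^ k : ℕ) : ℤ) ≤ p := by exact_mod_cast hp'.1.1.le
  have hpx : x ^ 6 ≤ √(p : ℝ) := by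
    refine Real.le_sqrt_of_sq_le ?_
    have h1 : (x ^ 6) ^ 2 = x ^ 12 := by ring
    rw [h1, hx12]
    exact_mod_cast hp'.1.1.le
  have hpos : 0 < √(p : ℝ) := lt_of_lt_of_le (by positivity) hpx
  obtain ⟨d1, d2, -⟩ := hDIF n p hp1
  -- the window
  have hwin : ∀ b : ℤ, |b - t| ≤ ((q₀ * H k : ℕ) : ℤ) → b ^ 2 ≤ p := by
    intro b hb
    have h1 : |b - t| ≤ ((Qk k * H k : ℕ) : ℤ) := by
      refine hb.trans ?_
      exact_mod_cast Nat.mul_le_mul_right _ (f2.trans hqQ)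
    have h2 := s9 t ht (b - t) h1
    rw [add_sub_cancel] at h2
    exact (sq_le_of_box h2).trans hp2
  have hH : 1 ≤ H k := by
    have h1 : (0:ℝ) < H k := lt_of_lt_of_le (e2_pos _) s6
    have h2 : 0 < H k := by exact_mod_cast h1
    exact h2
  obtain ⟨W, hW⟩ : ∃ W : ℕ → ℕ → ℂ, W = fun (q' c : ℕ) =>
    win (q' * H k) t (fun b => (U n (nt p b) : ℂ)) ((c : ℝ) / q' + (β : ℝ) / q) := ⟨_, rfl⟩
  -- the resonant term
  have hres : ‖W q₀ c₀ - (U n (nt p t) : ℂ)‖ ≤ 8 * (N * s ^ 3 * (x ^ 3)⁻¹) := by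
    obtain ⟨-, -, h3⟩ := hOP1 (q₀ * H k) t (fun b => (U n (nt p b) : ℂ)) ((c₀ : ℝ) / q₀ + (β : ℝ) / q)
      2 (2 * N / √(p : ℝ)) (Nat.mul_pos f1 hH) (by norm_num) (by positivity)
      (fun b hb => by
        rw [Complex.norm_real, Real.norm_eq_abs]
        exact d1 b (hwin b hb))
      (fun b hb hb' => by
        rw [← Complex.ofReal_sub, Complex.norm_real, Real.norm_eq_abs]
        refine (d2 b (hwin b hb) (hwin (b + 1) hb')).trans (le_of_eq ?_)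
        rw [hNd]
        ring)
    have h4 := h3 ⟨m, f4⟩
    rw [hW]
    refine h4.trans ?_
    have h5 : ((q₀ * H k : ℕ) : ℝ) ≤ s ^ 2 * (2 * x ^ 3) := by
      push_cast
      rw [hsq, ← hx3]
      have h6 : (q₀ : ℝ) ≤ q := by exact_mod_cast f2
      exact mul_le_mul h6 s7 (Nat.cast_nonneg _) (by linarith)
    have h6 : 2 * (2 * N / √(p : ℝ)) ≤ 4 * N / x ^ 6 := by
      have h7 : 2 * (2 * N / √(p : ℝ)) = 4 * N / √(p : ℝ) := by ring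
      rw [h7]
      exact div_le_div_of_nonneg_left (by positivity) (by positivity) hpx
    calc ((q₀ * H k : ℕ) : ℝ) * (2 * (2 * N / √(p : ℝ)))
        ≤ (s ^ 2 * (2 * x ^ 3)) * (4 * N / x ^ 6) :=
          mul_le_mul h5 h6 (by positivity) (by positivity)
      _ = 8 * (N * s ^ 2 * (x ^ 3)⁻¹) := by
          field_simp
          ring
      _ ≤ 8 * (N * s ^ 3 * (x ^ 3)⁻¹) := by
          have h7 : s ^ 2 ≤ s ^ 3 := pow_le_pow_right₀ hs1 (by norm_num)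
          gcongr
  -- the other terms
  have hoth : ∑ q' ∈ Icc 1 (Qk k), ∑ c ∈ (cop q').filter (fun c => (q', c) ≠ (q₀, c₀)), ‖W q' c‖ ≤
      4 * C₁ * (N * s ^ 3 * (x ^ 3)⁻¹) := by
    have h1 : ∀ q' ∈ Icc 1 (Qk k), ∑ c ∈ (cop q').filter (fun c => (q', c) ≠ (q₀, c₀)), ‖W q' c‖ ≤
        C₁ * (s ^ 2 / x ^ 3 + N * s ^ 2 / x ^ 4) ^ 2 := by
      intro q' hq'
      rw [Finset.mem_Icc] at hq'
      have h2 := hN k n p q q' β t hk2 hp ht hq hq'.1 hq'.2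
        ((cop q').filter (fun c => (q', c) ≠ (q₀, c₀))) (Finset.filter_subset _ _)
        (fun c hc => by
          rw [Finset.mem_filter] at hc
          exact f5 q' c hq'.1 hc.1 hc.2)
      rw [hW]
      refine h2.trans ?_
      rw [← hNd, e2_neg, e2_neg, hx3, hx6, ← hsq]
      refine mul_le_mul_of_nonneg_left (pow_le_pow_left₀ (by positivity) ?_ 2) hC₁
      have h3 : (q' : ℝ) ≤ x ^ 2 := by
        have h4 : (q' : ℝ) ≤ Qk k := by exact_mod_cast hq'.2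
        rw [← hx2]
        exact h4.trans s5
      have h5 : N * s ^ 2 * q' * (x ^ 6)⁻¹ ≤ N * s ^ 2 * x ^ 2 * (x ^ 6)⁻¹ := by
        gcongr
      have h6 : N * s ^ 2 * x ^ 2 * (x ^ 6)⁻¹ = N * s ^ 2 / x ^ 4 := by
        field_simp
      rw [h6] at h5
      have h7 : s ^ 2 * (x ^ 3)⁻¹ = s ^ 2 / x ^ 3 := rfl
      linarith
    refine (Finset.sum_le_sum h1).trans ?_
    rw [Finset.sum_const, Nat.card_Icc, Nat.add_sub_cancel, nsmul_eq_mul]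
    have h2 : (Qk k : ℝ) ≤ x ^ 2 := by
      rw [← hx2]
      exact s5
    have h3 := alg hN1 hs1 hx0 hnq
    calc (Qk k : ℝ) * (C₁ * (s ^ 2 / x ^ 3 + N * s ^ 2 / x ^ 4) ^ 2)
        ≤ x ^ 2 * (C₁ * (s ^ 2 / x ^ 3 + N * s ^ 2 / x ^ 4) ^ 2) :=
          mul_le_mul_of_nonneg_right h2 (by positivity)
      _ = C₁ * (x ^ 2 * (s ^ 2 / x ^ 3 + N * s ^ 2 / x ^ 4) ^ 2) := by ring
      _ ≤ C₁ * (4 * (N * s ^ 3 / x ^ 3)) := mul_le_mul_of_nonneg_left h3 hC₁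
      _ = 4 * C₁ * (N * s ^ 3 * (x ^ 3)⁻¹) := by ring
  -- put together
  have h1 : ∑ q' ∈ Icc 1 (Qk k), ∑ c ∈ cop q',
      win (q' * H k) t (fun b => (U n (nt p b) : ℂ) * ee ((β : ℝ) * b / q)) ((c : ℝ) / q') =
      ee ((β : ℝ) * t / q) * ∑ q' ∈ Icc 1 (Qk k), ∑ c ∈ cop q', W q' c := by
    rw [Finset.mul_sum]
    refine Finset.sum_congr rfl fun q' _ => ?_
    rw [Finset.mul_sum]
    refine Finset.sum_congr rfl fun c _ => ?_
    rw [hW]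
    exact win_twist (q' * H k) t (fun b => (U n (nt p b) : ℂ)) β q ((c : ℝ) / q')
  rw [h1, split (Qk k) q₀ c₀ hq₀ f3 W]
  have h2 : (U n (nt p t) : ℂ) * ee ((β : ℝ) * t / q) - ee ((β : ℝ) * t / q) * (W q₀ c₀ +
      ∑ q' ∈ Icc 1 (Qk k), ∑ c ∈ (cop q').filter (fun c => (q', c) ≠ (q₀, c₀)), W q' c) =
      -(ee ((β : ℝ) * t / q) * ((W q₀ c₀ - (U n (nt p t) : ℂ)) +
        ∑ q' ∈ Icc 1 (Qk k), ∑ c ∈ (cop q').filter (fun c => (q', c) ≠ (q₀, c₀)), W q' c)) := by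
    ring
  rw [h2, norm_neg, norm_mul, norm_ee, one_mul]
  have h3 : ‖∑ q' ∈ Icc 1 (Qk k), ∑ c ∈ (cop q').filter (fun c => (q', c) ≠ (q₀, c₀)), W q' c‖ ≤
      ∑ q' ∈ Icc 1 (Qk k), ∑ c ∈ (cop q').filter (fun c => (q', c) ≠ (q₀, c₀)), ‖W q' c‖ :=
    (norm_sum_le _ _).trans (Finset.sum_le_sum fun q' _ => norm_sum_le _ _)
  refine (norm_add_le _ _).trans ?_
  have h4 : (8 + 4 * C₁) * (N * s ^ 3 * (x ^ 3)⁻¹) = 8 * (N * s ^ 3 * (x ^ 3)⁻¹) +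
      4 * C₁ * (N * s ^ 3 * (x ^ 3)⁻¹) := by ring
  rw [h4]
  exact add_le_add hres (h3.trans hoth)

end Pool.Agent.H414.MX
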