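import Pool.Agent.H414.MX.Spec

/-!
# Project MX (helper414), task Ram (helper286): Ramanujan sums
-/

set_option autoImplicit false

namespace Pool.Agent.H414.MX

open Finset

namespace Ram

theorem ee_eq_one_iff (x : ℝ) : ee x = 1 ↔ ∃ n : ℤ, x = n := by
  unfold ee
  rw [Complex.exp_eq_one_iff]
  have hpi : (2 * (Real.pi : ℂ) * Complex.I) ≠ 0 := Complex.two_pi_I_ne_zero
  constructor
  · rintro ⟨n, hn⟩
    refine ⟨n, ?_⟩
    have h1 : (x : ℂ) * (2 * (Real.pi : ℂ) * Complex.I) = (n : ℂ) * (2 * (Real.pi : ℂ) * Complex.I) := by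
      rw [← hn]
      ring
    have h2 := mul_right_cancel₀ hpi h1
    exact_mod_cast h2
  · rintro ⟨n, rfl⟩
    refine ⟨n, ?_⟩
    push_cast
    ring

theorem ee_pow (x : ℝ) (c : ℕ) : ee (c * x) = ee x ^ c := by
  unfold ee
  rw [← Complex.exp_nat_mul]
  congr 1
  push_cast
  ring

/-- the complete sum -/
theorem full (q : ℕ) (a : ℤ) (hq : 0 < q) :
    ∑ c ∈ range q, ee ((c : ℝ) * a / q) = if (q : ℤ) ∣ a then (q : ℂ) else 0 := by
  have hq0 : (q : ℝ) ≠ 0 := by exact_mod_cast hq.ne'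
  have h1 : ∀ c ∈ range q, ee ((c : ℝ) * a / q) = ee ((a : ℝ) / q) ^ c := by
    intro c _
    rw [← ee_pow, mul_div_assoc]
  rw [sum_congr rfl h1]
  split_ifs with h
  · obtain ⟨n, rfl⟩ := h
    have h2 : ee (((q * n : ℤ) : ℝ) / q) = 1 := by
      rw [ee_eq_one_iff]
      refine ⟨n, ?_⟩
      push_cast
      field_simp
    rw [h2]
    simp
  · have h2 : ee ((a : ℝ) / q) ≠ 1 := by
      intro h3
      obtain ⟨n, hn⟩ := (ee_eq_one_iff _).1 h3
      apply h
      refine ⟨n, ?_⟩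
      rw [div_eq_iff hq0] at hn
      have h4 : (a : ℝ) = ((q * n : ℤ) : ℝ) := by
        rw [hn]
        push_cast
        ring
      exact_mod_cast h4
    have h3 : ee ((a : ℝ) / q) ^ q = 1 := by
      rw [← ee_pow, ee_eq_one_iff]
      refine ⟨a, ?_⟩
      field_simp
    rw [geom_sum_eq h2, h3, sub_self, zero_div]

/-- splitting by the greatest common divisor -/
theorem split (q : ℕ) (a : ℤ) (hq : 0 < q) :
    ∑ d ∈ q.divisors, ∑ c ∈ cop d, ee ((c : ℝ) * a / d) =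
      ∑ c ∈ range q, ee ((c : ℝ) * a / q) := by
  rw [← Nat.sum_div_divisors q (fun d => ∑ c ∈ cop d, ee ((c : ℝ) * a / d)),
    ← sum_fiberwise_of_maps_to (s := range q) (t := q.divisors) (g := fun c => q.gcd c)
      (fun c _ => Nat.mem_divisors.2 ⟨Nat.gcd_dvd_left q c, hq.ne'⟩)]
  refine sum_congr rfl fun e he => ?_
  obtain ⟨hed, -⟩ := Nat.mem_divisors.1 he
  obtain ⟨m, rfl⟩ := hed
  have he0 : 0 < e := Nat.pos_of_ne_zero (by rintro rfl; simp at hq)
  rw [Nat.mul_div_cancel_left m he0]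
  have he0r : (e : ℝ) ≠ 0 := by exact_mod_cast he0.ne'
  refine sum_bij (fun c _ => e * c) ?_ ?_ ?_ ?_
  · intro c hc
    rw [cop, mem_filter, mem_range] at hc
    rw [mem_filter, mem_range]
    refine ⟨Nat.mul_lt_mul_of_pos_left hc.1 he0, ?_⟩
    rw [Nat.gcd_mul_left, (Nat.Coprime.symm hc.2 : m.gcd c = 1), mul_one]
  · intro c _ c' _ h
    exact Nat.eq_of_mul_eq_mul_left he0 h
  · intro b hb
    rw [mem_filter, mem_range] at hb
    obtain ⟨hb1, hb2⟩ := hb
    have h1 : e ∣ b := by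
      rw [← hb2]
      exact Nat.gcd_dvd_right _ _
    obtain ⟨c, rfl⟩ := h1
    refine ⟨c, ?_, rfl⟩
    rw [cop, mem_filter, mem_range]
    rw [Nat.gcd_mul_left] at hb2
    refine ⟨Nat.lt_of_mul_lt_mul_left hb1, ?_⟩
    have h2 : m.gcd c = 1 := Nat.eq_of_mul_eq_mul_left he0 (by rw [hb2, mul_one])
    exact Nat.Coprime.symm h2
  · intro c _
    congr 1
    push_cast
    rw [mul_assoc, mul_div_mul_left _ _ he0r]

end Ram

open Ram

/-- Ramanujan sums. -/
theorem ram' : S_RAM := by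
  intro q a hq
  constructor
  · have h := (ArithmeticFunction.sum_eq_iff_sum_mul_moebius_eq (R := ℂ)
      (f := fun d => ∑ c ∈ cop d, ee ((c : ℝ) * a / d))
      (g := fun n => if (n : ℤ) ∣ a then (n : ℂ) else 0)).1
      (fun n hn => (split n a hn).trans (full n a hn)) q hq
    rw [← h, ram]
    push_cast
    refine sum_congr rfl fun x _ => ?_
    split_ifs
    · rw [Complex.ofReal_one, mul_one]
    · rw [Complex.ofReal_zero, mul_zero, mul_zero]
  · unfold ram
    refine (abs_sum_le_sum_abs _ _).trans ?_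
    rw [← Nat.sum_divisorsAntidiagonal' (n := q)
      (fun _ d => (d : ℝ) * (if (d : ℤ) ∣ a then 1 else 0))]
    refine sum_le_sum fun x _ => ?_
    rw [abs_mul, abs_mul]
    have h1 : |((ArithmeticFunction.moebius x.1 : ℤ) : ℝ)| ≤ 1 := by
      have := ArithmeticFunction.abs_moebius_le_one (n := x.1)
      exact_mod_cast this
    have h2 : |(x.2 : ℝ)| = x.2 := abs_of_nonneg (Nat.cast_nonneg _)
    have h3 : |(if (x.2 : ℤ) ∣ a then (1 : ℝ) else 0)| = if (x.2 : ℤ) ∣ a then (1 : ℝ) else 0 := by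
      split_ifs <;> simp
    rw [h2, h3]
    have h4 : (0 : ℝ) ≤ if (x.2 : ℤ) ∣ a then (1 : ℝ) else 0 := by
      split_ifs <;> norm_num
    have h5 : (0 : ℝ) ≤ x.2 := Nat.cast_nonneg _
    calc |((ArithmeticFunction.moebius x.1 : ℤ) : ℝ)| * (x.2 : ℝ) *
          (if (x.2 : ℤ) ∣ a then (1 : ℝ) else 0)
        ≤ 1 * (x.2 : ℝ) * (if (x.2 : ℤ) ∣ a then (1 : ℝ) else 0) := by gcongr
      _ = _ := by rw [one_mul]

end Pool.Agent.H414.MX
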