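import Pool.Agent.H414.MX.Spec

/-! Selection of the system for the project MX (helper16 for helper414; adapted from `DF/Sel.lean` by
helper685 and `EX/Sel.lean` by helper825). -/

set_option autoImplicit false

namespace Pool.Agent.H414.MX

open Finset
open Pool.Agent.H414.LT (primesUpTo blk U)

namespace Sel

/-- Second moments of a complex random variable minus its mean. -/
theorem variance {Ω : Type} [Fintype Ω] (π : Ω → ℝ) (h1 : ∑ ω, π ω = 1) (X : Ω → ℂ) :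
    ∑ v, π v * ‖X v - ∑ v', (π v' : ℂ) * X v'‖ ^ 2 =
      ∑ v, π v * ‖X v‖ ^ 2 - ‖∑ v', (π v' : ℂ) * X v'‖ ^ 2 := by
  set m := ∑ v', (π v' : ℂ) * X v' with hm
  have e : ∀ v, π v * ‖X v - m‖ ^ 2 = π v * ‖X v‖ ^ 2 -
      2 * (starRingEnd ℂ m * ((π v : ℂ) * X v)).re + π v * ‖m‖ ^ 2 := by
    intro v
    rw [← Complex.normSq_eq_norm_sq, ← Complex.normSq_eq_norm_sq, ← Complex.normSq_eq_norm_sq,
      Complex.normSq_apply, Complex.normSq_apply, Complex.normSq_apply]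
    simp
    ring
  rw [sum_congr rfl fun v _ => e v, sum_add_distrib, sum_sub_distrib, ← sum_mul, h1, one_mul,
    ← mul_sum, ← Complex.re_sum, ← mul_sum, ← hm]
  have : (starRingEnd ℂ m * m).re = ‖m‖ ^ 2 := by
    rw [← Complex.normSq_eq_norm_sq, Complex.normSq_apply]
    simp
  rw [this]
  ring

theorem mean_sq_le {Ω : Type} [Fintype Ω] (π : Ω → ℝ) (h0 : ∀ ω, 0 ≤ π ω) (h1 : ∑ ω, π ω = 1)
    (X : Ω → ℂ) : ‖∑ v', (π v' : ℂ) * X v'‖ ^ 2 ≤ ∑ v, π v * ‖X v‖ ^ 2 := by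
  have h2 := variance π h1 X
  have h3 : 0 ≤ ∑ v, π v * ‖X v - ∑ v', (π v' : ℂ) * X v'‖ ^ 2 :=
    sum_nonneg fun v _ => mul_nonneg (h0 v) (sq_nonneg _)
  linarith

theorem var_le {Ω : Type} [Fintype Ω] (π : Ω → ℝ) (h1 : ∑ ω, π ω = 1)
    (X : Ω → ℂ) : ∑ v, π v * ‖X v - ∑ v', (π v' : ℂ) * X v'‖ ^ 2 ≤ ∑ v, π v * ‖X v‖ ^ 2 := by
  rw [variance π h1 X]
  linarith [sq_nonneg ‖∑ v', (π v' : ℂ) * X v'‖]

/-- The engine for tests with bounded second moments, not yet centred. -/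
theorem eng_raw (hENG : Pool.Agent.H414.DF.S_ENG) (J : Type) (I : J → Type) [∀ j, Fintype (I j)]
    (Ω : ℕ → Type) [∀ n, Fintype (Ω n)] (π : ∀ n, Ω n → ℝ)
    (raw : ∀ (n : ℕ) (j : J), I j → Ω n → ℂ) (w E : J → ℝ)
    (h0 : ∀ n ω, 0 ≤ π n ω) (h1 : ∀ n, ∑ ω, π n ω = 1) (hw : ∀ j, 0 < w j) (hE : ∀ j, 0 ≤ E j)
    (hws : Summable fun j => w j * E j)
    (hsec : ∀ n j, ∑ ω, π n ω * ∑ s, ‖raw n j s ω‖ ^ 2 ≤ E j)
    (hsum : ∀ n ω, Summable fun j => w j * ∑ s, ‖raw n j s ω‖ ^ 2) :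
    ∃ ω : ∀ n, Ω n, ∀ (j : J) (N : ℕ),
      ∑ s, ‖∑ n ∈ range N, (raw n j s (ω n) - ∑ v, (π n v : ℂ) * raw n j s v)‖ ^ 2 ≤
        (∑' i, w i * E i) / w j * N := by
  have hswap : ∀ n j (G : I j → Ω n → ℝ), ∑ ω, π n ω * ∑ s, G s ω =
      ∑ s, ∑ ω, π n ω * G s ω := by
    intro n j G
    rw [sum_comm]
    exact sum_congr rfl fun ω _ => mul_sum _ _ _
  refine hENG J I Ω π (fun n j s v => raw n j s v - ∑ v', (π n v' : ℂ) * raw n j s v') w
    E h0 h1 hw hE hws ?_ ?_ ?_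
  · intro n j s
    simp only [mul_sub, sum_sub_distrib]
    rw [← sum_mul, ← Complex.ofReal_sum, h1, Complex.ofReal_one, one_mul, sub_self]
  · intro n j
    refine le_trans ?_ (hsec n j)
    rw [hswap n j, hswap n j]
    exact sum_le_sum fun s _ => var_le (π n) (h1 n) (raw n j s)
  · intro n v
    refine Summable.of_nonneg_of_le (fun j => mul_nonneg (hw j).le (sum_nonneg fun s _ => sq_nonneg _))
      (fun j => ?_) (((hsum n v).mul_left 2).add (hws.mul_left 2))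
    have h2 : ∑ s, ‖∑ v', (π n v' : ℂ) * raw n j s v'‖ ^ 2 ≤ E j := by
      refine le_trans ?_ (hsec n j)
      rw [hswap n j]
      exact sum_le_sum fun s _ => mean_sq_le (π n) (h0 n) (h1 n) (raw n j s)
    have h3 : ∀ s, ‖raw n j s v - ∑ v', (π n v' : ℂ) * raw n j s v'‖ ^ 2 ≤
        2 * ‖raw n j s v‖ ^ 2 + 2 * ‖∑ v', (π n v' : ℂ) * raw n j s v'‖ ^ 2 := by
      intro s
      have h4 := norm_sub_le (raw n j s v) (∑ v', (π n v' : ℂ) * raw n j s v')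
      have h5 : ‖raw n j s v - ∑ v', (π n v' : ℂ) * raw n j s v'‖ ^ 2 ≤
          (‖raw n j s v‖ + ‖∑ v', (π n v' : ℂ) * raw n j s v'‖) ^ 2 :=
        pow_le_pow_left₀ (norm_nonneg _) h4 2
      nlinarith [sq_nonneg (‖raw n j s v‖ - ‖∑ v', (π n v' : ℂ) * raw n j s v'‖)]
    have h6 : ∑ s, ‖raw n j s v - ∑ v', (π n v' : ℂ) * raw n j s v'‖ ^ 2 ≤
        2 * ∑ s, ‖raw n j s v‖ ^ 2 + 2 * E j := by
      calc ∑ s, ‖raw n j s v - ∑ v', (π n v' : ℂ) * raw n j s v'‖ ^ 2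
          ≤ ∑ s, (2 * ‖raw n j s v‖ ^ 2 + 2 * ‖∑ v', (π n v' : ℂ) * raw n j s v'‖ ^ 2) :=
            sum_le_sum fun s _ => h3 s
        _ = 2 * ∑ s, ‖raw n j s v‖ ^ 2 + 2 * ∑ s, ‖∑ v', (π n v' : ℂ) * raw n j s v'‖ ^ 2 := by
            rw [sum_add_distrib, ← mul_sum, ← mul_sum]
        _ ≤ 2 * ∑ s, ‖raw n j s v‖ ^ 2 + 2 * E j := by linarith
    calc w j * ∑ s, ‖raw n j s v - ∑ v', (π n v' : ℂ) * raw n j s v'‖ ^ 2
        ≤ w j * (2 * ∑ s, ‖raw n j s v‖ ^ 2 + 2 * E j) := mul_le_mul_of_nonneg_left h6 (hw j).le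
      _ = 2 * (w j * ∑ s, ‖raw n j s v‖ ^ 2) + 2 * (w j * E j) := by ring

/-- The index sets. -/
def Ix : (ℕ × ℕ × ℕ) ⊕ ℕ → Type
  | Sum.inl x => ZMod (x.2.1 + 1) × ZMod (x.2.1 + 1)
  | Sum.inr k => {t // t ∈ T k}

noncomputable instance : ∀ j, Fintype (Ix j)
  | Sum.inl x => inferInstanceAs (Fintype (ZMod (x.2.1 + 1) × ZMod (x.2.1 + 1)))
  | Sum.inr k => inferInstanceAs (Fintype {t // t ∈ T k})

/-- The outcomes. -/
abbrev Om (n : ℕ) : Type := {b : ℤ // b ∈ box (4 * n)}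

/-- The weights of the outcomes. -/
noncomputable def pw (ν : ℕ → ℤ → ℝ) (n : ℕ) (b : Om n) : ℝ :=
  if n.Prime then ν n b.1 else if b.1 = 0 then 1 else 0

/-- The tests of the first kind. -/
noncomputable def rawA (c : ℕ → ℕ → ℂ) (n i s m : ℕ)
    (u : ZMod (s + 1) × ZMod (s + 1)) (b : Om n) : ℂ :=
  if n.Prime then c i n * (((U m (nt n b.1) : ℝ) : ℂ) *
    (if ((n : ZMod (s + 1)), ((b.1 : ℤ) : ZMod (s + 1))) = u then 1 else 0)) else 0

/-- The tests of the second kind. -/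
noncomputable def rawB (n k : ℕ) (t : {t // t ∈ T k}) (b : Om n) : ℂ :=
  if n ∈ blk k ∧ b.1 = t.1 then 1 else 0

/-- The tests. -/
noncomputable def raw (c : ℕ → ℕ → ℂ) (n : ℕ) : ∀ j, Ix j → Om n → ℂ
  | Sum.inl x => rawA c n x.1 x.2.1 x.2.2
  | Sum.inr k => rawB n k

/-- The weights of the tests. -/
noncomputable def wj (w : ℕ → ℝ) : (ℕ × ℕ × ℕ) ⊕ ℕ → ℝ
  | Sum.inl x => (1 / 2) ^ x.1 * (1 / ((x.2.1 : ℝ) + 1) ^ 2 * w x.2.2)
  | Sum.inr k => 1 / ((k : ℝ) + 1) ^ 2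

/-- The second moments. -/
noncomputable def Ej (B : ℝ) : (ℕ × ℕ × ℕ) ⊕ ℕ → ℝ
  | Sum.inl x => B * ((x.2.2 : ℝ) + 1)
  | Sum.inr _ => 1

theorem wj_pos (w : ℕ → ℝ) (hw : ∀ n, 0 < w n) (j : (ℕ × ℕ × ℕ) ⊕ ℕ) : 0 < wj w j := by
  rcases j with x | k <;> simp only [wj]
  · have := hw x.2.2
    positivity
  · positivity

theorem Ej_nonneg (B : ℝ) (hB : 0 ≤ B) (j : (ℕ × ℕ × ℕ) ⊕ ℕ) : 0 ≤ Ej B j := by
  rcases j with x | k <;> simp only [Ej] <;> positivity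

theorem gen_summable (v : ℕ → ℝ) (hv0 : ∀ n, 0 ≤ v n) (hv : Summable v) :
    Summable fun x : ℕ × ℕ × ℕ => ((1 : ℝ) / 2) ^ x.1 * (1 / ((x.2.1 : ℝ) + 1) ^ 2 * v x.2.2) := by
  have h1 : Summable fun x : ℕ × ℕ => 1 / ((x.1 : ℝ) + 1) ^ 2 * v x.2 :=
    Summable.mul_of_nonneg (f := fun d : ℕ => 1 / ((d : ℝ) + 1) ^ 2) (g := v)
      Pool.Agent.H414.LT.summable_sq hv (fun d => div_nonneg zero_le_one (sq_nonneg _)) hv0
  exact Summable.mul_of_nonneg (f := fun e : ℕ => ((1 : ℝ) / 2) ^ e)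
    (g := fun x : ℕ × ℕ => 1 / ((x.1 : ℝ) + 1) ^ 2 * v x.2)
    (summable_geometric_of_lt_one (by norm_num) (by norm_num)) h1
    (fun d => pow_nonneg (by norm_num) _)
    (fun e => mul_nonneg (div_nonneg zero_le_one (sq_nonneg _)) (hv0 _))

theorem wj_summable (w : ℕ → ℝ) (hw : ∀ n, 0 < w n) (hs : Summable fun n => w n * ((n : ℝ) + 1)) :
    Summable (wj w) := by
  have hv : Summable w := by
    refine Summable.of_nonneg_of_le (fun n => (hw n).le) (fun n => ?_) hs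
    have h1 := hw n
    have h2 : (0 : ℝ) ≤ n := Nat.cast_nonneg n
    nlinarith
  have h1 := gen_summable w (fun n => (hw n).le) hv
  have h2 : Summable fun k : ℕ => 1 / ((k : ℝ) + 1) ^ 2 := Pool.Agent.H414.LT.summable_sq
  have e1 : wj w ∘ Sum.inl = fun x : ℕ × ℕ × ℕ =>
      ((1 : ℝ) / 2) ^ x.1 * (1 / ((x.2.1 : ℝ) + 1) ^ 2 * w x.2.2) := by
    funext x
    simp only [Function.comp_apply, wj]
  have e2 : wj w ∘ Sum.inr = fun k : ℕ => 1 / ((k : ℝ) + 1) ^ 2 := by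
    funext k
    simp only [Function.comp_apply, wj]
  exact Summable.sum (f := wj w) (e1 ▸ h1) (e2 ▸ h2)

theorem wE_summable (w : ℕ → ℝ) (hw : ∀ n, 0 < w n) (hs : Summable fun n => w n * ((n : ℝ) + 1))
    (B : ℝ) : Summable fun j => wj w j * Ej B j := by
  have h1 := (gen_summable (fun n => w n * ((n : ℝ) + 1))
    (fun n => mul_nonneg (hw n).le (by positivity)) hs).mul_left B
  have h2 : Summable fun k : ℕ => 1 / ((k : ℝ) + 1) ^ 2 := Pool.Agent.H414.LT.summable_sq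
  have e1 : (fun j => wj w j * Ej B j) ∘ Sum.inl = fun x : ℕ × ℕ × ℕ =>
      B * (((1 : ℝ) / 2) ^ x.1 * (1 / ((x.2.1 : ℝ) + 1) ^ 2 * (w x.2.2 * ((x.2.2 : ℝ) + 1)))) := by
    funext x
    simp only [Function.comp_apply, wj, Ej]
    ring
  have e2 : (fun j => wj w j * Ej B j) ∘ Sum.inr = fun k : ℕ => 1 / ((k : ℝ) + 1) ^ 2 := by
    funext k
    simp only [Function.comp_apply, wj, Ej, mul_one]
  exact Summable.sum (f := fun j => wj w j * Ej B j) (e1 ▸ h1) (e2 ▸ h2)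

theorem zero_mem_box (n : ℕ) : (0 : ℤ) ∈ box n := by
  unfold box
  rw [mem_Icc]
  have : (0 : ℤ) ≤ (Nat.sqrt n : ℤ) := Int.natCast_nonneg _
  constructor <;> omega

theorem pw_nonneg (ν : ℕ → ℤ → ℝ) (h0 : ∀ p : ℕ, p.Prime → ∀ b, 0 ≤ ν p b)
    (n : ℕ) (b : Om n) : 0 ≤ pw ν n b := by
  unfold pw
  split_ifs with h h'
  · exact h0 n h _
  · exact zero_le_one
  · exact le_rfl

theorem pw_sum (ν : ℕ → ℤ → ℝ)
    (h1 : ∀ p : ℕ, p.Prime → ∑ b ∈ box (4 * p), ν p b = 1) (n : ℕ) :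
    ∑ b : Om n, pw ν n b = 1 := by
  unfold pw
  by_cases h : n.Prime
  · simp only [if_pos h]
    rw [Finset.sum_coe_sort (box (4 * n)) (fun b => ν n b)]
    exact h1 n h
  · simp only [if_neg h]
    rw [Finset.sum_coe_sort (box (4 * n)) (fun b => if b = 0 then (1 : ℝ) else 0),
      Finset.sum_ite_eq' (box (4 * n)) 0 (fun _ => (1 : ℝ)), if_pos (zero_mem_box _)]

theorem rawA_zero (c : ℕ → ℕ → ℂ) (n i s m : ℕ) (h : ¬ n.Prime)
    (u : ZMod (s + 1) × ZMod (s + 1)) (b : Om n) : rawA c n i s m u b = 0 := by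
  unfold rawA
  rw [if_neg h]

theorem rawA_sum (c : ℕ → ℕ → ℂ) (hc : ∀ i p, ‖c i p‖ ≤ 1) (n i s m : ℕ)
    (b : Om n) : ∑ u, ‖rawA c n i s m u b‖ ^ 2 ≤ U m (nt n b.1) ^ 2 := by
  by_cases h : n.Prime
  · unfold rawA
    simp only [if_pos h]
    rw [Finset.sum_eq_single ((n : ZMod (s + 1)), ((b.1 : ℤ) : ZMod (s + 1)))]
    · rw [if_pos rfl, mul_one, norm_mul, mul_pow, Complex.norm_real, Real.norm_eq_abs, sq_abs]
      have h2 : ‖c i n‖ ^ 2 ≤ 1 := pow_le_one₀ (norm_nonneg _) (hc i n)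
      have h3 : 0 ≤ U m (nt n b.1) ^ 2 := sq_nonneg _
      nlinarith
    · intro u _ hs
      rw [if_neg (Ne.symm hs), mul_zero, mul_zero, norm_zero, zero_pow two_ne_zero]
    · intro h3
      exact absurd (mem_univ _) h3
  · simp only [rawA_zero c n i s m h, norm_zero]
    simp
    exact sq_nonneg _

theorem rawB_sum (n k : ℕ) (b : Om n) : ∑ t, ‖rawB n k t b‖ ^ 2 ≤ 1 := by
  unfold rawB
  by_cases h : n ∈ blk k
  · have e : ∀ t : {t // t ∈ T k}, ‖(if n ∈ blk k ∧ b.1 = t.1 then (1 : ℂ) else 0)‖ ^ 2 =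
        if b.1 = t.1 then (1 : ℝ) else 0 := by
      intro t
      by_cases h2 : b.1 = t.1
      · rw [if_pos ⟨h, h2⟩, if_pos h2]
        simp
      · rw [if_neg (fun h3 => h2 h3.2), if_neg h2]
        simp
    rw [sum_congr rfl fun t _ => e t,
      Finset.sum_coe_sort (T k) (fun t => if b.1 = t then (1 : ℝ) else 0),
      Finset.sum_ite_eq (T k) b.1 (fun _ => (1 : ℝ))]
    split_ifs <;> norm_num
  · have e : ∀ t : {t // t ∈ T k}, ‖(if n ∈ blk k ∧ b.1 = t.1 then (1 : ℂ) else 0)‖ ^ 2 = 0 := by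
      intro t
      rw [if_neg (fun h3 => h h3.1)]
      simp
    rw [sum_congr rfl fun t _ => e t]
    simp

theorem rawA_sec (ν : ℕ → ℤ → ℝ) (c : ℕ → ℕ → ℂ) (B : ℝ) (hB : 0 ≤ B)
    (h0 : ∀ p : ℕ, p.Prime → ∀ b, 0 ≤ ν p b)
    (h2 : ∀ (m p : ℕ), p.Prime → ∑ b ∈ box (4 * p), ν p b * (U m (nt p b)) ^ 2 ≤ B * (m + 1))
    (hc : ∀ i p, ‖c i p‖ ≤ 1) (n i s m : ℕ) :
    ∑ b : Om n, pw ν n b * ∑ u, ‖rawA c n i s m u b‖ ^ 2 ≤ B * ((m : ℝ) + 1) := by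
  by_cases h : n.Prime
  · have e : ∀ b : Om n, pw ν n b * ∑ u, ‖rawA c n i s m u b‖ ^ 2 ≤
        ν n b.1 * U m (nt n b.1) ^ 2 := by
      intro b
      have e2 := rawA_sum c hc n i s m b
      have e3 : pw ν n b = ν n b.1 := by
        unfold pw
        rw [if_pos h]
      rw [e3]
      exact mul_le_mul_of_nonneg_left e2 (h0 n h _)
    refine (sum_le_sum fun b _ => e b).trans ?_
    rw [Finset.sum_coe_sort (box (4 * n)) (fun b => ν n b * U m (nt n b) ^ 2)]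
    exact h2 m n h
  · simp only [rawA_zero c n i s m h]
    simp
    positivity

theorem rawB_sec (ν : ℕ → ℤ → ℝ) (h0 : ∀ p : ℕ, p.Prime → ∀ b, 0 ≤ ν p b)
    (h1 : ∀ p : ℕ, p.Prime → ∑ b ∈ box (4 * p), ν p b = 1) (n k : ℕ) :
    ∑ b : Om n, pw ν n b * ∑ t, ‖rawB n k t b‖ ^ 2 ≤ 1 := by
  calc ∑ b : Om n, pw ν n b * ∑ t, ‖rawB n k t b‖ ^ 2
      ≤ ∑ b : Om n, pw ν n b * 1 :=
        sum_le_sum fun b _ => mul_le_mul_of_nonneg_left (rawB_sum n k b) (pw_nonneg ν h0 n b)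
    _ = 1 := by simp only [mul_one]; exact pw_sum ν h1 n

theorem raw_sec (ν : ℕ → ℤ → ℝ) (c : ℕ → ℕ → ℂ) (B : ℝ) (hB : 0 ≤ B)
    (h0 : ∀ p : ℕ, p.Prime → ∀ b, 0 ≤ ν p b)
    (h1 : ∀ p : ℕ, p.Prime → ∑ b ∈ box (4 * p), ν p b = 1)
    (h2 : ∀ (m p : ℕ), p.Prime → ∑ b ∈ box (4 * p), ν p b * (U m (nt p b)) ^ 2 ≤ B * (m + 1))
    (hc : ∀ i p, ‖c i p‖ ≤ 1) (n : ℕ) :
    ∀ (j : (ℕ × ℕ × ℕ) ⊕ ℕ), ∑ b : Om n, pw ν n b * ∑ s, ‖raw c n j s b‖ ^ 2 ≤ Ej B j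
  | Sum.inl x => rawA_sec ν c B hB h0 h2 hc n x.1 x.2.1 x.2.2
  | Sum.inr k => rawB_sec ν h0 h1 n k

/-- For a prime `p` and `b` in the box the characters are bounded at `b / √p`. -/
theorem U_bdd (hUB : Pool.Agent.H414.LT.S_UB) {p : ℕ} (hp : p.Prime) {b : ℤ} (hb : b ^ 2 ≤ 4 * p)
    (m : ℕ) :
    |U m ((b : ℝ) / √(p : ℝ))| ≤ 2 / √(4 - ((b : ℝ) / √(p : ℝ)) ^ 2) := by
  have hp0 : (0 : ℝ) < p := by exact_mod_cast hp.pos
  have h1 := Pool.Agent.H414.LT.not_sq hp hb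
  have h1' : (b : ℝ) ^ 2 < 4 * p := by exact_mod_cast h1
  have h2 : ((b : ℝ) / √(p : ℝ)) ^ 2 = (b : ℝ) ^ 2 / p := by
    rw [div_pow, Real.sq_sqrt hp0.le]
  have h3 : ((b : ℝ) / √(p : ℝ)) ^ 2 < 4 := by
    rw [h2, div_lt_iff₀ hp0]
    exact h1'
  have h4 : |(b : ℝ) / √(p : ℝ)| ≤ 2 := by
    refine abs_le_of_sq_le_sq ?_ (by norm_num)
    linarith
  have h5 := hUB m _ h4
  have h6 : 0 < √(4 - ((b : ℝ) / √(p : ℝ)) ^ 2) := Real.sqrt_pos.2 (by linarith)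
  rw [le_div_iff₀ h6]
  exact h5

theorem mem_box_sq {n : ℕ} {b : ℤ} (hb : b ∈ box n) : b ^ 2 ≤ n := by
  unfold box at hb
  have h1 := mem_Icc.1 hb
  have h2 : |b| ≤ (Nat.sqrt n : ℤ) := abs_le.2 h1
  have h3 : (Nat.sqrt n : ℤ) ^ 2 ≤ n := by
    have := Nat.sqrt_le' n
    exact_mod_cast this
  have h4 : |b| ^ 2 ≤ (Nat.sqrt n : ℤ) ^ 2 := pow_le_pow_left₀ (abs_nonneg _) h2 2
  rw [sq_abs] at h4
  exact h4.trans h3

theorem U_bdd' (hUB : Pool.Agent.H414.LT.S_UB) {p : ℕ} (hp : p.Prime) (b : Om p) :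
    ∃ K : ℝ, ∀ m : ℕ, U m (nt p b.1) ^ 2 ≤ K := by
  refine ⟨(2 / √(4 - ((b.1 : ℝ) / √(p : ℝ)) ^ 2)) ^ 2, fun m => ?_⟩
  rw [← sq_abs]
  refine pow_le_pow_left₀ (abs_nonneg _) ?_ 2
  unfold nt
  refine U_bdd hUB hp ?_ m
  have := mem_box_sq b.2
  exact_mod_cast this

theorem raw_summable (hUB : Pool.Agent.H414.LT.S_UB) (w : ℕ → ℝ) (hw : ∀ n, 0 < w n)
    (hs : Summable fun n => w n * ((n : ℝ) + 1)) (c : ℕ → ℕ → ℂ)
    (hc : ∀ i p, ‖c i p‖ ≤ 1) (n : ℕ) (b : Om n) :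
    Summable fun j => wj w j * ∑ s, ‖raw c n j s b‖ ^ 2 := by
  obtain ⟨K, hK0, hK⟩ : ∃ K : ℝ, 0 ≤ K ∧ ∀ i s m : ℕ,
      ∑ u, ‖rawA c n i s m u b‖ ^ 2 ≤ K := by
    by_cases h : n.Prime
    · obtain ⟨K, hK⟩ := U_bdd' hUB h b
      exact ⟨|K|, abs_nonneg _, fun i s m =>
        (rawA_sum c hc n i s m b).trans ((hK m).trans (le_abs_self K))⟩
    · refine ⟨0, le_rfl, fun i s m => ?_⟩
      simp only [rawA_zero c n i s m h]
      simp
  refine Summable.of_nonneg_of_le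
    (fun j => mul_nonneg (wj_pos w hw j).le (sum_nonneg fun s _ => sq_nonneg _)) ?_
    ((wj_summable w hw hs).mul_right (K + 1))
  intro j
  refine mul_le_mul_of_nonneg_left ?_ (wj_pos w hw j).le
  rcases j with x | k
  · exact (hK x.1 x.2.1 x.2.2).trans (by linarith)
  · exact (rawB_sum n k b).trans (by linarith)

/-- Expansion of `F` in the indicator functions. -/
theorem expand (c : ℕ → ℕ → ℂ) (n i s m : ℕ)
    (F : ZMod (s + 1) × ZMod (s + 1) → ℂ) (b : Om n) :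
    ∑ u, F u * rawA c n i s m u b =
      if n.Prime then c i n * (((U m (nt n b.1) : ℝ) : ℂ) *
        F ((n : ZMod (s + 1)), ((b.1 : ℤ) : ZMod (s + 1)))) else 0 := by
  unfold rawA
  by_cases h : n.Prime
  · simp only [if_pos h]
    rw [Finset.sum_eq_single ((n : ZMod (s + 1)), ((b.1 : ℤ) : ZMod (s + 1)))]
    · rw [if_pos rfl, mul_one]
      ring
    · intro s _ hs
      rw [if_neg (Ne.symm hs), mul_zero, mul_zero, mul_zero]
    · intro h3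
      exact absurd (mem_univ _) h3
  · simp only [if_neg h, mul_zero, sum_const_zero]

theorem cs {α : Type} [Fintype α] (F S : α → ℂ) (V : ℝ) (hS : ∑ s, ‖S s‖ ^ 2 ≤ V) :
    ‖∑ s, F s * S s‖ ≤ l2 F * √V := by
  have hV : 0 ≤ V := le_trans (sum_nonneg fun s _ => sq_nonneg _) hS
  have h1 : ‖∑ s, F s * S s‖ ≤ ∑ s, ‖F s‖ * ‖S s‖ :=
    (norm_sum_le _ _).trans (le_of_eq (sum_congr rfl fun s _ => norm_mul _ _))
  have h2 := Finset.sum_mul_sq_le_sq_mul_sq univ (fun s => ‖F s‖) (fun s => ‖S s‖)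
  have h3 : 0 ≤ ∑ s, ‖F s‖ ^ 2 := sum_nonneg fun s _ => sq_nonneg _
  have h4 : 0 ≤ ∑ s, ‖F s‖ * ‖S s‖ :=
    sum_nonneg fun s _ => mul_nonneg (norm_nonneg _) (norm_nonneg _)
  refine h1.trans ?_
  unfold l2
  rw [← Real.sqrt_mul h3]
  refine Real.le_sqrt_of_sq_le (h2.trans ?_)
  exact mul_le_mul_of_nonneg_left hS h3

end Sel

open Sel in
theorem sel (hENG : Pool.Agent.H414.DF.S_ENG) (hUB : Pool.Agent.H414.LT.S_UB) (hWT : S_WT) :
    S_SEL := by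
  intro ν c h0 h1 hsq hc
  obtain ⟨w, hw, hs, hwl⟩ := hWT
  obtain ⟨B, hB, hsq⟩ : ∃ B : ℝ, 0 ≤ B ∧ ∀ (m p : ℕ), p.Prime →
      ∑ b ∈ box (4 * p), ν p b * (U m (nt p b)) ^ 2 ≤ B * (m + 1) := by
    obtain ⟨C₀, h⟩ := hsq
    refine ⟨|C₀|, abs_nonneg _, fun m p hp => (h m p hp).trans ?_⟩
    exact mul_le_mul_of_nonneg_right (le_abs_self _) (by positivity)
  obtain ⟨ω, hω⟩ := eng_raw hENG ((ℕ × ℕ × ℕ) ⊕ ℕ) Ix Om (pw ν) (raw c) (wj w)
    (Ej B) (pw_nonneg ν h0) (pw_sum ν h1) (wj_pos w hw) (Ej_nonneg B hB)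
    (wE_summable w hw hs B) (raw_sec ν c B hB h0 h1 hsq hc)
    (raw_summable hUB w hw hs c hc)
  obtain ⟨W, hW⟩ : ∃ W : ℝ, W = ∑' i, wj w i * Ej B i := ⟨_, rfl⟩
  have hW0 : 0 ≤ W := by
    rw [hW]
    exact tsum_nonneg fun j => mul_nonneg (wj_pos w hw j).le (Ej_nonneg B hB j)
  rw [← hW] at hω
  have hA : ∀ i s m N : ℕ, ∑ u : ZMod (s + 1) × ZMod (s + 1),
      ‖∑ n ∈ range N, (rawA c n i s m u (ω n) - ∑ v, (pw ν n v : ℂ) * rawA c n i s m u v)‖ ^ 2 ≤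
        W / wj w (Sum.inl (i, s, m)) * N := fun i s m N => hω (Sum.inl (i, s, m)) N
  have hBk : ∀ k N : ℕ, ∑ t : {t // t ∈ T k},
      ‖∑ n ∈ range N, (rawB n k t (ω n) - ∑ v, (pw ν n v : ℂ) * rawB n k t v)‖ ^ 2 ≤
        W / wj w (Sum.inr k) * N := fun k N => hω (Sum.inr k) N
  refine ⟨fun n => (ω n).1, fun p _ => (ω p).2, fun i ε hε => ?_, ⟨3 * W, ?_⟩⟩
  · obtain ⟨cw, hcw, hcl⟩ := hwl (2 * ε) (by linarith)
    refine ⟨√(W * 2 ^ i / cw), ?_⟩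
    intro m q hq F x
    obtain ⟨s, rfl⟩ : ∃ s, q = s + 1 := ⟨q - 1, by have := hq.out; omega⟩
    have h2 := hA i s m (x + 1)
    have h3 := cs F (fun u => ∑ n ∈ range (x + 1), (rawA c n i s m u (ω n) -
      ∑ v, (pw ν n v : ℂ) * rawA c n i s m u v)) _ h2
    have h4 : ∑ u, F u * (∑ n ∈ range (x + 1), (rawA c n i s m u (ω n) -
        ∑ v, (pw ν n v : ℂ) * rawA c n i s m u v)) =
        ∑ p ∈ primesUpTo x, c i p * ((U m (nt p (ω p).1) : ℂ) *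
          F ((p : ZMod (s + 1)), (((ω p).1 : ℤ) : ZMod (s + 1))) -
          ∑ b ∈ box (4 * p), (ν p b : ℂ) * ((U m (nt p b) : ℂ) *
            F ((p : ZMod (s + 1)), ((b : ℤ) : ZMod (s + 1))))) := by
      have e1 : ∀ u, F u * (∑ n ∈ range (x + 1), (rawA c n i s m u (ω n) -
          ∑ v, (pw ν n v : ℂ) * rawA c n i s m u v)) =
          ∑ n ∈ range (x + 1), (F u * rawA c n i s m u (ω n) -
            ∑ v, (pw ν n v : ℂ) * (F u * rawA c n i s m u v)) := by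
        intro u
        rw [mul_sum]
        refine sum_congr rfl fun n _ => ?_
        rw [mul_sub, mul_sum]
        congr 1
        refine sum_congr rfl fun v _ => ?_
        ring
      rw [sum_congr rfl fun s' _ => e1 s', sum_comm]
      unfold primesUpTo
      rw [sum_filter]
      refine sum_congr rfl fun n _ => ?_
      rw [sum_sub_distrib, expand c n i s m F (ω n), sum_comm]
      have e2 : ∀ v : Om n, ∑ u, (pw ν n v : ℂ) * (F u * rawA c n i s m u v) =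
          (pw ν n v : ℂ) * (if n.Prime then c i n * (((U m (nt n v.1) : ℝ) : ℂ) *
            F ((n : ZMod (s + 1)), ((v.1 : ℤ) : ZMod (s + 1)))) else 0) := by
        intro v
        rw [← mul_sum, expand c n i s m F v]
      rw [sum_congr rfl fun v _ => e2 v]
      by_cases h : n.Prime
      · simp only [if_pos h, pw]
        rw [Finset.sum_coe_sort (box (4 * n)) (fun b => (ν n b : ℂ) *
          (c i n * (((U m (nt n b) : ℝ) : ℂ) *
            F ((n : ZMod (s + 1)), ((b : ℤ) : ZMod (s + 1)))))), mul_sub, mul_sum]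
        congr 1
        refine sum_congr rfl fun b _ => ?_
        ring
      · simp only [if_neg h, mul_zero, sum_const_zero, sub_zero]
    rw [h4] at h3
    refine h3.trans ?_
    have hwm := hw m
    have hm1 : (0 : ℝ) < (m : ℝ) + 1 := by positivity
    have h5 : W / wj w (Sum.inl (i, s, m)) * ((x + 1 : ℕ) : ℝ) ≤
        (W * 2 ^ i / cw) * ((((m : ℝ) + 1) ^ (1 + ε)) ^ 2 *
          (((s + 1 : ℕ) : ℝ) ^ 2 * ((x : ℝ) + 1))) := by
      have e5 : W / wj w (Sum.inl (i, s, m)) * ((x + 1 : ℕ) : ℝ) =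
          (W * 2 ^ i * (((s + 1 : ℕ) : ℝ) ^ 2 * ((x : ℝ) + 1))) * (1 / w m) := by
        simp only [wj]
        push_cast
        rw [one_div_pow]
        field_simp
      have e6 : 1 / w m ≤ 1 / cw * (((m : ℝ) + 1) ^ (1 + ε)) ^ 2 := by
        have h7 : cw * (((m : ℝ) + 1) ^ (1 + ε)) ^ (-2 : ℝ) ≤ w m := by
          rw [← Real.rpow_mul hm1.le]
          have e7 : (1 + ε) * -2 = -2 - 2 * ε := by ring
          rw [e7]
          exact hcl m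
        have hpos : 0 < ((m : ℝ) + 1) ^ (1 + ε) := Real.rpow_pos_of_pos hm1 _
        have e8 : (((m : ℝ) + 1) ^ (1 + ε)) ^ (-2 : ℝ) = 1 / (((m : ℝ) + 1) ^ (1 + ε)) ^ 2 := by
          rw [Real.rpow_neg hpos.le, one_div]
          congr 1
          exact_mod_cast Real.rpow_natCast _ 2
        rw [e8] at h7
        rw [div_le_iff₀ hwm]
        have h8 : cw ≤ w m * (((m : ℝ) + 1) ^ (1 + ε)) ^ 2 := by
          rw [mul_one_div, div_le_iff₀ (by positivity)] at h7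
          exact h7
        calc (1 : ℝ) = 1 / cw * cw := by field_simp
          _ ≤ 1 / cw * (w m * (((m : ℝ) + 1) ^ (1 + ε)) ^ 2) :=
            mul_le_mul_of_nonneg_left h8 (by positivity)
          _ = _ := by ring
      rw [e5]
      calc (W * 2 ^ i * (((s + 1 : ℕ) : ℝ) ^ 2 * ((x : ℝ) + 1))) * (1 / w m) ≤
          (W * 2 ^ i * (((s + 1 : ℕ) : ℝ) ^ 2 * ((x : ℝ) + 1))) *
            (1 / cw * (((m : ℝ) + 1) ^ (1 + ε)) ^ 2) :=
            mul_le_mul_of_nonneg_left e6 (by positivity)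
        _ = _ := by ring
    have h6 := Real.sqrt_le_sqrt h5
    have e9 : √((W * 2 ^ i / cw) * ((((m : ℝ) + 1) ^ (1 + ε)) ^ 2 *
        (((s + 1 : ℕ) : ℝ) ^ 2 * ((x : ℝ) + 1)))) = √(W * 2 ^ i / cw) *
        (((m : ℝ) + 1) ^ (1 + ε) * (((s + 1 : ℕ) : ℝ) * √((x : ℝ) + 1))) := by
      rw [Real.sqrt_mul (by positivity), Real.sqrt_mul (sq_nonneg _), Real.sqrt_mul (sq_nonneg _),
        Real.sqrt_sq (Real.rpow_nonneg hm1.le _), Real.sqrt_sq (Nat.cast_nonneg _)]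
    rw [e9] at h6
    have h7 : 0 ≤ l2 F := Real.sqrt_nonneg _
    refine (mul_le_mul_of_nonneg_left h6 h7).trans (le_of_eq ?_)
    ring
  · intro k
    have h2 := hBk k (2 ^ (k + 1) + 1)
    have e1 : ∀ t : {t // t ∈ T k}, ∑ n ∈ range (2 ^ (k + 1) + 1),
        (rawB n k t (ω n) - ∑ v, (pw ν n v : ℂ) * rawB n k t v) =
        (((((blk k).filter fun p => (ω p).1 = t.1).card : ℝ) -
        ∑ p ∈ blk k, ∑ b ∈ box (4 * p), if b = t.1 then ν p b else 0 : ℝ) : ℂ) := by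
      intro t
      have hsub : blk k ⊆ range (2 ^ (k + 1) + 1) := by
        intro n hn
        unfold blk at hn
        rw [mem_filter, mem_Ioc] at hn
        rw [mem_range]
        omega
      rw [← Finset.sum_subset hsub]
      · rw [Finset.card_filter]
        push_cast
        rw [← sum_sub_distrib]
        refine sum_congr rfl fun n hn => ?_
        have hnp : n.Prime := (mem_filter.1 hn).2
        simp only [rawB, hn, true_and, pw, if_pos hnp]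
        rw [Finset.sum_coe_sort (box (4 * n)) (fun b => (ν n b : ℂ) *
          (if b = t.1 then (1 : ℂ) else 0))]
        congr 1
        · by_cases h : (ω n).1 = t.1
          · simp only [if_pos h, Complex.ofReal_one]
          · simp only [if_neg h, Complex.ofReal_zero]
        · refine sum_congr rfl fun b _ => ?_
          by_cases h : b = t.1
          · rw [if_pos h, if_pos h, mul_one]
          · rw [if_neg h, if_neg h, mul_zero, Complex.ofReal_zero]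
      · intro n _ hn
        simp only [rawB, hn, false_and, if_false, mul_zero, sum_const_zero, sub_zero]
    have e2 : ∑ t ∈ T k, |(((blk k).filter fun p => (ω p).1 = t).card : ℝ) -
        ∑ p ∈ blk k, ∑ b ∈ box (4 * p), if b = t then ν p b else 0| ^ 2 =
        ∑ t : {t // t ∈ T k}, ‖∑ n ∈ range (2 ^ (k + 1) + 1), (rawB n k t (ω n) -
          ∑ v, (pw ν n v : ℂ) * rawB n k t v)‖ ^ 2 := by
      rw [← Finset.sum_coe_sort (T k) (fun t =>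
        |(((blk k).filter fun p => (ω p).1 = t).card : ℝ) -
          ∑ p ∈ blk k, ∑ b ∈ box (4 * p), if b = t then ν p b else 0| ^ 2)]
      refine sum_congr rfl fun t _ => ?_
      rw [e1 t, Complex.norm_real, Real.norm_eq_abs]
    rw [e2]
    refine h2.trans ?_
    have h5 : W / wj w (Sum.inr k) * ((2 ^ (k + 1) + 1 : ℕ) : ℝ) =
        W * ((k : ℝ) + 1) ^ 2 * (2 * 2 ^ k + 1) := by
      simp only [wj]
      push_cast
      field_simp
      ring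
    rw [h5]
    have h6 : (1 : ℝ) ≤ 2 ^ k := one_le_pow₀ (by norm_num)
    have h7 : 0 ≤ W * ((k : ℝ) + 1) ^ 2 := mul_nonneg hW0 (sq_nonneg _)
    nlinarith

end Pool.Agent.H414.MX
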