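import Pool.Agent.H414.MX.Spec

/-!
Sizes.
-/

set_option autoImplicit false

namespace Pool.Agent.H414.MX

open Finset
open Pool.Agent.H414.DF (e2)

namespace Siz

theorem e2_pow (x : ℝ) (n : ℕ) : e2 (x * n) = e2 x ^ n := by
  unfold e2
  exact Real.rpow_mul_natCast (by norm_num) x n

theorem e2_pos (x : ℝ) : 0 < e2 x := by
  unfold e2
  exact Real.rpow_pos_of_pos (by norm_num) x

theorem e2_mono {x y : ℝ} (h : x ≤ y) : e2 x ≤ e2 y := by
  unfold e2
  exact Real.rpow_le_rpow_of_exponent_le (by norm_num) h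

theorem e2_nat (n : ℕ) : e2 n = 2 ^ n := by
  unfold e2
  exact Real.rpow_natCast 2 n

theorem lin (k : ℕ) (hk : 1000 ≤ k) : (k : ℝ) + 2 ≤ e2 (k / 4) := by
  have hk' : (1000 : ℝ) ≤ k := by exact_mod_cast hk
  have h1 : e2 ((k : ℝ) / 4) = e2 (k / 8) ^ 2 := by
    rw [← e2_pow]; congr 1; push_cast; ring
  have h2 : (k : ℝ) * 0.08 ≤ e2 (k / 8) := by
    unfold e2
    rw [Real.rpow_def_of_pos (by norm_num)]
    have := Real.add_one_le_exp (Real.log 2 * ((k : ℝ) / 8))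
    have h3 := Real.log_two_gt_d9
    nlinarith
  rw [h1]
  have h4 : ((k : ℝ) * 0.08) ^ 2 ≤ e2 (k / 8) ^ 2 := by
    apply pow_le_pow_left₀ (by positivity) h2
  nlinarith

end Siz

open Siz in
theorem siz : S_SIZ := by
  refine ⟨1000, fun k hk => ?_⟩
  have hk' : (1000 : ℝ) ≤ k := by exact_mod_cast hk
  set y : ℝ := e2 (k / 12) with hy
  have hypos : 0 < y := e2_pos _
  have hy4 : 4 ≤ y := by
    have : e2 (2 : ℕ) ≤ y := e2_mono (by push_cast; linarith)
    rw [e2_nat] at this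
    norm_num at this
    exact this
  have e6 : e2 ((k : ℝ) / 2) = y ^ 6 := by
    rw [hy, ← e2_pow]; congr 1; push_cast; ring
  have e3 : e2 ((k : ℝ) / 4) = y ^ 3 := by
    rw [hy, ← e2_pow]; congr 1; push_cast; ring
  have e2' : e2 ((k : ℝ) / 6) = y ^ 2 := by
    rw [hy, ← e2_pow]; congr 1; push_cast; ring
  have e12 : ((2 : ℝ) ^ k) = y ^ 12 := by
    rw [hy, ← e2_pow, ← e2_nat]; congr 1; push_cast; ring
  have hQ : (Qk k : ℝ) ≤ y ^ 2 := by
    rw [← e2']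
    exact Nat.floor_le (e2_pos _).le
  have hQ1 : 1 ≤ Qk k := by
    unfold Qk
    apply Nat.le_floor
    rw [e2']
    push_cast
    nlinarith
  have hH1 : y ^ 3 ≤ (H k : ℝ) := by
    rw [← e3]
    exact Nat.le_ceil _
  have hy3 : 1 ≤ y ^ 3 := one_le_pow₀ (by linarith)
  have hH2 : (H k : ℝ) ≤ 2 * y ^ 3 := by
    have : (H k : ℝ) < e2 ((k : ℝ) / 4) + 1 := Nat.ceil_lt_add_one (e2_pos _).le
    rw [e3] at this
    linarith
  have hlin : (k : ℝ) + 2 ≤ y ^ 3 := by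
    rw [← e3]; exact lin k hk
  have hQH : (Qk k : ℝ) * H k ≤ 2 * y ^ 5 := by
    calc (Qk k : ℝ) * H k ≤ y ^ 2 * (2 * y ^ 3) :=
          mul_le_mul hQ hH2 (Nat.cast_nonneg _) (by positivity)
      _ = 2 * y ^ 5 := by ring
  have h35 : y ^ 3 ≤ y ^ 5 := pow_le_pow_right₀ (by linarith) (by norm_num)
  have h56 : 3 * y ^ 5 ≤ y ^ 6 := by
    have : (0 : ℝ) < y ^ 5 := by positivity
    nlinarith
  have main : (k : ℝ) + Qk k * H k + 2 ≤ y ^ 6 := by linarith
  have hsq : k + Qk k * H k ≤ Nat.sqrt (2 ^ k) := by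
    rw [Nat.le_sqrt']
    have h1 : (((k + Qk k * H k) ^ 2 : ℕ) : ℝ) ≤ ((2 ^ k : ℕ) : ℝ) := by
      push_cast
      rw [e12]
      have h2 : (0 : ℝ) ≤ (k : ℝ) + Qk k * H k := by positivity
      calc ((k : ℝ) + Qk k * H k) ^ 2 ≤ (y ^ 6) ^ 2 :=
            pow_le_pow_left₀ h2 (by linarith) 2
        _ = y ^ 12 := by ring
    exact_mod_cast h1
  have hT : ∀ t ∈ T k, |t| ≤ (k : ℤ) := by
    intro t ht
    unfold T box at ht
    rw [Nat.sqrt_eq', mem_Icc] at ht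
    exact abs_le.2 ht
  have hbox : ∀ b : ℤ, |b| ≤ ((k + Qk k * H k : ℕ) : ℤ) → b ∈ box (2 ^ k) := by
    intro b hb
    unfold box
    rw [mem_Icc]
    apply abs_le.1
    exact hb.trans (by exact_mod_cast hsq)
  refine ⟨by omega, hQ1, by rw [e6]; exact main, by rw [e3]; linarith, by rw [e2']; exact hQ,
    by rw [e3]; exact hH1, by rw [e3]; exact hH2, ?_, ?_⟩
  · intro t ht
    apply hbox
    refine (hT t ht).trans ?_
    push_cast
    have : (0 : ℤ) ≤ (Qk k : ℤ) * H k := by positivity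
    linarith
  · intro t ht a ha
    apply hbox
    refine (abs_add_le t a).trans ?_
    have h1 := hT t ht
    push_cast at ha ⊢
    linarith

end Pool.Agent.H414.MX
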