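import Pool.Agent.H414.MX.Spec

/-!
Spaced points.
-/

set_option autoImplicit false

namespace Pool.Agent.H414.MX

open Finset

namespace Spc

/-- a sum over a set with an injective index -/
theorem half {ι : Type} (H : Finset ι) (S : ι → ℝ) (m : ι → ℕ) (M : ℕ) (g : ℕ → ℝ)
    (hinj : Set.InjOn m (H : Set ι)) (hM : ∀ z ∈ H, m z ≤ M) (hg : ∀ i, 0 ≤ g i)
    (hS : ∀ z ∈ H, S z ≤ g (m z)) : ∑ z ∈ H, S z ≤ ∑ i ∈ range (M + 1), g i := by
  classical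
  calc ∑ z ∈ H, S z ≤ ∑ z ∈ H, g (m z) := Finset.sum_le_sum hS
    _ = ∑ i ∈ H.image m, g i := (Finset.sum_image hinj).symm
    _ ≤ ∑ i ∈ range (M + 1), g i := by
        refine Finset.sum_le_sum_of_subset_of_nonneg ?_ fun i _ _ => hg i
        intro i hi
        obtain ⟨z, hz, rfl⟩ := Finset.mem_image.1 hi
        exact Finset.mem_range.2 (Nat.lt_succ_of_le (hM z hz))

/-- the two halves -/
theorem both {ι : Type} (Z : Finset ι) (γ S : ι → ℝ) (η : ℝ) (hη : 0 < η)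
    (hsp : ∀ z ∈ Z, ∀ z' ∈ Z, z ≠ z' → η ≤ nd (γ z - γ z')) (g : ℕ → ℝ) (hg : ∀ i, 0 ≤ g i)
    (hS : ∀ z ∈ Z, ∀ i : ℕ, (i : ℝ) * η ≤ nd (γ z) → S z ≤ g i) :
    ∑ z ∈ Z, S z ≤ 2 * ∑ i ∈ range (⌊1 / η⌋₊ + 1), g i := by
  classical
  obtain ⟨u, hu⟩ : ∃ u : ι → ℝ, ∀ z, u z = γ z - round (γ z) := ⟨_, fun _ => rfl⟩
  have hun : ∀ z, nd (γ z) = |u z| := fun z => by rw [hu]; rfl
  have hu2 : ∀ z, |u z| ≤ 1 / 2 := fun z => by rw [hu]; exact abs_sub_round (γ z)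
  obtain ⟨m, hm⟩ : ∃ m : ι → ℕ, ∀ z, m z = ⌊|u z| / η⌋₊ := ⟨_, fun _ => rfl⟩
  have hm1 : ∀ z, (m z : ℝ) * η ≤ |u z| := by
    intro z
    rw [hm, ← le_div_iff₀ hη]
    exact Nat.floor_le (div_nonneg (abs_nonneg _) hη.le)
  have hm2 : ∀ z, |u z| < ((m z : ℝ) + 1) * η := by
    intro z
    rw [hm, ← div_lt_iff₀ hη]
    exact Nat.lt_floor_add_one _
  have hM : ∀ z, m z ≤ ⌊1 / η⌋₊ := by
    intro z
    rw [hm]
    refine Nat.floor_le_floor (div_le_div_of_nonneg_right ?_ hη.le)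
    have := hu2 z
    linarith
  have hdist : ∀ z ∈ Z, ∀ z' ∈ Z, z ≠ z' → η ≤ |u z - u z'| := by
    intro z hz z' hz' hne
    refine (hsp z hz z' hz' hne).trans ?_
    have h1 := round_le (γ z - γ z') (round (γ z) - round (γ z'))
    have h2 : u z - u z' = γ z - γ z' - ((round (γ z) - round (γ z') : ℤ) : ℝ) := by
      rw [hu, hu]
      push_cast
      ring
    rw [h2]
    exact h1
  have hclose : ∀ z z', m z = m z' → |u z| - |u z'| < η ∧ |u z'| - |u z| < η := by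
    intro z z' h
    have h1 := hm1 z
    have h2 := hm2 z
    have h3 := hm1 z'
    have h4 := hm2 z'
    rw [h] at h1 h2
    constructor <;> linarith
  have hSz : ∀ z ∈ Z, S z ≤ g (m z) := fun z hz => hS z hz (m z) (by rw [hun]; exact hm1 z)
  have hp := half (Z.filter fun z => 0 ≤ u z) S m ⌊1 / η⌋₊ g (by
    intro z hz z' hz' h
    obtain ⟨h1, h2⟩ := Finset.mem_filter.1 (Finset.mem_coe.1 hz)
    obtain ⟨h3, h4⟩ := Finset.mem_filter.1 (Finset.mem_coe.1 hz')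
    by_contra hne
    have h5 := hdist z h1 z' h3 hne
    obtain ⟨h6, h7⟩ := hclose z z' h
    rw [abs_of_nonneg h2, abs_of_nonneg h4] at h6 h7
    have h8 : |u z - u z'| < η := abs_lt.2 ⟨by linarith, h6⟩
    linarith) (fun z _ => hM z) hg (fun z hz => hSz z (Finset.mem_filter.1 hz).1)
  have hn := half (Z.filter fun z => ¬ 0 ≤ u z) S m ⌊1 / η⌋₊ g (by
    intro z hz z' hz' h
    obtain ⟨h1, h2⟩ := Finset.mem_filter.1 (Finset.mem_coe.1 hz)
    obtain ⟨h3, h4⟩ := Finset.mem_filter.1 (Finset.mem_coe.1 hz')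
    by_contra hne
    have h5 := hdist z h1 z' h3 hne
    obtain ⟨h6, h7⟩ := hclose z z' h
    rw [abs_of_neg (not_le.1 h2), abs_of_neg (not_le.1 h4)] at h6 h7
    have h8 : |u z - u z'| < η := abs_lt.2 ⟨by linarith, by linarith⟩
    linarith) (fun z _ => hM z) hg (fun z hz => hSz z (Finset.mem_filter.1 hz).1)
  rw [← Finset.sum_filter_add_sum_filter_not Z fun z => 0 ≤ u z]
  linarith

end Spc

theorem spc : S_SPC := by
  intro ι Z γ S η lam hη hη1 hlam hsp hS0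
  constructor
  · intro A hA h
    have h1 := Spc.both Z γ S η hη hsp (fun i => if i = 0 then A else lam / η * (1 / (i : ℝ))) (by
      intro i
      show (0 : ℝ) ≤ if i = 0 then A else lam / η * (1 / (i : ℝ))
      split_ifs
      · exact hA
      · positivity) (by
      intro z hz i hi
      show S z ≤ if i = 0 then A else lam / η * (1 / (i : ℝ))
      split_ifs with h0
      · exact (h z hz).1
      · have h2 : (0 : ℝ) < i := by exact_mod_cast Nat.pos_of_ne_zero h0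
        have h3 : 0 < (i : ℝ) * η := mul_pos h2 hη
        have h4 : S z * ((i : ℝ) * η) ≤ lam :=
          (mul_le_mul_of_nonneg_left hi (hS0 z hz)).trans (h z hz).2
        rw [div_mul_div_comm, mul_one, le_div_iff₀ (by positivity)]
        linarith)
    rw [Finset.sum_range_succ'] at h1
    have h2 : ∑ k ∈ range ⌊1 / η⌋₊, (if k + 1 = 0 then A else lam / η * (1 / ((k + 1 : ℕ) : ℝ))) =
        lam / η * ∑ k ∈ range ⌊1 / η⌋₊, 1 / ((k : ℝ) + 1) := by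
      rw [Finset.mul_sum]
      refine Finset.sum_congr rfl fun k _ => ?_
      rw [if_neg (Nat.succ_ne_zero k)]
      push_cast
      rfl
    have h3 : ∑ k ∈ range ⌊1 / η⌋₊, 1 / ((k : ℝ) + 1) ≤ 1 + Real.log (1 / η) := by
      have h4 := harmonic_floor_le_one_add_log (1 / η) (by rw [le_div_iff₀ hη, one_mul]; exact hη1)
      refine le_trans (le_of_eq ?_) h4
      unfold harmonic
      push_cast
      refine Finset.sum_congr rfl fun k _ => ?_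
      rw [one_div]
    have h5 : lam / η * ∑ k ∈ range ⌊1 / η⌋₊, 1 / ((k : ℝ) + 1) ≤
        lam / η * (1 + Real.log (1 / η)) := mul_le_mul_of_nonneg_left h3 (by positivity)
    simp only [if_pos] at h1
    rw [h2] at h1
    linarith
  · intro η₀ hη₀ h
    have h1 := Spc.both Z γ S η hη hsp
      (fun i => if i = 0 then lam ^ 2 / η₀ ^ 2 else lam ^ 2 / η ^ 2 * (((i : ℝ) ^ 2)⁻¹)) (by
      intro i
      show (0 : ℝ) ≤ if i = 0 then lam ^ 2 / η₀ ^ 2 else lam ^ 2 / η ^ 2 * (((i : ℝ) ^ 2)⁻¹)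
      split_ifs <;> positivity) (by
      intro z hz i hi
      show S z ≤ if i = 0 then lam ^ 2 / η₀ ^ 2 else lam ^ 2 / η ^ 2 * (((i : ℝ) ^ 2)⁻¹)
      obtain ⟨h2, h3⟩ := h z hz
      split_ifs with h0
      · rw [le_div_iff₀ (by positivity)]
        exact (mul_le_mul_of_nonneg_left (pow_le_pow_left₀ hη₀.le h2 2) (hS0 z hz)).trans h3
      · have h4 : (0 : ℝ) < i := by exact_mod_cast Nat.pos_of_ne_zero h0
        have h5 : S z * ((i : ℝ) * η) ^ 2 ≤ lam ^ 2 :=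
          (mul_le_mul_of_nonneg_left (pow_le_pow_left₀ (by positivity) hi 2) (hS0 z hz)).trans h3
        rw [← div_eq_mul_inv, div_div, le_div_iff₀ (by positivity)]
        calc S z * (η ^ 2 * (i : ℝ) ^ 2) = S z * ((i : ℝ) * η) ^ 2 := by ring
          _ ≤ lam ^ 2 := h5)
    rw [Finset.sum_range_succ'] at h1
    have h2 : ∑ k ∈ range ⌊1 / η⌋₊, (if k + 1 = 0 then lam ^ 2 / η₀ ^ 2 else
        lam ^ 2 / η ^ 2 * ((((k + 1 : ℕ) : ℝ) ^ 2)⁻¹)) =
        lam ^ 2 / η ^ 2 * ∑ k ∈ range ⌊1 / η⌋₊, ((((k + 1 : ℕ) : ℝ) ^ 2)⁻¹) := by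
      rw [Finset.mul_sum]
      refine Finset.sum_congr rfl fun k _ => ?_
      rw [if_neg (Nat.succ_ne_zero k)]
    have h3 : ∑ k ∈ range ⌊1 / η⌋₊, ((((k + 1 : ℕ) : ℝ) ^ 2)⁻¹) ≤ 2 := by
      have h4 := sum_Ioo_inv_sq_le (α := ℝ) 0 (⌊1 / η⌋₊ + 1)
      have h5 : ∑ i ∈ Ioo 0 (⌊1 / η⌋₊ + 1), ((i : ℝ) ^ 2)⁻¹ =
          ∑ k ∈ range ⌊1 / η⌋₊, ((((k + 1 : ℕ) : ℝ) ^ 2)⁻¹) := by
        rw [Finset.range_eq_Ico, Finset.sum_Ico_add' (fun i : ℕ => (((i : ℝ) ^ 2)⁻¹)) 0 ⌊1 / η⌋₊ 1]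
        refine Finset.sum_congr ?_ fun _ _ => rfl
        ext i
        rw [Finset.mem_Ioo, Finset.mem_Ico]
        omega
      rw [h5] at h4
      norm_num at h4
      norm_num
      exact h4
    have h5 : lam ^ 2 / η ^ 2 * ∑ k ∈ range ⌊1 / η⌋₊, ((((k + 1 : ℕ) : ℝ) ^ 2)⁻¹) ≤
        lam ^ 2 / η ^ 2 * 2 := mul_le_mul_of_nonneg_left h3 (by positivity)
    simp only [if_pos] at h1
    rw [h2] at h1
    calc ∑ z ∈ Z, S z ≤ 2 * (lam ^ 2 / η ^ 2 * ∑ k ∈ range ⌊1 / η⌋₊, ((((k + 1 : ℕ) : ℝ) ^ 2)⁻¹) +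
          lam ^ 2 / η₀ ^ 2) := h1
      _ ≤ 2 * (lam ^ 2 / η ^ 2 * 2 + lam ^ 2 / η₀ ^ 2) := by linarith
      _ = lam ^ 2 * (2 / η₀ ^ 2 + 4 / η ^ 2) := by ring

end Pool.Agent.H414.MX
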