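import Pool.Agent.H414.MX.Defs
import Pool.Agent.H414.DF.Spec

/-!
The statements which are put together in the project MX. Paper proofs are in the docstrings. Every
`S_X` is true and is to be proved as a theorem. From `LT.St1`: `kk p` is the number `k` with
`2^k < p ≤ 2^(k+1)` (`two_le_kk`, `mem_blk : p ∈ blk k ↔ p.Prime ∧ kk p = k`). From `DF.Spec`: `e2 x = 2 ^ x`.
From `LT.Spec` (proved): `S_US`, `S_UB`, `S_UD` (formulas for `U n`).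
-/

set_option autoImplicit false

namespace Pool.Agent.H414.MX

open Finset
open Pool.Agent.H414.LT (primesUpTo blk kk U)
open Pool.Agent.H414.DF (e2)

/-- `exp(2 π i x)` -/
noncomputable def ee (x : ℝ) : ℂ := Complex.exp (2 * Real.pi * x * Complex.I)

/-- the distance to the nearest integer -/
noncomputable def nd (x : ℝ) : ℝ := |x - round x|

/-- `⌊2 ^ (k / 6)⌋`, at least `1` -/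
noncomputable def Qk (k : ℕ) : ℕ := ⌊e2 (k / 6)⌋₊

/-- `⌈2 ^ (k / 4)⌉` -/
noncomputable def H (k : ℕ) : ℕ := ⌈e2 (k / 4)⌉₊

/-- the targets of the block `k`: all `|t| ≤ k` -/
noncomputable def T (k : ℕ) : Finset ℤ := box (k ^ 2)

/-- the triangle function `max (L - |a|) 0 / L ^ 2` -/
noncomputable def tri (L : ℕ) (a : ℤ) : ℝ := if |a| < L then ((L : ℝ) - |(a : ℝ)|) / (L : ℝ) ^ 2 else 0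

/-- the numbers `c < q` prime to `q` -/
def cop (q : ℕ) : Finset ℕ := (range q).filter fun c => c.Coprime q

/-- the Ramanujan sum `∑_{d ∣ q, d ∣ a} μ(q / d) d` -/
noncomputable def ram (q : ℕ) (a : ℤ) : ℝ :=
  ∑ x ∈ q.divisorsAntidiagonal,
    (ArithmeticFunction.moebius x.1 : ℝ) * (x.2 : ℝ) * (if (x.2 : ℤ) ∣ a then 1 else 0)

/-- the kernel -/
noncomputable def K (k : ℕ) (a : ℤ) : ℝ := ∑ q ∈ Icc 1 (Qk k), ram q a * tri (q * H k) a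

/-- the signed measure `δ_t - K(· - t)` of total mass zero -/
noncomputable def kap (k : ℕ) (t b : ℤ) : ℝ := (if b = t then 1 else 0) - K k (b - t)

/-- the sum over the window: `∑_{|a| ≤ L} tri L a * G (t + a) * ee (γ a)` -/
noncomputable def win (L : ℕ) (t : ℤ) (G : ℤ → ℂ) (γ : ℝ) : ℂ :=
  ∑ a ∈ Icc (-(L : ℤ)) L, (tri L a : ℂ) * (G (t + a) * ee (γ * a))

/-! ### Elementary lemmas -/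

/-- TRIANGLE FUNCTION. The number of pairs `(i, j)`, `0 ≤ i, j < L`, with `i - j = a` is `L - |a|` for `|a| < L` and
`0` otherwise. -/
def S_TRI : Prop := ∀ L : ℕ, 1 ≤ L →
  (∀ G : ℤ → ℂ, ∑ a ∈ Icc (-(L : ℤ)) L, (tri L a : ℂ) * G a =
    (1 / (L : ℂ) ^ 2) * ∑ i ∈ range L, ∑ j ∈ range L, G ((i : ℤ) - j)) ∧
  (∀ a, 0 ≤ tri L a ∧ tri L a ≤ 1 / L) ∧ (∀ a : ℤ, (L : ℤ) ≤ |a| → tri L a = 0) ∧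
  ∑ a ∈ Icc (-(L : ℤ)) L, tri L a = 1

/-- RAMANUJAN SUMS. `∑_{c < q, (c, q) = 1} e(c a / q) = ∑_{d ∣ q} μ(q/d) d [d ∣ a]`: Möbius inversion of
`∑_{d ∣ q} ∑_{c < d, (c, d) = 1} e(c a / d) = ∑_{c < q} e(c a / q) = q [q ∣ a]`
(`ArithmeticFunction.sum_eq_iff_sum_mul_moebius_eq`; every fraction `c / q` is in lowest terms `c' / d` for exactly
one `d ∣ q`). The bound is the triangle inequality, `|μ| ≤ 1`. -/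
def S_RAM : Prop := ∀ (q : ℕ) (a : ℤ), 1 ≤ q →
  (ram q a : ℂ) = ∑ c ∈ cop q, ee ((c : ℝ) * a / q) ∧
  |ram q a| ≤ ∑ d ∈ q.divisors, (d : ℝ) * (if (d : ℤ) ∣ a then 1 else 0)

/-- TOTAL MASS. `∑_a tri L a [d ∣ a] = 1 / d` for `d ∣ L` (`S_TRI`: the number of the pairs `(i, j)` in
`[0, L)^2` with `i ≡ j mod d` is `L^2 / d`), so `∑_a ram q a * tri (q H) a = ∑_{d ∣ q} μ(q/d) = [q = 1]`. Hence the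
claim, for `M ≥ Qk k * H k` (`tri L a = 0` for `|a| ≥ L`). -/
def S_MASS : Prop := ∀ (k : ℕ) (M : ℤ), (Qk k * H k : ℕ) ≤ M → ∑ a ∈ Icc (-M) M, K k a = 1

/-- BOUNDS FOR THE KERNEL. `tri (q H) a ≤ 1 / (q H) ≤ 2^(-k/4) / q`. (1) `|ram q 0| = φ(q) ≤ q`
(or by the bound in `S_RAM`: use the first formula in `S_RAM`, `#(cop q) ≤ q`), so
`|K 0| ≤ Q 2^(-k/4) ≤ 2^(-k/12)`. (2) By the second part of `S_RAM`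
`|K a| ≤ 2^(-k/4) ∑_{q ≤ Q} (1/q) ∑_{d ∣ q, d ∣ a} d = 2^(-k/4) ∑_{d ∣ a, d ≤ Q} ∑_{e ≤ Q/d} 1/e ≤ 2^(-k/4) d(a) (1 + log Q)`
and `1 + log Q ≤ k + 1`. (3) `tri L a = 0` for `|a| ≥ L`. -/
def S_KB : Prop := ∀ k : ℕ, |K k 0| ≤ e2 (-(k / 12)) ∧
  (∀ a : ℤ, a ≠ 0 → |K k a| ≤ e2 (-(k / 4)) * (a.natAbs.divisors.card : ℝ) * (k + 1)) ∧
  ∀ a : ℤ, (Qk k * H k : ℕ) ≤ |a| → K k a = 0

/-- SIZES, for large `k`: `Qk k * H k + k ≤ 2^(k/6) (2^(k/4) + 1) + k ≤ 2^(k/2) - 1`, so that everything is in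
`box (2 ^ k)`; and `T k ⊆ box (2 ^ k)`. -/
def S_SIZ : Prop := ∃ k₁ : ℕ, ∀ k : ℕ, k₁ ≤ k →
  1 ≤ k ∧ 1 ≤ Qk k ∧ (k : ℝ) + Qk k * H k + 2 ≤ e2 (k / 2) ∧ (k : ℝ) ≤ e2 (k / 4) ∧
  (Qk k : ℝ) ≤ e2 (k / 6) ∧ e2 (k / 4) ≤ (H k : ℝ) ∧ (H k : ℝ) ≤ 2 * e2 (k / 4) ∧
  T k ⊆ box (2 ^ k) ∧
  ∀ t ∈ T k, ∀ a : ℤ, |a| ≤ (Qk k * H k : ℕ) → t + a ∈ box (2 ^ k)

/-- UNFOLDING: from `S_SIZ`, the definition of `K`, `S_RAM`, `S_KB` (3); `win` is the sum over the window; the sum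
over `b ∈ box (2^k)` is the sum over `a = b - t` with `|a| ≤ L = q H` (`tri L a = 0` for `|a| ≥ L`). -/
def S_UNF : Prop := ∃ k₁ : ℕ, ∀ k : ℕ, k₁ ≤ k → ∀ t ∈ T k, ∀ G : ℤ → ℂ,
  ∑ b ∈ box (2 ^ k), (kap k t b : ℂ) * G b =
    G t - ∑ q ∈ Icc 1 (Qk k), ∑ c ∈ cop q, win (q * H k) t G ((c : ℝ) / q)

/-- DIFFERENCES OF `U n`. By `LT.S_UB` `|U n x| ≤ 2 / √3 ≤ 2` for `|x| ≤ 1`, and by `LT.S_UD`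
`U n x - U n y = (x - y) ∑_{i < n} U i x * U (n-1-i) y`, so (2) (`b`, `b + 1` have squares at most `p`). (3): with
`x, y, z = nt p (b+2), nt p (b+1), nt p b`, `h = 1 / √p`, `U n x - 2 U n y + U n z = (U n x - U n y) + (U n z - U n y)
= h ∑_{i < n} U i x U (n-1-i) y - h ∑_{i < n} U i z U (n-1-i) y = h ∑_{i < n} (U i x - U i z) U (n-1-i) y`, and
`|U i x - U i z| ≤ 2 h * 4 i`: `≤ h * n * (8 h n) * 2 = 16 h² n²`. -/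
def S_DIF : Prop := ∀ (n p : ℕ), 1 ≤ p →
  (∀ b : ℤ, b ^ 2 ≤ p → |U n (nt p b)| ≤ 2) ∧
  (∀ b : ℤ, b ^ 2 ≤ p → (b + 1) ^ 2 ≤ p →
    |U n (nt p (b + 1)) - U n (nt p b)| ≤ 4 * (n + 1) / √(p : ℝ)) ∧
  (∀ b : ℤ, b ^ 2 ≤ p → (b + 2) ^ 2 ≤ p →
    |U n (nt p (b + 2)) - 2 * U n (nt p (b + 1)) + U n (nt p b)| ≤ 16 * ((n : ℝ) + 1) ^ 2 / p)

/-- WINDOWS, FIRST ORDER. Let `‖G b‖ ≤ M` and `‖G (b+1) - G b‖ ≤ M λ` in the window. Then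
(1) `‖win‖ ≤ M`; (2) `‖win‖ * nd γ ≤ M (1/L + λ)`; (3) for integral `γ` (or `γ = 0`) `‖win - G t‖ ≤ L M λ`.

Proof. (1) and (3): `∑ tri = 1`, `tri ≥ 0`, `‖G(t + a) - G t‖ ≤ |a| M λ`. (2): by `S_TRI`
`win = L^(-2) ∑_{i, j < L} G(t + i - j) ee(γ (i - j))`. For fixed `j` put `b = t - j`; summation by parts:
`(ee γ - 1) ∑_{i<L} g(i) ee(γ i) = g(L) ee(γ L) - g(0) - ∑_{i<L} (g(i+1) - g(i)) ee(γ (i+1))` with `g i = G(b + i)`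
(all arguments in `[t - L, t + L]`), so `‖ee γ - 1‖ ‖∑_i‖ ≤ 2 M + L M λ`. And
`‖ee γ - 1‖ = 2 |sin π γ| ≥ 4 nd γ`. So `nd γ ‖win‖ ≤ (2 M + L M λ) / (4 L)`. -/
def S_OP1 : Prop := ∀ (L : ℕ) (t : ℤ) (G : ℤ → ℂ) (γ M lam : ℝ), 1 ≤ L → 0 ≤ M → 0 ≤ lam →
  (∀ b : ℤ, |b - t| ≤ L → ‖G b‖ ≤ M) →
  (∀ b : ℤ, |b - t| ≤ L → |b + 1 - t| ≤ L → ‖G (b + 1) - G b‖ ≤ M * lam) →
  ‖win L t G γ‖ ≤ M ∧ ‖win L t G γ‖ * nd γ ≤ M * (1 / L + lam) ∧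
  ((∃ m : ℤ, γ = m) → ‖win L t G γ - G t‖ ≤ L * (M * lam))

/-- WINDOWS, SECOND ORDER. Let also `‖G (b+2) - 2 G (b+1) + G b‖ ≤ M λ^2`. Then
`‖win‖ * nd γ ^ 2 ≤ M (1/L + λ)^2`.

Proof. `win = L^(-2) ∑_{j < L} ee(-γ j) B(t - j)`, `B(b) = ∑_{i < L} G(b + i) ee(γ i)`. As in `S_OP1`
`‖ee γ - 1‖ ‖B(b)‖ ≤ M (2 + L λ)` for `t - L ≤ b ≤ t`, and, since `B(b+1) - B(b)` is the same sum for the differences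
(bounded by `M λ`, with second differences bounded by `M λ^2`), `‖ee γ - 1‖ ‖B(b+1) - B(b)‖ ≤ M λ (2 + L λ)` for
`t - L ≤ b < t`. Summation by parts over `j`:
`‖ee γ - 1‖ ‖∑_{j<L} ee(-γ j) B(t - j)‖ ≤ 2 sup ‖B‖ + L sup ‖B(b+1) - B(b)‖`, so
`‖ee γ - 1‖^2 ‖win‖ ≤ L^(-2) M (2 + L λ)^2`, and `‖ee γ - 1‖ ≥ 4 nd γ`. -/
def S_OP2 : Prop := ∀ (L : ℕ) (t : ℤ) (G : ℤ → ℂ) (γ M lam : ℝ), 1 ≤ L → 0 ≤ M → 0 ≤ lam →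
  (∀ b : ℤ, |b - t| ≤ L → ‖G b‖ ≤ M) →
  (∀ b : ℤ, |b - t| ≤ L → |b + 1 - t| ≤ L → ‖G (b + 1) - G b‖ ≤ M * lam) →
  (∀ b : ℤ, |b - t| ≤ L → |b + 2 - t| ≤ L → ‖G (b + 2) - 2 * G (b + 1) + G b‖ ≤ M * lam ^ 2) →
  ‖win L t G γ‖ * nd γ ^ 2 ≤ M * (1 / L + lam) ^ 2

/-- SPACED POINTS. Let the real numbers `γ z`, `z ∈ Z`, be spaced modulo `1`: `nd (γ z - γ z') ≥ η`.

Proof. Put `u z = γ z - round (γ z) ∈ [-1/2, 1/2]`, `|u z| = nd (γ z)`. For `z ≠ z'`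
`|u z - u z'| ≥ nd (γ z - γ z') ≥ η` (`round_le`: `nd x ≤ |x - m|` for all integers `m`), so `m z = ⌊u z / η⌋` is injective
on `Z`. If `m z ≥ 1` then `nd (γ z) ≥ m z * η`; if `m z ≤ -2` then `nd (γ z) ≥ (|m z| - 1) η`; there are at most two
further `z`. With `M = ⌊1/η⌋` (all the positive integers occurring are at most `M`, since `|u| ≤ 1/2`):
(1) `∑ S ≤ 2 A + 2 ∑_{i=1}^{M} λ / (i η) ≤ 2 A + 2 (λ/η) (1 + log (1/η))`;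
(2) `∑ S ≤ 2 λ^2 / η₀^2 + 2 ∑_{i ≥ 1} λ^2 / (i η)^2 ≤ λ^2 (2 / η₀^2 + 4 / η^2)` (`∑_{i=1}^{M} 1/i^2 ≤ 2`). -/
def S_SPC : Prop := ∀ (ι : Type) (Z : Finset ι) (γ S : ι → ℝ) (η lam : ℝ), 0 < η → η ≤ 1 → 0 ≤ lam →
  (∀ z ∈ Z, ∀ z' ∈ Z, z ≠ z' → η ≤ nd (γ z - γ z')) → (∀ z ∈ Z, 0 ≤ S z) →
  (∀ A : ℝ, 0 ≤ A → (∀ z ∈ Z, S z ≤ A ∧ S z * nd (γ z) ≤ lam) →
    ∑ z ∈ Z, S z ≤ 2 * A + 2 * (lam / η) * (1 + Real.log (1 / η))) ∧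
  (∀ η₀ : ℝ, 0 < η₀ → (∀ z ∈ Z, η₀ ≤ nd (γ z) ∧ S z * nd (γ z) ^ 2 ≤ lam ^ 2) →
    ∑ z ∈ Z, S z ≤ lam ^ 2 * (2 / η₀ ^ 2 + 4 / η ^ 2))

/-- FRACTIONS. (1) Different reduced fractions `c / q`, `c' / q'` in `[0, 1)` have distance at least `1 / (q q')` modulo
`1`: `c / q - c' / q' = N / (q q')` is not an integer (it is in `(-1, 1)`, and `0` only if the fractions are equal).
(2) For `β < q` there is exactly one reduced fraction `c₀ / q₀` in `[0, 1)` with `c₀ / q₀ + β / q` integral, and it has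
`q₀ ∣ q`; for all others `nd (c / q' + β / q) ≥ 1 / (q q')`. -/
def S_FRA : Prop :=
  (∀ q q' c c' : ℕ, 1 ≤ q → 1 ≤ q' → c ∈ cop q → c' ∈ cop q' → (q, c) ≠ (q', c') →
    1 / ((q : ℝ) * q') ≤ nd ((c : ℝ) / q - (c' : ℝ) / q')) ∧
  ∀ q β : ℕ, 1 ≤ q → β < q → ∃ q₀ c₀ : ℕ, 1 ≤ q₀ ∧ q₀ ≤ q ∧ c₀ ∈ cop q₀ ∧
    (∃ m : ℤ, (c₀ : ℝ) / q₀ + (β : ℝ) / q = m) ∧
    ∀ q' c : ℕ, 1 ≤ q' → c ∈ cop q' → (q', c) ≠ (q₀, c₀) →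
      1 / ((q : ℝ) * q') ≤ nd ((c : ℝ) / q' + (β : ℝ) / q)

/-- PHASES. For `|b| ≤ √p` put `y = b / (2 √p)`, `θ = arccos y`, `s = sin θ = √(1 - y^2) ≥ √3 / 2`;
`U n (nt p b) = sin((n+1)θ) / s` (`LT.S_US`). Let `ω = (n + 1) / (4 π √p)` and
`g₁ b = e^(-i (n+1) (θ + y)) * (i / (2 s))`, `g₂ b = e^(i (n+1) (θ + y)) * (-i / (2 s))`. Then `ee(ω b) = e^(i (n+1) y)` and
`U n (nt p b) = g₁ b * ee (ω b) + g₂ b * ee (-(ω b))`. Norms are `1 / (2 s) ≤ 1`. Differences: `θ + y = π/2 - (arcsin y - y)`;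
on `|y| ≤ 1/2` the function `arcsin y - y` has derivative `(1 - y^2)^(-1/2) - 1 ∈ [0, y^2]`, so between `b` and
`b + 1` (both at most `R` in absolute value) the phase `(n+1)(θ + y)` changes by at most
`(n + 1) (1 / (2 √p)) (R / (2 √p))^2 = (n+1) R^2 / (8 p^(3/2))`; and `1 / (2 s)` has derivative
`y (1 - y^2)^(-3/2) / 2 ≤ 1` in `y`, so it changes by at most `1 / (2 √p)`. So `C = 1` is enough. -/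
def S_PHI : Prop := ∃ C : ℝ, 0 < C ∧ ∀ (n p : ℕ), 1 ≤ p → ∃ (g₁ g₂ : ℤ → ℂ) (ω : ℝ),
  (∀ b : ℤ, b ^ 2 ≤ p → (U n (nt p b) : ℂ) = g₁ b * ee (ω * b) + g₂ b * ee (-ω * b)) ∧
  (∀ b : ℤ, b ^ 2 ≤ p → ‖g₁ b‖ ≤ C ∧ ‖g₂ b‖ ≤ C) ∧
  ∀ (b : ℤ) (R : ℝ), |(b : ℝ)| ≤ R → |(b : ℝ) + 1| ≤ R → R ^ 2 ≤ p →
    ‖g₁ (b + 1) - g₁ b‖ ≤ C * (1 / √(p : ℝ) + (n + 1) * R ^ 2 / (p * √(p : ℝ))) ∧
    ‖g₂ (b + 1) - g₂ b‖ ≤ C * (1 / √(p : ℝ) + (n + 1) * R ^ 2 / (p * √(p : ℝ)))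

/-- FOURIER. `ĝ β = (1/q) ∑_c G c e(-β c / q)`; inversion, Parseval `∑ |ĝ|^2 = (1/q) ∑ |G|^2`, and Cauchy-Schwarz
`∑ |ĝ| ≤ √q (∑ |ĝ|^2)^(1/2) = l2 G`. (Mathlib: `ZMod.dft`, or directly with `∑_β e(β x / q) = q [q ∣ x]`.) -/
def S_FOU : Prop := ∀ (q : ℕ) [NeZero q] (G : ZMod q → ℂ), ∃ h : ℕ → ℂ,
  (∀ b : ℤ, G b = ∑ β ∈ range q, h β * ee ((β : ℝ) * b / q)) ∧ ∑ β ∈ range q, ‖h β‖ ≤ l2 G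

/-! ### The bias -/

/-- NONRESONANT TERMS. For large `k`, `p ∈ blk k`, `t ∈ T k`, `q' ≤ Q`, `L = q' H`: in the window `b ∈ box (2^k)`
(`S_SIZ`), so `b^2 ≤ 2^k ≤ p`, and `G b = U n (nt p b)` satisfies the conditions of `S_OP2` with `M = 2`,
`λ = 4 (n + 1) / √p` (`S_DIF`). For the `c ∈ cop q'` with `nd (c / q' + β / q) ≥ 1 / (q q')`, by `S_SPC` (2) with
`γ = c / q' + β / q`, `η = 1 / q'`, (for `c ≠ c'` `nd (γ c - γ c') ≥ 1/q'`: `(c - c')/q'` is not an integer),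
`η₀ = 1 / (q q')`, `lam^2 = 2 (1/L + 4 (n + 1)/√p)^2`:
`∑ ≤ 2 (1/L + 4(n+1)/√p)^2 * 6 (q q')^2 ≤ 12 (q 2^(-k/4) + 4 (n+1) q q' 2^(-k/2))^2`, as `L ≥ q' 2^(k/4)`, `p ≥ 2^k`.
(`U` is real: cast.) -/
def S_NRS : Prop := ∃ (C : ℝ) (k₁ : ℕ), 0 ≤ C ∧ ∀ (k n p q q' β : ℕ) (t : ℤ), k₁ ≤ k → p ∈ blk k → t ∈ T k →
  1 ≤ q → 1 ≤ q' → q' ≤ Qk k → ∀ Z ⊆ cop q',
  (∀ c ∈ Z, 1 / ((q : ℝ) * q') ≤ nd ((c : ℝ) / q' + (β : ℝ) / q)) →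
  ∑ c ∈ Z, ‖win (q' * H k) t (fun b => (U n (nt p b) : ℂ)) ((c : ℝ) / q' + (β : ℝ) / q)‖ ≤
    C * (q * e2 (-(k / 4)) + (n + 1) * q * q' * e2 (-(k / 2))) ^ 2

/-- SMALL `n`, `q`. Let `(n + 1) q^(3/2) ≤ 2^(k/4)`; then `q ≤ 2^(k/6)`, so `q ≤ Q`. Note
`win L t (fun b => U b * ee(β b / q)) (c/q') = ee(β t / q) * win L t U (c/q' + β/q)`. Let `(q₀, c₀)` be as in `S_FRA` (2). The
term of `(q₀, c₀)` is, by `S_OP1` (3) (`M = 2`, `λ = 4 (n + 1)/√p`, `L = q₀ H ≤ 2 q 2^(k/4)`), up to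
`L * 2 * 4 (n + 1) / √p ≤ 16 q (n + 1) 2^(-k/4)` equal to `ee(β t / q) U(t)`. The other terms are by `S_NRS` at most
`∑_{q' ≤ Q} C (q 2^(-k/4) + (n+1) q q' 2^(-k/2))^2 ≤ 2 C Q (q^2 2^(-k/2) + (n+1)^2 q^2 Q^2 2^(-k))
≤ 2 C (q^2 2^(-k/3) + (n+1)^2 q^2 2^(-k/2)) ≤ 4 C (n+1) q^(3/2) 2^(-k/4)`, because `q^(1/2) ≤ 2^(k/12)` and
`(n + 1) q^(1/2) ≤ 2^(k/4)`. -/
def S_PHS : Prop := ∃ (C : ℝ) (k₁ : ℕ), 0 ≤ C ∧ ∀ (k n p q β : ℕ) (t : ℤ), k₁ ≤ k → p ∈ blk k → t ∈ T k →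
  1 ≤ q → β < q → ((n : ℝ) + 1) * (q : ℝ) ^ (3 / 2 : ℝ) ≤ e2 (k / 4) →
  ‖(U n (nt p t) : ℂ) * ee ((β : ℝ) * t / q) - ∑ q' ∈ Icc 1 (Qk k), ∑ c ∈ cop q',
    win (q' * H k) t (fun b => (U n (nt p b) : ℂ) * ee ((β : ℝ) * b / q)) ((c : ℝ) / q')‖ ≤
    C * (((n : ℝ) + 1) * (q : ℝ) ^ (3 / 2 : ℝ) * e2 (-(k / 4)))

/-- ONE DYADIC RANGE. Let `g` satisfy `‖g b‖ ≤ M`, `‖g (b+1) - g b‖ ≤ M (1/√p + (n+1) R^2 / p^(3/2))` as in `S_PHI`, and let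
`q'` run over the numbers `2^i ≤ q' < 2^(i+1)`, `q' ≤ Q`. Apply `S_SPC` (1) with the index set of the pairs `(q', c)`
(`Finset.sigma` or image in `ℕ × ℕ`), `γ = c / q' + γ₀`, `η = 4^(-(i+1))` (`S_FRA` (1)),
`S = ‖win (q' H) t g γ‖`, `A = M`, and by `S_OP1` (2)
`lam = M (1/L + 1/√p + (n+1) R^2/p^(3/2)) ≤ C M (2^(-i) 2^(-k/4) + (n+1) 4^i 2^(-k))`, where
`2^i 2^(k/4) ≤ L = q' H ≤ 4 * 2^i 2^(k/4)`, `R = |t| + L ≤ 5 * 2^i 2^(k/4)` (`S_SIZ`: `k ≤ 2^(k/4)`), `R^2 ≤ 2^k ≤ p`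
(`|t| + L ≤ k + Q H`), `1/√p ≤ 2^(-k/2) ≤ 2^(-i) 2^(-k/4)` (`2^i ≤ Q ≤ 2^(k/6)`). So
`lam / η ≤ 4 C M (2^i 2^(-k/4) + (n+1) 16^i 2^(-k)) ≤ C' M (1 + (n+1) 2^(-k/3))`, and `1 + log(1/η) ≤ 3 (i + 2) ≤ C (k + 1)`
(`2^i ≤ Q` gives `i ≤ k`). -/
def S_DYA : Prop := ∃ (C : ℝ) (k₁ : ℕ), 0 ≤ C ∧ ∀ (k n p i : ℕ) (t : ℤ) (g : ℤ → ℂ) (γ₀ M : ℝ), k₁ ≤ k →
  p ∈ blk k → t ∈ T k → 0 ≤ M → 2 ^ i ≤ Qk k →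
  (∀ b : ℤ, b ^ 2 ≤ p → ‖g b‖ ≤ M) →
  (∀ (b : ℤ) (R : ℝ), |(b : ℝ)| ≤ R → |(b : ℝ) + 1| ≤ R → R ^ 2 ≤ p →
    ‖g (b + 1) - g b‖ ≤ M * (1 / √(p : ℝ) + (n + 1) * R ^ 2 / (p * √(p : ℝ)))) →
  ∑ q' ∈ (Icc 1 (Qk k)).filter (fun q' => Nat.log 2 q' = i), ∑ c ∈ cop q',
    ‖win (q' * H k) t g ((c : ℝ) / q' + γ₀)‖ ≤ C * M * (k + 1) * (1 + (n + 1) * e2 (-(k / 3)))

/-- LARGE `n` or `q`. By `S_PHI` `win L t (U · ee(β·/q)) (c/q') = e₁ win L t g₁ (c/q' + β/q + ω) + e₂ win L t g₂ (c/q' + β/q - ω)`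
with `|e₁| = |e₂| = 1` (in the window `b^2 ≤ 2^k ≤ p`), and `S_DYA` for `i = 0, …, k` (`2^i ≤ q' ≤ Q` implies `i ≤ k`; the
`i` with `2^i > Q` have no `q'`): the sum is at most `C (k+1)^2 (1 + (n+1) 2^(-k/3)) ≤ 2 C (k+1)^2 (n+1) q^(3/2) 2^(-k/4)`.
-/
def S_PHM : Prop := ∃ (C : ℝ) (k₁ : ℕ), 0 ≤ C ∧ ∀ (k n p q β : ℕ) (t : ℤ), k₁ ≤ k → p ∈ blk k → t ∈ T k →
  1 ≤ q → β < q → e2 (k / 4) < ((n : ℝ) + 1) * (q : ℝ) ^ (3 / 2 : ℝ) →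
  ‖∑ q' ∈ Icc 1 (Qk k), ∑ c ∈ cop q',
    win (q' * H k) t (fun b => (U n (nt p b) : ℂ) * ee ((β : ℝ) * b / q)) ((c : ℝ) / q')‖ ≤
    C * (k + 1) ^ 2 * (((n : ℝ) + 1) * (q : ℝ) ^ (3 / 2 : ℝ) * e2 (-(k / 4)))

/-- THE BIAS. From `S_UNF`, `S_PHS`, `S_PHM` (with `‖U n (nt p t)‖ ≤ 2 ≤ 2 (n+1) q^(3/2) 2^(-k/4)` in the second case,
`S_DIF`) and `S_FOU`. -/
def S_BIAS : Prop := ∃ (C : ℝ) (k₁ : ℕ), 0 ≤ C ∧ ∀ (k n p q : ℕ) [NeZero q] (t : ℤ) (G : ZMod q → ℂ),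
  k₁ ≤ k → p ∈ blk k → t ∈ T k →
  ‖∑ b ∈ box (2 ^ k), (kap k t b : ℂ) * ((U n (nt p b) : ℂ) * G b)‖ ≤
    C * (k + 1) ^ 2 * (((n : ℝ) + 1) * (q : ℝ) ^ (3 / 2 : ℝ) * e2 (-(k / 4))) * l2 G

/-! ### The laws -/

/-- The laws `ν`: `μ` plus small multiples of the `κ_t`, in the blocks `k ≥ k₀`. -/
noncomputable def nu (μ : ℕ → ℤ → ℝ) (m : ℕ → ℤ → ℝ) (k₀ p : ℕ) (b : ℤ) : ℝ :=
  μ p b + if k₀ ≤ kk p then ∑ t ∈ T (kk p), m (kk p) t * kap (kk p) t b else 0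

/-- The masses `m k t`. -/
structure IsM (δ : ℝ) (f : ℕ → ℤ → ℕ) (m : ℕ → ℤ → ℝ) (k₀ : ℕ) (C' : ℝ) : Prop where
  sub : ∀ k, k₀ ≤ k → T k ⊆ box (2 ^ k)
  supp : ∀ k, k₀ ≤ k → ∀ t ∈ T k, ∀ b ∉ box (2 ^ k), kap k t b = 0
  nonneg : ∀ k t, 0 ≤ m k t
  sum : ∀ k, k₀ ≤ k → ∑ t ∈ T k, m k t ≤ C' * (k + 1) * e2 (-(k * (1 / 4 + δ)))
  diag : ∀ k, k₀ ≤ k → 0 ≤ 1 - K k 0
  eq : ∀ k, k₀ ≤ k → ∀ t ∈ T k, ((blk k).card : ℝ) * (m k t * (1 - K k 0)) = f k t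

/-- CHOICE OF THE MASSES. Let `k₀` be large, `m k t = f k t / (#(blk k) * (1 - K k 0))` for `k ≥ k₀` (`0` for small `k`).
`|K k 0| ≤ 2^(-k/12) ≤ 1/2` for `k ≥ 12` (`S_KB`), `#(blk k) ≥ c 2^k / (k + 1)` (`LT.S_CHE`):
`∑_t m k t ≤ (2/c) (k + 1) 2^(-k) ∑ f ≤ (2/c) (k + 1) 2^(-k (1/4 + δ))`. `sub` and `supp` are from `S_SIZ` and `S_KB` (3)
(if `b ∉ box (2^k)` then `b ≠ t` and `|b - t| > Qk k * H k`). -/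
def S_MAS : Prop := ∀ (δ : ℝ) (f : ℕ → ℤ → ℕ), 0 < δ →
  (∀ k, ((∑ t ∈ T k, f k t : ℕ) : ℝ) ≤ e2 (k * (3 / 4 - δ))) →
  ∃ (m : ℕ → ℤ → ℝ) (k₀ : ℕ) (C' : ℝ), IsM δ f m k₀ C'

/-- POSITIVITY. Let `p ∈ blk k`, `k ≥ k₁`. If `b ∉ box (2^k)` then `κ_t(b) = 0` for all `t ∈ T k` (`IsM.supp`), and
`ν = μ ≥ 0`. If `b ∈ box (2^k) ⊆ box p`: `ν(b) ≥ μ(b) - ∑_{t ≠ b} m_t |K(b - t)|` (the term `t = b` is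
`m_b (1 - K 0) ≥ 0`, `IsM.diag`), with `|K(b - t)| ≤ 2^(-k/4) C_ε 2^(ε k) (k + 1)` (`S_KB` (2), `DF.S_TAU` with
`|b - t| ≤ 2 * 2^(k/2)`); the subtracted sum is at most `C'' (k + 1)^2 2^(-k (1/4 + δ)) 2^(-k/4) 2^(ε k)`, while
`μ(b) ≥ c_ε p^(-ε - 1/2) ≥ c_ε 2^(-(k+1)(ε + 1/2))`; take `ε = δ / 4` and `k` large. -/
def S_POS : Prop := ∀ (μ : ℕ → ℤ → ℝ) (δ : ℝ) (f : ℕ → ℤ → ℕ) (m : ℕ → ℤ → ℝ) (k₀ : ℕ) (C' : ℝ),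
  IsRef μ → 0 < δ → IsM δ f m k₀ C' →
  ∃ k₁ : ℕ, k₀ ≤ k₁ ∧ ∀ p : ℕ, p.Prime → ∀ b, 0 ≤ nu μ m k₁ p b

/-- TOTAL MASS. `∑_b κ_t(b) = 0` over `box (4p) ⊇ box (2^k)` for `p ∈ blk k`, `t ∈ T k` (`S_MASS`; the sum over
`box (4p)` is the sum over all `|b - t| ≤ M`, `M = Qk k * H k`, because `κ_t` vanishes outside `box (2^k)` and
outside `{t} ∪ {|b - t| < M}`, `S_KB` (3)). -/
def S_TOT : Prop := ∀ (μ : ℕ → ℤ → ℝ) (δ : ℝ) (f : ℕ → ℤ → ℕ) (m : ℕ → ℤ → ℝ) (k₀ : ℕ) (C' : ℝ) (k₁ : ℕ),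
  IsRef μ → IsM δ f m k₀ C' → k₀ ≤ k₁ →
  ∀ p : ℕ, p.Prime → ∑ b ∈ box (4 * p), nu μ m k₁ p b = 1

/-- THE NUMBERS. For `t ∈ T k`: `∑_{p ∈ blk k} ν p t - f k t = ∑_{p ∈ blk k} μ p t - #(blk k) ∑_{t' ≠ t} m_{t'} K(t - t')`
(as `#(blk k) m_t (1 - K 0) = f k t`, `IsM.eq`). `μ p t ≤ C p^(-1/2)`, so the first sum is at most `C 2^(k/2)`; the second
is at most `2^k C' (k + 1) 2^(-k/4) 2^(-k/4) C_ε 2^(ε k) (k + 1)` (`S_KB` (2), `DF.S_TAU`). There are `2k+1` elements `t` of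
`T k`. -/
def S_CNT : Prop := ∀ (μ : ℕ → ℤ → ℝ) (δ : ℝ) (f : ℕ → ℤ → ℕ) (m : ℕ → ℤ → ℝ) (k₀ : ℕ) (C' : ℝ),
  IsRef μ → 0 < δ → IsM δ f m k₀ C' → ∀ k₁, k₀ ≤ k₁ →
    ∀ ε : ℝ, 0 < ε → ∃ C'' : ℝ, ∀ k, k₁ ≤ k →
      ∑ t ∈ T k, |∑ p ∈ blk k, nu μ m k₁ p t - f k t| ≤ C'' * e2 (k * (1 / 2 + ε))

/-- SECOND MOMENTS FOR `μ`. `∑_{b ∈ box (4p)} U n (nt p b)^2 ≤ 12 √p (n + 1)`, hence the claim with `IsRef.upper`.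
Proof: `|U n x| ≤ n + 1` and `|U n x| ≤ 2 / √(4 - x^2)` (`LT.S_UB`), so `U n (nt p b)^2 ≤ (n + 1) * 2 √p / √(4p - b^2)`
(`4 - x^2 = (4p - b^2)/p`; `4p - b^2 ≥ 1` because `4p` is not a square, `p` prime). Let `M = ⌊√(4p)⌋`. For `|b| = M` use
`√(4p - b^2) ≥ 1`; for `|b| = j < M` `4p - b^2 ≥ M^2 - j^2 ≥ M (M - j)`, and `∑_{j<M} 1/√(M - j) ≤ 2 √M`. So
`∑_b 1/√(4p - b^2) ≤ 2 + 2 * 2 √M / √M = 6`. -/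
def S_MOM : Prop := ∀ μ : ℕ → ℤ → ℝ, IsRef μ → ∃ C : ℝ, ∀ (n p : ℕ), p.Prime →
  ∑ b ∈ box (4 * p), μ p b * (U n (nt p b)) ^ 2 ≤ C * (n + 1)

/-- SECOND MOMENTS FOR `ν`. `∑ ν U^2 = ∑ μ U^2 + ∑_t m_t ∑_b κ_t(b) U(b)^2`, where `κ_t(b) ≠ 0` only for
`b ∈ box (2^k)`, `b^2 ≤ 2^k ≤ p`, so `U(b)^2 ≤ 4` (`S_DIF`), and `∑_b |κ_t(b)| ≤ 1 + |K 0| + ∑_{0 < |a| ≤ Q H} |K a| ≤
2 + 2 Q H * 2^(-k/4) C 2^(k/100) (k+1) ≤ C' 2^(k/5)` (`S_KB`, `DF.S_TAU`; `Q ≤ 2^(k/6)`, `H ≤ 2 * 2^(k/4)`),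
and `∑ m_t ≤ C' (k+1) 2^(-k/4)`. -/
def S_MOMN : Prop := ∀ (μ : ℕ → ℤ → ℝ) (δ : ℝ) (f : ℕ → ℤ → ℕ) (m : ℕ → ℤ → ℝ) (k₀ : ℕ) (C' : ℝ) (k₁ : ℕ),
  IsRef μ → 0 < δ → IsM δ f m k₀ C' → k₀ ≤ k₁ → ∃ C : ℝ, ∀ (n p : ℕ), p.Prime →
  ∑ b ∈ box (4 * p), nu μ m k₁ p b * (U n (nt p b)) ^ 2 ≤ C * (n + 1)

/-- WEIGHTS. E.g. `w n = 1 / ((n + 1)^2 (l + 1)^2)` with `l = Nat.log 2 (n + 1)`: the sum of `w n (n+1)` over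
`2^l ≤ n + 1 < 2^(l+1)` is at most `1 / (l+1)^2`; and `(l + 1)^2 ≤ C_ε (n + 1)^ε`. Or
`w n = ∑' e, 2^(-e) (n+1)^(-2 - 1/(e+1)) / S_e`, `S_e = ∑' n, (n+1)^(-1 - 1/(e+1))`. -/
def S_WT : Prop := ∃ w : ℕ → ℝ, (∀ n, 0 < w n) ∧ (Summable fun n => w n * ((n : ℝ) + 1)) ∧
  ∀ ε : ℝ, 0 < ε → ∃ c : ℝ, 0 < c ∧ ∀ n : ℕ, c * ((n : ℝ) + 1) ^ (-2 - ε) ≤ w n

/-- SELECTION. (Copy and adapt `Pool/Agent/H414/DF/Sel.lean`, fetched as `helper414_DF_Sel.lean`, which is the case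
`n = 0`.) `DF.S_ENG` with `J = (ℕ × ℕ × ℕ) ⊕ ℕ`, `I (inl (i, s, n)) = ZMod (s + 1) × ZMod (s + 1)`, `I (inr k) = {t // t ∈ T k}`,
outcomes at `p`: `{b // b ∈ box (4p)}` with the weights `ν p` if `p` is prime and the point mass at `0` otherwise, tests
(minus their means) `c i p * [p = u in ZMod (s+1)] * [b = α in ZMod (s+1)] * U n (nt p b)`, and `[p ∈ blk k] [b = t]`.
Second moments: `∑_b ν(b) U^2 ≤ C₀ (n + 1)`, so `E = C₀ (n+1)`, weights `w n / ((s+1)^2 2^i)` with `w` from `S_WT`;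
for the summability hypothesis `φ` is bounded by `(n+1)^2` at each `p`: but `U n (nt p b)^2 ≤ 4p` for all `n`
(`LT.S_UB`, `4p - b^2 ≥ 1` as `4p` is not a square for a prime `p`), so `∑_s ‖φ‖^2 ≤ C_p` independently of `j`, and the
weights are summable. Result: `∑_s |S_s|^2 ≤ W 2^i (s+1)^2 / w n * N`, `1 / w n ≤ C (n+1)^(2+ε)`; expand `F` and use
Cauchy-Schwarz. -/
def S_SEL : Prop := ∀ (ν : ℕ → ℤ → ℝ) (c : ℕ → ℕ → ℂ),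
  (∀ p : ℕ, p.Prime → ∀ b, 0 ≤ ν p b) → (∀ p : ℕ, p.Prime → ∑ b ∈ box (4 * p), ν p b = 1) →
  (∃ C₀ : ℝ, ∀ (n p : ℕ), p.Prime → ∑ b ∈ box (4 * p), ν p b * (U n (nt p b)) ^ 2 ≤ C₀ * (n + 1)) →
  (∀ i p, ‖c i p‖ ≤ 1) →
  ∃ a : ℕ → ℤ, IsSystem a ∧
    (∀ (i : ℕ) (ε : ℝ), 0 < ε → ∃ C : ℝ, ∀ (n q : ℕ) [NeZero q] (F : ZMod q × ZMod q → ℂ) (x : ℕ),
      ‖∑ p ∈ primesUpTo x, c i p * ((U n (nt p (a p)) : ℂ) * F (p, a p) -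
        ∑ b ∈ box (4 * p), (ν p b : ℂ) * ((U n (nt p b) : ℂ) * F (p, b)))‖ ≤
        C * ((n : ℝ) + 1) ^ (1 + ε) * q * l2 F * √((x : ℝ) + 1)) ∧
    ∃ C : ℝ, ∀ k : ℕ,
      ∑ t ∈ T k, |(((blk k).filter fun p => a p = t).card : ℝ) -
        ∑ p ∈ blk k, ∑ b ∈ box (4 * p), if b = t then ν p b else 0| ^ 2 ≤
        C * (k + 1) ^ 2 * 2 ^ k

/-- FROM `ν` TO `μ` in one block (compare `DF/Blk.lean`). Let `ν = nu μ m k₁`, `k ≥ k₁` large.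

Proof. Let `F_p = F(p, ·)`. Then `∑_{p ∈ blk k} l2(F_p)^2 ≤ (2^(k+1) / q + 1) l2(F)^2`
(each class modulo `q` contains at most `2^(k+1) / q + 1` numbers up to `2^(k+1)`), so by
Cauchy-Schwarz (`#(blk k) ≤ 2^k`) `∑_{p ∈ blk k} l2(F_p) ≤ 2^(k/2) (2^(k+1) / q + 1)^(1/2) l2 F`.
Case `q^3 ≤ 2^(k+1)`: `∑_b (ν - μ)(b) U F_p(b) = ∑_t m_t ∑_b κ_t(b) U F_p(b)` (the sum over `box (4p)` is that over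
`box (2^k)`, `IsM.supp`), by `S_BIAS` at most `C' (k+1) 2^(-k/4) C (k+1)^2 (n+1) q^(3/2) 2^(-k/4) l2 F_p`; with
`2^(k+1)/q + 1 ≤ 2^(k+2) / q` the sum over the block is `≤ C'' (k+1)^3 (n+1) q 2^(k/2) l2 F`.
Case `q^3 > 2^(k+1)`: `|∑_b (ν - μ)(b) U F_p(b)| ≤ 2 (n+1) l2 F_p` (`ν`, `μ` probabilities, `|U n| ≤ n + 1` on
`[-2, 2]`), and `2^(k+1)/q + 1 ≤ 2 q^2`. For the `k` between `k₁` and the `k₁` of `S_BIAS` use the bound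
`2 (n+1) l2 F_p` too (finitely many blocks: constant). -/
def S_BLK : Prop := ∀ (μ : ℕ → ℤ → ℝ) (δ : ℝ) (f : ℕ → ℤ → ℕ) (m : ℕ → ℤ → ℝ) (k₀ : ℕ) (C' : ℝ) (k₁ : ℕ),
  IsRef μ → 0 < δ → IsM δ f m k₀ C' → k₀ ≤ k₁ →
  (∀ p : ℕ, p.Prime → ∀ b, 0 ≤ nu μ m k₁ p b) →
  (∀ p : ℕ, p.Prime → ∑ b ∈ box (4 * p), nu μ m k₁ p b = 1) →
  ∀ ε : ℝ, 0 < ε → ∃ C'' : ℝ, ∀ (n q : ℕ) [NeZero q] (F : ZMod q × ZMod q → ℂ) (k : ℕ),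
    k₁ ≤ k →
    ∑ p ∈ blk k, ‖∑ b ∈ box (4 * p), ((nu μ m k₁ p b - μ p b : ℝ) : ℂ) *
      ((U n (nt p b) : ℂ) * F (p, b))‖ ≤ C'' * ((n : ℝ) + 1) * q * l2 F * e2 (k * (1 / 2 + ε))

/-- SUMMATION OVER THE BLOCKS (compare `DF/Sum.lean`). The primes with `kk p < k₁` contribute `0` (`nu = μ`), every other
prime `p ≤ x` is in a block `k ≥ k₁` with `2^k ≤ x`; the triangle inequality and a geometric series. -/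
def S_SUM : Prop := ∀ (μ : ℕ → ℤ → ℝ) (m : ℕ → ℤ → ℝ) (k₁ : ℕ),
  (∀ ε : ℝ, 0 < ε → ∃ C'' : ℝ, ∀ (n q : ℕ) [NeZero q] (F : ZMod q × ZMod q → ℂ) (k : ℕ),
    k₁ ≤ k →
    ∑ p ∈ blk k, ‖∑ b ∈ box (4 * p), ((nu μ m k₁ p b - μ p b : ℝ) : ℂ) *
      ((U n (nt p b) : ℂ) * F (p, b))‖ ≤ C'' * ((n : ℝ) + 1) * q * l2 F * e2 (k * (1 / 2 + ε))) →
  ∀ ε : ℝ, 0 < ε → ∃ C'' : ℝ, ∀ (c : ℕ → ℂ), (∀ p, ‖c p‖ ≤ 1) → ∀ (n q : ℕ) [NeZero q]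
    (F : ZMod q × ZMod q → ℂ) (x : ℕ),
    ‖∑ p ∈ primesUpTo x, c p * ∑ b ∈ box (4 * p), ((nu μ m k₁ p b - μ p b : ℝ) : ℂ) *
      ((U n (nt p b) : ℂ) * F (p, b))‖ ≤
      C'' * ((n : ℝ) + 1) * q * l2 F * ((x : ℝ) + 1) ^ (1 / 2 + ε)

/-- MODIFICATION (compare `DF/Modif.lean`). A system with the bounds and with approximately the right numbers can
be changed to one with exactly the right numbers.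

Proof. `k₁ ≥ k₀` large. In the block `k ≥ k₁` apply `DF.S_ASG` with `A = blk k`, `T = T k`, `u = k + 1`, `f k`, and
`n` = the sum of the `|N t - f t|`; it is at most `C_ε 2^(k(1/2+ε))`, so `∑ f + 2 n ≤ #(blk k)` for large `k`
(`LT.S_CHE`, `∑ f ≤ 2^(k (3/4 - δ))`). In the other blocks nothing is changed. The new system is a system as
`(k+1)^2 ≤ 2^k`. The bounds: the difference of the two sums is at most `∑_{p ≤ x, changed} 2 (n + 1) l2 F`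
(`|U n| ≤ n + 1` on `[-2, 2]`), and the number of the changed primes `≤ x` is at most
`∑_{k : 2^k ≤ x} n_k ≤ C (x + 1)^(1/2 + ε)`. -/
def S_MODIF : Prop := ∀ (μ : ℕ → ℤ → ℝ) (c : ℕ → ℕ → ℂ) (δ : ℝ)
  (f : ℕ → ℤ → ℕ) (a : ℕ → ℤ) (k₀ : ℕ), 0 < δ → (∀ i p, ‖c i p‖ ≤ 1) →
  (∀ k, ((∑ t ∈ T k, f k t : ℕ) : ℝ) ≤ e2 (k * (3 / 4 - δ))) →
  IsSystem a → HasBound μ c a →
  (∀ ε : ℝ, 0 < ε → ∃ C : ℝ, ∀ k, k₀ ≤ k →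
    ∑ t ∈ T k, |(((blk k).filter fun p => a p = t).card : ℝ) - f k t| ≤
      C * e2 (k * (1 / 2 + ε))) →
  ∃ a' : ℕ → ℤ, IsSystem a' ∧ HasBound μ c a' ∧
    ∃ k₁ : ℕ, ∀ k, k₁ ≤ k → ∀ t ∈ T k, ((blk k).filter fun p => a' p = t).card = f k t

/-- The uniform laws are reference laws. (`#(box n) = 2 ⌊√n⌋ + 1`.) -/
def S_UNI : Prop := IsRef fun p b => if b ∈ box (4 * p) then 1 / ((box (4 * p)).card : ℝ) else 0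

end Pool.Agent.H414.MX
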