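import Pool.Agent.H414.MX.Spec
import Pool.Agent.H414.LT.Upw

/-!
The upper bound of the project MX. `LT.Upw.F N t = N + ∑_{m < N} (N - (m+1)) (-1)^(m+1) (U (2m+2) t - U (2m) t)` is the Fejér
kernel `|∑_{l < N} e^(2 i l ψ)|^2`, `t = 2 sin ψ` (`LT.Upw.F_eq`, `F_nonneg`, `F_lower`, `arc`, `count` in `LT/Upw.lean`).
-/

set_option autoImplicit false

namespace Pool.Agent.H414.MX

open Finset
open Pool.Agent.H414.LT (primesUpTo blk kk U)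
open Pool.Agent.H414.DF (e2)

/-- MEANS OF THE FEJÉR KERNEL. For `t = 2 sin ψ`, `|t| < 2`: `F N t = |∑_{l<N} e^(2ilψ)|^2`, so `0 ≤ F N t ≤ N^2` and, as
`|e^(2iψ) - 1| |∑_{l<N} e^(2ilψ)| = |e^(2iNψ) - 1| ≤ 2` and `|e^(2iψ) - 1| = 2 |sin ψ| = |t|`, `F N t * t^2 ≤ 4`. So
`F N (nt p b) ≤ min(N^2, 4 p / b^2) ≤ 2 N √p / |b|` for `b ≠ 0`, and `∑_{b ∈ box (4p)} ≤ N^2 + 4 N √p (1 + log(2 √p))`
(`∑_{1 ≤ b ≤ M} 1/b ≤ 1 + log M`, `M = ⌊2√p⌋`). (For `p` prime `|nt p b| < 2` on `box (4p)`, as `4p` is not a square.) -/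
def S_FEJ : Prop := ∃ C : ℝ, 0 ≤ C ∧ ∀ (N p : ℕ), 1 ≤ N → p.Prime →
  ∑ b ∈ box (4 * p), Pool.Agent.H414.LT.Upw.F N (nt p b) ≤
    C * ((N : ℝ) ^ 2 + N * √(p : ℝ) * (1 + Real.log p))

/-- THE UPPER BOUND. Let `x = 2^(k+1)`, `N = ⌊2^(k/4) / 2⌋` (if `N = 0` the trivial bound `2^k ≤ 16` is enough).
`(N^2 / 4) # ≤ ∑_{p ≤ x} F N (nt p (a p))` (`LT.Upw.F_lower`, `F_nonneg`; `|nt p (a p)| ≤ 2^(-k/4) ≤ 1/(2N)` for the counted `p`).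
`F N` is a combination of the `U n`, and `∑_{p ≤ x} (U n (nt p (a p)) - ∑_b μ p b U n (nt p b))` is at most
`C (n + 1)^(1+ε) (x+1)^(1/2+ε)` (`HasBound` with `q = 1`, `F = 1`: `l2 F = 1`), so
`|∑_{p ≤ x} (F N (nt p (a p)) - ∑_b μ p b F N (nt p b))| ≤ 2 N^2 C (2N+1)^(1+ε) (x+1)^(1/2+ε)` (the constant term `N` cancels;
compare `LT.Upw.count`), and by `S_FEJ`, `IsRef.upper` and `IsRef.nonneg` (`F ≥ 0`)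
`∑_{p ≤ x} ∑_b μ p b F N (nt p b) ≤ ∑_{p ≤ x} C (N^2 / √p + N (1 + log p)) ≤ C' (N^2 √x + N x (k + 1))`
(`∑_{p ≤ x} 1/√p ≤ 2 √x`). Divide by `N^2 / 4`; `2^(k/4) ≤ 4 N`:
`# ≤ C'' (2^(k/2) + (k+1) 2^(3k/4) + 2^(k/4 (1+ε)) 2^(k(1/2+ε)))`. -/
def S_UPP : Prop := ∀ (μ : ℕ → ℤ → ℝ), IsRef μ → ∀ a : ℕ → ℤ, IsSystem a → HasBound μ (fun _ _ => 1) a →
  ∀ ε : ℝ, 0 < ε → ∃ C : ℝ, ∀ k : ℕ,
    (((blk k).filter fun p => |(a p : ℝ)| ≤ e2 (k / 4)).card : ℝ) ≤ C * e2 (k * (3 / 4 + ε))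

end Pool.Agent.H414.MX
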