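import Pool.Agent.H414.MX.Spec

/-!
Summation over the blocks: `sum : S_SUM`.
-/

set_option autoImplicit false

namespace Pool.Agent.H414.MX

open Finset
open Pool.Agent.H414.LT (primesUpTo blk U kk mem_blk)
open Pool.Agent.H414.DF (e2)

namespace Sum

theorem e2_eq (ε : ℝ) (k : ℕ) : e2 (k * (1 / 2 + ε)) = ((2 : ℝ) ^ (1 / 2 + ε)) ^ k := by
  unfold e2
  rw [mul_comm, Real.rpow_mul_natCast (by norm_num)]

theorem pow_le (ε : ℝ) (hε : 0 < ε) (x : ℕ) :
    ((2 : ℝ) ^ (1 / 2 + ε)) ^ (Nat.log 2 x) ≤ ((x : ℝ) + 1) ^ (1 / 2 + ε) := by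
  rw [← Real.rpow_mul_natCast (by norm_num), mul_comm, Real.rpow_mul (by norm_num),
    Real.rpow_natCast]
  refine Real.rpow_le_rpow (by positivity) ?_ (by linarith)
  have h : 2 ^ Nat.log 2 x ≤ x + 1 := by
    rcases Nat.eq_zero_or_pos x with h0 | h0
    · subst h0
      simp
    · exact (Nat.pow_log_le_self 2 h0.ne').trans (Nat.le_succ x)
  exact_mod_cast h

theorem kk_le {p x : ℕ} (h : p ∈ primesUpTo x) : kk p < Nat.log 2 x + 1 := by
  unfold primesUpTo at h
  rw [mem_filter, mem_range] at h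
  unfold kk
  have : p - 1 ≤ x := by omega
  exact Nat.lt_succ_of_le (Nat.log_mono_right this)

theorem prime_of_mem {p x : ℕ} (h : p ∈ primesUpTo x) : p.Prime := by
  unfold primesUpTo at h
  exact (mem_filter.1 h).2

theorem geom (ρ : ℝ) (hρ : 1 < ρ) (L : ℕ) :
    ∑ k ∈ range (L + 1), ρ ^ k ≤ ρ / (ρ - 1) * ρ ^ L := by
  rw [geom_sum_eq hρ.ne', div_mul_eq_mul_div]
  refine div_le_div_of_nonneg_right ?_ (by linarith)
  rw [pow_succ]
  linarith

theorem l2_nonneg {α : Type} [Fintype α] (G : α → ℂ) : 0 ≤ l2 G := Real.sqrt_nonneg _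

end Sum

open Pool.Agent.H414.MX.Sum in
theorem sum : S_SUM := by
  intro μ m k₁ H ε hε
  obtain ⟨C, hC⟩ := H ε hε
  set ρ : ℝ := (2 : ℝ) ^ (1 / 2 + ε) with hρ
  have hρ1 : 1 < ρ := Real.one_lt_rpow (by norm_num) (by linarith)
  refine ⟨|C| * (ρ / (ρ - 1)), fun c hc n q _ F x => ?_⟩
  set g : ℕ → ℝ := fun p => ‖∑ b ∈ box (4 * p),
    ((nu μ m k₁ p b - μ p b : ℝ) : ℂ) * ((U n (nt p b) : ℂ) * F (p, b))‖ with hg
  have h1 : ‖∑ p ∈ primesUpTo x, c p * ∑ b ∈ box (4 * p),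
      ((nu μ m k₁ p b - μ p b : ℝ) : ℂ) * ((U n (nt p b) : ℂ) * F (p, b))‖ ≤ ∑ p ∈ primesUpTo x, g p := by
    refine (norm_sum_le _ _).trans (sum_le_sum fun p _ => ?_)
    rw [norm_mul]
    exact mul_le_of_le_one_left (norm_nonneg _) (hc p)
  have h2 : ∀ p, kk p < k₁ → g p = 0 := by
    intro p hp
    have : ∀ b, nu μ m k₁ p b - μ p b = 0 := by
      intro b
      unfold nu
      rw [if_neg (by omega)]
      ring
    simp only [hg, this]
    simp
  have hA : 0 ≤ |C| * ((n : ℝ) + 1) * q * l2 F := by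
    have := l2_nonneg F
    positivity
  have h3 : ∑ p ∈ primesUpTo x, g p =
      ∑ k ∈ range (Nat.log 2 x + 1), ∑ p ∈ (primesUpTo x).filter (fun p => kk p = k), g p := by
    rw [sum_fiberwise_of_maps_to]
    intro p hp
    exact mem_range.2 (kk_le hp)
  have h4 : ∀ k ∈ range (Nat.log 2 x + 1),
      ∑ p ∈ (primesUpTo x).filter (fun p => kk p = k), g p ≤
        |C| * ((n : ℝ) + 1) * q * l2 F * ρ ^ k := by
    intro k _
    by_cases hk : k₁ ≤ k
    · calc ∑ p ∈ (primesUpTo x).filter (fun p => kk p = k), g p ≤ ∑ p ∈ blk k, g p := by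
            refine sum_le_sum_of_subset_of_nonneg ?_ fun p _ _ => norm_nonneg _
            intro p hp
            rw [mem_filter] at hp
            exact mem_blk.2 ⟨prime_of_mem hp.1, hp.2⟩
        _ ≤ C * ((n : ℝ) + 1) * q * l2 F * e2 (k * (1 / 2 + ε)) := hC n q F k hk
        _ ≤ |C| * ((n : ℝ) + 1) * q * l2 F * ρ ^ k := by
            rw [e2_eq]
            refine mul_le_mul_of_nonneg_right ?_ (by positivity)
            refine mul_le_mul_of_nonneg_right ?_ (l2_nonneg F)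
            refine mul_le_mul_of_nonneg_right ?_ (by positivity)
            exact mul_le_mul_of_nonneg_right (le_abs_self C) (by positivity)
    · rw [sum_eq_zero]
      · positivity
      · intro p hp
        rw [mem_filter] at hp
        exact h2 p (by omega)
  calc _ ≤ ∑ p ∈ primesUpTo x, g p := h1
    _ ≤ ∑ k ∈ range (Nat.log 2 x + 1), |C| * ((n : ℝ) + 1) * q * l2 F * ρ ^ k := by
        rw [h3]
        exact sum_le_sum h4
    _ = |C| * ((n : ℝ) + 1) * q * l2 F * ∑ k ∈ range (Nat.log 2 x + 1), ρ ^ k := by rw [mul_sum]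
    _ ≤ |C| * ((n : ℝ) + 1) * q * l2 F * (ρ / (ρ - 1) * ((x : ℝ) + 1) ^ (1 / 2 + ε)) := by
        refine mul_le_mul_of_nonneg_left ((geom ρ hρ1 _).trans ?_) hA
        refine mul_le_mul_of_nonneg_left (pow_le ε hε x) ?_
        exact div_nonneg (by linarith) (by linarith)
    _ = |C| * (ρ / (ρ - 1)) * ((n : ℝ) + 1) * q * l2 F * ((x : ℝ) + 1) ^ (1 / 2 + ε) := by ring

end Pool.Agent.H414.MX
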