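import Pool.Agent.H414.MX.Spec

set_option autoImplicit false

namespace Pool.Agent.H414.MX

open Finset
open Pool.Agent.H414.LT (primesUpTo blk kk U)
open Pool.Agent.H414.DF (e2)

namespace Tot

theorem box_mono {n n' : ℕ} (h : n ≤ n') : box n ⊆ box n' := by
  unfold box
  have h1 : (Nat.sqrt n : ℤ) ≤ Nat.sqrt n' := by exact_mod_cast Nat.sqrt_le_sqrt h
  exact Finset.Icc_subset_Icc (by omega) h1

theorem sum_kap (hKB : S_KB) (hMASS : S_MASS) {δ : ℝ} {f : ℕ → ℤ → ℕ} {m : ℕ → ℤ → ℝ} {k₀ : ℕ}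
    {C' : ℝ} (hM : IsM δ f m k₀ C') (k n : ℕ) (hk : k₀ ≤ k) (t : ℤ) (ht : t ∈ T k)
    (hn : 2 ^ k ≤ n) : ∑ b ∈ box n, kap k t b = 0 := by
  have hsub := box_mono hn
  have ht2 := hM.sub k hk ht
  have hz : ∀ b : ℤ, b ∉ box (2 ^ k) → K k (b - t) = 0 := by
    intro b hb
    have h1 := hM.supp k hk t ht b hb
    unfold kap at h1
    have hne : b ≠ t := by
      intro h
      rw [h] at hb
      exact hb ht2
    rw [if_neg hne] at h1
    linarith
  unfold kap
  rw [sum_sub_distrib, sum_ite_eq', if_pos (hsub ht2)]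
  obtain ⟨M, hMd⟩ : ∃ M : ℤ, M = ((Qk k * H k : ℕ) : ℤ) := ⟨_, rfl⟩
  have hfar : ∀ b : ℤ, b ∉ Icc (t - M) (t + M) → K k (b - t) = 0 := by
    intro b hb
    apply (hKB k).2.2
    rw [mem_Icc, not_and_or, not_le, not_le] at hb
    rw [← hMd, le_abs]
    rcases hb with hb | hb
    · right
      linarith
    · left
      linarith
  have h1 : ∑ b ∈ box n, K k (b - t) = ∑ b ∈ Icc (t - M) (t + M), K k (b - t) := by
    have e1 : ∑ b ∈ box n ∩ Icc (t - M) (t + M), K k (b - t) = ∑ b ∈ box n, K k (b - t) := by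
      apply sum_subset inter_subset_left
      intro b hb hb2
      refine hfar b fun h3 => hb2 (mem_inter.2 ⟨hb, h3⟩)
    have e2 : ∑ b ∈ box n ∩ Icc (t - M) (t + M), K k (b - t) =
        ∑ b ∈ Icc (t - M) (t + M), K k (b - t) := by
      apply sum_subset inter_subset_right
      intro b hb hb2
      refine hz b fun h3 => hb2 (mem_inter.2 ⟨hsub h3, hb⟩)
    rw [← e1, e2]
  have h2 : ∑ b ∈ Icc (t - M) (t + M), K k (b - t) = ∑ a ∈ Icc (-M) M, K k a := by
    refine sum_nbij' (fun b => b - t) (fun a => a + t) ?_ ?_ ?_ ?_ ?_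
    · intro b hb
      rw [mem_Icc] at hb ⊢
      constructor <;> linarith [hb.1, hb.2]
    · intro a ha
      rw [mem_Icc] at ha ⊢
      constructor <;> linarith [ha.1, ha.2]
    · intro b _
      ring
    · intro a _
      ring
    · intro b _
      rfl
  rw [h1, h2, hMASS k M hMd.ge, sub_self]

end Tot

theorem tot (hKB : S_KB) (hMASS : S_MASS) : S_TOT := by
  intro μ δ f m k₀ C' k₁ hμ hM hk01 p hp
  unfold nu
  rw [sum_add_distrib, hμ.sum p hp]
  by_cases hk : k₁ ≤ kk p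
  · simp only [if_pos hk]
    rw [sum_comm]
    have h2 : ∑ t ∈ T (kk p), ∑ b ∈ box (4 * p), m (kk p) t * kap (kk p) t b = 0 := by
      apply sum_eq_zero
      intro t ht
      rw [← mul_sum, Tot.sum_kap hKB hMASS hM (kk p) (4 * p) (hk01.trans hk) t ht (by
        have := (Pool.Agent.H414.LT.two_le_kk hp.two_le).1
        omega), mul_zero]
    rw [h2, add_zero]
  · simp only [if_neg hk, sum_const_zero, add_zero]

end Pool.Agent.H414.MX
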