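import Pool.Agent.H414.MX.Spec

set_option autoImplicit false

namespace Pool.Agent.H414.MX

open Finset

namespace Tri

theorem cnt (L : ℕ) (a : ℤ) :
    ((range L ×ˢ range L).filter (fun x => (x.1 : ℤ) - x.2 = a)).card = L - a.natAbs := by
  rcases Int.eq_nat_or_neg a with ⟨n, rfl | rfl⟩
  · have h : (range L ×ˢ range L).filter (fun x => (x.1 : ℤ) - x.2 = (n : ℤ)) =
        (range (L - n)).image (fun t => (t + n, t)) := by
      ext ⟨i, j⟩
      simp only [mem_filter, mem_product, mem_range, mem_image, Prod.mk.injEq]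
      constructor
      · rintro ⟨⟨h1, h2⟩, h3⟩
        exact ⟨j, by omega, by omega, rfl⟩
      · rintro ⟨t, h1, h2, h3⟩
        exact ⟨⟨by omega, by omega⟩, by omega⟩
    rw [h, card_image_of_injective _ (fun s t hst => (Prod.mk.injEq _ _ _ _ ▸ hst).2), card_range,
      Int.natAbs_natCast]
  · have h : (range L ×ˢ range L).filter (fun x => (x.1 : ℤ) - x.2 = -(n : ℤ)) =
        (range (L - n)).image (fun t => (t, t + n)) := by
      ext ⟨i, j⟩
      simp only [mem_filter, mem_product, mem_range, mem_image, Prod.mk.injEq]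
      constructor
      · rintro ⟨⟨h1, h2⟩, h3⟩
        exact ⟨i, by omega, rfl, by omega⟩
      · rintro ⟨t, h1, h2, h3⟩
        exact ⟨⟨by omega, by omega⟩, by omega⟩
    rw [h, card_image_of_injective _ (fun s t hst => (Prod.mk.injEq _ _ _ _ ▸ hst).1), card_range,
      Int.natAbs_neg, Int.natAbs_natCast]

theorem tri_eq (L : ℕ) (a : ℤ) : tri L a = ((L - a.natAbs : ℕ) : ℝ) / (L : ℝ) ^ 2 := by
  unfold tri
  split_ifs with h
  · have h1 : a.natAbs ≤ L := by
      rw [Int.abs_eq_natAbs] at h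
      omega
    rw [Nat.cast_sub h1]
    congr 2
    rw [← Int.cast_abs, Int.abs_eq_natAbs]
    simp
  · have h1 : L - a.natAbs = 0 := by
      rw [Int.abs_eq_natAbs] at h
      omega
    rw [h1, Nat.cast_zero, zero_div]

theorem main (L : ℕ) (G : ℤ → ℂ) : ∑ a ∈ Icc (-(L : ℤ)) L, (tri L a : ℂ) * G a =
    (1 / (L : ℂ) ^ 2) * ∑ i ∈ range L, ∑ j ∈ range L, G ((i : ℤ) - j) := by
  have h1 : ∑ i ∈ range L, ∑ j ∈ range L, G ((i : ℤ) - j) =
      ∑ a ∈ Icc (-(L : ℤ)) L, ((L - a.natAbs : ℕ) : ℂ) * G a := by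
    rw [← sum_product' (range L) (range L) (fun i j => G ((i : ℤ) - j))]
    rw [← sum_fiberwise_of_maps_to (s := range L ×ˢ range L) (t := Icc (-(L : ℤ)) L)
      (g := fun x => (x.1 : ℤ) - x.2)]
    · refine sum_congr rfl fun a _ => ?_
      rw [sum_congr rfl (g := fun _ => G a) (fun x hx => by rw [(mem_filter.1 hx).2]), sum_const,
        cnt, nsmul_eq_mul]
    · intro x hx
      rw [mem_product, mem_range, mem_range] at hx
      rw [mem_Icc]
      omega
  rw [h1, mul_sum]
  refine sum_congr rfl fun a _ => ?_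
  rw [tri_eq]
  push_cast
  ring

end Tri

theorem tri' : S_TRI := by
  intro L hL
  have hL0 : (0 : ℝ) < L := by exact_mod_cast hL
  refine ⟨Tri.main L, fun a => ⟨?_, ?_⟩, fun a ha => ?_, ?_⟩
  · rw [Tri.tri_eq]
    positivity
  · rw [Tri.tri_eq, div_le_div_iff₀ (by positivity) hL0]
    have h1 : ((L - a.natAbs : ℕ) : ℝ) ≤ L := by exact_mod_cast Nat.sub_le _ _
    nlinarith
  · unfold tri
    rw [if_neg (not_lt.2 ha)]
  · have h := Tri.main L (fun _ => 1)
    simp only [mul_one, sum_const, card_range, nsmul_eq_mul] at h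
    have hL1 : (L : ℂ) ≠ 0 := by exact_mod_cast hL0.ne'
    have h2 : (1 / (L : ℂ) ^ 2) * ((L : ℂ) * L) = 1 := by
      field_simp
    rw [h2] at h
    exact_mod_cast h

end Pool.Agent.H414.MX
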