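import Pool.Agent.H414.MX.Spec

/-!
Unfolding of the signed measures `kap`.
-/

set_option autoImplicit false

namespace Pool.Agent.H414.MX

open Finset

namespace Unf

theorem shift (L : ℕ) (t : ℤ) (B : Finset ℤ) (f G : ℤ → ℂ)
    (hB : ∀ a : ℤ, |a| ≤ (L : ℤ) → t + a ∈ B) (hf : ∀ a : ℤ, (L : ℤ) ≤ |a| → f a = 0) :
    ∑ b ∈ B, f (b - t) * G b = ∑ a ∈ Icc (-(L : ℤ)) L, f a * G (t + a) := by
  have h1 : ∑ a ∈ Icc (-(L : ℤ)) L, f a * G (t + a) =
      ∑ b ∈ (Icc (-(L : ℤ)) L).image (fun a => t + a), f (b - t) * G b := by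
    rw [Finset.sum_image (fun a _ b _ h => by simpa using h)]
    exact Finset.sum_congr rfl fun a _ => by rw [add_sub_cancel_left]
  rw [h1]
  symm
  apply Finset.sum_subset
  · intro b hb
    rw [Finset.mem_image] at hb
    obtain ⟨a, ha, rfl⟩ := hb
    rw [Finset.mem_Icc] at ha
    exact hB a (abs_le.mpr ha)
  · intro b _ hb
    have h2 : (L : ℤ) ≤ |b - t| := by
      by_contra hlt
      rw [not_le] at hlt
      apply hb
      rw [Finset.mem_image]
      exact ⟨b - t, by rw [Finset.mem_Icc]; exact abs_le.mp hlt.le, by ring⟩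
    rw [hf _ h2, zero_mul]

end Unf

theorem unf (hSIZ : S_SIZ) (hRAM : S_RAM) (_hKB : S_KB) : S_UNF := by
  obtain ⟨k₁, hk⟩ := hSIZ
  refine ⟨k₁, fun k hkk t ht G => ?_⟩
  obtain ⟨-, -, -, -, -, -, -, hT, hwin⟩ := hk k hkk
  have htb : t ∈ box (2 ^ k) := hT ht
  have e1 : ∀ b, (kap k t b : ℂ) * G b = (if b = t then G b else 0) - (K k (b - t) : ℂ) * G b := by
    intro b
    unfold kap
    by_cases h : b = t
    · rw [if_pos h, if_pos h]
      push_cast
      ring
    · rw [if_neg h, if_neg h]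
      push_cast
      ring
  rw [Finset.sum_congr rfl fun b _ => e1 b, Finset.sum_sub_distrib, Finset.sum_ite_eq', if_pos htb]
  congr 1
  have e2 : ∀ b, (K k (b - t) : ℂ) * G b =
      ∑ q ∈ Icc 1 (Qk k), ((ram q (b - t) : ℂ) * (tri (q * H k) (b - t) : ℂ)) * G b := by
    intro b
    unfold K
    push_cast
    rw [Finset.sum_mul]
  rw [Finset.sum_congr rfl fun b _ => e2 b, Finset.sum_comm]
  refine Finset.sum_congr rfl fun q hq => ?_
  rw [Finset.mem_Icc] at hq
  have hle : ((q * H k : ℕ) : ℤ) ≤ ((Qk k * H k : ℕ) : ℤ) := by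
    exact_mod_cast Nat.mul_le_mul_right (H k) hq.2
  have e3 := Unf.shift (q * H k) t (box (2 ^ k)) (fun a => (ram q a : ℂ) * (tri (q * H k) a : ℂ)) G
    (fun a ha => hwin t ht a (ha.trans hle)) (fun a ha => by
      have h1 : tri (q * H k) a = 0 := by
        unfold tri
        rw [if_neg (not_lt.mpr ha)]
      rw [h1, Complex.ofReal_zero, mul_zero])
  rw [e3]
  unfold win
  rw [Finset.sum_comm]
  refine Finset.sum_congr rfl fun a _ => ?_
  rw [(hRAM q a hq.1).1, Finset.sum_mul, Finset.sum_mul]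
  refine Finset.sum_congr rfl fun c _ => ?_
  rw [show (c : ℝ) * (a : ℝ) / (q : ℝ) = (c : ℝ) / q * a by ring]
  ring

end Pool.Agent.H414.MX
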