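import Pool.Agent.H414.MX.Spec

/-!
The uniform laws are reference laws.
-/

set_option autoImplicit false

namespace Pool.Agent.H414.MX

open Finset
open Pool.Agent.H414.LT (primesUpTo blk kk)

namespace Uni

theorem card_box (n : ℕ) : (box n).card = 2 * Nat.sqrt n + 1 := by
  unfold box
  rw [Int.card_Icc]
  omega

theorem box_mono {m n : ℕ} (h : m ≤ n) : box m ⊆ box n := by
  unfold box
  refine Icc_subset_Icc ?_ ?_
  · exact neg_le_neg (by exact_mod_cast Nat.sqrt_le_sqrt h)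
  · exact_mod_cast Nat.sqrt_le_sqrt h

theorem card_ge {p : ℕ} : √(p : ℝ) ≤ ((box (4 * p)).card : ℝ) := by
  rw [card_box]
  push_cast
  rw [Real.sqrt_le_left (by positivity)]
  have h1 : 4 * p < (Nat.sqrt (4 * p) + 1) * (Nat.sqrt (4 * p) + 1) := Nat.lt_succ_sqrt _
  have h2 : (4 : ℝ) * p < ((Nat.sqrt (4 * p) : ℝ) + 1) * ((Nat.sqrt (4 * p) : ℝ) + 1) := by
    exact_mod_cast h1
  have h3 : (0 : ℝ) ≤ (Nat.sqrt (4 * p) : ℝ) := Nat.cast_nonneg _
  have h4 : (0 : ℝ) ≤ (p : ℝ) := Nat.cast_nonneg _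
  nlinarith

theorem card_le {p : ℕ} (hp : 1 ≤ p) :
    ((box (4 * p)).card : ℝ) ≤ 5 * √(p : ℝ) := by
  rw [card_box]
  push_cast
  have h1 : Nat.sqrt (4 * p) * Nat.sqrt (4 * p) ≤ 4 * p := Nat.sqrt_le _
  have h2 : (Nat.sqrt (4 * p) : ℝ) * (Nat.sqrt (4 * p) : ℝ) ≤ 4 * p := by exact_mod_cast h1
  have h3 : (0 : ℝ) ≤ (Nat.sqrt (4 * p) : ℝ) := Nat.cast_nonneg _
  have h4 : (1 : ℝ) ≤ √(p : ℝ) := by
    rw [Real.one_le_sqrt]
    exact_mod_cast hp
  have h5 : √(p : ℝ) * √(p : ℝ) = p := Real.mul_self_sqrt (Nat.cast_nonneg p)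
  have h6 : (Nat.sqrt (4 * p) : ℝ) ≤ 2 * √(p : ℝ) := by
    refine abs_le_of_sq_le_sq' ?_ (by positivity) |>.2
    nlinarith
  linarith

end Uni

theorem uni : S_UNI := by
  have hcard : ∀ p : ℕ, (0 : ℝ) < ((box (4 * p)).card : ℝ) := by
    intro p
    rw [Uni.card_box]
    positivity
  refine ⟨?_, ?_, ?_, ?_⟩
  · intro p _ b
    split_ifs
    · exact div_nonneg zero_le_one (hcard p).le
    · exact le_rfl
  · intro p _
    rw [Finset.sum_congr rfl (fun b hb => if_pos hb), Finset.sum_const, nsmul_eq_mul,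
      mul_one_div, div_self (hcard p).ne']
  · refine ⟨1, fun p hp b => ?_⟩
    have hp1 : (1 : ℝ) ≤ p := by exact_mod_cast hp.one_le
    have hp0 : (0 : ℝ) < √(p : ℝ) := Real.sqrt_pos.2 (by linarith)
    split_ifs
    · exact one_div_le_one_div_of_le hp0 Uni.card_ge
    · positivity
  · intro ε hε
    refine ⟨1 / 5, by positivity, fun p hp b hb => ?_⟩
    have hp1 : (1 : ℝ) ≤ p := by exact_mod_cast hp.one_le
    have hp0 : (0 : ℝ) < p := by linarith
    have hs : (0 : ℝ) < √(p : ℝ) := Real.sqrt_pos.2 hp0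
    rw [if_pos (Uni.box_mono (by omega) hb)]
    calc 1 / 5 * (p : ℝ) ^ (-ε - 1 / 2) ≤ 1 / 5 * (p : ℝ) ^ (-(1 / 2) : ℝ) := by
          refine mul_le_mul_of_nonneg_left ?_ (by positivity)
          exact Real.rpow_le_rpow_of_exponent_le hp1 (by linarith)
      _ = 1 / (5 * √(p : ℝ)) := by
          rw [Real.rpow_neg hp0.le, ← Real.sqrt_eq_rpow]
          field_simp
      _ ≤ _ := one_div_le_one_div_of_le (hcard p) (Uni.card_le hp.one_le)

end Pool.Agent.H414.MX
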