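import Pool.Agent.H414.MX.Spec2

set_option autoImplicit false

namespace Pool.Agent.H414.MX

open Finset
open Pool.Agent.H414.LT (primesUpTo blk kk U)
open Pool.Agent.H414.DF (e2)

namespace Upp

open Pool.Agent.H414.LT.Upw (F)

theorem nt_lt {p : ℕ} (hp : p.Prime) {b : ℤ} (hb : b ∈ box (4 * p)) : |nt p b| < 2 := by
  have h1 : b ^ 2 ≤ 4 * (p : ℤ) := by
    unfold box at hb
    rw [mem_Icc] at hb
    have h2 : |b| ≤ (Nat.sqrt (4 * p) : ℤ) := abs_le.2 hb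
    have h3 : (Nat.sqrt (4 * p) : ℤ) * (Nat.sqrt (4 * p) : ℤ) ≤ ((4 * p : ℕ) : ℤ) := by
      exact_mod_cast Nat.sqrt_le (4 * p)
    have h4 : b ^ 2 = |b| * |b| := by rw [abs_mul_abs_self]; ring
    rw [h4]
    push_cast at h3
    exact le_trans (mul_le_mul h2 h2 (abs_nonneg _) (by positivity)) h3
  have h5 := Pool.Agent.H414.LT.not_sq hp h1
  have hp0 : (0 : ℝ) < p := by exact_mod_cast hp.pos
  have h6 : ((b : ℝ)) ^ 2 < 4 * p := by exact_mod_cast h5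
  unfold nt
  rw [abs_div, abs_of_nonneg (Real.sqrt_nonneg _), div_lt_iff₀ (Real.sqrt_pos.mpr hp0)]
  refine lt_of_pow_lt_pow_left₀ 2 (by positivity) ?_
  rw [sq_abs, mul_pow, Real.sq_sqrt hp0.le]
  linarith

/-- the discrepancy -/
noncomputable def D (μ : ℕ → ℤ → ℝ) (a : ℕ → ℤ) (x n : ℕ) : ℝ :=
  ∑ p ∈ primesUpTo x, (U n (nt p (a p)) - ∑ b ∈ box (4 * p), μ p b * U n (nt p b))

theorem D_bound {μ : ℕ → ℤ → ℝ} {a : ℕ → ℤ} (h : HasBound μ (fun _ _ => 1) a) {ε : ℝ}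
    (hε : 0 < ε) : ∃ C : ℝ, 0 ≤ C ∧ ∀ n x : ℕ,
      |D μ a x n| ≤ C * ((n : ℝ) + 1) ^ (1 + ε) * ((x : ℝ) + 1) ^ (1 / 2 + ε) := by
  obtain ⟨C0, hC0⟩ := h 0 ε hε
  refine ⟨max C0 0, le_max_right _ _, fun n x => ?_⟩
  have h1 := hC0 n 1 (fun _ => 1) x
  have h2 : l2 (fun _ : ZMod 1 × ZMod 1 => (1 : ℂ)) = 1 := by
    unfold l2
    simp
  have h3 : ∑ p ∈ primesUpTo x, (1 : ℂ) * ((U n (nt p (a p)) : ℂ) * 1 -
      ∑ b ∈ box (4 * p), (μ p b : ℂ) * ((U n (nt p b) : ℂ) * 1)) = ((D μ a x n : ℝ) : ℂ) := by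
    unfold D
    push_cast
    simp only [one_mul, mul_one]
  rw [h3, Complex.norm_real, Real.norm_eq_abs, h2] at h1
  refine le_trans h1 ?_
  have h4 : C0 * ((n : ℝ) + 1) ^ (1 + ε) * ((1 : ℕ) : ℝ) * 1 * ((x : ℝ) + 1) ^ (1 / 2 + ε) =
      C0 * (((n : ℝ) + 1) ^ (1 + ε) * ((x : ℝ) + 1) ^ (1 / 2 + ε)) := by
    push_cast
    ring
  rw [h4, mul_assoc]
  exact mul_le_mul_of_nonneg_right (le_max_left _ _) (by positivity)

theorem F_disc {μ : ℕ → ℤ → ℝ} {a : ℕ → ℤ}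
    (hsum : ∀ p : ℕ, p.Prime → ∑ b ∈ box (4 * p), μ p b = 1) (x N : ℕ) :
    ∑ p ∈ primesUpTo x, (F N (nt p (a p)) - ∑ b ∈ box (4 * p), μ p b * F N (nt p b)) =
      ∑ m ∈ range N, ((N : ℝ) - (m + 1)) * ((-1) ^ (m + 1) *
        (D μ a x (2 * m + 2) - D μ a x (2 * m))) := by
  have h1 : ∀ p ∈ primesUpTo x,
      F N (nt p (a p)) - ∑ b ∈ box (4 * p), μ p b * F N (nt p b) =
        ∑ m ∈ range N, ((N : ℝ) - (m + 1)) * ((-1) ^ (m + 1) *
          ((U (2 * m + 2) (nt p (a p)) - ∑ b ∈ box (4 * p), μ p b * U (2 * m + 2) (nt p b)) -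
            (U (2 * m) (nt p (a p)) - ∑ b ∈ box (4 * p), μ p b * U (2 * m) (nt p b)))) := by
    intro p hp
    have hp' := (Finset.mem_filter.mp hp).2
    have h2 : ∑ b ∈ box (4 * p), μ p b * F N (nt p b) =
        N + ∑ m ∈ range N, ((N : ℝ) - (m + 1)) * ((-1) ^ (m + 1) *
          ((∑ b ∈ box (4 * p), μ p b * U (2 * m + 2) (nt p b)) -
            ∑ b ∈ box (4 * p), μ p b * U (2 * m) (nt p b))) := by
      unfold F
      simp only [mul_add, Finset.sum_add_distrib]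
      rw [← Finset.sum_mul, hsum p hp', one_mul]
      congr 1
      simp only [Finset.mul_sum]
      rw [Finset.sum_comm]
      refine Finset.sum_congr rfl fun m _ => ?_
      rw [← Finset.sum_sub_distrib, Finset.mul_sum, Finset.mul_sum]
      refine Finset.sum_congr rfl fun b _ => ?_
      ring
    rw [h2]
    unfold F
    rw [add_sub_add_left_eq_sub, ← Finset.sum_sub_distrib]
    refine Finset.sum_congr rfl fun m _ => ?_
    ring
  rw [Finset.sum_congr rfl h1, Finset.sum_comm]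
  refine Finset.sum_congr rfl fun m _ => ?_
  unfold D
  rw [← Finset.mul_sum, ← Finset.mul_sum, Finset.sum_sub_distrib]

theorem F_disc_le {μ : ℕ → ℤ → ℝ} {a : ℕ → ℤ}
    (hsum : ∀ p : ℕ, p.Prime → ∑ b ∈ box (4 * p), μ p b = 1) (x N : ℕ) {B : ℝ} (hB0 : 0 ≤ B)
    (hB : ∀ n, n ≤ 2 * N → |D μ a x n| ≤ B) :
    ∑ p ∈ primesUpTo x, (F N (nt p (a p)) - ∑ b ∈ box (4 * p), μ p b * F N (nt p b)) ≤
      2 * N ^ 2 * B := by
  rw [F_disc hsum]
  have hN0 : (0 : ℝ) ≤ N := Nat.cast_nonneg N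
  have h3 : ∀ m ∈ range N, ((N : ℝ) - (m + 1)) * ((-1) ^ (m + 1) *
        (D μ a x (2 * m + 2) - D μ a x (2 * m))) ≤ N * (2 * B) := by
    intro m hm
    have hm' := Finset.mem_range.mp hm
    have hmN : (m : ℝ) + 1 ≤ N := by exact_mod_cast hm'
    have hm0 : (0 : ℝ) ≤ m := Nat.cast_nonneg m
    have e1 := hB (2 * m + 2) (by omega)
    have e2 := hB (2 * m) (by omega)
    have e3 : |(-1 : ℝ) ^ (m + 1) * (D μ a x (2 * m + 2) - D μ a x (2 * m))| ≤ 2 * B := by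
      rw [abs_mul, abs_pow, abs_neg, abs_one, one_pow, one_mul]
      refine le_trans (abs_sub _ _) ?_
      linarith
    have e4 : 0 ≤ (N : ℝ) - (m + 1) := by linarith
    have e5 : (N : ℝ) - (m + 1) ≤ N := by linarith
    calc _ ≤ ((N : ℝ) - (m + 1)) * |(-1 : ℝ) ^ (m + 1) *
          (D μ a x (2 * m + 2) - D μ a x (2 * m))| := mul_le_mul_of_nonneg_left (le_abs_self _) e4
      _ ≤ _ := mul_le_mul e5 e3 (abs_nonneg _) hN0
  refine le_trans (Finset.sum_le_sum h3) ?_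
  rw [Finset.sum_const, Finset.card_range, nsmul_eq_mul]
  refine le_of_eq ?_
  ring

theorem sum_inv_sqrt (x : ℕ) : ∑ p ∈ primesUpTo x, 1 / √(p : ℝ) ≤ 2 * √(x : ℝ) := by
  have h1 : ∀ x : ℕ, ∑ n ∈ range x, 1 / √((n : ℝ) + 1) ≤ 2 * √(x : ℝ) := by
    intro x
    induction x with
    | zero => simp
    | succ x ih =>
      rw [Finset.sum_range_succ]
      have h2 : 1 / √((x : ℝ) + 1) ≤ 2 * (√((x : ℝ) + 1) - √(x : ℝ)) := by
        have a0 : 0 < √((x : ℝ) + 1) := Real.sqrt_pos.2 (by positivity)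
        rw [div_le_iff₀ a0]
        have a1 := Real.sq_sqrt (show 0 ≤ (x : ℝ) + 1 by positivity)
        have a2 := Real.sq_sqrt (show 0 ≤ (x : ℝ) by positivity)
        nlinarith [sq_nonneg (√((x : ℝ) + 1) - √(x : ℝ))]
      push_cast
      linarith
  have h2 : ∑ p ∈ primesUpTo x, 1 / √(p : ℝ) ≤ ∑ n ∈ range (x + 1), 1 / √(n : ℝ) := by
    unfold primesUpTo
    refine Finset.sum_le_sum_of_subset_of_nonneg (Finset.filter_subset _ _) fun n _ _ => ?_
    positivity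
  refine le_trans h2 ?_
  rw [Finset.sum_range_succ']
  have h3 : (1 : ℝ) / √(((0 : ℕ) : ℝ)) = 0 := by simp
  rw [h3, add_zero]
  push_cast
  exact h1 x

/-- the sum of the means of the kernel -/
theorem means {μ : ℕ → ℤ → ℝ} (hUS : Pool.Agent.H414.LT.S_US) {K CF : ℝ} (hK0 : 0 ≤ K)
    (hK : ∀ p : ℕ, p.Prime → ∀ b, μ p b ≤ K / √(p : ℝ)) (hCF0 : 0 ≤ CF)
    (hCF : ∀ (N p : ℕ), 1 ≤ N → p.Prime → ∑ b ∈ box (4 * p), F N (nt p b) ≤
      CF * ((N : ℝ) ^ 2 + N * √(p : ℝ) * (1 + Real.log p)))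
    (x N : ℕ) (hN : 1 ≤ N) {L : ℝ} (hL : ∀ p ∈ primesUpTo x, 1 + Real.log p ≤ L) (hL0 : 0 ≤ L) :
    ∑ p ∈ primesUpTo x, ∑ b ∈ box (4 * p), μ p b * F N (nt p b) ≤
      K * CF * ((N : ℝ) ^ 2 * (2 * √(x : ℝ)) + N * L * (x + 1)) := by
  have h1 : ∀ p ∈ primesUpTo x, ∑ b ∈ box (4 * p), μ p b * F N (nt p b) ≤
      K * CF * ((N : ℝ) ^ 2 * (1 / √(p : ℝ)) + N * L) := by
    intro p hp
    have hp' := (Finset.mem_filter.mp hp).2
    have hp0 : (0 : ℝ) < p := by exact_mod_cast hp'.pos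
    have hs : 0 < √(p : ℝ) := Real.sqrt_pos.2 hp0
    calc ∑ b ∈ box (4 * p), μ p b * F N (nt p b)
        ≤ ∑ b ∈ box (4 * p), K / √(p : ℝ) * F N (nt p b) :=
          Finset.sum_le_sum fun b hb => mul_le_mul_of_nonneg_right (hK p hp' b)
            (Pool.Agent.H414.LT.Upw.F_nonneg hUS N (nt_lt hp' hb))
      _ = K / √(p : ℝ) * ∑ b ∈ box (4 * p), F N (nt p b) := by rw [Finset.mul_sum]
      _ ≤ K / √(p : ℝ) * (CF * ((N : ℝ) ^ 2 + N * √(p : ℝ) * (1 + Real.log p))) :=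
          mul_le_mul_of_nonneg_left (hCF N p hN hp') (by positivity)
      _ = K * CF * ((N : ℝ) ^ 2 * (1 / √(p : ℝ)) + N * (1 + Real.log p)) := by
          field_simp
      _ ≤ K * CF * ((N : ℝ) ^ 2 * (1 / √(p : ℝ)) + N * L) := by
          refine mul_le_mul_of_nonneg_left ?_ (by positivity)
          have := mul_le_mul_of_nonneg_left (hL p hp) (Nat.cast_nonneg N : (0 : ℝ) ≤ N)
          linarith
  refine le_trans (Finset.sum_le_sum h1) ?_
  rw [← Finset.mul_sum, Finset.sum_add_distrib, ← Finset.mul_sum, Finset.sum_const, nsmul_eq_mul]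
  refine mul_le_mul_of_nonneg_left ?_ (by positivity)
  have h2 := mul_le_mul_of_nonneg_left (sum_inv_sqrt x) (by positivity : (0 : ℝ) ≤ (N : ℝ) ^ 2)
  have h3 := mul_le_mul_of_nonneg_right (Pool.Agent.H414.LT.Upw.card_primesUpTo x)
    (by positivity : (0 : ℝ) ≤ (N : ℝ) * L)
  linarith

/-- the counting inequality -/
theorem count {μ : ℕ → ℤ → ℝ} (hUS : Pool.Agent.H414.LT.S_US)
    (hsum : ∀ p : ℕ, p.Prime → ∑ b ∈ box (4 * p), μ p b = 1) {a : ℕ → ℤ} (ha : IsSystem a)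
    (N x : ℕ) {B M : ℝ} (T : Finset ℕ) (hT : T ⊆ primesUpTo x)
    (hTt : ∀ p ∈ T, 2 * N * |nt p (a p)| ≤ 1) (hB0 : 0 ≤ B)
    (hB : ∀ n, n ≤ 2 * N → |D μ a x n| ≤ B)
    (hM : ∑ p ∈ primesUpTo x, ∑ b ∈ box (4 * p), μ p b * F N (nt p b) ≤ M) :
    (N : ℝ) ^ 2 / 4 * T.card ≤ 2 * N ^ 2 * B + M := by
  have h1 : (N : ℝ) ^ 2 / 4 * T.card ≤ ∑ p ∈ primesUpTo x, F N (nt p (a p)) := by
    calc (N : ℝ) ^ 2 / 4 * T.card = ∑ _p ∈ T, (N : ℝ) ^ 2 / 4 := by
          rw [Finset.sum_const, nsmul_eq_mul]; ring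
      _ ≤ ∑ p ∈ T, F N (nt p (a p)) := Finset.sum_le_sum fun p hp =>
          Pool.Agent.H414.LT.Upw.F_lower hUS N
            (nt_lt (Finset.mem_filter.mp (hT hp)).2 (ha p (Finset.mem_filter.mp (hT hp)).2))
            (hTt p hp)
      _ ≤ _ := Finset.sum_le_sum_of_subset_of_nonneg hT fun p hp _ =>
          Pool.Agent.H414.LT.Upw.F_nonneg hUS N
            (nt_lt (Finset.mem_filter.mp hp).2 (ha p (Finset.mem_filter.mp hp).2))
  have h2 := F_disc_le (a := a) hsum x N hB0 hB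
  rw [Finset.sum_sub_distrib] at h2
  linarith

end Upp

open Upp

theorem upp (hUS : Pool.Agent.H414.LT.S_US) (hFEJ : S_FEJ) : S_UPP := by
  intro μ hμ a ha hbd ε hε
  obtain ⟨CF, hCF0, hCF⟩ := hFEJ
  obtain ⟨K', hK'⟩ := hμ.upper
  obtain ⟨K, hKdef⟩ : ∃ K, K = max K' 0 := ⟨_, rfl⟩
  have hK0 : 0 ≤ K := by rw [hKdef]; exact le_max_right _ _
  have hK : ∀ p : ℕ, p.Prime → ∀ b, μ p b ≤ K / √(p : ℝ) := by
    intro p hp b
    refine le_trans (hK' p hp b) ?_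
    rw [hKdef]
    exact div_le_div_of_nonneg_right (le_max_left _ _) (Real.sqrt_nonneg _)
  obtain ⟨ε', hε'⟩ : ∃ ε' : ℝ, ε' = 4 * ε / 5 := ⟨_, rfl⟩
  have hε'0 : 0 < ε' := by rw [hε']; positivity
  obtain ⟨C1, hC10, hC1⟩ := D_bound hbd hε'0
  obtain ⟨C2, hC2⟩ : ∃ C2 : ℝ, C2 = C1 * 2 ^ (1 + ε') * 3 ^ (1 / 2 + ε') := ⟨_, rfl⟩
  have hC20 : 0 ≤ C2 := by rw [hC2]; positivity
  obtain ⟨C3, hC3⟩ : ∃ C3 : ℝ, C3 = 1 / (ε * Real.log 2) + 2 := ⟨_, rfl⟩
  have hlog2 : 0 < Real.log 2 := Real.log_pos (by norm_num)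
  have hC30 : 0 ≤ C3 := by rw [hC3]; positivity
  refine ⟨16 + 8 * C2 + K * CF * (16 + 48 * C3), fun k => ?_⟩
  obtain ⟨h, hh⟩ : ∃ h : ℝ, h = (2 : ℝ) ^ ((k : ℝ) / 4) := ⟨_, rfl⟩
  have hh0 : 0 < h := by rw [hh]; positivity
  have hh1 : 1 ≤ h := by rw [hh]; exact Real.one_le_rpow (by norm_num) (by positivity)
  have hh4 : h ^ 4 = (2 : ℝ) ^ k := by
    rw [hh, ← Real.rpow_natCast, ← Real.rpow_mul (by norm_num : (0 : ℝ) ≤ 2), ← Real.rpow_natCast]
    congr 1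
    push_cast
    ring
  have he1 : e2 ((k : ℝ) / 4) = h := by rw [hh]; rfl
  obtain ⟨R, hR⟩ : ∃ R : ℝ, R = h ^ (3 + 4 * ε) := ⟨_, rfl⟩
  have he2 : e2 ((k : ℝ) * (3 / 4 + ε)) = R := by
    rw [hR, hh, ← Real.rpow_mul (by norm_num : (0 : ℝ) ≤ 2)]
    show (2 : ℝ) ^ _ = _
    congr 1
    ring
  have hR1 : 1 ≤ R := by rw [hR]; exact Real.one_le_rpow hh1 (by linarith)
  rw [he1, he2]
  obtain ⟨T, hT⟩ : ∃ T : Finset ℕ, T = (blk k).filter fun p => |(a p : ℝ)| ≤ h := ⟨_, rfl⟩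
  rw [← hT]
  have hTblk : ∀ p ∈ T, 2 ^ k < p ∧ p ≤ 2 ^ (k + 1) ∧ p.Prime ∧ |(a p : ℝ)| ≤ h := by
    intro p hp
    rw [hT] at hp
    have h1 := Finset.mem_filter.mp hp
    have h2 := Finset.mem_filter.mp h1.1
    have h3 := Finset.mem_Ioc.mp h2.1
    exact ⟨h3.1, h3.2, h2.2, h1.2⟩
  have hcardT : (T.card : ℝ) ≤ h ^ 4 := by
    have h1 : T.card ≤ 2 ^ k := by
      calc T.card ≤ (blk k).card := by rw [hT]; exact Finset.card_filter_le _ _
        _ ≤ (Ioc (2 ^ k) (2 ^ (k + 1))).card := Finset.card_filter_le _ _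
        _ = 2 ^ (k + 1) - 2 ^ k := Nat.card_Ioc _ _
        _ = 2 ^ k := by rw [pow_succ]; omega
    rw [hh4]
    exact_mod_cast h1
  have hKC : 0 ≤ K * CF := mul_nonneg hK0 hCF0
  by_cases hy : h / 2 < 1
  · -- trivial bound
    have h1 : h < 2 := by linarith
    have h2 : (T.card : ℝ) ≤ 16 := by
      refine le_trans hcardT ?_
      calc h ^ 4 ≤ 2 ^ 4 := pow_le_pow_left₀ hh0.le h1.le 4
        _ = 16 := by norm_num
    have h3 : (16 : ℝ) ≤ 16 + 8 * C2 + K * CF * (16 + 48 * C3) := by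
      have : 0 ≤ K * CF * (16 + 48 * C3) := mul_nonneg hKC (by linarith)
      linarith
    calc (T.card : ℝ) ≤ (16 + 8 * C2 + K * CF * (16 + 48 * C3)) * 1 := by linarith
      _ ≤ _ := mul_le_mul_of_nonneg_left hR1 (by linarith)
  · have hy' : 1 ≤ h / 2 := not_lt.mp hy
    obtain ⟨N, hN⟩ : ∃ N : ℕ, N = ⌊h / 2⌋₊ := ⟨_, rfl⟩
    have hN1 : 1 ≤ N := by rw [hN]; exact Nat.one_le_floor_iff _ |>.mpr hy'
    have hN1R : (1 : ℝ) ≤ N := by exact_mod_cast hN1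
    have hNy : (N : ℝ) ≤ h / 2 := by rw [hN]; exact Nat.floor_le (by positivity)
    have hyN : h / 2 < N + 1 := by rw [hN]; exact Nat.lt_floor_add_one _
    have hNlow : h / 4 ≤ N := by linarith
    have hN0 : (0 : ℝ) < N := by linarith
    obtain ⟨x, hx⟩ : ∃ x : ℕ, x = 2 ^ (k + 1) := ⟨_, rfl⟩
    have hxR' : (x : ℝ) = 2 * h ^ 4 := by
      rw [hh4, hx]
      push_cast
      ring
    have hh41 : 1 ≤ h ^ 4 := one_le_pow₀ hh1
    have hxR : (x : ℝ) + 1 ≤ 3 * h ^ 4 := by linarith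
    have hTsub : T ⊆ primesUpTo x := by
      intro p hp
      obtain ⟨h1, h2, h3, _⟩ := hTblk p hp
      exact Finset.mem_filter.mpr ⟨Finset.mem_range.mpr (by rw [hx]; omega), h3⟩
    have hTt : ∀ p ∈ T, 2 * N * |nt p (a p)| ≤ 1 := by
      intro p hp
      obtain ⟨h1, h2, h3, h4⟩ := hTblk p hp
      have h5 : h ^ 2 ≤ √(p : ℝ) := by
        refine Real.le_sqrt_of_sq_le ?_
        rw [← pow_mul]
        rw [hh4]
        exact_mod_cast h1.le
      have h6 : |nt p (a p)| ≤ h / h ^ 2 := by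
        unfold nt
        rw [abs_div, abs_of_nonneg (Real.sqrt_nonneg _)]
        exact div_le_div₀ hh0.le h4 (by positivity) h5
      have h7 : 2 * N * |nt p (a p)| ≤ 2 * (h / 2) * (h / h ^ 2) :=
        mul_le_mul (by linarith) h6 (abs_nonneg _) (by positivity)
      have h8 : 2 * (h / 2) * (h / h ^ 2) = 1 := by field_simp
      linarith
    obtain ⟨B, hB⟩ : ∃ B : ℝ,
      B = C1 * (2 * (N : ℝ) + 1) ^ (1 + ε') * ((x : ℝ) + 1) ^ (1 / 2 + ε') := ⟨_, rfl⟩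
    have hB0 : 0 ≤ B := by rw [hB]; positivity
    have hBb : ∀ n, n ≤ 2 * N → |D μ a x n| ≤ B := by
      intro n hnN
      refine le_trans (hC1 n x) ?_
      have h1 : (n : ℝ) + 1 ≤ 2 * N + 1 := by
        have : (n : ℝ) ≤ 2 * N := by exact_mod_cast hnN
        linarith
      have h2 : ((n : ℝ) + 1) ^ (1 + ε') ≤ (2 * (N : ℝ) + 1) ^ (1 + ε') :=
        Real.rpow_le_rpow (by positivity) h1 (by linarith)
      rw [hB]
      refine mul_le_mul_of_nonneg_right ?_ (by positivity)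
      exact mul_le_mul_of_nonneg_left h2 hC10
    have hL : ∀ p ∈ primesUpTo x, 1 + Real.log p ≤ (k : ℝ) + 2 := by
      intro p hp
      have hp1 := Finset.mem_filter.mp hp
      have hpx : p ≤ x := by
        have := Finset.mem_range.mp hp1.1
        omega
      have h1 : Real.log p ≤ Real.log x :=
        Real.log_le_log (by exact_mod_cast hp1.2.pos) (by exact_mod_cast hpx)
      have h2 : Real.log x = (k + 1) * Real.log 2 := by
        rw [hx]
        push_cast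
        rw [Real.log_pow]
        push_cast
        ring
      have h3 : Real.log 2 ≤ 1 := by
        have := Real.log_two_lt_d9
        linarith
      have h4 : ((k : ℝ) + 1) * Real.log 2 ≤ (k + 1) * 1 :=
        mul_le_mul_of_nonneg_left h3 (by positivity)
      linarith
    have hM := means hUS hK0 hK hCF0 hCF x N hN1 hL (by positivity)
    have hcount := count hUS hμ.sum ha N x T hTsub hTt hB0 hBb hM
    -- solve for the cardinality
    have hsolve : (T.card : ℝ) ≤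
        8 * B + K * CF * (8 * √(x : ℝ) + 4 * ((k : ℝ) + 2) * (x + 1) / N) := by
      have h1 : (N : ℝ) ^ 2 / 4 * T.card ≤ (N : ℝ) ^ 2 / 4 *
          (8 * B + K * CF * (8 * √(x : ℝ) + 4 * ((k : ℝ) + 2) * (x + 1) / N)) := by
        refine le_trans hcount (le_of_eq ?_)
        field_simp
        ring
      exact le_of_mul_le_mul_left h1 (by positivity)
    have hsx : √(x : ℝ) ≤ 2 * h ^ 2 := by
      refine Real.sqrt_le_iff.2 ⟨by positivity, ?_⟩
      rw [hxR']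
      nlinarith
    have hh2R : h ^ 2 ≤ R := by
      rw [hR, ← Real.rpow_natCast h 2]
      exact Real.rpow_le_rpow_of_exponent_le hh1 (by push_cast; linarith)
    have hkR : ((k : ℝ) + 2) * h ^ 3 ≤ C3 * R := by
      have h1 : h ^ (4 * ε) = Real.exp (k * ε * Real.log 2) := by
        rw [hh, ← Real.rpow_mul (by norm_num : (0 : ℝ) ≤ 2),
          Real.rpow_def_of_pos (by norm_num : (0 : ℝ) < 2)]
        congr 1
        ring
      have h2 := Real.add_one_le_exp ((k : ℝ) * ε * Real.log 2)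
      rw [← h1] at h2
      have h3 : (k : ℝ) ≤ 1 / (ε * Real.log 2) * h ^ (4 * ε) := by
        rw [one_div, ← div_eq_inv_mul, le_div_iff₀ (by positivity)]
        linarith
      have h4 : (1 : ℝ) ≤ h ^ (4 * ε) := Real.one_le_rpow hh1 (by positivity)
      have h5 : (k : ℝ) + 2 ≤ C3 * h ^ (4 * ε) := by
        rw [hC3, add_mul]
        linarith
      have h6 : R = h ^ 3 * h ^ (4 * ε) := by
        rw [hR, Real.rpow_add hh0, ← Real.rpow_natCast h 3]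
        push_cast
        rfl
      calc ((k : ℝ) + 2) * h ^ 3 ≤ (C3 * h ^ (4 * ε)) * h ^ 3 :=
            mul_le_mul_of_nonneg_right h5 (by positivity)
        _ = C3 * R := by rw [h6]; ring
    have hfirst : 4 * ((k : ℝ) + 2) * (x + 1) / N ≤ 48 * (C3 * R) := by
      rw [div_le_iff₀ hN0]
      calc 4 * ((k : ℝ) + 2) * (x + 1) ≤ 4 * ((k : ℝ) + 2) * (3 * h ^ 4) :=
            mul_le_mul_of_nonneg_left hxR (by positivity)
        _ = 48 * (((k : ℝ) + 2) * h ^ 3) * (h / 4) := by ring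
        _ ≤ 48 * (C3 * R) * N :=
            mul_le_mul (by linarith) hNlow (by positivity) (by positivity)
    have hsecond : B ≤ C2 * R := by
      have h1 : 2 * (N : ℝ) + 1 ≤ 2 * h := by linarith
      have h4 : (2 * (N : ℝ) + 1) ^ (1 + ε') ≤ 2 ^ (1 + ε') * h ^ (1 + ε') := by
        rw [← Real.mul_rpow (by norm_num) hh0.le]
        exact Real.rpow_le_rpow (by positivity) h1 (by positivity)
      have h5 : ((x : ℝ) + 1) ^ (1 / 2 + ε') ≤ 3 ^ (1 / 2 + ε') * h ^ (2 + 4 * ε') := by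
        calc ((x : ℝ) + 1) ^ (1 / 2 + ε') ≤ (3 * h ^ 4) ^ (1 / 2 + ε') :=
              Real.rpow_le_rpow (by positivity) hxR (by positivity)
          _ = 3 ^ (1 / 2 + ε') * (h ^ 4) ^ (1 / 2 + ε') :=
              Real.mul_rpow (by norm_num) (by positivity)
          _ = 3 ^ (1 / 2 + ε') * h ^ (2 + 4 * ε') := by
              rw [← Real.rpow_natCast h 4, ← Real.rpow_mul hh0.le]
              congr 2
              push_cast
              ring
      have h6 : h ^ (1 + ε') * h ^ (2 + 4 * ε') = R := by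
        rw [hR, ← Real.rpow_add hh0]
        congr 1
        rw [hε']
        ring
      calc B = C1 * ((2 * (N : ℝ) + 1) ^ (1 + ε') * ((x : ℝ) + 1) ^ (1 / 2 + ε')) := by
            rw [hB]; ring
        _ ≤ C1 * ((2 ^ (1 + ε') * h ^ (1 + ε')) * (3 ^ (1 / 2 + ε') * h ^ (2 + 4 * ε'))) :=
            mul_le_mul_of_nonneg_left (mul_le_mul h4 h5 (by positivity) (by positivity)) hC10
        _ = C2 * (h ^ (1 + ε') * h ^ (2 + 4 * ε')) := by rw [hC2]; ring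
        _ = _ := by rw [h6]
    have hR0 : 0 ≤ R := by linarith
    have hlast : K * CF * (8 * √(x : ℝ) + 4 * ((k : ℝ) + 2) * (x + 1) / N) ≤
        K * CF * (16 * R + 48 * (C3 * R)) := by
      refine mul_le_mul_of_nonneg_left ?_ hKC
      linarith
    calc (T.card : ℝ) ≤ 8 * (C2 * R) + K * CF * (16 * R + 48 * (C3 * R)) := by linarith
      _ ≤ 16 * R + (8 * (C2 * R) + K * CF * (16 * R + 48 * (C3 * R))) := by linarith
      _ = _ := by ring

end Pool.Agent.H414.MX
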