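import Pool.Agent.H414.MX.Spec

/-!
The weights `w n = 1 / ((n + 1)^2 (1 + log (n + 1))^2)` (`S_WT`).
-/

set_option autoImplicit false

namespace Pool.Agent.H414.MX

open Finset

namespace Wt

/-- `1 + log (n + 1)` -/
noncomputable def lg (n : ℕ) : ℝ := 1 + Real.log ((n : ℝ) + 1)

theorem one_le_lg (n : ℕ) : 1 ≤ lg n := by
  unfold lg
  have h : (1 : ℝ) ≤ (n : ℝ) + 1 := by
    have := Nat.cast_nonneg (α := ℝ) n
    linarith
  have := Real.log_nonneg h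
  linarith

theorem lg_pos (n : ℕ) : 0 < lg n := lt_of_lt_of_le one_pos (one_le_lg n)

/-- telescoping -/
theorem tele (n : ℕ) : 1 / (((n : ℝ) + 2) * lg (n + 1) ^ 2) ≤ 1 / lg n - 1 / lg (n + 1) := by
  have hn : (0 : ℝ) ≤ n := Nat.cast_nonneg n
  have h1 : (1 : ℝ) / ((n : ℝ) + 2) ≤ lg (n + 1) - lg n := by
    unfold lg
    have h2 : Real.log (((n : ℝ) + 2) / ((n : ℝ) + 1)) =
        Real.log ((n : ℝ) + 2) - Real.log ((n : ℝ) + 1) :=
      Real.log_div (by positivity) (by positivity)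
    have h3 := Real.one_sub_inv_le_log_of_pos
      (show (0 : ℝ) < ((n : ℝ) + 2) / ((n : ℝ) + 1) by positivity)
    have h4 : 1 - (((n : ℝ) + 2) / ((n : ℝ) + 1))⁻¹ = 1 / ((n : ℝ) + 2) := by
      field_simp
      ring
    have h5 : (((n + 1 : ℕ) : ℝ) + 1) = (n : ℝ) + 2 := by
      push_cast
      ring
    rw [h5]
    rw [h4, h2] at h3
    linarith
  have ha := lg_pos n
  have hb := lg_pos (n + 1)
  have hab : lg n ≤ lg (n + 1) := by
    have : (0 : ℝ) ≤ 1 / ((n : ℝ) + 2) := by positivity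
    linarith
  have h6 : 1 / lg n - 1 / lg (n + 1) = (lg (n + 1) - lg n) / (lg n * lg (n + 1)) := by
    field_simp
  have h7 : 1 / (((n : ℝ) + 2) * lg (n + 1) ^ 2) = (1 / ((n : ℝ) + 2)) / (lg (n + 1) * lg (n + 1)) := by
    field_simp
  rw [h6, h7]
  exact div_le_div₀ (by
      have : (0 : ℝ) ≤ 1 / ((n : ℝ) + 2) := by positivity
      linarith) h1 (mul_pos ha hb) (mul_le_mul_of_nonneg_right hab hb.le)

theorem partial_sum (n : ℕ) :
    ∑ i ∈ range (n + 1), 1 / (((i : ℝ) + 1) * lg i ^ 2) ≤ 2 - 1 / lg n := by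
  induction n with
  | zero =>
    rw [Finset.sum_range_one]
    have h : lg 0 = 1 := by
      unfold lg
      norm_num
    rw [h]
    norm_num
  | succ n ih =>
    rw [Finset.sum_range_succ]
    have h := tele n
    have h1 : (((n + 1 : ℕ) : ℝ) + 1) = (n : ℝ) + 2 := by
      push_cast
      ring
    rw [h1]
    linarith

theorem summ : Summable fun n : ℕ => 1 / (((n : ℝ) + 1) * lg n ^ 2) := by
  refine summable_of_sum_range_le (c := 2) (fun n => by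
    have := lg_pos n
    positivity) ?_
  intro n
  rcases n with _ | n
  · simp
  · refine (partial_sum n).trans ?_
    have : 0 < 1 / lg n := one_div_pos.mpr (lg_pos n)
    linarith

theorem lg_le (n : ℕ) {ε : ℝ} (hε : 0 < ε) :
    lg n ^ 2 ≤ (1 + 2 / ε) ^ 2 * ((n : ℝ) + 1) ^ ε := by
  have hn : (0 : ℝ) ≤ n := Nat.cast_nonneg n
  have hy : (1 : ℝ) ≤ (n : ℝ) + 1 := by linarith
  have h1 : Real.log ((n : ℝ) + 1) ≤ ((n : ℝ) + 1) ^ (ε / 2) / (ε / 2) :=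
    Real.log_le_rpow_div (by linarith) (by linarith)
  have h2 : (1 : ℝ) ≤ ((n : ℝ) + 1) ^ (ε / 2) := Real.one_le_rpow hy (by linarith)
  have h3 : lg n ≤ (1 + 2 / ε) * ((n : ℝ) + 1) ^ (ε / 2) := by
    unfold lg
    have h4 : ((n : ℝ) + 1) ^ (ε / 2) / (ε / 2) = 2 / ε * ((n : ℝ) + 1) ^ (ε / 2) := by
      field_simp
    rw [h4] at h1
    linarith
  have h5 : (((n : ℝ) + 1) ^ (ε / 2)) ^ 2 = ((n : ℝ) + 1) ^ ε := by
    rw [← Real.rpow_natCast, ← Real.rpow_mul (by linarith)]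
    congr 1
    push_cast
    ring
  calc lg n ^ 2 ≤ ((1 + 2 / ε) * ((n : ℝ) + 1) ^ (ε / 2)) ^ 2 :=
        pow_le_pow_left₀ (lg_pos n).le h3 2
    _ = (1 + 2 / ε) ^ 2 * ((n : ℝ) + 1) ^ ε := by rw [mul_pow, h5]

end Wt

/-- WEIGHTS. -/
theorem wt : S_WT := by
  refine ⟨fun n => 1 / (((n : ℝ) + 1) ^ 2 * Wt.lg n ^ 2), ?_, ?_, ?_⟩
  · intro n
    have := Wt.lg_pos n
    positivity
  · refine Wt.summ.congr ?_
    intro n
    have := Wt.lg_pos n
    have hn : (0 : ℝ) < (n : ℝ) + 1 := by positivity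
    field_simp
  · intro ε hε
    refine ⟨1 / (1 + 2 / ε) ^ 2, by positivity, ?_⟩
    intro n
    have hn : (0 : ℝ) < (n : ℝ) + 1 := by positivity
    have h1 := Wt.lg_le n hε
    have h2 : ((n : ℝ) + 1) ^ (-2 - ε) = 1 / (((n : ℝ) + 1) ^ 2 * ((n : ℝ) + 1) ^ ε) := by
      rw [show (-2 - ε) = -(2 + ε) by ring, Real.rpow_neg hn.le, Real.rpow_add hn, one_div]
      congr 2
      exact_mod_cast Real.rpow_natCast ((n : ℝ) + 1) 2
    rw [h2, div_mul_div_comm, one_mul]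
    have hl := Wt.lg_pos n
    refine one_div_le_one_div_of_le (by positivity) ?_
    calc ((n : ℝ) + 1) ^ 2 * Wt.lg n ^ 2
        ≤ ((n : ℝ) + 1) ^ 2 * ((1 + 2 / ε) ^ 2 * ((n : ℝ) + 1) ^ ε) :=
          mul_le_mul_of_nonneg_left h1 (by positivity)
      _ = (1 + 2 / ε) ^ 2 * (((n : ℝ) + 1) ^ 2 * ((n : ℝ) + 1) ^ ε) := by ring

end Pool.Agent.H414.MX
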